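import Pool.Agent.Lib.Hyp.HCDefs95

/-!
Abstract assembly of the exhaustion function (MP_47150b_an, helper20; after HCb95, HCc95 of
helper95): from plurisubharmonic `f k`, `g`, `ρ` with sharp geometric tails and the closing
property one gets hyperconvexity, with the exhaustion
`max (max (sup_k (f k / M) ^ (1/(k+1))) g - 1) ρ`.
-/

namespace Hyp20

open Filter Topology Set Metric

/-- Sub-mean value inequality on the closed disc with centre `a` and direction `v`. -/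
def SubMean {m : ℕ} (u : (Fin m → ℂ) → ℝ) (a v : Fin m → ℂ) : Prop :=
  u a ≤ Real.circleAverage (fun τ : ℂ => u (a + τ • v)) 0 1

/-- The data of the exhaustion function. -/
structure AbsHyp {m : ℕ} (Ω : Set (Fin m → ℂ)) (f : ℕ → (Fin m → ℂ) → ℝ)
    (g ρ : (Fin m → ℂ) → ℝ) (M : ℝ) : Prop where
  op : IsOpen Ω
  bdd : Bornology.IsBounded Ω
  hM : 0 < M
  fcont : ∀ k, ContinuousOn (f k) Ω
  gcont : ContinuousOn g Ω
  rcont : ContinuousOn ρ Ω
  fnn : ∀ k, ∀ a ∈ Ω, 0 ≤ f k a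
  gnn : ∀ a ∈ Ω, 0 ≤ g a
  glt : ∀ a ∈ Ω, g a < 1
  flt : ∀ k, ∀ a ∈ Ω, f k a < M
  rlt : ∀ a ∈ Ω, ρ a < 0
  tail : ∀ a₀ ∈ Ω, ∀ t : ℝ, g a₀ < t → 0 < t → ∃ k₀ : ℕ, ∃ C : ℝ, 0 ≤ C ∧
    ∀ᶠ a in 𝓝 a₀, ∀ k, k₀ ≤ k → f k a ≤ C * t ^ k
  fsub : ∀ k, ∀ p : ℝ, 0 < p → ∀ a v : Fin m → ℂ, (∀ τ : ℂ, ‖τ‖ ≤ 1 → a + τ • v ∈ Ω) →
    SubMean (fun b => f k b ^ p) a v
  gsub : ∀ a v : Fin m → ℂ, (∀ τ : ℂ, ‖τ‖ ≤ 1 → a + τ • v ∈ Ω) → SubMean g a v
  rsub : ∀ a v : Fin m → ℂ, (∀ τ : ℂ, ‖τ‖ ≤ 1 → a + τ • v ∈ Ω) → SubMean ρ a v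
  clos : ∀ (u : ℕ → (Fin m → ℂ)) (b : Fin m → ℂ), (∀ i, u i ∈ Ω) → Tendsto u atTop (𝓝 b) →
    ∀ t : ℝ, 0 ≤ t → t < 1 → (∀ i k, f k (u i) ≤ M * t ^ (k + 1)) → (∀ i, g (u i) ≤ t) →
      (∀ i, ρ (u i) ≤ t - 1) → b ∈ Ω

namespace AbsHyp

variable {m : ℕ} {Ω : Set (Fin m → ℂ)} {f : ℕ → (Fin m → ℂ) → ℝ} {g ρ : (Fin m → ℂ) → ℝ} {M : ℝ}

/-- The `k`-th term. -/
noncomputable def Tt (f : ℕ → (Fin m → ℂ) → ℝ) (M : ℝ) (k : ℕ) (a : Fin m → ℂ) : ℝ :=
  (f k a / M) ^ (((k + 1 : ℕ) : ℝ)⁻¹)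

/-- The function `psi`. -/
noncomputable def psi (f : ℕ → (Fin m → ℂ) → ℝ) (g : (Fin m → ℂ) → ℝ) (M : ℝ)
    (a : Fin m → ℂ) : ℝ :=
  max (⨆ k : ℕ, Tt f M k a) (g a)

theorem Tt_nonneg (h : AbsHyp Ω f g ρ M) (k : ℕ) {a : Fin m → ℂ} (ha : a ∈ Ω) :
    0 ≤ Tt f M k a := by
  unfold Tt
  have h1 := h.fnn k a ha
  have h2 := h.hM
  positivity

theorem continuousOn_Tt (h : AbsHyp Ω f g ρ M) (k : ℕ) : ContinuousOn (Tt f M k) Ω := by
  unfold Tt
  refine ((h.fcont k).div_const M).rpow_const fun a _ => Or.inr ?_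
  positivity

theorem continuousAt_Tt (h : AbsHyp Ω f g ρ M) (k : ℕ) {a : Fin m → ℂ} (ha : a ∈ Ω) :
    ContinuousAt (Tt f M k) a :=
  (continuousOn_Tt h k).continuousAt (h.op.mem_nhds ha)

theorem Tt_le_iff (h : AbsHyp Ω f g ρ M) {k : ℕ} {a : Fin m → ℂ} (ha : a ∈ Ω) {t : ℝ}
    (ht : 0 ≤ t) : Tt f M k a ≤ t ↔ f k a ≤ M * t ^ (k + 1) := by
  have hM := h.hM
  have h0 := h.fnn k a ha
  have hx : 0 ≤ f k a / M := by positivity
  have hk : k + 1 ≠ 0 := Nat.succ_ne_zero k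
  have e : (Tt f M k a) ^ (k + 1) = f k a / M := by
    unfold Tt
    exact Real.rpow_inv_natCast_pow hx hk
  constructor
  · intro h'
    have h1 : (Tt f M k a) ^ (k + 1) ≤ t ^ (k + 1) := pow_le_pow_left₀ (Tt_nonneg h k ha) h' _
    rw [e, div_le_iff₀ hM] at h1
    linarith
  · intro h'
    have h1 : (Tt f M k a) ^ (k + 1) ≤ t ^ (k + 1) := by
      rw [e, div_le_iff₀ hM]
      linarith
    exact (pow_le_pow_iff_left₀ (Tt_nonneg h k ha) ht hk).mp h1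

theorem Tt_lt_one (h : AbsHyp Ω f g ρ M) (k : ℕ) {a : Fin m → ℂ} (ha : a ∈ Ω) :
    Tt f M k a < 1 := by
  have hM := h.hM
  unfold Tt
  have h0 := h.fnn k a ha
  refine Real.rpow_lt_one (by positivity) ?_ (by positivity)
  rw [div_lt_one hM]
  exact h.flt k a ha

theorem bdd_Tt (h : AbsHyp Ω f g ρ M) {a : Fin m → ℂ} (ha : a ∈ Ω) :
    BddAbove (range fun k : ℕ => Tt f M k a) := by
  refine ⟨1, ?_⟩
  rintro _ ⟨k, rfl⟩
  exact (Tt_lt_one h k ha).le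

theorem Tt_le_psi (h : AbsHyp Ω f g ρ M) {a : Fin m → ℂ} (ha : a ∈ Ω) (k : ℕ) :
    Tt f M k a ≤ psi f g M a :=
  (le_ciSup (bdd_Tt h ha) k).trans (le_max_left _ _)

theorem g_le_psi (f : ℕ → (Fin m → ℂ) → ℝ) (g : (Fin m → ℂ) → ℝ) (M : ℝ) (a : Fin m → ℂ) :
    g a ≤ psi f g M a := le_max_right _ _

theorem psi_nonneg (h : AbsHyp Ω f g ρ M) {a : Fin m → ℂ} (ha : a ∈ Ω) : 0 ≤ psi f g M a :=
  (h.gnn a ha).trans (g_le_psi f g M a)

theorem psi_le {a : Fin m → ℂ} {t : ℝ} (h1 : ∀ k, Tt f M k a ≤ t) (h2 : g a ≤ t) :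
    psi f g M a ≤ t :=
  max_le (ciSup_le h1) h2

/-- Uniform control of the tail near a point of `Ω`. -/
theorem tail_uniform (h : AbsHyp Ω f g ρ M) {a₀ : Fin m → ℂ} (ha₀ : a₀ ∈ Ω) {t : ℝ}
    (hm : g a₀ < t) : ∃ K : ℕ, ∀ᶠ a in 𝓝 a₀, ∀ k, K ≤ k → Tt f M k a ≤ t := by
  obtain ⟨t', h1, h2⟩ := exists_between hm
  have ht'0 : 0 < t' := (h.gnn a₀ ha₀).trans_lt h1
  have ht0 : 0 < t := ht'0.trans h2
  obtain ⟨k₀, C, hC, hev⟩ := h.tail a₀ ha₀ t' h1 ht'0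
  have hlim : Tendsto (fun k : ℕ => C * (t' / t) ^ k) atTop (𝓝 (C * 0)) :=
    (tendsto_pow_atTop_nhds_zero_of_lt_one (by positivity) ((div_lt_one ht0).mpr h2)).const_mul C
  have hMt : C * 0 < M * t := by
    rw [mul_zero]
    have := h.hM
    positivity
  obtain ⟨K, hK⟩ := eventually_atTop.mp (hlim.eventually_lt_const hMt)
  refine ⟨max k₀ K, ?_⟩
  filter_upwards [hev, h.op.mem_nhds ha₀] with a ha haΩ k hk
  have hk1 : k₀ ≤ k := le_trans (le_max_left _ _) hk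
  have hk2 : K ≤ k := le_trans (le_max_right _ _) hk
  rw [Tt_le_iff h haΩ ht0.le]
  refine (ha k hk1).trans ?_
  have h3 := (hK k hk2).le
  have hp : 0 < t ^ k := pow_pos ht0 k
  have h4 : C * t' ^ k = C * (t' / t) ^ k * t ^ k := by
    rw [div_pow]; field_simp
  rw [h4, pow_succ]
  calc C * (t' / t) ^ k * t ^ k ≤ M * t * t ^ k := mul_le_mul_of_nonneg_right h3 hp.le
    _ = M * (t ^ k * t) := by ring

theorem psi_lt_one (h : AbsHyp Ω f g ρ M) {a₀ : Fin m → ℂ} (ha₀ : a₀ ∈ Ω) :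
    psi f g M a₀ < 1 := by
  obtain ⟨t, h1, h2⟩ := exists_between (h.glt a₀ ha₀)
  obtain ⟨K, hev⟩ := tail_uniform h ha₀ h1
  have h3 := hev.self_of_nhds
  obtain ⟨k, -, hk⟩ := Finset.exists_max_image (Finset.range (K + 1))
    (fun k => Tt f M k a₀) ⟨0, by simp⟩
  have h4 : Tt f M k a₀ < 1 := Tt_lt_one h k ha₀
  refine (psi_le (t := max t (Tt f M k a₀)) ?_ ?_).trans_lt (max_lt h2 h4)
  · intro j
    rcases le_or_gt K j with hj | hj
    · exact (h3 j hj).trans (le_max_left _ _)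
    · exact (hk j (Finset.mem_range.mpr (by omega))).trans (le_max_right _ _)
  · exact h1.le.trans (le_max_left _ _)

theorem continuousAt_psi (h : AbsHyp Ω f g ρ M) {a₀ : Fin m → ℂ} (ha₀ : a₀ ∈ Ω) :
    ContinuousAt (psi f g M) a₀ := by
  have hΩ : ∀ᶠ a in 𝓝 a₀, a ∈ Ω := h.op.mem_nhds ha₀
  have hmul : ContinuousAt g a₀ := h.gcont.continuousAt hΩ
  refine tendsto_order.mpr ⟨fun t ht => ?_, fun t ht => ?_⟩
  · rcases lt_max_iff.mp ht with h1 | h1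
    · obtain ⟨k, hk⟩ := exists_lt_of_lt_ciSup h1
      have := (continuousAt_Tt h k ha₀).eventually_const_lt hk
      filter_upwards [this, hΩ] with a ha haΩ
      exact ha.trans_le (Tt_le_psi h haΩ k)
    · filter_upwards [hmul.eventually_const_lt h1] with a ha
      exact ha.trans_le (g_le_psi f g M a)
  · obtain ⟨t₁, h2, h3⟩ := exists_between ht
    obtain ⟨K, hK⟩ := tail_uniform h ha₀ ((g_le_psi f g M a₀).trans_lt h2)
    have hfin : ∀ᶠ a in 𝓝 a₀, ∀ k ∈ Finset.range K, Tt f M k a < t₁ := by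
      rw [Filter.eventually_all_finset]
      intro k _
      exact (continuousAt_Tt h k ha₀).eventually_lt_const ((Tt_le_psi h ha₀ k).trans_lt h2)
    filter_upwards [hK, hfin, hmul.eventually_lt_const ((g_le_psi f g M a₀).trans_lt h2)]
      with a e1 e2 e3
    refine (psi_le (t := t₁) ?_ e3.le).trans_lt h3
    intro k
    rcases le_or_gt K k with hk | hk
    · exact e1 k hk
    · exact (e2 k (Finset.mem_range.mpr hk)).le

theorem continuousOn_psi (h : AbsHyp Ω f g ρ M) : ContinuousOn (psi f g M) Ω :=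
  fun _ ha => (continuousAt_psi h ha).continuousWithinAt

theorem continuous_disc {m : ℕ} (a v : Fin m → ℂ) : Continuous (fun τ : ℂ => a + τ • v) := by
  fun_prop

theorem circleIntegrable_of {u : (Fin m → ℂ) → ℝ} (hu : ContinuousOn u Ω) {a v : Fin m → ℂ}
    (hd : ∀ τ : ℂ, ‖τ‖ ≤ 1 → a + τ • v ∈ Ω) :
    CircleIntegrable (fun τ : ℂ => u (a + τ • v)) 0 1 := by
  apply ContinuousOn.circleIntegrable'
  refine hu.comp (continuous_disc a v).continuousOn fun τ hτ => hd τ ?_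
  rw [abs_one, mem_sphere_zero_iff_norm] at hτ
  exact hτ.le

theorem Tt_sub (h : AbsHyp Ω f g ρ M) (k : ℕ) {a v : Fin m → ℂ}
    (hd : ∀ τ : ℂ, ‖τ‖ ≤ 1 → a + τ • v ∈ Ω) :
    Tt f M k a ≤ Real.circleAverage (fun τ : ℂ => Tt f M k (a + τ • v)) 0 1 := by
  have hM := h.hM
  set p : ℝ := (((k + 1 : ℕ) : ℝ)⁻¹) with hp
  have hp0 : 0 < p := by positivity
  have e : ∀ b ∈ Ω, Tt f M k b = (M ^ p)⁻¹ • f k b ^ p := by
    intro b hb
    unfold Tt
    rw [Real.div_rpow (h.fnn k b hb) hM.le, smul_eq_mul, div_eq_inv_mul]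
  have h1 := h.fsub k p hp0 a v hd
  have e2 : EqOn (fun τ : ℂ => Tt f M k (a + τ • v))
      (fun τ : ℂ => (M ^ p)⁻¹ • f k (a + τ • v) ^ p) (sphere 0 |1|) := by
    intro τ hτ
    rw [abs_one, mem_sphere_zero_iff_norm] at hτ
    exact e _ (hd τ hτ.le)
  have ha : a ∈ Ω := by simpa using hd 0 (by simp)
  rw [Real.circleAverage_congr_sphere e2, Real.circleAverage_fun_smul, e a ha, smul_eq_mul,
    smul_eq_mul]
  exact mul_le_mul_of_nonneg_left h1 (by positivity)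

theorem psi_sub (h : AbsHyp Ω f g ρ M) {a v : Fin m → ℂ}
    (hd : ∀ τ : ℂ, ‖τ‖ ≤ 1 → a + τ • v ∈ Ω) :
    psi f g M a ≤ Real.circleAverage (fun τ : ℂ => psi f g M (a + τ • v)) 0 1 := by
  have hsph : ∀ τ ∈ sphere (0:ℂ) |1|, a + τ • v ∈ Ω := fun τ hτ => hd τ (by
    rw [abs_one, mem_sphere_zero_iff_norm] at hτ
    exact hτ.le)
  have hint : CircleIntegrable (fun τ : ℂ => psi f g M (a + τ • v)) 0 1 :=
    circleIntegrable_of (continuousOn_psi h) hd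
  refine psi_le (fun k => ?_) ?_
  · refine (Tt_sub h k hd).trans ?_
    exact Real.circleAverage_mono (circleIntegrable_of (continuousOn_Tt h k) hd) hint
      fun τ hτ => Tt_le_psi h (hsph τ hτ) k
  · refine (h.gsub a v hd).trans ?_
    exact Real.circleAverage_mono (circleIntegrable_of h.gcont hd) hint
      fun τ _ => g_le_psi f g M _

/-- The exhaustion function. -/
noncomputable def exh (f : ℕ → (Fin m → ℂ) → ℝ) (g ρ : (Fin m → ℂ) → ℝ) (M : ℝ)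
    (a : Fin m → ℂ) : ℝ := max (psi f g M a - 1) (ρ a)

theorem continuousOn_exh (h : AbsHyp Ω f g ρ M) : ContinuousOn (exh f g ρ M) Ω :=
  ((continuousOn_psi h).sub continuousOn_const).sup h.rcont

theorem exh_sub (h : AbsHyp Ω f g ρ M) {a v : Fin m → ℂ}
    (hd : ∀ τ : ℂ, ‖τ‖ ≤ 1 → a + τ • v ∈ Ω) :
    exh f g ρ M a ≤ Real.circleAverage (fun τ : ℂ => exh f g ρ M (a + τ • v)) 0 1 := by
  have hint : CircleIntegrable (fun τ : ℂ => exh f g ρ M (a + τ • v)) 0 1 :=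
    circleIntegrable_of (continuousOn_exh h) hd
  have hint1 : CircleIntegrable (fun τ : ℂ => psi f g M (a + τ • v)) 0 1 :=
    circleIntegrable_of (continuousOn_psi h) hd
  have hint2 : CircleIntegrable (fun τ : ℂ => psi f g M (a + τ • v) - 1) 0 1 :=
    circleIntegrable_of ((continuousOn_psi h).sub continuousOn_const) hd
  refine max_le ?_ ?_
  · have h1 := psi_sub h hd
    have h2 : Real.circleAverage (fun τ : ℂ => psi f g M (a + τ • v) - 1) 0 1 =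
        Real.circleAverage (fun τ : ℂ => psi f g M (a + τ • v)) 0 1 - 1 := by
      rw [Real.circleAverage_fun_sub hint1 (circleIntegrable_const _ _ _),
        Real.circleAverage_const]
    have h3 : Real.circleAverage (fun τ : ℂ => psi f g M (a + τ • v) - 1) 0 1 ≤
        Real.circleAverage (fun τ : ℂ => exh f g ρ M (a + τ • v)) 0 1 :=
      Real.circleAverage_mono hint2 hint fun τ _ => le_max_left _ _
    linarith
  · refine (h.rsub a v hd).trans ?_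
    exact Real.circleAverage_mono (circleIntegrable_of h.rcont hd) hint
      fun τ _ => le_max_right _ _

/-- The sublevel sets of the exhaustion are compact. -/
theorem isCompact_sublevel (h : AbsHyp Ω f g ρ M) {ε : ℝ} (hε : 0 < ε) :
    IsCompact {a | a ∈ Ω ∧ exh f g ρ M a ≤ -ε} := by
  obtain ⟨R, hR⟩ := h.bdd.subset_closedBall 0
  have hsub : {a | a ∈ Ω ∧ exh f g ρ M a ≤ -ε} ⊆ Ω := fun a ha => ha.1
  refine (isCompact_closedBall (0 : Fin m → ℂ) R).of_isClosed_subset ?_ (hsub.trans hR)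
  refine IsSeqClosed.isClosed ?_
  intro u b hu hlim
  have hpsi : ∀ i, psi f g M (u i) ≤ 1 - ε := fun i => by
    have := (le_max_left _ _).trans (hu i).2
    linarith
  have ht0 : 0 ≤ 1 - ε := (psi_nonneg h (hu 0).1).trans (hpsi 0)
  have hb : b ∈ Ω := by
    refine h.clos u b (fun i => (hu i).1) hlim (1 - ε) ht0 (by linarith) ?_ ?_ ?_
    · intro i k
      exact (Tt_le_iff h (hu i).1 ht0).mp ((Tt_le_psi h (hu i).1 k).trans (hpsi i))
    · intro i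
      exact (g_le_psi f g M (u i)).trans (hpsi i)
    · intro i
      have := (le_max_right _ _).trans (hu i).2
      linarith
  refine ⟨hb, ?_⟩
  have hc : ContinuousAt (exh f g ρ M) b := (continuousOn_exh h).continuousAt (h.op.mem_nhds hb)
  exact le_of_tendsto (hc.tendsto.comp hlim) (Eventually.of_forall fun i => (hu i).2)

/-- **Hyperconvexity from the abstract data.** -/
theorem isHyperconvex (h : AbsHyp Ω f g ρ M) : IsHyperconvex Ω := by
  refine ⟨h.op, h.bdd, exh f g ρ M, ⟨continuousOn_exh h, fun a _ v hd => exh_sub h hd⟩, ?_, ?_⟩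
  · intro a ha
    refine max_lt ?_ (h.rlt a ha)
    have := psi_lt_one h ha
    linarith
  · intro ε hε
    exact isCompact_sublevel h hε

end AbsHyp

end Hyp20
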