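import Pool.Agent.Lib.Hyp.HCDefs95

/-!
Abstract assembly of a bounded plurisubharmonic exhaustion function (helper95, module AB of the
plan for local hyperconvexity, MP_47150b_an).
-/

namespace Hyp95

namespace Abs

open Topology Set Metric Hyp20 Filter

variable {m : ℕ}

/-- The hypotheses: `f k` are the sizes of the `k`-th steps of the critical orbits, `g` the size
of the multipliers. -/
structure Data (Ω : Set (Fin m → ℂ)) (f : ℕ → (Fin m → ℂ) → ℝ) (g : (Fin m → ℂ) → ℝ) : Prop where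
  op : IsOpen Ω
  f0 : ∀ k, ∀ a ∈ Ω, 0 ≤ f k a
  g0 : ∀ a ∈ Ω, 0 ≤ g a
  g1 : ∀ a ∈ Ω, g a < 1
  fc : ∀ k, ∀ a ∈ Ω, ContinuousAt (f k) a
  gc : ∀ a ∈ Ω, ContinuousAt g a
  sharp : ∀ a ∈ Ω, ∀ t : ℝ, g a < t → t < 1 → ∃ (C : ℝ) (k₀ : ℕ), ∀ᶠ b in 𝓝 a,
    ∀ k, k₀ ≤ k → f k b ≤ C * t ^ k
  fs : ∀ k, ∀ p : ℝ, 0 < p → ∀ a v : Fin m → ℂ, (∀ τ : ℂ, ‖τ‖ ≤ 1 → a + τ • v ∈ Ω) →
    f k a ^ p ≤ Real.circleAverage (fun τ : ℂ => f k (a + τ • v) ^ p) 0 1
  gs : ∀ a v : Fin m → ℂ, (∀ τ : ℂ, ‖τ‖ ≤ 1 → a + τ • v ∈ Ω) →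
    g a ≤ Real.circleAverage (fun τ : ℂ => g (a + τ • v)) 0 1

/-- Restriction to an open subset. -/
theorem Data.mono {Ω Ω' : Set (Fin m → ℂ)} {f : ℕ → (Fin m → ℂ) → ℝ} {g : (Fin m → ℂ) → ℝ}
    (D : Data Ω f g) (h : Ω' ⊆ Ω) (ho : IsOpen Ω') : Data Ω' f g where
  op := ho
  f0 := fun k a ha => D.f0 k a (h ha)
  g0 := fun a ha => D.g0 a (h ha)
  g1 := fun a ha => D.g1 a (h ha)
  fc := fun k a ha => D.fc k a (h ha)
  gc := fun a ha => D.gc a (h ha)
  sharp := fun a ha => D.sharp a (h ha)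
  fs := fun k p hp a v hd => D.fs k p hp a v fun τ hτ => h (hd τ hτ)
  gs := fun a v hd => D.gs a v fun τ hτ => h (hd τ hτ)

variable {Ω : Set (Fin m → ℂ)} {f : ℕ → (Fin m → ℂ) → ℝ} {g : (Fin m → ℂ) → ℝ} {M : ℝ}

/-- The `k`-th term. -/
noncomputable def Tt (f : ℕ → (Fin m → ℂ) → ℝ) (M : ℝ) (k : ℕ) (a : Fin m → ℂ) : ℝ :=
  (f k a / M) ^ (((k + 1 : ℕ) : ℝ)⁻¹)

/-- The exhaustion function. -/
noncomputable def psi (f : ℕ → (Fin m → ℂ) → ℝ) (g : (Fin m → ℂ) → ℝ) (M : ℝ)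
    (a : Fin m → ℂ) : ℝ :=
  max (⨆ k : ℕ, Tt f M k a) (g a)

theorem Tt_nonneg (D : Data Ω f g) (hM : 0 < M) (k : ℕ) {a : Fin m → ℂ} (ha : a ∈ Ω) :
    0 ≤ Tt f M k a := by
  unfold Tt
  have := D.f0 k a ha
  positivity

theorem continuousAt_Tt (D : Data Ω f g) (M : ℝ) (k : ℕ) {a : Fin m → ℂ} (ha : a ∈ Ω) :
    ContinuousAt (Tt f M k) a := by
  unfold Tt
  exact ((D.fc k a ha).div_const M).rpow_const (Or.inr (by positivity))

theorem Tt_le_iff (D : Data Ω f g) (hM : 0 < M) {k : ℕ} {a : Fin m → ℂ} (ha : a ∈ Ω) {t : ℝ}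
    (ht : 0 ≤ t) : Tt f M k a ≤ t ↔ f k a ≤ M * t ^ (k + 1) := by
  have h0 := D.f0 k a ha
  have hx : 0 ≤ f k a / M := by positivity
  have hk : k + 1 ≠ 0 := Nat.succ_ne_zero k
  have e : (Tt f M k a) ^ (k + 1) = f k a / M := by
    unfold Tt
    exact Real.rpow_inv_natCast_pow hx hk
  constructor
  · intro h
    have h1 : (Tt f M k a) ^ (k + 1) ≤ t ^ (k + 1) :=
      pow_le_pow_left₀ (Tt_nonneg D hM k ha) h _
    rw [e, div_le_iff₀ hM] at h1
    linarith
  · intro h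
    have h1 : (Tt f M k a) ^ (k + 1) ≤ t ^ (k + 1) := by
      rw [e, div_le_iff₀ hM]
      linarith
    exact (pow_le_pow_iff_left₀ (Tt_nonneg D hM k ha) ht hk).mp h1

theorem Tt_lt_one (D : Data Ω f g) (hM : 0 < M) {k : ℕ} {a : Fin m → ℂ} (ha : a ∈ Ω)
    (h : f k a < M) : Tt f M k a < 1 := by
  unfold Tt
  have h0 := D.f0 k a ha
  refine Real.rpow_lt_one (by positivity) ?_ (by positivity)
  rw [div_lt_one hM]
  exact h

theorem bdd_Tt (D : Data Ω f g) (hM : 0 < M) {a : Fin m → ℂ} (ha : a ∈ Ω)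
    (hb : ∀ k, f k a < M) : BddAbove (range fun k : ℕ => Tt f M k a) := by
  refine ⟨1, ?_⟩
  rintro _ ⟨k, rfl⟩
  exact (Tt_lt_one D hM ha (hb k)).le

theorem Tt_le_psi (D : Data Ω f g) (hM : 0 < M) {a : Fin m → ℂ} (ha : a ∈ Ω)
    (hb : ∀ k, f k a < M) (k : ℕ) : Tt f M k a ≤ psi f g M a :=
  (le_ciSup (bdd_Tt D hM ha hb) k).trans (le_max_left _ _)

theorem g_le_psi (f : ℕ → (Fin m → ℂ) → ℝ) (g : (Fin m → ℂ) → ℝ) (M : ℝ) (a : Fin m → ℂ) :
    g a ≤ psi f g M a := le_max_right _ _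

theorem psi_nonneg (D : Data Ω f g) (M : ℝ) {a : Fin m → ℂ} (ha : a ∈ Ω) : 0 ≤ psi f g M a :=
  (D.g0 a ha).trans (g_le_psi f g M a)

theorem psi_le {a : Fin m → ℂ} {t : ℝ} (h1 : ∀ k, Tt f M k a ≤ t) (h2 : g a ≤ t) :
    psi f g M a ≤ t :=
  max_le (ciSup_le h1) h2

/-- Uniform control of the tail near a point of `Ω`. -/
theorem tail_uniform (D : Data Ω f g) (hM : 0 < M) {a₀ : Fin m → ℂ} (ha₀ : a₀ ∈ Ω) {t : ℝ}
    (hm : g a₀ < t) (ht : t < 1) :
    ∃ K : ℕ, ∀ᶠ a in 𝓝 a₀, ∀ k, K ≤ k → Tt f M k a ≤ t := by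
  obtain ⟨t', h1, h2⟩ := exists_between hm
  have ht'0 : 0 < t' := (D.g0 a₀ ha₀).trans_lt h1
  have ht0 : 0 < t := ht'0.trans h2
  obtain ⟨C, k₀, hev⟩ := D.sharp a₀ ha₀ t' h1 (h2.trans ht)
  have hlim : Filter.Tendsto (fun k : ℕ => C * (t' / t) ^ k) Filter.atTop (𝓝 (C * 0)) :=
    (tendsto_pow_atTop_nhds_zero_of_lt_one (by positivity) ((div_lt_one ht0).mpr h2)).const_mul C
  have hMt : C * 0 < M * t := by
    rw [mul_zero]
    positivity
  obtain ⟨K, hK⟩ := Filter.eventually_atTop.mp (hlim.eventually_lt_const hMt)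
  refine ⟨max k₀ K, ?_⟩
  filter_upwards [hev, D.op.mem_nhds ha₀] with a ha haΩ k hk
  have hk1 : k₀ ≤ k := le_trans (le_max_left _ _) hk
  have hk2 : K ≤ k := le_trans (le_max_right _ _) hk
  rw [Tt_le_iff D hM haΩ ht0.le]
  refine (ha k hk1).trans ?_
  have h3 := (hK k hk2).le
  have hp : 0 < t ^ k := pow_pos ht0 k
  have h4 : C * t' ^ k = C * (t' / t) ^ k * t ^ k := by
    rw [div_pow]; field_simp
  rw [h4, pow_succ]
  calc C * (t' / t) ^ k * t ^ k ≤ M * t * t ^ k := mul_le_mul_of_nonneg_right h3 hp.le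
    _ = M * (t ^ k * t) := by ring

theorem psi_lt_one (D : Data Ω f g) (hM : 0 < M) {a₀ : Fin m → ℂ} (ha₀ : a₀ ∈ Ω)
    (hb : ∀ k, f k a₀ < M) : psi f g M a₀ < 1 := by
  obtain ⟨t, h1, h2⟩ := exists_between (D.g1 a₀ ha₀)
  obtain ⟨K, hev⟩ := tail_uniform D hM ha₀ h1 h2
  have h3 := hev.self_of_nhds
  obtain ⟨k, -, hk⟩ := Finset.exists_max_image (Finset.range (K + 1))
    (fun k => Tt f M k a₀) ⟨0, by simp⟩
  have h4 : Tt f M k a₀ < 1 := Tt_lt_one D hM ha₀ (hb k)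
  refine (psi_le (t := max t (Tt f M k a₀)) ?_ ?_).trans_lt (max_lt h2 h4)
  · intro j
    rcases le_or_gt K j with hj | hj
    · exact (h3 j hj).trans (le_max_left _ _)
    · exact (hk j (Finset.mem_range.mpr (by omega))).trans (le_max_right _ _)
  · exact h1.le.trans (le_max_left _ _)

theorem continuousAt_psi (D : Data Ω f g) (hM : 0 < M) (hb : ∀ a ∈ Ω, ∀ k, f k a < M)
    {a₀ : Fin m → ℂ} (ha₀ : a₀ ∈ Ω) : ContinuousAt (psi f g M) a₀ := by
  have hΩ : ∀ᶠ a in 𝓝 a₀, a ∈ Ω := D.op.mem_nhds ha₀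
  have hmul := D.gc a₀ ha₀
  refine tendsto_order.mpr ⟨fun t ht => ?_, fun t ht => ?_⟩
  · rcases lt_max_iff.mp ht with h1 | h1
    · obtain ⟨k, hk⟩ := exists_lt_of_lt_ciSup h1
      have := (continuousAt_Tt D M k ha₀).eventually_const_lt hk
      filter_upwards [this, hΩ] with a ha haΩ
      exact ha.trans_le (Tt_le_psi D hM haΩ (hb a haΩ) k)
    · filter_upwards [hmul.eventually_const_lt h1] with a ha
      exact ha.trans_le (g_le_psi f g M a)
  · rcases le_or_gt 1 t with h1 | h1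
    · filter_upwards [hΩ] with a ha
      exact (psi_lt_one D hM ha (hb a ha)).trans_le h1
    · obtain ⟨t₁, h2, h3⟩ := exists_between ht
      obtain ⟨K, hK⟩ := tail_uniform D hM ha₀ ((g_le_psi f g M a₀).trans_lt h2) (h3.trans h1)
      have hfin : ∀ᶠ a in 𝓝 a₀, ∀ k ∈ Finset.range K, Tt f M k a < t₁ := by
        rw [Filter.eventually_all_finset]
        intro k _
        exact (continuousAt_Tt D M k ha₀).eventually_lt_const
          ((Tt_le_psi D hM ha₀ (hb a₀ ha₀) k).trans_lt h2)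
      filter_upwards [hK, hfin, hmul.eventually_lt_const ((g_le_psi f g M a₀).trans_lt h2)]
        with a e1 e2 e3
      refine (psi_le (t := t₁) ?_ e3.le).trans_lt h3
      intro k
      rcases le_or_gt K k with hk | hk
      · exact e1 k hk
      · exact (e2 k (Finset.mem_range.mpr hk)).le

theorem continuous_disc (a v : Fin m → ℂ) : Continuous (fun τ : ℂ => a + τ • v) := by
  fun_prop

theorem Tt_psh (D : Data Ω f g) (hM : 0 < M) (k : ℕ) {a v : Fin m → ℂ}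
    (hd : ∀ τ : ℂ, ‖τ‖ ≤ 1 → a + τ • v ∈ Ω) :
    Tt f M k a ≤ Real.circleAverage (fun τ : ℂ => Tt f M k (a + τ • v)) 0 1 := by
  set p : ℝ := (((k + 1 : ℕ) : ℝ)⁻¹) with hp
  have hp0 : 0 < p := by positivity
  have e : ∀ b ∈ Ω, Tt f M k b = (M ^ p)⁻¹ • f k b ^ p := by
    intro b hb
    unfold Tt
    rw [Real.div_rpow (D.f0 k b hb) hM.le, smul_eq_mul, div_eq_inv_mul]
  have ha : a ∈ Ω := by simpa using hd 0 (by simp)
  have h1 := D.fs k p hp0 a v hd
  have e2 : Real.circleAverage (fun τ : ℂ => Tt f M k (a + τ • v)) 0 1 =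
      Real.circleAverage (fun τ : ℂ => (M ^ p)⁻¹ • f k (a + τ • v) ^ p) 0 1 := by
    refine Real.circleAverage_congr_sphere fun τ hτ => ?_
    rw [abs_one, mem_sphere_zero_iff_norm] at hτ
    exact e _ (hd τ hτ.le)
  rw [e2, Real.circleAverage_fun_smul, e a ha, smul_eq_mul, smul_eq_mul]
  exact mul_le_mul_of_nonneg_left h1 (by positivity)

theorem psi_psh (D : Data Ω f g) (hM : 0 < M) (hb : ∀ a ∈ Ω, ∀ k, f k a < M)
    {a v : Fin m → ℂ} (hd : ∀ τ : ℂ, ‖τ‖ ≤ 1 → a + τ • v ∈ Ω) :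
    psi f g M a ≤ Real.circleAverage (fun τ : ℂ => psi f g M (a + τ • v)) 0 1 := by
  have hsph : ∀ τ ∈ sphere (0:ℂ) |1|, a + τ • v ∈ Ω := fun τ hτ => hd τ (by
    rw [abs_one, mem_sphere_zero_iff_norm] at hτ
    exact hτ.le)
  have hint : CircleIntegrable (fun τ : ℂ => psi f g M (a + τ • v)) 0 1 := by
    apply ContinuousOn.circleIntegrable'
    intro τ hτ
    have h1 : ContinuousAt (psi f g M) (a + τ • v) := continuousAt_psi D hM hb (hsph τ hτ)
    exact (ContinuousAt.comp (f := fun τ : ℂ => a + τ • v) h1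
      (continuous_disc a v).continuousAt).continuousWithinAt
  refine psi_le (fun k => ?_) ?_
  · refine (Tt_psh D hM k hd).trans ?_
    refine Real.circleAverage_mono ?_ hint fun τ hτ =>
      Tt_le_psi D hM (hsph τ hτ) (hb _ (hsph τ hτ)) k
    apply ContinuousOn.circleIntegrable'
    intro τ hτ
    exact (ContinuousAt.comp (f := fun τ : ℂ => a + τ • v) (continuousAt_Tt D M k (hsph τ hτ))
      (continuous_disc a v).continuousAt).continuousWithinAt
  · refine (D.gs a v hd).trans ?_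
    refine Real.circleAverage_mono ?_ hint fun τ _ => g_le_psi f g M _
    apply ContinuousOn.circleIntegrable'
    intro τ hτ
    exact (ContinuousAt.comp (f := fun τ : ℂ => a + τ • v) (D.gc _ (hsph τ hτ))
      (continuous_disc a v).continuousAt).continuousWithinAt

/-- The norm is plurisubharmonic. -/
theorem norm_psh (a v b₀ : Fin m → ℂ) :
    ‖a - b₀‖ ≤ Real.circleAverage (fun τ : ℂ => ‖a + τ • v - b₀‖) 0 1 := by
  have h1 : DiffContOnCl ℂ (fun τ : ℂ => a + τ • v - b₀) (ball 0 |(1:ℝ)|) := by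
    apply Differentiable.diffContOnCl
    fun_prop
  have h2 := h1.circleAverage
  simp only [zero_smul, add_zero] at h2
  rw [← h2]
  unfold Real.circleAverage
  rw [norm_smul, smul_eq_mul, Real.norm_of_nonneg (by positivity)]
  refine mul_le_mul_of_nonneg_left ?_ (by positivity)
  exact intervalIntegral.norm_integral_le_integral_norm Real.two_pi_pos.le

/-- **Hyperconvexity of `Ω ∩ ball b₀ r`.** -/
theorem isHyperconvex_ball (D : Data Ω f g) {b₀ : Fin m → ℂ} {r : ℝ} (hr : 0 < r) (hM : 0 < M)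
    (hb : ∀ a ∈ Ω, a ∈ ball b₀ r → ∀ k, f k a < M)
    (hcl : ∀ t : ℝ, 0 ≤ t → t < 1 → ∀ (u : ℕ → Fin m → ℂ) (b : Fin m → ℂ), (∀ i, u i ∈ Ω) →
      (∀ i, ‖u i - b₀‖ ≤ t * r) → Tendsto u atTop (𝓝 b) →
      (∀ i k, f k (u i) ≤ M * t ^ (k + 1)) → (∀ i, g (u i) ≤ t) → b ∈ Ω) :
    IsHyperconvex (Ω ∩ ball b₀ r) := by
  have hop : IsOpen (Ω ∩ ball b₀ r) := D.op.inter isOpen_ball
  have D' : Data (Ω ∩ ball b₀ r) f g := D.mono inter_subset_left hop
  have hb' : ∀ a ∈ Ω ∩ ball b₀ r, ∀ k, f k a < M := fun a ha => hb a ha.1 ha.2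
  have hcn : Continuous (fun a : Fin m → ℂ => ‖a - b₀‖ / r) := by fun_prop
  have hcont : ContinuousOn (fun a => max (psi f g M a) (‖a - b₀‖ / r)) (Ω ∩ ball b₀ r) :=
    fun a ha => ContinuousAt.continuousWithinAt
      (Filter.Tendsto.max (continuousAt_psi D' hM hb' ha) hcn.continuousAt)
  have hin : ∀ a ∈ ball b₀ r, ‖a - b₀‖ / r < 1 := by
    intro a ha
    rw [mem_ball, dist_eq_norm] at ha
    rw [div_lt_one hr]
    exact ha
  refine ⟨hop, isBounded_ball.subset inter_subset_right,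
    fun a => max (psi f g M a) (‖a - b₀‖ / r) - 1, ⟨?_, ?_⟩, ?_, ?_⟩
  · exact hcont.sub continuousOn_const
  · intro a _ v hd
    have hsph : ∀ τ ∈ sphere (0:ℂ) |1|, a + τ • v ∈ Ω ∩ ball b₀ r := fun τ hτ => hd τ (by
      rw [abs_one, mem_sphere_zero_iff_norm] at hτ
      exact hτ.le)
    have hint : CircleIntegrable
        (fun τ : ℂ => max (psi f g M (a + τ • v)) (‖a + τ • v - b₀‖ / r)) 0 1 := by
      apply ContinuousOn.circleIntegrable'
      exact hcont.comp (continuous_disc a v).continuousOn hsph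
    rw [Real.circleAverage_fun_sub hint (circleIntegrable_const _ _ _),
      Real.circleAverage_const]
    refine sub_le_sub_right (max_le ?_ ?_) 1
    · refine (psi_psh D' hM hb' hd).trans ?_
      refine Real.circleAverage_mono ?_ hint fun τ _ => le_max_left _ _
      apply ContinuousOn.circleIntegrable'
      intro τ hτ
      exact (ContinuousAt.comp (f := fun τ : ℂ => a + τ • v)
        (continuousAt_psi D' hM hb' (hsph τ hτ))
        (continuous_disc a v).continuousAt).continuousWithinAt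
    · have h1 := norm_psh a v b₀
      have e : (fun τ : ℂ => ‖a + τ • v - b₀‖ / r) = fun τ : ℂ => r⁻¹ • ‖a + τ • v - b₀‖ := by
        funext τ
        rw [smul_eq_mul, div_eq_inv_mul]
      have h2 : ‖a - b₀‖ / r ≤ Real.circleAverage (fun τ : ℂ => ‖a + τ • v - b₀‖ / r) 0 1 := by
        rw [e, Real.circleAverage_fun_smul, smul_eq_mul, div_eq_inv_mul]
        exact mul_le_mul_of_nonneg_left h1 (by positivity)
      refine h2.trans ?_
      refine Real.circleAverage_mono ?_ hint fun τ _ => le_max_right _ _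
      apply ContinuousOn.circleIntegrable'
      exact (hcn.comp (continuous_disc a v)).continuousOn
  · intro a ha
    have h1 := psi_lt_one D' hM ha (hb' a ha)
    have h2 := hin a ha.2
    have := max_lt h1 h2
    linarith
  · intro ε hε
    rcases lt_or_ge 1 ε with h1 | h1
    · have e : {a | a ∈ Ω ∩ ball b₀ r ∧ max (psi f g M a) (‖a - b₀‖ / r) - 1 ≤ -ε} = ∅ := by
        ext a
        simp only [Set.mem_ofPred_eq, Set.mem_empty_iff_false, iff_false, not_and, not_le]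
        intro ha
        have h2 := (psi_nonneg D' M ha).trans (le_max_left (psi f g M a) (‖a - b₀‖ / r))
        linarith
      rw [e]
      exact isCompact_empty
    · set t : ℝ := 1 - ε with ht
      have ht0 : 0 ≤ t := by rw [ht]; linarith
      have ht1 : t < 1 := by rw [ht]; linarith
      have key : ∀ a ∈ Ω ∩ ball b₀ r, (max (psi f g M a) (‖a - b₀‖ / r) - 1 ≤ -ε ↔
          (∀ k, f k a ≤ M * t ^ (k + 1)) ∧ g a ≤ t ∧ ‖a - b₀‖ ≤ t * r) := by
        intro a ha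
        have e1 : max (psi f g M a) (‖a - b₀‖ / r) - 1 ≤ -ε ↔
            psi f g M a ≤ t ∧ ‖a - b₀‖ / r ≤ t := by
          rw [← max_le_iff, ht]
          constructor <;> intro h <;> linarith
        rw [e1, div_le_iff₀ hr]
        constructor
        · rintro ⟨h2, h3⟩
          exact ⟨fun k => (Tt_le_iff D' hM ha ht0).mp ((Tt_le_psi D' hM ha (hb' a ha) k).trans h2),
            (g_le_psi f g M a).trans h2, h3⟩
        · rintro ⟨h2, h3, h4⟩
          exact ⟨psi_le (fun k => (Tt_le_iff D' hM ha ht0).mpr (h2 k)) h3, h4⟩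
      refine (isCompact_closedBall b₀ (t * r)).of_isClosed_subset ?_ ?_
      · refine IsSeqClosed.isClosed ?_
        intro u b hu hlim
        have hu' : ∀ i, u i ∈ Ω ∩ ball b₀ r ∧ ((∀ k, f k (u i) ≤ M * t ^ (k + 1)) ∧ g (u i) ≤ t ∧
            ‖u i - b₀‖ ≤ t * r) := fun i => ⟨(hu i).1, (key _ (hu i).1).mp (hu i).2⟩
        have hbΩ : b ∈ Ω := hcl t ht0 ht1 u b (fun i => (hu' i).1.1) (fun i => (hu' i).2.2.2) hlim
          (fun i => (hu' i).2.1) fun i => (hu' i).2.2.1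
        have hbn : ‖b - b₀‖ ≤ t * r :=
          le_of_tendsto ((hlim.sub_const b₀).norm) (Eventually.of_forall fun i => (hu' i).2.2.2)
        have hbb : b ∈ ball b₀ r := by
          rw [mem_ball, dist_eq_norm]
          refine hbn.trans_lt ?_
          nlinarith
        refine ⟨⟨hbΩ, hbb⟩, (key b ⟨hbΩ, hbb⟩).mpr ⟨fun k => ?_, ?_, hbn⟩⟩
        · exact le_of_tendsto ((D.fc k b hbΩ).tendsto.comp hlim)
            (Eventually.of_forall fun i => (hu' i).2.1 k)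
        · exact le_of_tendsto ((D.gc b hbΩ).tendsto.comp hlim)
            (Eventually.of_forall fun i => (hu' i).2.2.1)
      · rintro a ⟨ha, h2⟩
        rw [mem_closedBall, dist_eq_norm]
        exact ((key a ha).mp h2).2.2

end Abs

end Hyp95
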