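import Pool.Agent.Lib.Hyp.CT32

/-!
Bounded version (helper32): if `Ω` is open and bounded and each ball which meets `Ω` and lies in
the polynomial hull of `Ω` lies in `Ω`, then some uniform limit of polynomials on the closure of
`Ω` extends holomorphically across no boundary point of `Ω`.
-/

namespace Hyp20

namespace Bd

open Filter Topology Metric Set

/-! ### A two constants lemma -/

/-- One variable: a function holomorphic and bounded by `M` on the disc of radius `ρ > 1`, very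
small on a disc of radius `r` about `0`, is small at `1`. -/
theorem two_const_one {ρ r M η : ℝ} (hρ : 1 < ρ) (hr : 0 < r) (hη : 0 < η) :
    ∃ τ > 0, ∀ φ : ℂ → ℂ, DifferentiableOn ℂ φ (ball 0 ρ) → (∀ z ∈ ball (0 : ℂ) ρ, ‖φ z‖ ≤ M) →
      (∀ z ∈ ball (0 : ℂ) r, ‖φ z‖ ≤ τ) → ‖φ 1‖ ≤ η := by
  set ρ1 : ℝ := (1 + ρ) / 2 with hρ1
  have h1 : 1 < ρ1 := by rw [hρ1]; linarith
  have h2 : ρ1 < ρ := by rw [hρ1]; linarith
  set r1 : ℝ := min (r / 2) 1 with hr1
  have hr1p : 0 < r1 := lt_min (by positivity) one_pos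
  have hr1r : r1 < r := (min_le_left _ _).trans_lt (by linarith)
  have hr11 : r1 ≤ 1 := min_le_right _ _
  set M' : ℝ := max M 0 with hM'
  have hM0 : 0 ≤ M' := le_max_right _ _
  set q : ℝ := ρ1⁻¹ with hq
  have hq0 : 0 < q := by positivity
  have hq1 : q < 1 := inv_lt_one_of_one_lt₀ h1
  have hlim : Tendsto (fun N : ℕ => M' * (q ^ N * (1 - q)⁻¹)) atTop (𝓝 (M' * (0 * (1 - q)⁻¹))) :=
    ((tendsto_pow_atTop_nhds_zero_of_lt_one hq0.le hq1).mul_const _).const_mul _
  rw [zero_mul, mul_zero] at hlim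
  obtain ⟨N, hN⟩ := (hlim.eventually (gt_mem_nhds (show (0 : ℝ) < η / 2 by positivity))).exists
  refine ⟨η / 2 * r1 ^ N / (N + 1), by positivity, fun φ hφ hM hτ => ?_⟩
  set τ : ℝ := η / 2 * r1 ^ N / (N + 1) with hτd
  have hτ0 : 0 < τ := by positivity
  have hsub1 : closedBall (0 : ℂ) ρ1 ⊆ ball 0 ρ := closedBall_subset_ball h2
  have hr1ρ : r1 < ρ := by linarith
  have hsub2 : closedBall (0 : ℂ) r1 ⊆ ball 0 r := closedBall_subset_ball hr1r
  have hsub3 : closedBall (0 : ℂ) r1 ⊆ ball 0 ρ := closedBall_subset_ball hr1ρ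
  have hb1 : ∀ n : ℕ, ‖iteratedDeriv n φ 0‖ ≤ n.factorial * M' / ρ1 ^ n := fun n =>
    Complex.norm_iteratedDeriv_le_of_forall_mem_sphere_norm_le n (by positivity)
      ((hφ.mono hsub1).diffContOnCl_ball le_rfl)
      (fun z hz => (hM z (hsub1 (sphere_subset_closedBall hz))).trans (le_max_left _ _))
  have hb2 : ∀ n : ℕ, ‖iteratedDeriv n φ 0‖ ≤ n.factorial * τ / r1 ^ n := fun n =>
    Complex.norm_iteratedDeriv_le_of_forall_mem_sphere_norm_le n hr1p
      ((hφ.mono hsub3).diffContOnCl_ball le_rfl)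
      (fun z hz => hτ z (hsub2 (sphere_subset_closedBall hz)))
  have h1b : (1 : ℂ) ∈ ball (0 : ℂ) ρ := by simpa using hρ
  have hsum := Complex.hasSum_taylorSeries_on_ball hφ h1b
  have hterm : ∀ n : ℕ, ‖((n.factorial : ℂ)⁻¹ • ((1 : ℂ) - 0) ^ n • iteratedDeriv n φ 0)‖ =
      (n.factorial : ℝ)⁻¹ * ‖iteratedDeriv n φ 0‖ := by
    intro n
    simp
  have hfac : ∀ n : ℕ, (0 : ℝ) < n.factorial := fun n => by exact_mod_cast n.factorial_pos
  set a : ℕ → ℂ := fun n => (n.factorial : ℂ)⁻¹ • ((1 : ℂ) - 0) ^ n • iteratedDeriv n φ 0 with ha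
  have ha1 : ∀ n, ‖a n‖ ≤ M' * q ^ n := by
    intro n
    rw [ha]
    simp only
    rw [hterm n]
    calc (n.factorial : ℝ)⁻¹ * ‖iteratedDeriv n φ 0‖ ≤
        (n.factorial : ℝ)⁻¹ * (n.factorial * M' / ρ1 ^ n) := by
          gcongr
          exact hb1 n
      _ = M' * q ^ n := by
          rw [hq, inv_pow]
          have := (hfac n).ne'
          field_simp
  have ha2 : ∀ n < N, ‖a n‖ ≤ τ / r1 ^ N := by
    intro n hn
    rw [ha]
    simp only
    rw [hterm n]
    calc (n.factorial : ℝ)⁻¹ * ‖iteratedDeriv n φ 0‖ ≤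
        (n.factorial : ℝ)⁻¹ * (n.factorial * τ / r1 ^ n) := by
          gcongr
          exact hb2 n
      _ = τ / r1 ^ n := by
          have := (hfac n).ne'
          field_simp
      _ ≤ τ / r1 ^ N := by
          have h3 : r1 ^ N ≤ r1 ^ n := pow_le_pow_of_le_one hr1p.le hr11 hn.le
          gcongr
  have hgeo : HasSum (fun n : ℕ => M' * q ^ (n + N)) (M' * (q ^ N * (1 - q)⁻¹)) := by
    have := (hasSum_geometric_of_lt_one hq0.le hq1).mul_left (M' * q ^ N)
    convert! this using 1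
    · funext n; rw [pow_add]; ring
    · ring
  have htail : ‖∑' n, a (n + N)‖ ≤ M' * (q ^ N * (1 - q)⁻¹) :=
    tsum_of_norm_bounded hgeo fun n => ha1 (n + N)
  have hsplit : φ 1 = ∑ n ∈ Finset.range N, a n + ∑' n, a (n + N) := by
    rw [hsum.summable.sum_add_tsum_nat_add N, hsum.tsum_eq]
  have hhead : ‖∑ n ∈ Finset.range N, a n‖ ≤ N * (τ / r1 ^ N) := by
    refine (norm_sum_le _ _).trans ?_
    calc ∑ n ∈ Finset.range N, ‖a n‖ ≤ ∑ n ∈ Finset.range N, τ / r1 ^ N :=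
          Finset.sum_le_sum fun n hn => ha2 n (Finset.mem_range.1 hn)
      _ = N * (τ / r1 ^ N) := by simp
  have hhead2 : (N : ℝ) * (τ / r1 ^ N) ≤ η / 2 := by
    rw [hτd]
    have : (N : ℝ) / (N + 1) ≤ 1 := by
      rw [div_le_one (by positivity)]
      linarith
    calc (N : ℝ) * (η / 2 * r1 ^ N / (N + 1) / r1 ^ N) = (N : ℝ) / (N + 1) * (η / 2) := by
          have := (pow_pos hr1p N).ne'
          field_simp
      _ ≤ 1 * (η / 2) := by gcongr
      _ = η / 2 := one_mul _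
  rw [hsplit]
  calc ‖∑ n ∈ Finset.range N, a n + ∑' n, a (n + N)‖ ≤
      ‖∑ n ∈ Finset.range N, a n‖ + ‖∑' n, a (n + N)‖ := norm_add_le _ _
    _ ≤ η / 2 + η / 2 := by linarith
    _ = η := by ring

/-- Several variables: a function holomorphic and bounded by `M` on a ball, very small on a
concentric ball, is small at a given point. -/
theorem two_const {E : Type} [NormedAddCommGroup E] [NormedSpace ℂ E] {x y : E} {r R M η : ℝ}
    (hr : 0 < r) (hy : y ∈ ball x R) (hη : 0 < η) :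
    ∃ τ > 0, ∀ G : E → ℂ, DifferentiableOn ℂ G (ball x R) → (∀ z ∈ ball x R, ‖G z‖ ≤ M) →
      (∀ z ∈ ball x r, ‖G z‖ ≤ τ) → ‖G y‖ ≤ η := by
  by_cases hyx : y = x
  · subst hyx
    exact ⟨η, hη, fun G _ _ h => h y (mem_ball_self hr)⟩
  have hv : 0 < ‖y - x‖ := norm_pos_iff.2 (sub_ne_zero.2 hyx)
  have hyR : ‖y - x‖ < R := by rwa [mem_ball, dist_eq_norm] at hy
  have hρ : 1 < R / ‖y - x‖ := by rwa [one_lt_div hv]
  obtain ⟨τ, hτ, H⟩ := two_const_one (M := M) hρ (show 0 < r / ‖y - x‖ by positivity) hη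
  refine ⟨τ, hτ, fun G hG hM hs => ?_⟩
  let L : ℂ → E := fun t => x + t • (y - x)
  have hL : Differentiable ℂ L := by fun_prop
  have hLb : ∀ {s : ℝ} {t : ℂ}, t ∈ ball (0 : ℂ) (s / ‖y - x‖) → L t ∈ ball x s := by
    intro s t ht
    have ht' : ‖t‖ < s / ‖y - x‖ := by simpa using ht
    rw [mem_ball, dist_eq_norm]
    simp only [L, add_sub_cancel_left, norm_smul]
    rwa [← lt_div_iff₀ hv]
  have := H (fun t => G (L t)) (fun t ht =>
      ((hG.differentiableAt (isOpen_ball.mem_nhds (hLb ht))).comp t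
        hL.differentiableAt).differentiableWithinAt)
    (fun t ht => hM _ (hLb ht)) (fun t ht => hs _ (hLb ht))
  simpa [L] using this

/-! ### The step -/

/-- One step of the construction: `Q` small on `Ω` such that no holomorphic function on the ball
`B(x, R)` bounded by `N` is `T'`-close to `S + Q` on the ball `B(x, r)`. -/
theorem step {m : ℕ} {Om : Set (Fin m → ℂ)}
    (key : ∀ (x : Fin m → ℂ) (r : ℝ), 0 < r → (ball x r ∩ Om).Nonempty →
      ball x r ⊆ polyHull Om → ball x r ⊆ Om)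
    (x : Fin m → ℂ) (r R N : ℝ) (S : MvPolynomial (Fin m) ℂ) {T : ℝ} (hT : 0 < T) :
    ∃ (Q : MvPolynomial (Fin m) ℂ) (T' : ℝ), 0 < T' ∧ T' ≤ T / 2 ∧
      (∀ a ∈ Om, ‖MvPolynomial.eval a Q‖ ≤ T / 2) ∧
      (0 < r → 0 < R → x ∈ Om → ball x r ⊆ Om → ¬ ball x R ⊆ Om →
        ∀ h : (Fin m → ℂ) → ℂ, DifferentiableOn ℂ h (ball x R) → (∀ z ∈ ball x R, ‖h z‖ ≤ N) →
          ¬ ∀ z ∈ ball x r, ‖h z - MvPolynomial.eval z (S + Q)‖ ≤ T') := by
  by_cases hcond : 0 < r ∧ 0 < R ∧ x ∈ Om ∧ ball x r ⊆ Om ∧ ¬ ball x R ⊆ Om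
  · obtain ⟨hr, hR, hx, hrO, hRO⟩ := hcond
    have h1 : ¬ ball x R ⊆ polyHull Om := fun h => hRO (key x R hR ⟨x, mem_ball_self hR, hx⟩ h)
    obtain ⟨y, hy, hyh⟩ := Set.not_subset.1 h1
    have hA : CT.IsAlg {g : (Fin m → ℂ) → ℂ | ∃ P : MvPolynomial (Fin m) ℂ,
        g = fun x => MvPolynomial.eval x P} :=
      { const := fun c => ⟨MvPolynomial.C c, by funext x; simp⟩
        add := by
          rintro g ⟨P, rfl⟩ h ⟨Q, rfl⟩
          exact ⟨P + Q, by funext x; simp⟩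
        mul := by
          rintro g ⟨P, rfl⟩ h ⟨Q, rfl⟩
          exact ⟨P * Q, by funext x; simp⟩ }
    have hyA : y ∉ CT.hullA {g : (Fin m → ℂ) → ℂ | ∃ P : MvPolynomial (Fin m) ℂ,
        g = fun x => MvPolynomial.eval x P} univ Om := fun h =>
      hyh fun P M hM => h.2 _ ⟨P, rfl⟩ M hM
    obtain ⟨g, ⟨Q, rfl⟩, hQs, hQl⟩ := CT.step_fun hA (mem_univ y) hyA (half_pos hT)
      (N + 1 + ‖MvPolynomial.eval y S‖)
    obtain ⟨C, hC⟩ := (isCompact_closedBall x R).exists_bound_of_continuousOn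
      (CT.differentiable_eval (S + Q)).continuous.continuousOn
    obtain ⟨τ, hτ, H⟩ := two_const (M := N + C) hr hy (show (0 : ℝ) < 1 / 2 by norm_num)
    refine ⟨Q, min τ (T / 2), lt_min hτ (half_pos hT), min_le_right _ _, hQs, ?_⟩
    intro _ _ _ _ _ h hd hN hclose
    have h2 := H (fun z => h z - MvPolynomial.eval z (S + Q))
      (hd.fun_sub (CT.differentiable_eval (S + Q)).differentiableOn)
      (fun z hz => (norm_sub_le _ _).trans
        (add_le_add (hN z hz) (hC z (ball_subset_closedBall hz))))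
      (fun z hz => (hclose z hz).trans (min_le_left _ _))
    have h3 := hN y hy
    have h4 : N + 1 ≤ ‖MvPolynomial.eval y (S + Q)‖ := by
      rw [map_add]
      have h5 : ‖MvPolynomial.eval y Q‖ ≤
          ‖MvPolynomial.eval y S + MvPolynomial.eval y Q‖ + ‖MvPolynomial.eval y S‖ := by
        have h6 := norm_sub_le (MvPolynomial.eval y S + MvPolynomial.eval y Q)
          (MvPolynomial.eval y S)
        rwa [add_sub_cancel_left] at h6
      have h7 : N + 1 + ‖MvPolynomial.eval y S‖ ≤ ‖MvPolynomial.eval y Q‖ := hQl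
      linarith
    have h8 : ‖MvPolynomial.eval y (S + Q)‖ ≤ ‖h y‖ + ‖h y - MvPolynomial.eval y (S + Q)‖ := by
      have h9 := norm_sub_le (h y) (h y - MvPolynomial.eval y (S + Q))
      rwa [sub_sub_cancel] at h9
    linarith
  · refine ⟨0, T / 2, half_pos hT, le_rfl, fun a _ => by simpa using (half_pos hT).le, ?_⟩
    intro h1 h2 h3 h4 h5
    exact absurd ⟨h1, h2, h3, h4, h5⟩ hcond

/-! ### The construction -/

/-- The state: the partial sum and the allowed size of the rest. -/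
abbrev State (m : ℕ) : Type := MvPolynomial (Fin m) ℂ × {T : ℝ // 0 < T}

theorem exists_sequence {m : ℕ} {Om : Set (Fin m → ℂ)}
    (key : ∀ (x : Fin m → ℂ) (r : ℝ), 0 < r → (ball x r ∩ Om).Nonempty →
      ball x r ⊆ polyHull Om → ball x r ⊆ Om)
    (X : ℕ → Fin m → ℂ) (r R N : ℕ → ℝ) :
    ∃ (Q : ℕ → MvPolynomial (Fin m) ℂ) (T : ℕ → ℝ), T 0 = 1 ∧ (∀ n, 0 < T n) ∧
      (∀ n, T (n + 1) ≤ T n / 2) ∧
      (∀ n, ∀ a ∈ Om, ‖MvPolynomial.eval a (Q n)‖ ≤ T n / 2) ∧
      (∀ n, 0 < r n → 0 < R n → X n ∈ Om → ball (X n) (r n) ⊆ Om → ¬ ball (X n) (R n) ⊆ Om →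
        ∀ h : (Fin m → ℂ) → ℂ, DifferentiableOn ℂ h (ball (X n) (R n)) →
          (∀ z ∈ ball (X n) (R n), ‖h z‖ ≤ N n) →
          ¬ ∀ z ∈ ball (X n) (r n),
            ‖h z - MvPolynomial.eval z (∑ i ∈ Finset.range (n + 1), Q i)‖ ≤ T (n + 1)) := by
  have hstep : ∀ (n : ℕ) (st : State m), ∃ (Q : MvPolynomial (Fin m) ℂ) (T' : {T : ℝ // 0 < T}),
      T'.1 ≤ st.2.1 / 2 ∧ (∀ a ∈ Om, ‖MvPolynomial.eval a Q‖ ≤ st.2.1 / 2) ∧
      (0 < r n → 0 < R n → X n ∈ Om → ball (X n) (r n) ⊆ Om → ¬ ball (X n) (R n) ⊆ Om →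
        ∀ h : (Fin m → ℂ) → ℂ, DifferentiableOn ℂ h (ball (X n) (R n)) →
          (∀ z ∈ ball (X n) (R n), ‖h z‖ ≤ N n) →
          ¬ ∀ z ∈ ball (X n) (r n), ‖h z - MvPolynomial.eval z (st.1 + Q)‖ ≤ T'.1) := by
    intro n st
    obtain ⟨Q, T', h1, h2, h3, h4⟩ := step key (X n) (r n) (R n) (N n) st.1 st.2.2
    exact ⟨Q, ⟨T', h1⟩, h2, h3, h4⟩
  choose Q T' hT' hQ hbad using hstep
  let next : ℕ → State m → State m := fun n st => (st.1 + Q n st, T' n st)
  let st : ℕ → State m := fun n => Nat.rec (0, ⟨1, one_pos⟩) next n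
  have hst : ∀ n, st (n + 1) = next n (st n) := fun n => rfl
  have hsum : ∀ n, (st n).1 = ∑ i ∈ Finset.range n, Q i (st i) := by
    intro n
    induction n with
    | zero => rfl
    | succ n ih => rw [hst, Finset.sum_range_succ, ← ih]
  refine ⟨fun n => Q n (st n), fun n => (st n).2.1, rfl, fun n => (st n).2.2,
    fun n => hT' n (st n), fun n => hQ n (st n), fun n h1 h2 h3 h4 h5 h hd hN => ?_⟩
  have := hbad n (st n) h1 h2 h3 h4 h5 h hd hN
  rw [hsum n, ← Finset.sum_range_succ (fun i => Q i (st i)) n] at this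
  exact this

/-- The bounded version of the Cartan-Thullen theorem. -/
theorem baire {m : ℕ} {Om : Set (Fin m → ℂ)} (hOm : IsOpen Om)
    (key : ∀ (x : Fin m → ℂ) (r : ℝ), 0 < r → (ball x r ∩ Om).Nonempty →
      ball x r ⊆ polyHull Om → ball x r ⊆ Om) :
    ∃ (P : ℕ → MvPolynomial (Fin m) ℂ) (f : (Fin m → ℂ) → ℂ),
      TendstoUniformlyOn (fun j a => MvPolynomial.eval a (P j)) f atTop (closure Om) ∧
      Nonextendable Om f := by
  rcases Om.eq_empty_or_nonempty with hempty | hOne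
  · subst hempty
    refine ⟨fun _ => 0, fun _ => 0, ?_, differentiableOn_const _, ?_⟩
    · intro u hu
      refine Eventually.of_forall fun n x hx => ?_
      rw [closure_empty] at hx
      exact absurd hx (notMem_empty x)
    · intro U V _ _ _ _ hV hVU
      obtain ⟨v, hv⟩ := hV
      exact absurd (hVU hv).2 (notMem_empty v)
  have : Nonempty Om := hOne.to_subtype
  let z : ℕ → Om := TopologicalSpace.denseSeq Om
  -- the enumeration of the data
  let i1 : ℕ → ℕ := fun n => n.unpair.1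
  let i2 : ℕ → ℕ := fun n => n.unpair.2.unpair.1
  let i3 : ℕ → ℕ := fun n => n.unpair.2.unpair.2.unpair.1
  let i4 : ℕ → ℕ := fun n => n.unpair.2.unpair.2.unpair.2
  obtain ⟨Q, T, hT0, hTp, hTs, hQ, hbad⟩ := exists_sequence key (fun n => (z (i1 n) : Fin m → ℂ))
    (fun n => 1 / ((i2 n : ℝ) + 1)) (fun n => 1 / ((i3 n : ℝ) + 1)) (fun n => (i4 n : ℝ))
  have hTk : ∀ n k, T (n + k) ≤ T n * (1 / 2) ^ k := by
    intro n k
    induction k with
    | zero => simp
    | succ k ih =>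
      calc T (n + (k + 1)) ≤ T (n + k) / 2 := hTs (n + k)
        _ ≤ T n * (1 / 2) ^ k / 2 := by linarith
        _ = T n * (1 / 2) ^ (k + 1) := by rw [pow_succ]; ring
  have hTb : ∀ n, T n ≤ (1 / 2) ^ n := by
    intro n
    have := hTk 0 n
    rwa [zero_add, hT0, one_mul] at this
  have hQc : ∀ n, ∀ a ∈ closure Om, ‖MvPolynomial.eval a (Q n)‖ ≤ T n / 2 := by
    intro n
    have hcl : IsClosed {a : Fin m → ℂ | ‖MvPolynomial.eval a (Q n)‖ ≤ T n / 2} :=
      isClosed_le (CT.differentiable_eval (Q n)).continuous.norm continuous_const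
    exact fun a ha => closure_minimal (fun b hb => hQ n b hb) hcl ha
  have hQb : ∀ n, ∀ a ∈ closure Om, ‖MvPolynomial.eval a (Q n)‖ ≤ (1 / 2) ^ n := by
    intro n a ha
    have h1 := hQc n a ha
    have h2 := hTb n
    have h3 : (0 : ℝ) ≤ (1 / 2) ^ n := by positivity
    linarith
  let f : (Fin m → ℂ) → ℂ := fun x => ∑' j, MvPolynomial.eval x (Q j)
  have hunif : TendstoUniformlyOn (fun N x => ∑ j ∈ Finset.range N, MvPolynomial.eval x (Q j))
      f atTop (closure Om) :=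
    CT.series_tendsto (R := fun j x => MvPolynomial.eval x (Q j)) (K := fun _ => closure Om)
      (fun _ _ _ => le_rfl) hQb 0
  have hdf : DifferentiableOn ℂ f Om :=
    CT.series_differentiable (R := fun j x => MvPolynomial.eval x (Q j)) (K := fun _ => Om)
      (fun _ _ _ => le_rfl) (fun j x hx => hQb j x (subset_closure hx)) hOm
      (fun j => (CT.differentiable_eval (Q j)).differentiableOn) (fun _ => le_rfl)
      (fun x hx => ⟨0, by rwa [hOm.interior_eq]⟩)
  -- the tail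
  have htail : ∀ n, ∀ a ∈ Om,
      ‖f a - MvPolynomial.eval a (∑ i ∈ Finset.range (n + 1), Q i)‖ ≤ T (n + 1) := by
    intro n a ha
    have hs : Summable (fun k : ℕ => MvPolynomial.eval a (Q k)) :=
      Summable.of_norm_bounded summable_geometric_two fun k => hQb k a (subset_closure ha)
    have h1 : f a - MvPolynomial.eval a (∑ i ∈ Finset.range (n + 1), Q i) =
        ∑' k, MvPolynomial.eval a (Q (k + (n + 1))) := by
      rw [map_sum]
      simp only [f]
      rw [← hs.sum_add_tsum_nat_add (n + 1)]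
      ring
    rw [h1]
    have hgeo : HasSum (fun k : ℕ => T (n + 1) / 2 * (1 / 2 : ℝ) ^ k) (T (n + 1) / 2 * 2) :=
      hasSum_geometric_two.mul_left _
    have h2 := tsum_of_norm_bounded hgeo (f := fun k => MvPolynomial.eval a (Q (k + (n + 1))))
      fun k => by
        calc ‖MvPolynomial.eval a (Q (k + (n + 1)))‖ ≤ T (k + (n + 1)) / 2 := hQ _ a ha
          _ = T ((n + 1) + k) / 2 := by rw [add_comm]
          _ ≤ T (n + 1) * (1 / 2) ^ k / 2 := by
              have := hTk (n + 1) k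
              linarith
          _ = T (n + 1) / 2 * (1 / 2) ^ k := by ring
    linarith
  refine ⟨fun N => ∑ j ∈ Finset.range N, Q j, f, ?_, hdf, ?_⟩
  · have h1 : (fun (N : ℕ) (x : Fin m → ℂ) => MvPolynomial.eval x (∑ j ∈ Finset.range N, Q j)) =
        fun N x => ∑ j ∈ Finset.range N, MvPolynomial.eval x (Q j) := by
      funext N x
      simp
    rw [h1]
    exact hunif
  intro U V hUo hUc hUn hVo hVne hVU
  rintro ⟨g, hg, hgf⟩
  obtain ⟨v, hv⟩ := hVne
  have hvU := hVU hv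
  let W : Set (Fin m → ℂ) := connectedComponentIn (U ∩ Om) v
  have hWo : IsOpen W := (hUo.inter hOm).connectedComponentIn
  have hWc : IsPreconnected W := isPreconnected_connectedComponentIn
  have hWsub : W ⊆ U ∩ Om := connectedComponentIn_subset _ _
  have hvW : v ∈ W := mem_connectedComponentIn hvU
  have hWgf : ∀ x ∈ W, g x - f x = 0 := by
    refine CT.eqOn_zero hWo hWc (h := fun x => g x - f x) (V := V ∩ W) ?_ (hVo.inter hWo)
      ⟨v, hv, hvW⟩ inter_subset_right ?_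
    · exact (hg.mono fun x hx => (hWsub hx).1).fun_sub (hdf.mono fun x hx => (hWsub hx).2)
    · rintro x ⟨hx, _⟩
      simp [hgf hx]
  have hex : ∃ p ∈ U, p ∈ closure W ∧ p ∉ W := by
    by_contra hcon
    push Not at hcon
    have : U ⊆ W := by
      apply hUc.isPreconnected.subset_of_closure_inter_subset hWo ⟨v, hvU.1, hvW⟩
      rintro x ⟨hx1, hx2⟩
      exact hcon x hx2 hx1
    exact hUn fun x hx => (hWsub (this hx)).2
  obtain ⟨p, hpU, hpcl, hpW⟩ := hex
  have hpO : p ∉ Om := by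
    intro hpO
    obtain ⟨ε, hε, hb⟩ := Metric.isOpen_iff.1 (hUo.inter hOm) p ⟨hpU, hpO⟩
    obtain ⟨q, hq, hpq⟩ := Metric.mem_closure_iff.1 hpcl ε hε
    have hqb : q ∈ ball p ε := by rwa [mem_ball, dist_comm]
    have h1 : ball p ε ⊆ connectedComponentIn (U ∩ Om) q :=
      (convex_ball p ε).isPreconnected.subset_connectedComponentIn hqb hb
    have h2 : connectedComponentIn (U ∩ Om) q = W := (connectedComponentIn_eq hq).symm
    exact hpW (h2 ▸ h1 (mem_ball_self hε))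
  obtain ⟨ε, hε, hb⟩ := Metric.isOpen_iff.1 hUo p hpU
  have hcomp : IsCompact (closedBall p (ε / 2)) := isCompact_closedBall _ _
  have hsubU : closedBall p (ε / 2) ⊆ U :=
    (closedBall_subset_ball (by linarith)).trans hb
  obtain ⟨C, hC⟩ := hcomp.exists_bound_of_continuousOn (hg.continuousOn.mono hsubU)
  -- the radius of the large ball
  obtain ⟨n3, hn3⟩ := exists_nat_one_div_lt (show 0 < ε / 4 by linarith)
  set R0 : ℝ := 1 / ((n3 : ℝ) + 1) with hR0
  have hR0p : 0 < R0 := by positivity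
  obtain ⟨q, hq, hpq⟩ := Metric.mem_closure_iff.1 hpcl R0 hR0p
  let D : Set Om := (Subtype.val) ⁻¹' (W ∩ ball p R0)
  have hDo : IsOpen D := (hWo.inter isOpen_ball).preimage continuous_subtype_val
  have hDne : D.Nonempty := ⟨⟨q, (hWsub hq).2⟩, hq, by rwa [mem_ball, dist_comm]⟩
  obtain ⟨y, hyT, k, hk⟩ := (TopologicalSpace.denseRange_denseSeq Om).inter_open_nonempty D hDo hDne
  have hyk : (z k) = y := hk
  have hkW : (z k : Fin m → ℂ) ∈ W := by rw [hyk]; exact hyT.1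
  have hkb : (z k : Fin m → ℂ) ∈ ball p R0 := by rw [hyk]; exact hyT.2
  obtain ⟨r', hr', hrW⟩ := Metric.isOpen_iff.1 hWo _ hkW
  obtain ⟨n2, hn2⟩ := exists_nat_one_div_lt hr'
  obtain ⟨n4, hn4⟩ := exists_nat_gt C
  obtain ⟨n, e1, e2, e3, e4⟩ : ∃ n, i1 n = k ∧ i2 n = n2 ∧ i3 n = n3 ∧ i4 n = n4 :=
    ⟨Nat.pair k (Nat.pair n2 (Nat.pair n3 n4)), by simp [i1], by simp [i2], by simp [i3],
      by simp [i4]⟩
  have hbn := hbad n
  simp only [e1, e2, e3, e4] at hbn
  have hrsub : ball (z k : Fin m → ℂ) (1 / ((n2 : ℝ) + 1)) ⊆ W :=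
    (ball_subset_ball hn2.le).trans hrW
  have hRsub : ball (z k : Fin m → ℂ) R0 ⊆ closedBall p (ε / 2) := by
    intro x hx
    rw [mem_ball] at hx hkb
    rw [mem_closedBall]
    calc dist x p ≤ dist x (z k) + dist (z k : Fin m → ℂ) p := dist_triangle _ _ _
      _ ≤ ε / 2 := by linarith
  refine hbn (by positivity) hR0p (z k).2 (fun x hx => (hWsub (hrsub hx)).2)
    (fun h => hpO (h (by rwa [mem_ball, dist_comm] at hkb))) g
    (hg.mono (hRsub.trans hsubU)) (fun x hx => (hC x (hRsub hx)).trans hn4.le) fun x hx => ?_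
  have h1 : g x = f x := sub_eq_zero.1 (hWgf x (hrsub hx))
  rw [h1]
  exact htail n x (hWsub (hrsub hx)).2

end Bd

end Hyp20
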