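import Mathlib

/-!
Definitions for MP_47150b_an (helper20): monic centred polynomials, expanding maps,
polynomial hulls, domains of holomorphy.
-/

namespace Hyp20

open Filter Topology

/-- The monic centred polynomial `X ^ n + a_{n-2} X ^ (n-2) + ... + a_0` with coefficient
vector `a = (a_0, ..., a_{n-2})`. -/
noncomputable def pol (n : ℕ) (a : Fin (n - 1) → ℂ) : Polynomial ℂ :=
  Polynomial.X ^ n + ∑ i : Fin (n - 1), Polynomial.C (a i) * Polynomial.X ^ (i : ℕ)

/-- The polynomial as a map of the complex plane. -/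
noncomputable def pmap (n : ℕ) (a : Fin (n - 1) → ℂ) (z : ℂ) : ℂ := (pol n a).eval z

/-- `c` is a critical point. -/
def IsCritical (n : ℕ) (a : Fin (n - 1) → ℂ) (c : ℂ) : Prop :=
  (Polynomial.derivative (pol n a)).eval c = 0

/-- The orbit of `z` under `f` tends to a (finite) attracting cycle: for some `q ≥ 1` and some
`α` with `f^q(α) = α` and `|(f^q)'(α)| < 1` the points `f^(q k)(z)` tend to `α`. -/
def TendsToFiniteCycle (f : ℂ → ℂ) (z : ℂ) : Prop :=
  ∃ q : ℕ, 1 ≤ q ∧ ∃ α : ℂ, f^[q] α = α ∧ ‖deriv (f^[q]) α‖ < 1 ∧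
    Tendsto (fun k : ℕ => f^[q * k] z) atTop (𝓝 α)

/-- The orbit of `z` tends to infinity, the attracting fixed point at infinity. -/
def Escapes (f : ℂ → ℂ) (z : ℂ) : Prop := Tendsto (fun k : ℕ => ‖f^[k] z‖) atTop atTop

/-- The expanding (hyperbolic) polynomials: each critical point tends to an attracting cycle,
infinity included. -/
def Expanding (n : ℕ) : Set (Fin (n - 1) → ℂ) :=
  {a | ∀ c, IsCritical n a c → TendsToFiniteCycle (pmap n a) c ∨ Escapes (pmap n a) c}

/-- The expanding polynomials all of whose critical points tend to finite attracting cycles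
(the expanding polynomials with connected Julia set). -/
def ExpandingBdd (n : ℕ) : Set (Fin (n - 1) → ℂ) :=
  {a | ∀ c, IsCritical n a c → TendsToFiniteCycle (pmap n a) c}

/-- The polynomial hull of a subset of `ℂ ^ m`. -/
def polyHull {m : ℕ} (K : Set (Fin m → ℂ)) : Set (Fin m → ℂ) :=
  {a | ∀ (P : MvPolynomial (Fin m) ℂ) (M : ℝ),
    (∀ b ∈ K, ‖MvPolynomial.eval b P‖ ≤ M) → ‖MvPolynomial.eval a P‖ ≤ M}

/-- `f` is holomorphic on `Ω` and extends holomorphically across no boundary point: there are no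
connected open `U` not contained in `Ω`, nonempty open `V ⊆ U ∩ Ω` and holomorphic `g` on `U`
with `g = f` on `V`. -/
def Nonextendable {m : ℕ} (Ω : Set (Fin m → ℂ)) (f : (Fin m → ℂ) → ℂ) : Prop :=
  DifferentiableOn ℂ f Ω ∧
    ∀ U V : Set (Fin m → ℂ), IsOpen U → IsConnected U → ¬ U ⊆ Ω →
      IsOpen V → V.Nonempty → V ⊆ U ∩ Ω →
        ¬ ∃ g : (Fin m → ℂ) → ℂ, DifferentiableOn ℂ g U ∧ Set.EqOn g f V

/-- Domain of holomorphy (as an open set; connectedness is a separate hypothesis). -/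
def IsDomainOfHolomorphy {m : ℕ} (Ω : Set (Fin m → ℂ)) : Prop :=
  IsOpen Ω ∧ ∃ f : (Fin m → ℂ) → ℂ, Nonextendable Ω f

end Hyp20
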