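import Mathlib
import Pool.Agent.Lib.Hyp.Stmt20

/-!
Uniform estimates along critical orbits (helper20).
-/

namespace Hyp20

open Filter Topology

/-- The uniform estimate at `a` with constants `N k0 C ρ`. -/
def Est (n : ℕ) (a : Fin (n - 1) → ℂ) (N k0 : ℕ) (C ρ : ℝ) : Prop :=
  ∀ c, IsCritical n a c → ∀ k, k0 ≤ k →
    ‖(pmap n a)^[(k + 1) * N] c - (pmap n a)^[k * N] c‖ ≤ C * ρ ^ k ∧
      ‖deriv ((pmap n a)^[N]) ((pmap n a)^[k * N] c)‖ ≤ ρ

theorem differentiable_pmap (n : ℕ) (a : Fin (n - 1) → ℂ) : Differentiable ℂ (pmap n a) := by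
  unfold pmap
  exact (pol n a).differentiable

theorem differentiable_iter (n : ℕ) (a : Fin (n - 1) → ℂ) (k : ℕ) :
    Differentiable ℂ ((pmap n a)^[k]) := by
  induction k with
  | zero => simpa using differentiable_id
  | succ k ih => rw [Function.iterate_succ]; exact ih.comp (differentiable_pmap n a)

theorem continuous_iter (n : ℕ) (a : Fin (n - 1) → ℂ) (k : ℕ) :
    Continuous ((pmap n a)^[k]) := (differentiable_iter n a k).continuous

theorem continuous_deriv_iter (n : ℕ) (a : Fin (n - 1) → ℂ) (k : ℕ) :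
    Continuous (deriv ((pmap n a)^[k])) :=
  ((differentiable_iter n a k).contDiff (n := 1)).continuous_deriv le_rfl

/-- An estimate gives convergence to a finite attracting cycle. -/
theorem tendsToFiniteCycle_of_est {n : ℕ} {a : Fin (n - 1) → ℂ} {N k0 : ℕ} {C ρ : ℝ}
    (hN : 1 ≤ N) (hρ0 : 0 ≤ ρ) (hρ : ρ < 1) (h : Est n a N k0 C ρ) {c : ℂ}
    (hc : IsCritical n a c) : TendsToFiniteCycle (pmap n a) c := by
  set f := pmap n a with hf
  have hcau : CauchySeq (fun k : ℕ => f^[(k + k0) * N] c) := by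
    refine cauchySeq_of_le_geometric ρ (C * ρ ^ k0) hρ ?_
    intro k
    have h1 := (h c hc (k + k0) (by omega)).1
    rw [dist_comm, dist_eq_norm]
    have e : k + 1 + k0 = k + k0 + 1 := by ring
    rw [e]
    refine h1.trans (le_of_eq ?_)
    rw [pow_add]; ring
  obtain ⟨β, hβ⟩ := cauchySeq_tendsto_of_complete hcau
  have hβ' : Tendsto (fun k : ℕ => f^[k * N] c) atTop (𝓝 β) :=
    (tendsto_add_atTop_iff_nat (f := fun k : ℕ => f^[k * N] c) k0).1 hβ
  refine ⟨N, hN, β, ?_, ?_, ?_⟩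
  · have h2 : Tendsto (fun k : ℕ => f^[N] (f^[k * N] c)) atTop (𝓝 (f^[N] β)) :=
      ((continuous_iter n a N).tendsto β).comp hβ'
    have h3 : (fun k : ℕ => f^[N] (f^[k * N] c)) = fun k : ℕ => f^[(k + 1) * N] c := by
      funext k
      rw [← Function.iterate_add_apply]
      congr 2
      ring
    rw [h3] at h2
    have h4 : Tendsto (fun k : ℕ => f^[(k + 1) * N] c) atTop (𝓝 β) :=
      (tendsto_add_atTop_iff_nat (f := fun k : ℕ => f^[k * N] c) 1).2 hβ'
    exact tendsto_nhds_unique h2 h4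
  · have h2 : Tendsto (fun k : ℕ => ‖deriv (f^[N]) (f^[k * N] c)‖) atTop
        (𝓝 ‖deriv (f^[N]) β‖) :=
      ((continuous_deriv_iter n a N).norm.tendsto β).comp hβ'
    have h3 : ‖deriv (f^[N]) β‖ ≤ ρ := by
      refine le_of_tendsto h2 ?_
      filter_upwards [eventually_ge_atTop k0] with k hk
      exact (h c hc k hk).2
    exact lt_of_le_of_lt h3 hρ
  · have e : (fun k : ℕ => f^[N * k] c) = fun k : ℕ => f^[k * N] c := by
      funext k; rw [mul_comm]
    rw [e]; exact hβ'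

theorem mem_expandingBdd_of_est {n : ℕ} {a : Fin (n - 1) → ℂ} {N k0 : ℕ} {C ρ : ℝ}
    (hN : 1 ≤ N) (hρ0 : 0 ≤ ρ) (hρ : ρ < 1) (h : Est n a N k0 C ρ) : a ∈ ExpandingBdd n :=
  fun _ hc => tendsToFiniteCycle_of_est hN hρ0 hρ h hc

end Hyp20
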