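import Mathlib
import Pool.Agent.Lib.Hyp.Stmt20
import Pool.Agent.Lib.Hyp.Est20

/-!
Functions `G a z` that are polynomials in `(a, z)` (helper20).
-/

namespace Hyp20

open Filter Topology

/-- `G a z` is a polynomial in `(a, z)`. -/
def IsBiPoly {m : ℕ} (G : (Fin m → ℂ) → ℂ → ℂ) : Prop :=
  ∃ P : Polynomial (MvPolynomial (Fin m) ℂ),
    ∀ a z, G a z = (P.map (MvPolynomial.eval a)).eval z

namespace IsBiPoly

variable {m : ℕ} {G H : (Fin m → ℂ) → ℂ → ℂ}

theorem of_mv (P : MvPolynomial (Fin m) ℂ) :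
    IsBiPoly (fun (a : Fin m → ℂ) (_ : ℂ) => MvPolynomial.eval a P) :=
  ⟨Polynomial.C P, fun a z => by simp⟩

theorem const (w : ℂ) : IsBiPoly (fun (_ : Fin m → ℂ) (_ : ℂ) => w) :=
  ⟨Polynomial.C (MvPolynomial.C w), fun a z => by simp⟩

theorem coord (i : Fin m) : IsBiPoly (fun (a : Fin m → ℂ) (_ : ℂ) => a i) :=
  ⟨Polynomial.C (MvPolynomial.X i), fun a z => by simp⟩

theorem var : IsBiPoly (fun (_ : Fin m → ℂ) (z : ℂ) => z) :=
  ⟨Polynomial.X, fun a z => by simp⟩

theorem add (hG : IsBiPoly G) (hH : IsBiPoly H) : IsBiPoly (fun a z => G a z + H a z) := by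
  obtain ⟨P, hP⟩ := hG
  obtain ⟨Q, hQ⟩ := hH
  exact ⟨P + Q, fun a z => by simp [hP, hQ]⟩

theorem mul (hG : IsBiPoly G) (hH : IsBiPoly H) : IsBiPoly (fun a z => G a z * H a z) := by
  obtain ⟨P, hP⟩ := hG
  obtain ⟨Q, hQ⟩ := hH
  exact ⟨P * Q, fun a z => by simp [hP, hQ]⟩

theorem sub (hG : IsBiPoly G) (hH : IsBiPoly H) : IsBiPoly (fun a z => G a z - H a z) := by
  obtain ⟨P, hP⟩ := hG
  obtain ⟨Q, hQ⟩ := hH
  exact ⟨P - Q, fun a z => by simp [hP, hQ]⟩

theorem pow (hG : IsBiPoly G) (k : ℕ) : IsBiPoly (fun a z => G a z ^ k) := by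
  obtain ⟨P, hP⟩ := hG
  exact ⟨P ^ k, fun a z => by simp [hP]⟩

theorem sum {ι : Type*} (s : Finset ι) (F : ι → (Fin m → ℂ) → ℂ → ℂ)
    (hF : ∀ i ∈ s, IsBiPoly (F i)) : IsBiPoly (fun a z => ∑ i ∈ s, F i a z) := by
  classical
  induction s using Finset.induction_on with
  | empty => simpa using const (m := m) 0
  | insert i s his ih =>
    have h1 := hF i (Finset.mem_insert_self _ _)
    have h2 := ih fun j hj => hF j (Finset.mem_insert_of_mem hj)
    have h3 := h1.add h2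
    have e : (fun (a : Fin m → ℂ) (z : ℂ) => ∑ j ∈ insert i s, F j a z) =
        fun a z => F i a z + ∑ j ∈ s, F j a z := by
      funext a z
      rw [Finset.sum_insert his]
    rw [e]; exact h3

theorem comp (hG : IsBiPoly G) (hH : IsBiPoly H) : IsBiPoly (fun a z => G a (H a z)) := by
  obtain ⟨P, hP⟩ := hG
  obtain ⟨Q, hQ⟩ := hH
  refine ⟨P.comp Q, fun a z => ?_⟩
  change G a (H a z) = _
  rw [hP, hQ, Polynomial.map_comp, Polynomial.eval_comp]

theorem deriv (hG : IsBiPoly G) : IsBiPoly (fun a z => _root_.deriv (G a) z) := by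
  obtain ⟨P, hP⟩ := hG
  refine ⟨Polynomial.derivative P, fun a z => ?_⟩
  have e : G a = fun z => (P.map (MvPolynomial.eval a)).eval z := by
    funext z; exact hP a z
  change _root_.deriv (G a) z = _
  rw [e, Polynomial.deriv, Polynomial.derivative_map]

theorem continuous (hG : IsBiPoly G) : Continuous (fun p : (Fin m → ℂ) × ℂ => G p.1 p.2) := by
  obtain ⟨P, hP⟩ := hG
  have e : (fun p : (Fin m → ℂ) × ℂ => G p.1 p.2) =
      fun p => ∑ i ∈ Finset.range (P.natDegree + 1),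
        MvPolynomial.eval p.1 (P.coeff i) * p.2 ^ i := by
    funext p
    rw [hP, Polynomial.eval_eq_sum_range' (n := P.natDegree + 1)]
    · simp
    · exact Nat.lt_succ_of_le Polynomial.natDegree_map_le
  rw [e]
  refine continuous_finsetSum _ fun i _ => ?_
  exact ((MvPolynomial.continuous_eval _).comp continuous_fst).mul (continuous_snd.pow i)

end IsBiPoly

theorem isBiPoly_pmap (n : ℕ) : IsBiPoly (pmap n) := by
  have h : IsBiPoly (fun (a : Fin (n - 1) → ℂ) (z : ℂ) =>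
      z ^ n + ∑ i : Fin (n - 1), a i * z ^ (i : ℕ)) :=
    (IsBiPoly.var.pow n).add (IsBiPoly.sum _ _ fun i _ =>
      (IsBiPoly.coord i).mul (IsBiPoly.var.pow (i : ℕ)))
  have e : pmap n = fun (a : Fin (n - 1) → ℂ) (z : ℂ) =>
      z ^ n + ∑ i : Fin (n - 1), a i * z ^ (i : ℕ) := by
    funext a z
    simp [pmap, pol, Polynomial.eval_finsetSum]
  rw [e]; exact h

theorem isBiPoly_iter (n k : ℕ) : IsBiPoly (fun a => (pmap n a)^[k]) := by
  induction k with
  | zero => exact IsBiPoly.var (m := n - 1)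
  | succ k ih =>
    have h := ih.comp (isBiPoly_pmap n)
    have e : (fun a => (pmap n a)^[k + 1]) = fun (a : Fin (n - 1) → ℂ) z =>
        (pmap n a)^[k] (pmap n a z) := by
      funext a z; rfl
    rw [e]; exact h

theorem isBiPoly_deriv_iter (n k : ℕ) : IsBiPoly (fun a => deriv ((pmap n a)^[k])) :=
  (isBiPoly_iter n k).deriv

/-- The function `p^((k+1)N)(z) - p^(kN)(z)`. -/
theorem isBiPoly_diff (n N k : ℕ) :
    IsBiPoly (fun a z => (pmap n a)^[(k + 1) * N] z - (pmap n a)^[k * N] z) :=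
  (isBiPoly_iter n _).sub (isBiPoly_iter n _)

/-- The function `(p^N)'(p^(kN)(z))`. -/
theorem isBiPoly_mult (n N k : ℕ) :
    IsBiPoly (fun a z => deriv ((pmap n a)^[N]) ((pmap n a)^[k * N] z)) :=
  (isBiPoly_deriv_iter n N).comp (isBiPoly_iter n _)

/-- The derivative of `p` as a polynomial in `(a, z)`. -/
theorem isBiPoly_crit (n : ℕ) :
    IsBiPoly (fun a z => (Polynomial.derivative (pol n a)).eval z) := by
  have h := (isBiPoly_pmap n).deriv
  have e : (fun (a : Fin (n - 1) → ℂ) (z : ℂ) => (Polynomial.derivative (pol n a)).eval z) =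
      fun a z => deriv (pmap n a) z := by
    funext a z
    have : pmap n a = fun z => (pol n a).eval z := rfl
    rw [this, Polynomial.deriv]
  rw [e]; exact h

end Hyp20
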