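import Pool.Agent.Lib.Hyp.Stmt20

/-!
Cartan-Thullen construction (module M1 of the plan for MP_47150b_an, helper15): an open set
`Ω` of `ℂ ^ m` such that the polynomial hull of each compact subset meets `Ω` in a compact set
carries a locally uniform limit of polynomials that extends across no boundary point.
-/

namespace Hyp20
namespace CT

open Filter Topology Set Metric

section general

variable {E : Type*} [NormedAddCommGroup E] [NormedSpace ℂ E]

/-- Cauchy estimate along complex lines. -/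
lemma norm_fderiv_le {f : E → ℂ} {x : E} {r C : ℝ} (hr : 0 < r)
    (hf : DifferentiableOn ℂ f (ball x r)) (hC : ∀ y ∈ ball x r, ‖f y‖ ≤ C) :
    ‖fderiv ℂ f x‖ ≤ 2 * C / r := by
  have hC0 : 0 ≤ C := (norm_nonneg _).trans (hC x (mem_ball_self hr))
  refine ContinuousLinearMap.opNorm_le_bound _ (by positivity) fun v => ?_
  rcases eq_or_ne v 0 with rfl | hv
  · simp
  have hv0 : 0 < ‖v‖ := norm_pos_iff.2 hv
  set R : ℝ := r / (2 * ‖v‖) with hR
  have hR0 : 0 < R := by positivity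
  have hmap : ∀ t : ℂ, ‖t‖ ≤ R → x + t • v ∈ ball x r := by
    intro t ht
    rw [mem_ball_iff_norm]
    have h1 : ‖x + t • v - x‖ = ‖t‖ * ‖v‖ := by
      rw [add_sub_cancel_left, norm_smul]
    rw [h1]
    calc ‖t‖ * ‖v‖ ≤ R * ‖v‖ := by gcongr
      _ = r / 2 := by rw [hR]; field_simp
      _ < r := by linarith
  have hdiff : ∀ t : ℂ, ‖t‖ ≤ R →
      HasDerivAt (fun t : ℂ => f (x + t • v)) (fderiv ℂ f (x + t • v) v) t := by
    intro t ht
    have h1 : HasFDerivAt f (fderiv ℂ f (x + t • v)) (x + t • v) :=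
      ((hf _ (hmap t ht)).differentiableAt (isOpen_ball.mem_nhds (hmap t ht))).hasFDerivAt
    have h2 : HasDerivAt (fun t : ℂ => x + t • v) v t := by
      have := ((hasDerivAt_id t).smul_const v).const_add x
      simpa using this
    exact h1.comp_hasDerivAt t h2
  have hcl : DiffContOnCl ℂ (fun t : ℂ => f (x + t • v)) (ball 0 R) := by
    apply DifferentiableOn.diffContOnCl
    intro t ht
    have ht' : ‖t‖ ≤ R := by
      have := closure_ball_subset_closedBall ht
      simpa using this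
    exact (hdiff t ht').differentiableAt.differentiableWithinAt
  have hbd : ∀ t ∈ sphere (0 : ℂ) R, ‖(fun t : ℂ => f (x + t • v)) t‖ ≤ C := by
    intro t ht
    have ht' : ‖t‖ = R := by simpa using ht
    exact hC _ (hmap t ht'.le)
  have key := Complex.norm_deriv_le_of_forall_mem_sphere_norm_le hR0 hcl hbd
  have h0 : deriv (fun t : ℂ => f (x + t • v)) 0 = fderiv ℂ f x v := by
    have := (hdiff 0 (by simpa using hR0.le)).deriv
    simpa using this
  rw [h0] at key
  calc ‖fderiv ℂ f x v‖ ≤ C / R := key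
    _ = 2 * C / r * ‖v‖ := by rw [hR]; field_simp

/-- Identity theorem on preconnected open sets, from the one variable case along lines. -/
lemma eq_zero_of_eq_zero {W V : Set E} (hW : IsOpen W) (hWc : IsPreconnected W) {h : E → ℂ}
    (hh : DifferentiableOn ℂ h W) (hV : IsOpen V) (hne : (W ∩ V).Nonempty)
    (hz : ∀ x ∈ W ∩ V, h x = 0) : ∀ x ∈ W, h x = 0 := by
  set u : Set E := interior {x | h x = 0} with hu
  have hsub : W ⊆ u := by
    apply hWc.subset_of_closure_inter_subset isOpen_interior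
    · obtain ⟨x, hx⟩ := hne
      exact ⟨x, hx.1, mem_interior.2 ⟨W ∩ V, fun y hy => hz y hy, hW.inter hV, hx⟩⟩
    · rintro x ⟨hxc, hxW⟩
      obtain ⟨r, hr, hball⟩ := Metric.isOpen_iff.1 hW x hxW
      obtain ⟨y, hyu, hyx⟩ := Metric.mem_closure_iff.1 hxc (r / 2) (by linarith)
      have hsubW : ball y (r / 2) ⊆ W := by
        intro z hz'
        apply hball
        rw [mem_ball] at hz' ⊢
        have : dist z x ≤ dist z y + dist y x := dist_triangle _ _ _
        rw [dist_comm y x] at this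
        linarith
      refine mem_interior.2 ⟨ball y (r / 2), fun z hz' => ?_, isOpen_ball, ?_⟩
      · show h z = 0
        rcases eq_or_ne z y with rfl | hzy
        · exact (show z ∈ {x | h x = 0} from interior_subset hyu)
        have hzy0 : 0 < ‖z - y‖ := norm_pos_iff.2 (sub_ne_zero.2 hzy)
        have hz'' : ‖z - y‖ < r / 2 := by simpa [dist_eq_norm] using hz'
        set R : ℝ := (r / 2) / ‖z - y‖ with hR
        have hR1 : 1 < R := by rw [hR, lt_div_iff₀ hzy0]; linarith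
        have hmap : ∀ t : ℂ, ‖t‖ < R → y + t • (z - y) ∈ ball y (r / 2) := by
          intro t ht
          rw [mem_ball_iff_norm, add_sub_cancel_left, norm_smul]
          calc ‖t‖ * ‖z - y‖ < R * ‖z - y‖ := by gcongr
            _ = r / 2 := by rw [hR]; field_simp
        have hd : DifferentiableOn ℂ (fun t : ℂ => h (y + t • (z - y))) (ball 0 R) := by
          intro t ht
          have ht' : ‖t‖ < R := by simpa using ht
          have h1 : DifferentiableAt ℂ h (y + t • (z - y)) :=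
            (hh _ (hsubW (hmap t ht'))).differentiableAt (hW.mem_nhds (hsubW (hmap t ht')))
          have h2 : DifferentiableAt ℂ (fun t : ℂ => y + t • (z - y)) t := by fun_prop
          exact (h1.comp t h2).differentiableWithinAt
        have ha : AnalyticOnNhd ℂ (fun t : ℂ => h (y + t • (z - y))) (ball 0 R) :=
          hd.analyticOnNhd isOpen_ball
        have hev : (fun t : ℂ => h (y + t • (z - y))) =ᶠ[𝓝 0] 0 := by
          have hc : ContinuousAt (fun t : ℂ => y + t • (z - y)) 0 := by fun_prop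
          have hmem : {x | h x = 0} ∈ 𝓝 ((fun t : ℂ => y + t • (z - y)) 0) := by
            simpa using mem_interior_iff_mem_nhds.1 hyu
          exact hc.eventually hmem
        have hpre : IsPreconnected (ball (0 : ℂ) R) := (convex_ball 0 R).isPreconnected
        have := ha.eqOn_zero_of_preconnected_of_eventuallyEq_zero hpre
          (mem_ball_self (by linarith)) hev
        have h1 := this (show (1 : ℂ) ∈ ball 0 R by simpa using hR1)
        simpa using h1
      · rw [mem_ball]; exact hyx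
  exact fun x hx => (show x ∈ {x | h x = 0} from interior_subset (hsub hx))

/-- A locally uniform limit of holomorphic functions is holomorphic (several variables). -/
lemma differentiableOn_of_tendsto [ProperSpace E] {Ω : Set E} (hΩ : IsOpen Ω) {F : ℕ → E → ℂ}
    {f : E → ℂ} (hF : ∀ n, DifferentiableOn ℂ (F n) Ω)
    (h : TendstoLocallyUniformlyOn F f atTop Ω) : DifferentiableOn ℂ f Ω := by
  intro x hx
  obtain ⟨r0, hr0, hball0⟩ := Metric.isOpen_iff.1 hΩ x hx
  set r : ℝ := r0 / 4 with hr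
  have hr1 : 0 < r := by positivity
  have hK : closedBall x (2 * r) ⊆ Ω := by
    intro y hy
    apply hball0
    rw [mem_closedBall] at hy
    rw [mem_ball]
    linarith
  have huni : TendstoUniformlyOn F f atTop (closedBall x (2 * r)) :=
    (tendstoLocallyUniformlyOn_iff_forall_isCompact hΩ).1 h _ hK (isCompact_closedBall _ _)
  have hcau : UniformCauchySeqOn F atTop (closedBall x (2 * r)) := huni.uniformCauchySeqOn
  rw [Metric.uniformCauchySeqOn_iff] at hcau
  have hbr : ball x r ⊆ Ω := by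
    intro y hy
    apply hK
    rw [mem_ball] at hy
    rw [mem_closedBall]
    linarith
  have hcau' : UniformCauchySeqOn (fun n => fderiv ℂ (F n)) atTop (ball x r) := by
    rw [Metric.uniformCauchySeqOn_iff]
    intro ε hε
    obtain ⟨N, hN⟩ := hcau (ε * r / 4) (by positivity)
    refine ⟨N, fun m hm n hn y hy => ?_⟩
    have hyb : ball y r ⊆ closedBall x (2 * r) := by
      intro z hz
      rw [mem_ball] at hz hy
      rw [mem_closedBall]
      linarith [dist_triangle z y x]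
    have hd : DifferentiableOn ℂ (fun z => F m z - F n z) (ball y r) :=
      ((hF m).sub (hF n)).mono (hyb.trans hK)
    have hb : ∀ z ∈ ball y r, ‖(fun z => F m z - F n z) z‖ ≤ ε * r / 4 := by
      intro z hz
      have := hN m hm n hn z (hyb hz)
      rw [dist_eq_norm] at this
      exact this.le
    have key := norm_fderiv_le hr1 hd hb
    have hdm : DifferentiableAt ℂ (F m) y :=
      (hF m y (hbr hy)).differentiableAt (hΩ.mem_nhds (hbr hy))
    have hdn : DifferentiableAt ℂ (F n) y :=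
      (hF n y (hbr hy)).differentiableAt (hΩ.mem_nhds (hbr hy))
    have he : fderiv ℂ (fun z => F m z - F n z) y = fderiv ℂ (F m) y - fderiv ℂ (F n) y :=
      fderiv_fun_sub hdm hdn
    rw [he] at key
    rw [dist_eq_norm]
    calc ‖fderiv ℂ (F m) y - fderiv ℂ (F n) y‖ ≤ 2 * (ε * r / 4) / r := key
      _ = ε / 2 := by field_simp; ring
      _ < ε := by linarith
  -- pointwise limits of the derivatives
  have hlim : ∀ y ∈ ball x r, ∃ L : E →L[ℂ] ℂ,
      Tendsto (fun n => fderiv ℂ (F n) y) atTop (𝓝 L) := by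
    intro y hy
    exact cauchySeq_tendsto_of_complete (hcau'.cauchySeq hy)
  choose! g' hg' using hlim
  have hunif : TendstoUniformlyOn (fun n => fderiv ℂ (F n)) g' atTop (ball x r) :=
    hcau'.tendstoUniformlyOn_of_tendsto hg'
  have hxr : x ∈ ball x r := mem_ball_self hr1
  have hfin : HasFDerivAt f (g' x) x := by
    refine hasFDerivAt_of_tendstoUniformlyOn isOpen_ball hunif (f := F) ?_ ?_ hxr
    · intro n y hy
      exact ((hF n y (hbr hy)).differentiableAt (hΩ.mem_nhds (hbr hy))).hasFDerivAt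
    · intro y hy
      exact h.tendsto_at (hbr hy)
  exact hfin.differentiableAt.differentiableWithinAt

end general

section hull

variable {m : ℕ}

/-- Polynomials are holomorphic. -/
lemma differentiable_eval (P : MvPolynomial (Fin m) ℂ) :
    Differentiable ℂ (fun a : Fin m → ℂ => MvPolynomial.eval a P) := by
  induction P using MvPolynomial.induction_on with
  | C c => simp only [MvPolynomial.eval_C]; exact differentiable_const c
  | add p q hp hq => simp only [map_add]; exact hp.add hq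
  | mul_X p i hp =>
      simp only [map_mul, MvPolynomial.eval_X]
      exact hp.mul (differentiable_apply i)

/-- The hull in `Ω` of `K` with respect to a subalgebra `A` of functions. -/
def hullA (A : Subalgebra ℂ ((Fin m → ℂ) → ℂ)) (Ω K : Set (Fin m → ℂ)) : Set (Fin m → ℂ) :=
  {a | a ∈ Ω ∧ ∀ g ∈ A, ∀ M : ℝ, (∀ b ∈ K, ‖g b‖ ≤ M) → ‖g a‖ ≤ M}

/-- Points outside the hull are separated by members of `A` with any prescribed ratio. -/
lemma exists_separating {A : Subalgebra ℂ ((Fin m → ℂ) → ℂ)} {Ω K : Set (Fin m → ℂ)}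
    {z : Fin m → ℂ} (hzΩ : z ∈ Ω) (hz : z ∉ hullA A Ω K) {ε R : ℝ}
    (hε : 0 < ε) : ∃ Q ∈ A, (∀ b ∈ K, ‖Q b‖ ≤ ε) ∧ R ≤ ‖Q z‖ := by
  have hz' : ¬ ∀ g ∈ A, ∀ M : ℝ, (∀ b ∈ K, ‖g b‖ ≤ M) → ‖g z‖ ≤ M := fun h => hz ⟨hzΩ, h⟩
  simp only [not_forall, not_le] at hz'
  obtain ⟨P, hPA, M, hPM, hMz⟩ := hz'
  rcases eq_or_ne (‖P z‖) 0 with h0 | h0
  · -- then `M < 0` and `K` is empty
    have hM : M < 0 := by linarith
    refine ⟨algebraMap ℂ _ ((|R| : ℝ) : ℂ), A.algebraMap_mem _, fun b hb => ?_, ?_⟩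
    · exact absurd ((norm_nonneg _).trans (hPM b hb)) (not_le.2 hM)
    · show R ≤ ‖((|R| : ℝ) : ℂ)‖
      rw [Complex.norm_real, Real.norm_eq_abs, abs_abs]
      exact le_abs_self R
  have hpos : 0 < ‖P z‖ := lt_of_le_of_ne (norm_nonneg _) (Ne.symm h0)
  obtain ⟨M', hM'1, hM'2⟩ := exists_between (max_lt hMz hpos)
  have hM'0 : 0 < M' := lt_of_le_of_lt (le_max_right _ _) hM'1
  have hM'M : M ≤ M' := (le_max_left _ _).trans hM'1.le
  set ρ : ℝ := ‖P z‖ / M' with hρ
  have hρ1 : 1 < ρ := by rw [hρ, lt_div_iff₀ hM'0]; linarith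
  obtain ⟨N, hN⟩ := pow_unbounded_of_one_lt (R / ε) hρ1
  have hval : ∀ b, (((ε / M' ^ N : ℝ) : ℂ) • P ^ N) b = ((ε / M' ^ N : ℝ) : ℂ) * P b ^ N :=
    fun b => rfl
  refine ⟨((ε / M' ^ N : ℝ) : ℂ) • P ^ N, A.smul_mem (A.pow_mem hPA N) _, fun b hb => ?_, ?_⟩
  · rw [hval, norm_mul, norm_pow, Complex.norm_real, Real.norm_of_nonneg (by positivity)]
    calc ε / M' ^ N * ‖P b‖ ^ N ≤ ε / M' ^ N * M' ^ N := by
          gcongr
          exact (hPM b hb).trans hM'M
      _ = ε := by field_simp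
  · rw [hval, norm_mul, norm_pow, Complex.norm_real, Real.norm_of_nonneg (by positivity)]
    have h1 : R < ε * ρ ^ N := by
      rw [div_lt_iff₀ hε] at hN
      linarith
    have h2 : ε / M' ^ N * ‖P z‖ ^ N = ε * ρ ^ N := by
      rw [hρ, div_pow]; ring
    rw [h2]
    exact h1.le

/-- The compact exhaustion. -/
def ex (Ω : Set (Fin m → ℂ)) (n : ℕ) : Set (Fin m → ℂ) :=
  closedBall 0 n ∩ {x | 1 / ((n : ℝ) + 1) ≤ infDist x Ωᶜ}

lemma ex_compact (Ω : Set (Fin m → ℂ)) (n : ℕ) : IsCompact (ex Ω n) := by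
  refine (isCompact_closedBall _ _).inter_right ?_
  exact isClosed_le continuous_const (continuous_infDist_pt _)

lemma ex_subset (Ω : Set (Fin m → ℂ)) (n : ℕ) : ex Ω n ⊆ Ω := by
  rintro x ⟨-, hx⟩
  by_contra hxΩ
  have h0 : infDist x Ωᶜ = 0 := infDist_zero_of_mem hxΩ
  rw [mem_ofPred_eq, h0] at hx
  have : (0 : ℝ) < 1 / ((n : ℝ) + 1) := by positivity
  linarith

lemma ex_mono (Ω : Set (Fin m → ℂ)) : Monotone (ex Ω) := by
  intro a b hab x hx
  have hab' : (a : ℝ) ≤ b := by exact_mod_cast hab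
  refine ⟨closedBall_subset_closedBall hab' hx.1, ?_⟩
  have h1 : 1 / ((b : ℝ) + 1) ≤ 1 / ((a : ℝ) + 1) := by
    apply one_div_le_one_div_of_le <;> [positivity; linarith]
  exact h1.trans hx.2

lemma ex_nhds {Ω : Set (Fin m → ℂ)} (hΩ : IsOpen Ω) (hne : Ωᶜ.Nonempty) {x : Fin m → ℂ}
    (hx : x ∈ Ω) : ∃ n, ex Ω n ∈ 𝓝 x := by
  have hpos : 0 < infDist x Ωᶜ :=
    (hΩ.isClosed_compl.notMem_iff_infDist_pos hne).1 (fun h => h hx)
  obtain ⟨n, hn⟩ := exists_nat_gt (max (‖x‖ + 1) (2 / infDist x Ωᶜ))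
  have hn1 : ‖x‖ + 1 < n := lt_of_le_of_lt (le_max_left _ _) hn
  have hn2 : 2 / infDist x Ωᶜ < n := lt_of_le_of_lt (le_max_right _ _) hn
  have hn0 : (0 : ℝ) < (n : ℝ) + 1 := by positivity
  refine ⟨n, Filter.mem_of_superset (ball_mem_nhds x (show 0 < 1 / ((n : ℝ) + 1) by positivity)) ?_⟩
  intro y hy
  rw [mem_ball] at hy
  have hle1 : 1 / ((n : ℝ) + 1) ≤ 1 := by
    rw [div_le_one hn0]
    have : (0 : ℝ) ≤ n := Nat.cast_nonneg n
    linarith
  constructor
  · rw [mem_closedBall, dist_zero_right]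
    have := norm_le_norm_add_norm_sub' y x
    rw [dist_eq_norm] at hy
    linarith
  · have h1 : infDist x Ωᶜ ≤ infDist y Ωᶜ + dist x y := infDist_le_infDist_add_dist
    rw [dist_comm] at h1
    have h2 : 2 < n * infDist x Ωᶜ := by rwa [div_lt_iff₀ hpos] at hn2
    have h3 : 2 * (1 / ((n : ℝ) + 1)) ≤ infDist x Ωᶜ := by
      rw [mul_one_div, div_le_iff₀ hn0]
      nlinarith
    show 1 / ((n : ℝ) + 1) ≤ infDist y Ωᶜ
    linarith

lemma maxBall_subset (Ω : Set (Fin m → ℂ)) (a : Fin m → ℂ) :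
    ball a (infDist a Ωᶜ) ⊆ Ω := by
  intro y hy
  by_contra hyΩ
  have h1 : infDist a Ωᶜ ≤ dist a y := infDist_le_dist_of_mem hyΩ
  rw [mem_ball, dist_comm] at hy
  linarith

lemma maxBall_not_subset {Ω : Set (Fin m → ℂ)} (hΩ : IsOpen Ω) (hne : Ωᶜ.Nonempty)
    {a : Fin m → ℂ} (ha : a ∈ Ω) {T : Set (Fin m → ℂ)} (hT : IsCompact T) (hTΩ : T ⊆ Ω) :
    ∃ z ∈ ball a (infDist a Ωᶜ), z ∉ T := by
  by_contra hcon
  push Not at hcon
  have hpos : 0 < infDist a Ωᶜ :=
    (hΩ.isClosed_compl.notMem_iff_infDist_pos hne).1 (fun h => h ha)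
  obtain ⟨y, hy, hay⟩ := hΩ.isClosed_compl.exists_infDist_eq_dist hne a
  have hcl : closure (ball a (infDist a Ωᶜ)) ⊆ T := hT.isClosed.closure_subset_iff.2 hcon
  rw [closure_ball a hpos.ne'] at hcl
  have hyT : y ∈ T := hcl (by rw [mem_closedBall, dist_comm, hay])
  exact hy (hTΩ hyT)

/-- A sequence in `A` converging locally uniformly on `Ω` to a function that is
unbounded on every maximal ball around the points of a countable set. -/
lemma exists_series {Ω : Set (Fin m → ℂ)} (hΩ : IsOpen Ω) (hne : Ωᶜ.Nonempty)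
    (A : Subalgebra ℂ ((Fin m → ℂ) → ℂ))
    (hhull : ∀ K : Set (Fin m → ℂ), IsCompact K → K ⊆ Ω → IsCompact (hullA A Ω K))
    (ζ : ℕ → (Fin m → ℂ)) (hζ : ∀ j, ζ j ∈ Ω) :
    ∃ (P : ℕ → (Fin m → ℂ) → ℂ) (f : (Fin m → ℂ) → ℂ), (∀ j, P j ∈ A) ∧
      TendstoLocallyUniformlyOn P f atTop Ω ∧
      ∀ j : ℕ, ∃ z ∈ ball (ζ j) (infDist (ζ j) Ωᶜ), (j : ℝ) ≤ ‖f z‖ := by
  have step : ∀ (j : ℕ) (s : ℕ × ((Fin m → ℂ) → ℂ)),
      ∃ (z : Fin m → ℂ) (Q : (Fin m → ℂ) → ℂ) (n' : ℕ),
        z ∈ ball (ζ j) (infDist (ζ j) Ωᶜ) ∧ Q ∈ A ∧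
        (∀ b ∈ ex Ω s.1, ‖Q b‖ ≤ (1 / 2 : ℝ) ^ j) ∧
        (j : ℝ) + 1 + ‖s.2 z‖ ≤ ‖Q z‖ ∧
        s.1 < n' ∧ z ∈ ex Ω n' := by
    intro j s
    obtain ⟨z, hz, hzT⟩ := maxBall_not_subset hΩ hne (hζ j)
      (hhull _ (ex_compact Ω s.1) (ex_subset Ω s.1)) (fun x hx => hx.1)
    have hzΩ : z ∈ Ω := maxBall_subset Ω _ hz
    obtain ⟨Q, hQA, hQ1, hQ2⟩ := exists_separating hzΩ hzT (ε := (1 / 2 : ℝ) ^ j)
      (R := (j : ℝ) + 1 + ‖s.2 z‖) (by positivity)
    obtain ⟨n0, hn0⟩ := ex_nhds hΩ hne hzΩ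
    refine ⟨z, Q, max n0 (s.1 + 1), hz, hQA, hQ1, hQ2, ?_, ?_⟩
    · exact lt_of_lt_of_le (Nat.lt_succ_self _) (le_max_right _ _)
    · exact ex_mono Ω (le_max_left _ _) (mem_of_mem_nhds hn0)
  choose zz QQ nn hz hQA hQ hR hn hzn using step
  let st : ℕ → ℕ × ((Fin m → ℂ) → ℂ) := fun j =>
    Nat.rec (0, 0) (fun j s => (nn j s, s.2 + QQ j s)) j
  have hst : ∀ j, st (j + 1) = (nn j (st j), (st j).2 + QQ j (st j)) := fun j => rfl
  have hmono : StrictMono (fun j => (st j).1) := by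
    apply strictMono_nat_of_lt_succ
    intro j
    rw [hst]
    exact hn j (st j)
  have hge : ∀ j, j ≤ (st j).1 := fun j => hmono.id_le j
  have hstA : ∀ j, (st j).2 ∈ A := by
    intro j
    induction j with
    | zero => exact A.zero_mem
    | succ j ih => rw [hst]; exact A.add_mem ih (hQA j (st j))
  -- increments
  have hinc : ∀ (i j : ℕ), i ≤ j → ∀ a ∈ ex Ω (st i).1,
      dist ((st j).2 a) ((st (j + 1)).2 a) ≤
        (1 / 2 : ℝ) ^ j := by
    intro i j hij a ha
    have ha' : a ∈ ex Ω (st j).1 := ex_mono Ω (hmono.monotone hij) ha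
    have := hQ j (st j) a ha'
    rw [hst, dist_eq_norm]
    have he : (st j).2 a - ((st j).2 + QQ j (st j)) a = - QQ j (st j) a := by
      rw [Pi.add_apply]; ring
    show ‖(st j).2 a - ((st j).2 + QQ j (st j)) a‖ ≤ _
    rw [he, norm_neg]
    exact this
  have hlim : ∀ a ∈ Ω, ∃ L : ℂ,
      Tendsto (fun j => (st j).2 a) atTop (𝓝 L) := by
    intro a ha
    obtain ⟨n0, hn0⟩ := ex_nhds hΩ hne ha
    have ha0 : a ∈ ex Ω (st n0).1 := ex_mono Ω (hge n0) (mem_of_mem_nhds hn0)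
    have hc : CauchySeq (fun j => (st (j + n0)).2 a) := by
      apply cauchySeq_of_le_geometric (1 / 2 : ℝ) ((1 / 2 : ℝ) ^ n0) (by norm_num)
      intro j
      have := hinc n0 (j + n0) (Nat.le_add_left _ _) a ha0
      rw [show j + 1 + n0 = j + n0 + 1 by ring]
      calc _ ≤ (1 / 2 : ℝ) ^ (j + n0) := this
        _ = _ := by rw [pow_add]; ring
    obtain ⟨L, hL⟩ := cauchySeq_tendsto_of_complete hc
    exact ⟨L, (tendsto_add_atTop_iff_nat n0).1 hL⟩
  choose! f hf using hlim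
  have hbound : ∀ j : ℕ, ∀ a ∈ ex Ω (st j).1,
      dist ((st j).2 a) (f a) ≤ 2 * (1 / 2 : ℝ) ^ j := by
    intro j a ha
    have haΩ : a ∈ Ω := ex_subset Ω _ ha
    have hL : Tendsto (fun i => (st (i + j)).2 a) atTop (𝓝 (f a)) :=
      (tendsto_add_atTop_iff_nat j).2 (hf a haΩ)
    have := dist_le_of_le_geometric_of_tendsto (1 / 2 : ℝ) ((1 / 2 : ℝ) ^ j) (by norm_num)
      (f := fun i => (st (i + j)).2 a) (fun i => by
        have := hinc j (i + j) (Nat.le_add_left _ _) a ha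
        rw [show i + 1 + j = i + j + 1 by ring]
        calc _ ≤ (1 / 2 : ℝ) ^ (i + j) := this
          _ = _ := by rw [pow_add]; ring) hL 0
    simp only [zero_add, pow_zero, mul_one] at this
    calc _ ≤ (1 / 2 : ℝ) ^ j / (1 - 1 / 2) := this
      _ = _ := by ring
  refine ⟨fun j => (st j).2, f, hstA, ?_, ?_⟩
  · rw [Metric.tendstoLocallyUniformlyOn_iff]
    intro ε hε x hx
    obtain ⟨n0, hn0⟩ := ex_nhds hΩ hne hx
    refine ⟨ex Ω n0, mem_nhdsWithin_of_mem_nhds hn0, ?_⟩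
    have htend : Tendsto (fun j : ℕ => 2 * (1 / 2 : ℝ) ^ j) atTop (𝓝 (2 * 0)) :=
      (tendsto_pow_atTop_nhds_zero_of_lt_one (by norm_num) (by norm_num)).const_mul 2
    rw [mul_zero] at htend
    filter_upwards [htend.eventually (gt_mem_nhds hε), eventually_ge_atTop n0] with j hj hj0
    intro y hy
    have hy' : y ∈ ex Ω (st j).1 := ex_mono Ω (hj0.trans (hge j)) hy
    rw [dist_comm]
    exact lt_of_le_of_lt (hbound j y hy') hj
  · intro j
    refine ⟨zz j (st j), hz j (st j), ?_⟩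
    have h1 : zz j (st j) ∈ ex Ω (st (j + 1)).1 := by
      rw [hst]; exact hzn j (st j)
    have h2 := hbound (j + 1) _ h1
    have h3 := hR j (st j)
    rw [hst] at h2
    simp only [Pi.add_apply] at h2
    set S := (st j).2 (zz j (st j)) with hS
    set B := QQ j (st j) (zz j (st j)) with hB
    have h4 : (2 : ℝ) * (1 / 2) ^ (j + 1) ≤ 1 := by
      have : (1 / 2 : ℝ) ^ j ≤ 1 := pow_le_one₀ (by norm_num) (by norm_num)
      rw [pow_succ]; linarith
    rw [dist_eq_norm] at h2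
    have h5 : ‖B‖ ≤ ‖S + B - f (zz j (st j))‖ + ‖S‖ + ‖f (zz j (st j))‖ := by
      have : B = (S + B - f (zz j (st j))) - S + f (zz j (st j)) := by ring
      calc ‖B‖ = ‖(S + B - f (zz j (st j))) - S + f (zz j (st j))‖ := by rw [← this]
        _ ≤ ‖(S + B - f (zz j (st j))) - S‖ + ‖f (zz j (st j))‖ := norm_add_le _ _
        _ ≤ _ := by gcongr; exact norm_sub_le _ _
    linarith

/-- **Cartan-Thullen**, for the hulls of any algebra `A` of functions holomorphic on `Ω`. -/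
theorem cartan_thullen_alg {Ω : Set (Fin m → ℂ)} (hΩ : IsOpen Ω)
    (A : Subalgebra ℂ ((Fin m → ℂ) → ℂ)) (hA : ∀ g ∈ A, DifferentiableOn ℂ g Ω)
    (hhull : ∀ K : Set (Fin m → ℂ), IsCompact K → K ⊆ Ω → IsCompact (hullA A Ω K)) :
    ∃ (P : ℕ → (Fin m → ℂ) → ℂ) (f : (Fin m → ℂ) → ℂ), (∀ j, P j ∈ A) ∧
      TendstoLocallyUniformlyOn P f atTop Ω ∧ Nonextendable Ω f := by
  classical
  rcases Ω.eq_empty_or_nonempty with rfl | ⟨a0, ha0⟩
  · refine ⟨fun _ => 0, 0, fun _ => A.zero_mem, ?_, ?_, ?_⟩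
    · intro u hu x hx; exact absurd hx (notMem_empty x)
    · intro x hx; exact absurd hx (notMem_empty x)
    · intro U V _ _ _ _ hVne hVsub _
      obtain ⟨v, hv⟩ := hVne
      exact (hVsub hv).2
  rcases Ωᶜ.eq_empty_or_nonempty with hc | hne
  · refine ⟨fun _ => 0, 0, fun _ => A.zero_mem, ?_, ?_, ?_⟩
    · intro u hu x hx
      refine ⟨univ, univ_mem, Eventually.of_forall fun n y _ => ?_⟩
      simpa using refl_mem_uniformity hu
    · exact differentiableOn_const _
    · intro U V _ _ hUΩ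
      exact absurd (fun x _ => by
        by_contra hx
        have : x ∈ Ωᶜ := hx
        rw [hc] at this
        exact this) hUΩ
  -- the dense sequence, each point infinitely often
  let d : ℕ → (Fin m → ℂ) := TopologicalSpace.denseSeq (Fin m → ℂ)
  let ζ : ℕ → (Fin m → ℂ) := fun j => if d (Nat.unpair j).1 ∈ Ω then d (Nat.unpair j).1 else a0
  have hζ : ∀ j, ζ j ∈ Ω := by
    intro j
    simp only [ζ]
    split_ifs with h
    · exact h
    · exact ha0
  obtain ⟨P, f, hPA, hPf, hbig⟩ := exists_series hΩ hne A hhull ζ hζ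
  have hfd : DifferentiableOn ℂ f Ω :=
    differentiableOn_of_tendsto hΩ (fun n => hA _ (hPA n)) hPf
  refine ⟨P, f, hPA, hPf, hfd, ?_⟩
  rintro U V hU hUc hUΩ hV ⟨v, hv⟩ hVsub ⟨g, hg, hgf⟩
  have hvΩ : v ∈ U ∩ Ω := hVsub hv
  have hUΩo : IsOpen (U ∩ Ω) := hU.inter hΩ
  set W : Set (Fin m → ℂ) := connectedComponentIn (U ∩ Ω) v with hW
  have hWo : IsOpen W := hUΩo.connectedComponentIn
  have hWc : IsPreconnected W := isPreconnected_connectedComponentIn
  have hWsub : W ⊆ U ∩ Ω := connectedComponentIn_subset _ _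
  have hvW : v ∈ W := mem_connectedComponentIn hvΩ
  have hgW : ∀ x ∈ W, g x = f x := by
    have hd : DifferentiableOn ℂ (fun x => g x - f x) W :=
      (hg.mono fun x hx => (hWsub hx).1).sub (hfd.mono fun x hx => (hWsub hx).2)
    have := eq_zero_of_eq_zero hWo hWc hd hV ⟨v, hvW, hv⟩ (fun x hx => by
      show g x - f x = 0
      rw [hgf hx.2, sub_self])
    intro x hx
    exact sub_eq_zero.1 (this x hx)
  -- a boundary point of `W` inside `U`
  have hbd : ∃ x0 ∈ closure W ∩ U, x0 ∉ W := by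
    by_contra hcon
    push Not at hcon
    have : U ⊆ W := hUc.isPreconnected.subset_of_closure_inter_subset hWo ⟨v, hvΩ.1, hvW⟩
      (fun x hx => hcon x hx)
    exact hUΩ (this.trans (hWsub.trans inter_subset_right))
  obtain ⟨x0, ⟨hx0c, hx0U⟩, hx0W⟩ := hbd
  have hx0Ω : x0 ∉ Ω := by
    intro hx0Ω
    obtain ⟨r, hr, hball⟩ := Metric.isOpen_iff.1 hUΩo x0 ⟨hx0U, hx0Ω⟩
    obtain ⟨w, hwW, hwd⟩ := Metric.mem_closure_iff.1 hx0c r hr
    have h1 : ball x0 r ⊆ connectedComponentIn (U ∩ Ω) w :=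
      (convex_ball x0 r).isPreconnected.subset_connectedComponentIn
        (by rw [mem_ball, dist_comm]; exact hwd) hball
    have h2 : connectedComponentIn (U ∩ Ω) v = connectedComponentIn (U ∩ Ω) w :=
      connectedComponentIn_eq hwW
    exact hx0W (by rw [hW, h2]; exact h1 (mem_ball_self hr))
  obtain ⟨r0, hr0, hball0⟩ := Metric.isOpen_iff.1 hU x0 hx0U
  set r : ℝ := r0 / 4 with hr
  have hr1 : 0 < r := by positivity
  have hclU : closedBall x0 (2 * r) ⊆ U := by
    intro y hy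
    apply hball0
    rw [mem_closedBall] at hy
    rw [mem_ball]
    linarith
  obtain ⟨w, hwW, hwd⟩ := Metric.mem_closure_iff.1 hx0c r hr1
  have hopen : IsOpen (W ∩ ball x0 r) := hWo.inter isOpen_ball
  obtain ⟨i, hi⟩ := (TopologicalSpace.denseRange_denseSeq (Fin m → ℂ)).exists_mem_open hopen
    ⟨w, hwW, by rw [mem_ball, dist_comm]; exact hwd⟩
  have hiΩ : d i ∈ Ω := (hWsub hi.1).2
  have hρ : infDist (d i) Ωᶜ < r := by
    have h1 : infDist (d i) Ωᶜ ≤ dist (d i) x0 := infDist_le_dist_of_mem hx0Ω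
    exact lt_of_le_of_lt h1 hi.2
  have hDsub : ball (d i) (infDist (d i) Ωᶜ) ⊆ closedBall x0 (2 * r) := by
    intro y hy
    rw [mem_ball] at hy
    rw [mem_closedBall]
    have h2 : dist (d i) x0 < r := hi.2
    linarith [dist_triangle y (d i) x0]
  have hdW : ball (d i) (infDist (d i) Ωᶜ) ⊆ W := by
    have hpos : 0 < infDist (d i) Ωᶜ :=
      (hΩ.isClosed_compl.notMem_iff_infDist_pos hne).1 (fun h => h hiΩ)
    have h1 : ball (d i) (infDist (d i) Ωᶜ) ⊆ connectedComponentIn (U ∩ Ω) (d i) :=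
      (convex_ball (d i) _).isPreconnected.subset_connectedComponentIn (mem_ball_self hpos)
        (fun y hy => ⟨hclU (hDsub hy), maxBall_subset Ω _ hy⟩)
    have h2 : connectedComponentIn (U ∩ Ω) v = connectedComponentIn (U ∩ Ω) (d i) :=
      connectedComponentIn_eq hi.1
    rw [hW, h2]
    exact h1
  obtain ⟨M, hM⟩ := (isCompact_closedBall x0 (2 * r)).exists_bound_of_continuousOn
    (hg.continuousOn.mono hclU)
  obtain ⟨N, hN⟩ := exists_nat_gt M
  obtain ⟨z, hz, hzN⟩ := hbig (Nat.pair i N)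
  have hζi : ζ (Nat.pair i N) = d i := by
    simp only [ζ, Nat.unpair_pair]
    rw [if_pos hiΩ]
  rw [hζi] at hz
  have h1 : ‖g z‖ ≤ M := hM z (hDsub hz)
  rw [hgW z (hdW hz)] at h1
  have h2 : (N : ℝ) ≤ (Nat.pair i N : ℕ) := by exact_mod_cast Nat.right_le_pair i N
  linarith

/-- The algebra of polynomial functions. -/
noncomputable def polyAlg (m : ℕ) : Subalgebra ℂ ((Fin m → ℂ) → ℂ) :=
  (AlgHom.pi (R := ℂ) fun a : Fin m → ℂ => MvPolynomial.aeval a).range

lemma mem_polyAlg {g : (Fin m → ℂ) → ℂ} :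
    g ∈ polyAlg m ↔ ∃ P : MvPolynomial (Fin m) ℂ, ∀ a, MvPolynomial.eval a P = g a := by
  constructor
  · rintro ⟨P, rfl⟩
    exact ⟨P, fun a => rfl⟩
  · rintro ⟨P, hP⟩
    exact ⟨P, funext fun a => hP a⟩

lemma hullA_polyAlg (Ω K : Set (Fin m → ℂ)) : hullA (polyAlg m) Ω K = polyHull K ∩ Ω := by
  ext a
  constructor
  · rintro ⟨haΩ, h⟩
    refine ⟨fun P M hM => ?_, haΩ⟩
    exact h _ (mem_polyAlg.2 ⟨P, fun _ => rfl⟩) M hM
  · rintro ⟨h, haΩ⟩
    refine ⟨haΩ, fun g hg M hM => ?_⟩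
    obtain ⟨P, hP⟩ := mem_polyAlg.1 hg
    rw [← hP a]
    exact h P M fun b hb => by rw [hP b]; exact hM b hb

/-- **Cartan-Thullen**, for polynomial hulls. -/
theorem cartan_thullen {Ω : Set (Fin m → ℂ)} (hΩ : IsOpen Ω)
    (hhull : ∀ K : Set (Fin m → ℂ), IsCompact K → K ⊆ Ω → IsCompact (polyHull K ∩ Ω)) :
    ∃ (P : ℕ → MvPolynomial (Fin m) ℂ) (f : (Fin m → ℂ) → ℂ),
      TendstoLocallyUniformlyOn (fun (j : ℕ) a => MvPolynomial.eval a (P j)) f atTop Ω ∧
      Nonextendable Ω f := by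
  obtain ⟨g, f, hgA, hgf, hf⟩ := cartan_thullen_alg hΩ (polyAlg m)
    (fun g hg => by
      obtain ⟨P, hP⟩ := mem_polyAlg.1 hg
      have : g = fun a => MvPolynomial.eval a P := funext fun a => (hP a).symm
      rw [this]
      exact (differentiable_eval P).differentiableOn)
    (fun K hK hKΩ => by rw [hullA_polyAlg]; exact hhull K hK hKΩ)
  choose P hP using fun j => mem_polyAlg.1 (hgA j)
  refine ⟨P, f, ?_, hf⟩
  have : (fun (j : ℕ) a => MvPolynomial.eval a (P j)) = g := by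
    funext j a; exact hP j a
  rw [this]
  exact hgf

/-- The algebra of the functions that are holomorphic on `Ω`. -/
def holAlg (Ω : Set (Fin m → ℂ)) : Subalgebra ℂ ((Fin m → ℂ) → ℂ) where
  carrier := {g | DifferentiableOn ℂ g Ω}
  mul_mem' := fun ha hb => DifferentiableOn.mul ha hb
  add_mem' := fun ha hb => DifferentiableOn.add ha hb
  algebraMap_mem' := fun c => differentiableOn_const c

/-- **Cartan-Thullen**: an open set whose holomorphic hulls are compact is a domain of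
holomorphy. -/
theorem isDomainOfHolomorphy {Ω : Set (Fin m → ℂ)} (hΩ : IsOpen Ω)
    (hhull : ∀ K : Set (Fin m → ℂ), IsCompact K → K ⊆ Ω →
      IsCompact {a | a ∈ Ω ∧ ∀ g : (Fin m → ℂ) → ℂ, DifferentiableOn ℂ g Ω →
        ∀ M : ℝ, (∀ b ∈ K, ‖g b‖ ≤ M) → ‖g a‖ ≤ M}) : IsDomainOfHolomorphy Ω := by
  obtain ⟨g, f, -, -, hf⟩ := cartan_thullen_alg hΩ (holAlg Ω) (fun g hg => hg) hhull
  exact ⟨hΩ, f, hf⟩

end hull

end CT
end Hyp20
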