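import Pool.Agent.Lib.Hyp.Stmt20

/-!
Cartan-Thullen (helper32), general form: `A` a set of functions holomorphic on the open set
`Ω`, containing the constants and closed under sums and products. If the `A`-hull (in `Ω`) of
each compact `K ⊆ Ω` is compact, then some locally uniform limit on `Ω` of members of `A` extends
holomorphically across no boundary point of `Ω`. Applied to polynomials and to all functions
holomorphic on `Ω`.
-/

namespace Hyp20

namespace CT

open Filter Topology Metric Set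

/-! ### Identity theorem in several variables, by complex lines -/

theorem eqOn_zero {E : Type} [NormedAddCommGroup E] [NormedSpace ℂ E] {W V : Set E} {h : E → ℂ}
    (hW : IsOpen W) (hWc : IsPreconnected W) (hh : DifferentiableOn ℂ h W) (hV : IsOpen V)
    (hVne : V.Nonempty) (hVW : V ⊆ W) (h0 : ∀ x ∈ V, h x = 0) : ∀ x ∈ W, h x = 0 := by
  have key : W ⊆ interior {x | h x = 0} := by
    apply hWc.subset_of_closure_inter_subset isOpen_interior
    · obtain ⟨v, hv⟩ := hVne
      refine ⟨v, hVW hv, ?_⟩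
      exact mem_interior.2 ⟨V, fun x hx => h0 x hx, hV, hv⟩
    · rintro p ⟨hp, hpW⟩
      obtain ⟨ρ, hρ, hball⟩ := Metric.isOpen_iff.1 hW p hpW
      obtain ⟨q, hq, hqp⟩ := Metric.mem_closure_iff.1 hp ρ hρ
      rw [mem_interior]
      refine ⟨ball p ρ, ?_, isOpen_ball, mem_ball_self hρ⟩
      intro z hz
      have hqb : q ∈ ball p ρ := by rwa [mem_ball, dist_comm]
      let L : ℂ → E := fun t => q + t • (z - q)
      have hL : Differentiable ℂ L := by fun_prop
      have hLc : Continuous L := hL.continuous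
      let S : Set ℂ := L ⁻¹' ball p ρ
      have hSo : IsOpen S := isOpen_ball.preimage hLc
      have hSconv : Convex ℝ S := by
        intro s hs t ht a b ha hb hab
        have h1 : L (a • s + b • t) = a • L s + b • L t := by
          have hb' : b = 1 - a := by linarith
          subst hb'
          simp only [L, smul_add, add_smul, sub_smul, one_smul, smul_assoc]
          abel
        show L (a • s + b • t) ∈ ball p ρ
        rw [h1]
        exact convex_ball p ρ hs ht ha hb hab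
      have hφ : DifferentiableOn ℂ (fun t => h (L t)) S := by
        intro t ht
        have h1 : DifferentiableAt ℂ h (L t) := (hh.differentiableAt (hW.mem_nhds (hball ht)))
        exact (h1.comp t hL.differentiableAt).differentiableWithinAt
      have han := hφ.analyticOnNhd hSo
      have h0S : (0 : ℂ) ∈ S := by simpa [S, L] using hqb
      have h1S : (1 : ℂ) ∈ S := by simpa [S, L] using hz
      have hev : (fun t => h (L t)) =ᶠ[𝓝 0] 0 := by
        have : L 0 ∈ interior {x | h x = 0} := by simpa [L] using hq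
        have h2 := hLc.continuousAt.preimage_mem_nhds (isOpen_interior.mem_nhds this)
        filter_upwards [h2] with t ht
        have h3 : L t ∈ {x | h x = 0} := interior_subset (s := {x | h x = 0}) ht
        exact h3
      have := han.eqOn_zero_of_preconnected_of_eventuallyEq_zero hSconv.isPreconnected h0S hev h1S
      simpa [L] using this
  intro x hx
  have h3 : x ∈ {x | h x = 0} := interior_subset (s := {x | h x = 0}) (key hx)
  exact h3

/-! ### Cauchy estimate for the derivative -/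

theorem norm_fderiv_le {E : Type} [NormedAddCommGroup E] [NormedSpace ℂ E] {h : E → ℂ} {U : Set E}
    (hU : IsOpen U) (hh : DifferentiableOn ℂ h U) {x : E} {r C : ℝ} (hr : 0 < r)
    (hsub : closedBall x r ⊆ U)
    (hC : ∀ y ∈ closedBall x r, ‖h y‖ ≤ C) : ‖fderiv ℂ h x‖ ≤ C / r := by
  have hC0 : 0 ≤ C := (norm_nonneg _).trans (hC x (mem_closedBall_self hr.le))
  apply ContinuousLinearMap.opNorm_le_bound _ (by positivity)
  intro v
  by_cases hv : v = 0
  · simp [hv]
  have hv' : 0 < ‖v‖ := norm_pos_iff.2 hv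
  let L : ℂ → E := fun t => x + t • v
  have hL : ∀ t, HasDerivAt L v t := by
    intro t
    have := (hasDerivAt_id t).smul_const v
    simpa [L] using this.const_add x
  have hLb : ∀ t ∈ closedBall (0 : ℂ) (r / ‖v‖), L t ∈ closedBall x r := by
    intro t ht
    rw [mem_closedBall, dist_eq_norm]
    have ht' : ‖t‖ ≤ r / ‖v‖ := by simpa using ht
    simp only [L, add_sub_cancel_left, norm_smul]
    calc ‖t‖ * ‖v‖ ≤ r / ‖v‖ * ‖v‖ := by gcongr
      _ = r := div_mul_cancel₀ _ hv'.ne'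
  have hφ : ∀ t ∈ closedBall (0 : ℂ) (r / ‖v‖),
      HasDerivAt (fun t => h (L t)) (fderiv ℂ h (L t) v) t := fun t ht =>
    (hh.differentiableAt (hU.mem_nhds (hsub (hLb t ht)))).hasFDerivAt.comp_hasDerivAt t (hL t)
  have h1 : ‖deriv (fun t => h (L t)) 0‖ ≤ C / (r / ‖v‖) := by
    apply Complex.norm_deriv_le_of_forall_mem_sphere_norm_le (by positivity)
    · have hdiff : DifferentiableOn ℂ (fun t => h (L t)) (closedBall (0 : ℂ) (r / ‖v‖)) :=
        fun t ht => (hφ t ht).differentiableAt.differentiableWithinAt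
      exact hdiff.diffContOnCl_ball le_rfl
    · intro t ht
      exact hC _ (hLb t (sphere_subset_closedBall ht))
  rw [(hφ 0 (mem_closedBall_self (by positivity))).deriv] at h1
  have h2 : L 0 = x := by simp [L]
  rw [h2] at h1
  calc ‖fderiv ℂ h x v‖ ≤ C / (r / ‖v‖) := h1
    _ = C / r * ‖v‖ := by field_simp

/-! ### The series -/

section Series

variable {m : ℕ} {R : ℕ → (Fin m → ℂ) → ℂ} {K : ℕ → Set (Fin m → ℂ)}

theorem series_tendsto (hK : Monotone K) (hR : ∀ j, ∀ x ∈ K j, ‖R j x‖ ≤ (1 / 2) ^ j) (J : ℕ) :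
    TendstoUniformlyOn (fun N x => ∑ j ∈ Finset.range N, R j x)
      (fun x => ∑' j, R j x) atTop (K J) := by
  refine tendstoUniformlyOn_tsum_nat_eventually (u := fun j => (1 / 2 : ℝ) ^ j)
    summable_geometric_two ?_
  filter_upwards [eventually_ge_atTop J] with j hj x hx
  exact hR j x (hK hj hx)

theorem series_locally (hK : Monotone K) (hR : ∀ j, ∀ x ∈ K j, ‖R j x‖ ≤ (1 / 2) ^ j)
    {Om : Set (Fin m → ℂ)} (hcov : ∀ x ∈ Om, ∃ J, x ∈ interior (K J)) :
    TendstoLocallyUniformlyOn (fun N x => ∑ j ∈ Finset.range N, R j x)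
      (fun x => ∑' j, R j x) atTop Om := by
  intro u hu x hx
  obtain ⟨J, hJ⟩ := hcov x hx
  refine ⟨K J, mem_nhdsWithin_of_mem_nhds (mem_interior_iff_mem_nhds.1 hJ), ?_⟩
  exact series_tendsto hK hR J u hu

theorem series_differentiable (hK : Monotone K) (hR : ∀ j, ∀ x ∈ K j, ‖R j x‖ ≤ (1 / 2) ^ j)
    {Om : Set (Fin m → ℂ)} (hOm : IsOpen Om) (hd : ∀ j, DifferentiableOn ℂ (R j) Om)
    (hKO : ∀ j, K j ⊆ Om) (hcov : ∀ x ∈ Om, ∃ J, x ∈ interior (K J)) :
    DifferentiableOn ℂ (fun x => ∑' j, R j x) Om := by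
  intro x hx
  obtain ⟨J, hJ⟩ := hcov x hx
  obtain ⟨r, hr, hball⟩ := Metric.isOpen_iff.1 isOpen_interior x hJ
  have hr2 : 0 < r / 2 := by positivity
  have hdd : TendstoUniformlyOn
      (fun N y => ∑ j ∈ Finset.range N, fderiv ℂ (R j) y)
      (fun y => ∑' j, fderiv ℂ (R j) y) atTop (ball x (r / 2)) := by
    refine tendstoUniformlyOn_tsum_nat_eventually (u := fun j => (1 / 2 : ℝ) ^ j / (r / 4))
      (summable_geometric_two.div_const _) ?_
    filter_upwards [eventually_ge_atTop J] with j hj y hy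
    have hsub : closedBall y (r / 4) ⊆ K J := by
      intro z hz
      apply interior_subset (hball _)
      rw [mem_ball] at hy ⊢
      rw [mem_closedBall] at hz
      calc dist z x ≤ dist z y + dist y x := dist_triangle _ _ _
        _ < r / 4 + r / 2 := by linarith
        _ < r := by linarith
    exact norm_fderiv_le hOm (hd j) (by positivity) (hsub.trans (hKO J))
      fun z hz => hR j z (hK hj (hsub hz))
  have hs : ball x (r / 2) ⊆ K J := fun y hy =>
    interior_subset (hball (ball_subset_ball (by linarith) hy))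
  have := hasFDerivAt_of_tendstoUniformlyOn (x := x) isOpen_ball hdd
    (f := fun N x => ∑ j ∈ Finset.range N, R j x)
    (g := fun x => ∑' j, R j x)
    (fun N y hy => HasFDerivAt.fun_sum fun j _ =>
      ((hd j).differentiableAt (hOm.mem_nhds (hKO J (hs hy)))).hasFDerivAt)
    (fun y hy => (series_tendsto hK hR J).tendsto_at (hs hy)) (mem_ball_self hr2)
  exact this.differentiableAt.differentiableWithinAt

end Series

/-! ### The choice of points and functions -/

/-- A set of functions containing the constants and closed under sums and products. -/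
structure IsAlg {m : ℕ} (A : Set ((Fin m → ℂ) → ℂ)) : Prop where
  const : ∀ c : ℂ, (fun _ => c) ∈ A
  add : ∀ g ∈ A, ∀ h ∈ A, (fun x => g x + h x) ∈ A
  mul : ∀ g ∈ A, ∀ h ∈ A, (fun x => g x * h x) ∈ A

theorem IsAlg.pow {m : ℕ} {A : Set ((Fin m → ℂ) → ℂ)} (hA : IsAlg A) {g : (Fin m → ℂ) → ℂ}
    (hg : g ∈ A) (N : ℕ) : (fun x => g x ^ N) ∈ A := by
  induction N with
  | zero => simpa using hA.const 1
  | succ N ih => simpa [pow_succ] using hA.mul _ ih _ hg

theorem IsAlg.sum {m : ℕ} {A : Set ((Fin m → ℂ) → ℂ)} (hA : IsAlg A)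
    {R : ℕ → (Fin m → ℂ) → ℂ} (hR : ∀ j, R j ∈ A) (N : ℕ) :
    (fun x => ∑ j ∈ Finset.range N, R j x) ∈ A := by
  induction N with
  | zero => simpa using hA.const 0
  | succ N ih => simpa [Finset.sum_range_succ] using hA.add _ ih _ (hR N)

/-- The hull of `K` in `Om` with respect to the set of functions `A`. -/
def hullA {m : ℕ} (A : Set ((Fin m → ℂ) → ℂ)) (Om K : Set (Fin m → ℂ)) : Set (Fin m → ℂ) :=
  {a | a ∈ Om ∧ ∀ g ∈ A, ∀ M : ℝ, (∀ b ∈ K, ‖g b‖ ≤ M) → ‖g a‖ ≤ M}

/-- One step: a function small on `K`, large at a point outside the hull. -/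
theorem step_fun {m : ℕ} {A : Set ((Fin m → ℂ) → ℂ)} (hA : IsAlg A) {Om K : Set (Fin m → ℂ)}
    {w : Fin m → ℂ} (hwO : w ∈ Om) (hw : w ∉ hullA A Om K) {ε : ℝ}
    (hε : 0 < ε) (B : ℝ) : ∃ R ∈ A, (∀ x ∈ K, ‖R x‖ ≤ ε) ∧ B ≤ ‖R w‖ := by
  have hw' : ¬ ∀ g ∈ A, ∀ M : ℝ, (∀ b ∈ K, ‖g b‖ ≤ M) → ‖g w‖ ≤ M := fun h => hw ⟨hwO, h⟩
  push Not at hw'
  obtain ⟨P, hPA, M, hM, hPw⟩ := hw'
  rcases K.eq_empty_or_nonempty with hKe | ⟨b, hb⟩
  · refine ⟨fun _ => ((max B 0 : ℝ) : ℂ), hA.const _, by simp [hKe], ?_⟩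
    rw [Complex.norm_real]
    exact (le_max_left B 0).trans (le_abs_self _)
  have hM0 : 0 ≤ M := (norm_nonneg _).trans (hM b hb)
  have hw0 : 0 < ‖P w‖ := lt_of_le_of_lt hM0 hPw
  let v : ℂ := P w
  have hv : v ≠ 0 := norm_pos_iff.1 hw0
  let θ : ℝ := M / ‖v‖
  have hθ0 : 0 ≤ θ := by positivity
  have hθ1 : θ < 1 := (div_lt_one hw0).2 hPw
  let c : ℝ := max B 0
  have hc : 0 ≤ c := le_max_right _ _
  obtain ⟨N, hN⟩ := exists_pow_lt_of_lt_one (show 0 < ε / (c + 1) by positivity) hθ1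
  refine ⟨fun x => (c : ℂ) * (v⁻¹ * P x) ^ N,
    hA.mul _ (hA.const _) _ (hA.pow (hA.mul _ (hA.const _) _ hPA) N), fun x hx => ?_, ?_⟩
  · have h1 : ‖v⁻¹ * P x‖ ≤ θ := by
      simp only [norm_mul, norm_inv]
      calc ‖v‖⁻¹ * ‖P x‖ ≤ ‖v‖⁻¹ * M := by
            gcongr
            exact hM x hx
        _ = θ := by simp only [θ]; field_simp
    show ‖(c : ℂ) * (v⁻¹ * P x) ^ N‖ ≤ ε
    rw [norm_mul, norm_pow, Complex.norm_real, Real.norm_of_nonneg hc]
    calc c * ‖v⁻¹ * P x‖ ^ N ≤ c * θ ^ N := by gcongr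
      _ ≤ (c + 1) * θ ^ N := by
          have := pow_nonneg hθ0 N
          nlinarith
      _ ≤ (c + 1) * (ε / (c + 1)) := by gcongr
      _ = ε := by field_simp
  · show B ≤ ‖(c : ℂ) * (v⁻¹ * P w) ^ N‖
    have h1 : v⁻¹ * P w = 1 := inv_mul_cancel₀ hv
    rw [h1, one_pow, mul_one, Complex.norm_real, Real.norm_of_nonneg hc]
    exact le_max_left _ _

theorem ball_sub {m : ℕ} {Om : Set (Fin m → ℂ)} (z : Fin m → ℂ) :
    ball z (infDist z Omᶜ) ⊆ Om := by
  intro w hw
  by_contra hwO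
  have h1 : infDist z Omᶜ ≤ dist z w := infDist_le_dist_of_mem hwO
  rw [mem_ball, dist_comm] at hw
  linarith

/-- One step: a point of the ball `B(z, dist(z, complement))` outside the hull of a compact set. -/
theorem step_point {m : ℕ} {A : Set ((Fin m → ℂ) → ℂ)} {Om : Set (Fin m → ℂ)}
    (hne : Omᶜ.Nonempty) (hOm : IsOpen Om)
    (hhull : ∀ K : Set (Fin m → ℂ), IsCompact K → K ⊆ Om → IsCompact (hullA A Om K))
    {K : Set (Fin m → ℂ)} (hK : IsCompact K) (hKO : K ⊆ Om) {z : Fin m → ℂ} (hz : z ∈ Om) :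
    ∃ w, w ∈ ball z (infDist z Omᶜ) ∧ w ∉ hullA A Om K := by
  by_contra hcon
  push Not at hcon
  have hcl : IsClosed Omᶜ := hOm.isClosed_compl
  have hzc : z ∉ Omᶜ := fun h => h hz
  have hr : 0 < infDist z Omᶜ := (hcl.notMem_iff_infDist_pos hne).1 hzc
  have hC := (hhull K hK hKO).isClosed
  have h2 : closedBall z (infDist z Omᶜ) ⊆ hullA A Om K := by
    rw [← closure_ball z hr.ne']
    exact closure_minimal hcon hC
  obtain ⟨y, hy, hzy⟩ := hcl.exists_infDist_eq_dist hne z
  have h3 : y ∈ closedBall z (infDist z Omᶜ) := by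
    rw [mem_closedBall, dist_comm, hzy]
  exact hy (h2 h3).1

/-- The exhaustion of an open set by compact sets. -/
def exh {m : ℕ} (Om : Set (Fin m → ℂ)) (n : ℕ) : Set (Fin m → ℂ) :=
  closedBall 0 n ∩ {x | 1 / ((n : ℝ) + 1) ≤ infDist x Omᶜ}

theorem exh_compact {m : ℕ} (Om : Set (Fin m → ℂ)) (n : ℕ) : IsCompact (exh Om n) := by
  refine (isCompact_closedBall _ _).inter_right ?_
  exact isClosed_le continuous_const (continuous_infDist_pt _)

theorem exh_subset {m : ℕ} {Om : Set (Fin m → ℂ)} (n : ℕ) : exh Om n ⊆ Om := by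
  rintro x ⟨_, hx⟩
  by_contra h
  have h1 : infDist x Omᶜ = 0 := infDist_zero_of_mem h
  simp only [mem_ofPred_eq, h1] at hx
  have : 0 < 1 / ((n : ℝ) + 1) := by positivity
  linarith

theorem exh_mono {m : ℕ} (Om : Set (Fin m → ℂ)) : Monotone (exh Om) := by
  intro a b hab x hx
  refine ⟨closedBall_subset_closedBall (by exact_mod_cast hab) hx.1, ?_⟩
  have h2 : 1 / ((a : ℝ) + 1) ≤ infDist x Omᶜ := hx.2
  have : 1 / ((b : ℝ) + 1) ≤ 1 / ((a : ℝ) + 1) := by gcongr
  exact this.trans h2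

theorem exh_cover {m : ℕ} {Om : Set (Fin m → ℂ)} (hOm : IsOpen Om) (hne : Omᶜ.Nonempty)
    {x : Fin m → ℂ} (hx : x ∈ Om) : ∃ n, x ∈ interior (exh Om n) := by
  have hzc : x ∉ Omᶜ := fun h => h hx
  have hr : 0 < infDist x Omᶜ := (hOm.isClosed_compl.notMem_iff_infDist_pos hne).1 hzc
  obtain ⟨n1, hn1⟩ := exists_nat_gt ‖x‖
  obtain ⟨n2, hn2⟩ := exists_nat_one_div_lt hr
  let n := max n1 n2
  refine ⟨n, mem_interior.2 ⟨ball 0 n ∩ {y | 1 / ((n : ℝ) + 1) < infDist y Omᶜ}, ?_, ?_, ?_⟩⟩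
  · intro y hy
    have h2 : 1 / ((n : ℝ) + 1) < infDist y Omᶜ := hy.2
    exact ⟨ball_subset_closedBall hy.1, h2.le⟩
  · exact isOpen_ball.inter (isOpen_lt continuous_const (continuous_infDist_pt _))
  · constructor
    · rw [mem_ball_zero_iff]
      have : (n1 : ℝ) ≤ n := by exact_mod_cast le_max_left _ _
      linarith
    · show 1 / ((n : ℝ) + 1) < infDist x Omᶜ
      refine lt_of_le_of_lt ?_ hn2
      have : (n2 : ℝ) ≤ n := by exact_mod_cast le_max_right _ _
      gcongr

/-- The state of the construction: the points chosen so far and the sum so far. -/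
abbrev State {m : ℕ} (Om : Set (Fin m → ℂ)) : Type :=
  {S : Set (Fin m → ℂ) // S.Finite ∧ S ⊆ Om} × ((Fin m → ℂ) → ℂ)

theorem exists_sequence {m : ℕ} {A : Set ((Fin m → ℂ) → ℂ)} (hA : IsAlg A)
    {Om : Set (Fin m → ℂ)} (hOm : IsOpen Om) (hne : Omᶜ.Nonempty)
    (hhull : ∀ K : Set (Fin m → ℂ), IsCompact K → K ⊆ Om → IsCompact (hullA A Om K))
    (ζ : ℕ → Fin m → ℂ) (hζ : ∀ n, ζ n ∈ Om) :
    ∃ (R : ℕ → (Fin m → ℂ) → ℂ) (w : ℕ → Fin m → ℂ), (∀ n, R n ∈ A) ∧
      (∀ n, w n ∈ ball (ζ n) (infDist (ζ n) Omᶜ)) ∧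
      (∀ n, ∀ x ∈ exh Om n, ‖R n x‖ ≤ (1 / 2) ^ n) ∧
      (∀ n, ∀ i < n, ‖R n (w i)‖ ≤ (1 / 2) ^ n) ∧
      (∀ n : ℕ, (n : ℝ) + 1 + ‖∑ i ∈ Finset.range n, R i (w n)‖ ≤ ‖R n (w n)‖) := by
  have hstep : ∀ (n : ℕ) (st : State Om), ∃ (w : Fin m → ℂ) (R : (Fin m → ℂ) → ℂ),
      R ∈ A ∧ w ∈ Om ∧ w ∈ ball (ζ n) (infDist (ζ n) Omᶜ) ∧
      (∀ x ∈ exh Om n ∪ st.1.1, ‖R x‖ ≤ (1 / 2) ^ n) ∧
      (n : ℝ) + 1 + ‖st.2 w‖ ≤ ‖R w‖ := by
    intro n st
    obtain ⟨w, hw, hwh⟩ := step_point hne hOm hhull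
      ((exh_compact Om n).union st.1.2.1.isCompact) (union_subset (exh_subset n) st.1.2.2) (hζ n)
    have hwO : w ∈ Om := ball_sub _ hw
    obtain ⟨R, hRA, h1, h2⟩ := step_fun hA hwO hwh (show (0 : ℝ) < (1 / 2) ^ n by positivity)
      ((n : ℝ) + 1 + ‖st.2 w‖)
    exact ⟨w, R, hRA, hwO, hw, h1, h2⟩
  choose w R hRA hwO hwb hRs hRl using hstep
  let next : ℕ → State Om → State Om := fun n st =>
    (⟨insert (w n st) st.1.1, st.1.2.1.insert _, insert_subset (hwO n st) st.1.2.2⟩,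
      fun x => st.2 x + R n st x)
  let st : ℕ → State Om := fun n => Nat.rec (⟨∅, finite_empty, empty_subset _⟩, fun _ => 0) next n
  have hst : ∀ n, st (n + 1) = next n (st n) := fun n => rfl
  have hsum : ∀ n x, (st n).2 x = ∑ i ∈ Finset.range n, R i (st i) x := by
    intro n x
    induction n with
    | zero => rfl
    | succ n ih => rw [hst, Finset.sum_range_succ, ← ih]
  have hmem : ∀ n, ∀ i < n, w i (st i) ∈ (st n).1.1 := by
    intro n
    induction n with
    | zero => intro i hi; exact absurd hi (by omega)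
    | succ n ih =>
      intro i hi
      rw [hst]
      rcases Nat.lt_succ_iff_lt_or_eq.1 hi with h | h
      · exact mem_insert_of_mem _ (ih i h)
      · subst h; exact mem_insert _ _
  refine ⟨fun n => R n (st n), fun n => w n (st n), fun n => hRA n (st n), fun n => hwb n (st n),
    fun n x hx => hRs n (st n) x (Or.inl hx), fun n i hi => hRs n (st n) _ (Or.inr (hmem n i hi)),
    fun n => ?_⟩
  have := hRl n (st n)
  rwa [hsum n] at this

/-- The constructed function is large at the chosen points. -/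
theorem large_at {m : ℕ} {R : ℕ → (Fin m → ℂ) → ℂ} {x : Fin m → ℂ} {n : ℕ}
    (h1 : ∀ k, n < k → ‖R k x‖ ≤ (1 / 2) ^ k)
    (h2 : (n : ℝ) + 1 + ‖∑ i ∈ Finset.range n, R i x‖ ≤ ‖R n x‖) :
    (n : ℝ) ≤ ‖∑' j, R j x‖ := by
  have hgeo : Summable (fun k : ℕ => (1 / 2 : ℝ) ^ (k + (n + 1))) :=
    (summable_nat_add_iff (n + 1)).2 summable_geometric_two
  have hb : ∀ k : ℕ, ‖R (k + (n + 1)) x‖ ≤ (1 / 2 : ℝ) ^ (k + (n + 1)) :=
    fun k => h1 _ (by omega)
  have hs' : Summable (fun k : ℕ => R (k + (n + 1)) x) := Summable.of_norm_bounded hgeo hb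
  have hs : Summable (fun k : ℕ => R k x) := (summable_nat_add_iff (n + 1)).1 hs'
  have htail : ‖∑' k, R (k + (n + 1)) x‖ ≤ 1 := by
    calc ‖∑' k, R (k + (n + 1)) x‖ ≤ ∑' k : ℕ, (1 / 2 : ℝ) ^ (k + (n + 1)) :=
          tsum_of_norm_bounded hgeo.hasSum hb
      _ = (1 / 2) ^ (n + 1) * ∑' k : ℕ, (1 / 2 : ℝ) ^ k := by
          rw [← tsum_mul_left]
          congr 1
          funext k
          rw [pow_add, mul_comm]
      _ = (1 / 2) ^ (n + 1) * 2 := by rw [tsum_geometric_two]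
      _ = (1 / 2) ^ n := by rw [pow_succ]; ring
      _ ≤ 1 := pow_le_one₀ (by norm_num) (by norm_num)
  rw [← hs.sum_add_tsum_nat_add (n + 1), Finset.sum_range_succ]
  set S := ∑ i ∈ Finset.range n, R i x
  set B := R n x
  set T := ∑' k, R (k + (n + 1)) x
  have h3 : ‖B‖ ≤ ‖S + B + T‖ + ‖S‖ + ‖T‖ := by
    have : B = (S + B + T) - S - T := by ring
    calc ‖B‖ = ‖(S + B + T) - S - T‖ := by rw [← this]
      _ ≤ ‖(S + B + T) - S‖ + ‖T‖ := norm_sub_le _ _
      _ ≤ ‖S + B + T‖ + ‖S‖ + ‖T‖ := by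
          have := norm_sub_le (S + B + T) S
          linarith
  linarith

/-- **Cartan-Thullen**, general form: a non-extendable locally uniform limit of members of `A`. -/
theorem cartan_thullen_gen {m : ℕ} {Om : Set (Fin m → ℂ)} (hOm : IsOpen Om)
    {A : Set ((Fin m → ℂ) → ℂ)} (hA : IsAlg A) (hAd : ∀ g ∈ A, DifferentiableOn ℂ g Om)
    (hhull : ∀ K : Set (Fin m → ℂ), IsCompact K → K ⊆ Om → IsCompact (hullA A Om K)) :
    ∃ (P : ℕ → (Fin m → ℂ) → ℂ) (f : (Fin m → ℂ) → ℂ), (∀ j, P j ∈ A) ∧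
      TendstoLocallyUniformlyOn P f atTop Om ∧ Nonextendable Om f := by
  -- trivial cases
  rcases Omᶜ.eq_empty_or_nonempty with huniv | hne
  · refine ⟨fun _ _ => 0, fun _ => 0, fun _ => hA.const 0, ?_, differentiableOn_const _, ?_⟩
    · intro u hu x hx
      refine ⟨univ, Filter.univ_mem, Eventually.of_forall fun n y _ => ?_⟩
      exact refl_mem_uniformity hu
    · intro U V _ _ hU
      exact absurd (fun x _ => by
        by_contra h
        exact (huniv ▸ h : x ∈ (∅ : Set (Fin m → ℂ)))) hU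
  rcases Om.eq_empty_or_nonempty with hempty | hOne
  · subst hempty
    refine ⟨fun _ _ => 0, fun _ => 0, fun _ => hA.const 0, ?_, differentiableOn_const _, ?_⟩
    · intro u hu x hx
      exact absurd hx (notMem_empty x)
    · intro U V _ _ _ _ hV hVU
      obtain ⟨v, hv⟩ := hV
      exact absurd (hVU hv).2 (notMem_empty v)
  have : Nonempty Om := hOne.to_subtype
  let z : ℕ → Om := TopologicalSpace.denseSeq Om
  let ζ : ℕ → Fin m → ℂ := fun n => z n.unpair.1
  obtain ⟨R, w, hRA, hwb, hR, hRw, hRl⟩ := exists_sequence hA hOm hne hhull ζ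
    (fun n => (z n.unpair.1).2)
  let f : (Fin m → ℂ) → ℂ := fun x => ∑' j, R j x
  have hcov : ∀ x ∈ Om, ∃ J, x ∈ interior (exh Om J) := fun x hx => exh_cover hOm hne hx
  have hdf : DifferentiableOn ℂ f Om := series_differentiable (exh_mono Om) hR hOm
    (fun j => hAd _ (hRA j)) exh_subset hcov
  refine ⟨fun N x => ∑ j ∈ Finset.range N, R j x, f, hA.sum hRA,
    series_locally (exh_mono Om) hR hcov, hdf, ?_⟩
  -- `f` is unbounded on each ball around a point of the dense sequence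
  have hunb : ∀ (k M : ℕ), ∃ y ∈ ball (z k : Fin m → ℂ) (infDist (z k : Fin m → ℂ) Omᶜ),
      (M : ℝ) ≤ ‖f y‖ := by
    intro k M
    let n := Nat.pair k M
    have hn : n.unpair.1 = k := by simp [n]
    have hMn : M ≤ n := Nat.right_le_pair k M
    refine ⟨w n, ?_, ?_⟩
    · have := hwb n
      simpa [ζ, hn] using this
    · have h1 := large_at (x := w n) (n := n) (R := R) (fun k hk => hRw k n hk) (hRl n)
      have h2 : (M : ℝ) ≤ n := by exact_mod_cast hMn
      exact h2.trans h1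
  intro U V hUo hUc hUn hVo hVne hVU
  rintro ⟨g, hg, hgf⟩
  obtain ⟨v, hv⟩ := hVne
  have hvU := hVU hv
  let W : Set (Fin m → ℂ) := connectedComponentIn (U ∩ Om) v
  have hWo : IsOpen W := (hUo.inter hOm).connectedComponentIn
  have hWc : IsPreconnected W := isPreconnected_connectedComponentIn
  have hWsub : W ⊆ U ∩ Om := connectedComponentIn_subset _ _
  have hvW : v ∈ W := mem_connectedComponentIn hvU
  -- `g = f` on `W`
  have hWgf : ∀ x ∈ W, g x - f x = 0 := by
    refine eqOn_zero hWo hWc (h := fun x => g x - f x) (V := V ∩ W) ?_ (hVo.inter hWo)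
      ⟨v, hv, hvW⟩ inter_subset_right ?_
    · exact (hg.mono fun x hx => (hWsub hx).1).fun_sub (hdf.mono fun x hx => (hWsub hx).2)
    · rintro x ⟨hx, _⟩
      simp [hgf hx]
  -- a boundary point of `W` inside `U`
  have hex : ∃ p ∈ U, p ∈ closure W ∧ p ∉ W := by
    by_contra hcon
    push Not at hcon
    have : U ⊆ W := by
      apply hUc.isPreconnected.subset_of_closure_inter_subset hWo ⟨v, hvU.1, hvW⟩
      rintro x ⟨hx1, hx2⟩
      exact hcon x hx2 hx1
    exact hUn fun x hx => (hWsub (this hx)).2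
  obtain ⟨p, hpU, hpcl, hpW⟩ := hex
  have hpO : p ∉ Om := by
    intro hpO
    obtain ⟨ε, hε, hb⟩ := Metric.isOpen_iff.1 (hUo.inter hOm) p ⟨hpU, hpO⟩
    obtain ⟨q, hq, hpq⟩ := Metric.mem_closure_iff.1 hpcl ε hε
    have hqb : q ∈ ball p ε := by rwa [mem_ball, dist_comm]
    have h1 : ball p ε ⊆ connectedComponentIn (U ∩ Om) q :=
      (convex_ball p ε).isPreconnected.subset_connectedComponentIn hqb hb
    have h2 : connectedComponentIn (U ∩ Om) q = W := (connectedComponentIn_eq hq).symm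
    exact hpW (h2 ▸ h1 (mem_ball_self hε))
  obtain ⟨ε, hε, hb⟩ := Metric.isOpen_iff.1 hUo p hpU
  -- `g` is bounded on a closed ball around `p`
  have hcomp : IsCompact (closedBall p (ε / 2)) := isCompact_closedBall _ _
  have hsubU : closedBall p (ε / 2) ⊆ U :=
    (closedBall_subset_ball (by linarith)).trans hb
  obtain ⟨C, hC⟩ := hcomp.exists_bound_of_continuousOn (hg.continuousOn.mono hsubU)
  -- a point of the dense sequence in `W` near `p`
  obtain ⟨q, hq, hpq⟩ := Metric.mem_closure_iff.1 hpcl (ε / 4) (by linarith)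
  let T : Set Om := (Subtype.val) ⁻¹' (W ∩ ball p (ε / 4))
  have hTo : IsOpen T := (hWo.inter isOpen_ball).preimage continuous_subtype_val
  have hTne : T.Nonempty := ⟨⟨q, (hWsub hq).2⟩, hq, by rwa [mem_ball, dist_comm]⟩
  obtain ⟨y, hyT, k, hk⟩ := (TopologicalSpace.denseRange_denseSeq Om).inter_open_nonempty T hTo hTne
  have hyk : (z k) = y := hk
  have hkW : (z k : Fin m → ℂ) ∈ W := by rw [hyk]; exact hyT.1
  have hkb : (z k : Fin m → ℂ) ∈ ball p (ε / 4) := by rw [hyk]; exact hyT.2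
  have hr : infDist (z k : Fin m → ℂ) Omᶜ < ε / 4 := by
    have h1 : infDist (z k : Fin m → ℂ) Omᶜ ≤ dist (z k : Fin m → ℂ) p := infDist_le_dist_of_mem hpO
    exact h1.trans_lt hkb
  have hballsub : ball (z k : Fin m → ℂ) (infDist (z k : Fin m → ℂ) Omᶜ) ⊆ closedBall p (ε / 2) := by
    intro x hx
    rw [mem_ball] at hx hkb
    rw [mem_closedBall]
    calc dist x p ≤ dist x (z k) + dist (z k : Fin m → ℂ) p := dist_triangle _ _ _
      _ ≤ ε / 2 := by linarith
  have hballO : ball (z k : Fin m → ℂ) (infDist (z k : Fin m → ℂ) Omᶜ) ⊆ Om := by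
    intro x hx
    by_contra hxO
    have h3 : infDist (z k : Fin m → ℂ) Omᶜ ≤ dist (z k : Fin m → ℂ) x := infDist_le_dist_of_mem hxO
    rw [mem_ball, dist_comm] at hx
    linarith
  have hrpos : 0 < infDist (z k : Fin m → ℂ) Omᶜ :=
    (hOm.isClosed_compl.notMem_iff_infDist_pos hne).1 fun h => h (z k).2
  have hballW : ball (z k : Fin m → ℂ) (infDist (z k : Fin m → ℂ) Omᶜ) ⊆ W := by
    have h1 : ball (z k : Fin m → ℂ) (infDist (z k : Fin m → ℂ) Omᶜ) ⊆
        connectedComponentIn (U ∩ Om) (z k) :=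
      (convex_ball _ _).isPreconnected.subset_connectedComponentIn (mem_ball_self hrpos)
        fun x hx => ⟨hsubU (hballsub hx), hballO hx⟩
    have h2 : connectedComponentIn (U ∩ Om) (z k : Fin m → ℂ) = W :=
      (connectedComponentIn_eq hkW).symm
    exact h2 ▸ h1
  obtain ⟨M, hM⟩ := exists_nat_gt C
  obtain ⟨y', hy', hyM⟩ := hunb k M
  have h1 := hC y' (hballsub hy')
  have h2 := hWgf y' (hballW hy')
  have h3 : g y' = f y' := sub_eq_zero.1 h2
  rw [h3] at h1
  linarith

/-! ### Polynomials -/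

theorem differentiable_eval {m : ℕ} (P : MvPolynomial (Fin m) ℂ) :
    Differentiable ℂ (fun x : Fin m → ℂ => MvPolynomial.eval x P) := by
  induction P using MvPolynomial.induction_on with
  | C a => simp
  | add p q hp hq =>
    have h1 := hp.fun_add hq
    simpa using h1
  | mul_X p i hp =>
    have h0 : Differentiable ℂ (fun x : Fin m → ℂ => x i) := differentiable_apply i
    have h1 := hp.fun_mul h0
    simpa using h1

/-- **Cartan-Thullen** for the polynomial hull: a non-extendable limit of polynomials. -/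
theorem cartan_thullen {m : ℕ} {Om : Set (Fin m → ℂ)} (hOm : IsOpen Om)
    (hhull : ∀ K : Set (Fin m → ℂ), IsCompact K → K ⊆ Om → IsCompact (polyHull K ∩ Om)) :
    ∃ (P : ℕ → MvPolynomial (Fin m) ℂ) (f : (Fin m → ℂ) → ℂ),
      TendstoLocallyUniformlyOn (fun j a => MvPolynomial.eval a (P j)) f atTop Om ∧
      Nonextendable Om f := by
  let A : Set ((Fin m → ℂ) → ℂ) := {g | ∃ P : MvPolynomial (Fin m) ℂ,
    g = fun x => MvPolynomial.eval x P}
  have hA : IsAlg A :=
    { const := fun c => ⟨MvPolynomial.C c, by funext x; simp⟩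
      add := by
        rintro g ⟨P, rfl⟩ h ⟨Q, rfl⟩
        exact ⟨P + Q, by funext x; simp⟩
      mul := by
        rintro g ⟨P, rfl⟩ h ⟨Q, rfl⟩
        exact ⟨P * Q, by funext x; simp⟩ }
  have hAd : ∀ g ∈ A, DifferentiableOn ℂ g Om := by
    rintro g ⟨P, rfl⟩
    exact (differentiable_eval P).differentiableOn
  have hh : ∀ K : Set (Fin m → ℂ), IsCompact K → K ⊆ Om → IsCompact (hullA A Om K) := by
    intro K hK hKO
    have : hullA A Om K = polyHull K ∩ Om := by
      ext a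
      constructor
      · rintro ⟨h1, h2⟩
        exact ⟨fun P M hM => h2 _ ⟨P, rfl⟩ M hM, h1⟩
      · rintro ⟨h1, h2⟩
        refine ⟨h2, ?_⟩
        rintro g ⟨P, rfl⟩ M hM
        exact h1 P M hM
    rw [this]
    exact hhull K hK hKO
  obtain ⟨P, f, hP, h1, h2⟩ := cartan_thullen_gen hOm hA hAd hh
  choose Q hQ using hP
  refine ⟨Q, f, ?_, h2⟩
  have : (fun (j : ℕ) (a : Fin m → ℂ) => MvPolynomial.eval a (Q j)) = P := by
    funext j
    exact (hQ j).symm
  rw [this]
  exact h1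

/-- **Cartan-Thullen** for all functions holomorphic on `Om`: if the hulls of compact sets are
compact, then `Om` is a domain of holomorphy. -/
theorem isDomainOfHolomorphy_of_hull {m : ℕ} {Om : Set (Fin m → ℂ)} (hOm : IsOpen Om)
    (hhull : ∀ K : Set (Fin m → ℂ), IsCompact K → K ⊆ Om →
      IsCompact (hullA {g | DifferentiableOn ℂ g Om} Om K)) : IsDomainOfHolomorphy Om := by
  have hA : IsAlg {g : (Fin m → ℂ) → ℂ | DifferentiableOn ℂ g Om} :=
    { const := fun c => differentiableOn_const c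
      add := fun g hg h hh => DifferentiableOn.fun_add hg hh
      mul := fun g hg h hh => DifferentiableOn.fun_mul hg hh }
  obtain ⟨P, f, -, -, h2⟩ := cartan_thullen_gen hOm hA (fun g hg => hg) hhull
  exact ⟨hOm, f, h2⟩

end CT

end Hyp20
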