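import Pool.Agent.Lib.Hyp.Local20

/-!
MP_47150b_an, module M4 (helper11): the estimates along critical orbits are uniform on compact
sets of expanding polynomials, and these polynomials form an open set.
-/

namespace Hyp20

open Filter Topology Metric

/-- The derivative of the polynomial. -/
noncomputable def dmap (n : ℕ) (a : Fin (n - 1) → ℂ) (z : ℂ) : ℂ :=
  (Polynomial.derivative (pol n a)).eval z

lemma dmap_eq (n : ℕ) (a : Fin (n - 1) → ℂ) (z : ℂ) :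
    dmap n a z = n * z ^ (n - 1) + ∑ i : Fin (n - 1), a i * ((i : ℕ) * z ^ ((i : ℕ) - 1)) := by
  simp [dmap, pol, Polynomial.eval_finsetSum, Polynomial.derivative_X_pow]

lemma continuous_dmap (n : ℕ) :
    Continuous fun x : (Fin (n - 1) → ℂ) × ℂ => dmap n x.1 x.2 := by
  simp only [dmap_eq]
  fun_prop

lemma isCritical_iff (n : ℕ) (a : Fin (n - 1) → ℂ) (c : ℂ) : IsCritical n a c ↔ dmap n a c = 0 :=
  Iff.rfl

/-- Bound for the critical points. -/
lemma norm_le_of_isCritical {n : ℕ} (hn : 2 ≤ n) {a : Fin (n - 1) → ℂ} {A : ℝ} (hA : 0 ≤ A)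
    (ha : ∀ i, ‖a i‖ ≤ A) {c : ℂ} (hc : IsCritical n a c) : ‖c‖ ≤ 1 + n * A := by
  by_contra hcon
  push Not at hcon
  have hn0 : (0 : ℝ) < n := by exact_mod_cast (by omega : 0 < n)
  have hc1 : 1 ≤ ‖c‖ := by
    have : 0 ≤ (n : ℝ) * A := by positivity
    linarith
  rw [isCritical_iff, dmap_eq, add_eq_zero_iff_eq_neg] at hc
  have h1 : ‖(n : ℂ) * c ^ (n - 1)‖ = n * (‖c‖ * ‖c‖ ^ (n - 2)) := by
    rw [norm_mul, norm_pow, Complex.norm_natCast, ← pow_succ']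
    congr 3
    omega
  have h2 : ‖∑ i : Fin (n - 1), a i * ((i : ℕ) * c ^ ((i : ℕ) - 1))‖ ≤
      ∑ _i : Fin (n - 1), A * (n * ‖c‖ ^ (n - 2)) := by
    refine (norm_sum_le _ _).trans (Finset.sum_le_sum fun i _ => ?_)
    rw [norm_mul, norm_mul, norm_pow, Complex.norm_natCast]
    have hi := i.2
    have h3 : ((i : ℕ) : ℝ) ≤ n := by
      have : (i : ℕ) ≤ n := by omega
      exact_mod_cast this
    have h4 : ‖c‖ ^ ((i : ℕ) - 1) ≤ ‖c‖ ^ (n - 2) := pow_le_pow_right₀ hc1 (by omega)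
    have h5 : 0 ≤ ‖c‖ ^ ((i : ℕ) - 1) := by positivity
    exact mul_le_mul (ha i) (mul_le_mul h3 h4 h5 hn0.le) (by positivity) hA
  rw [Finset.sum_const, Finset.card_univ, Fintype.card_fin, nsmul_eq_mul] at h2
  have h3 : n * (‖c‖ * ‖c‖ ^ (n - 2)) ≤ ((n - 1 : ℕ) : ℝ) * (A * (n * ‖c‖ ^ (n - 2))) := by
    rw [← h1, hc, norm_neg]; exact h2
  have h4 : 0 < ‖c‖ ^ (n - 2) := pow_pos (by linarith) _
  have h5 : ((n - 1 : ℕ) : ℝ) ≤ n := by exact_mod_cast Nat.sub_le n 1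
  have h6 : ‖c‖ * (n * ‖c‖ ^ (n - 2)) ≤ (n * A) * (n * ‖c‖ ^ (n - 2)) := by
    calc ‖c‖ * (n * ‖c‖ ^ (n - 2)) = n * (‖c‖ * ‖c‖ ^ (n - 2)) := by ring
      _ ≤ ((n - 1 : ℕ) : ℝ) * (A * (n * ‖c‖ ^ (n - 2))) := h3
      _ ≤ n * (A * (n * ‖c‖ ^ (n - 2))) := by gcongr
      _ = (n * A) * (n * ‖c‖ ^ (n - 2)) := by ring
  have h7 : ‖c‖ ≤ n * A := le_of_mul_le_mul_right h6 (by positivity)
  linarith

/-- The set of pairs (parameter in a compact set, critical point) is compact. -/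
lemma isCompact_critical {n : ℕ} (hn : 2 ≤ n) {K : Set (Fin (n - 1) → ℂ)} (hK : IsCompact K) :
    IsCompact {x : (Fin (n - 1) → ℂ) × ℂ | x.1 ∈ K ∧ IsCritical n x.1 x.2} := by
  obtain ⟨A, hA⟩ := hK.isBounded.exists_norm_le
  have hsub : {x : (Fin (n - 1) → ℂ) × ℂ | x.1 ∈ K ∧ IsCritical n x.1 x.2} ⊆
      K ×ˢ closedBall (0 : ℂ) (1 + n * max A 0) := by
    rintro ⟨a, c⟩ ⟨ha, hc⟩
    refine ⟨ha, ?_⟩
    rw [mem_closedBall_zero_iff]
    refine norm_le_of_isCritical hn (le_max_right _ _) (fun i => ?_) hc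
    exact (norm_le_pi_norm a i).trans ((hA a ha).trans (le_max_left _ _))
  refine (hK.prod (isCompact_closedBall _ _)).of_isClosed_subset ?_ hsub
  exact (hK.isClosed.preimage continuous_fst).inter
    (isClosed_singleton.preimage (continuous_dmap n))

/-- The property used in the compactness argument. -/
def GoodSet (n : ℕ) (S : Set ((Fin (n - 1) → ℂ) × ℂ)) : Prop :=
  ∃ (N k0 : ℕ) (C ρ : ℝ), 1 ≤ N ∧ 0 ≤ C ∧ 0 ≤ ρ ∧ ρ < 1 ∧
    ∀ x ∈ S, EstPt n x.1 x.2 N k0 C ρ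

lemma goodSet_empty (n : ℕ) : GoodSet n ∅ :=
  ⟨1, 0, 0, 0, le_rfl, le_rfl, le_rfl, one_pos, fun _ hx => absurd hx (Set.notMem_empty _)⟩

lemma GoodSet.mono {n : ℕ} {S T : Set ((Fin (n - 1) → ℂ) × ℂ)} (hST : S ⊆ T)
    (h : GoodSet n T) : GoodSet n S := by
  obtain ⟨N, k0, C, ρ, h1, h2, h3, h4, h5⟩ := h
  exact ⟨N, k0, C, ρ, h1, h2, h3, h4, fun x hx => h5 x (hST hx)⟩

lemma GoodSet.union {n : ℕ} {S T : Set ((Fin (n - 1) → ℂ) × ℂ)} (hS : GoodSet n S)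
    (hT : GoodSet n T) : GoodSet n (S ∪ T) := by
  obtain ⟨N, k0, C, ρ, h1, h2, h3, h4, h5⟩ := hS
  obtain ⟨N', k0', C', ρ', h1', h2', h3', h4', h5'⟩ := hT
  have e1 : 0 ≤ C * N' := by positivity
  have e2 : 0 ≤ C' * N := by positivity
  refine ⟨N * N', max k0 k0', C * N' + C' * N, max ρ ρ', Nat.mul_pos h1 h1',
    by positivity, h3.trans (le_max_left _ _), max_lt h4 h4', ?_⟩
  rintro x (hx | hx)
  · exact ((h5 x hx).mul h1' h2 h3 h4.le).mono (le_max_left _ _) e1 (by linarith) h3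
      (le_max_left _ _)
  · rw [mul_comm N N']
    exact ((h5' x hx).mul h1 h2' h3' h4'.le).mono (le_max_right _ _) e2 (by linarith) h3'
      (le_max_right _ _)

/-- **The uniform estimate on a compact set of expanding polynomials.** -/
theorem cert {n : ℕ} (hn : 2 ≤ n) {K : Set (Fin (n - 1) → ℂ)} (hK : IsCompact K)
    (hKE : K ⊆ ExpandingBdd n) :
    ∃ (N k0 : ℕ) (C ρ : ℝ), 1 ≤ N ∧ 0 ≤ C ∧ 0 ≤ ρ ∧ ρ < 1 ∧
      ∀ a ∈ K, Est n a N k0 C ρ := by
  have key : GoodSet n {x : (Fin (n - 1) → ℂ) × ℂ | x.1 ∈ K ∧ IsCritical n x.1 x.2} := by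
    refine (isCompact_critical hn hK).induction_on (p := GoodSet n) (goodSet_empty n)
      (fun S T hST h => h.mono hST) (fun S T hS hT => hS.union hT) ?_
    rintro ⟨a, c⟩ ⟨ha, hc⟩
    obtain ⟨N, k0, h1, C, ρ, h2, h3, h4, h5⟩ := local_est a c (hKE ha c hc)
    exact ⟨_, mem_nhdsWithin_of_mem_nhds h5, N, k0, C, ρ, h1, h2, h3.le, h4, fun x hx => hx⟩
  obtain ⟨N, k0, C, ρ, h1, h2, h3, h4, h5⟩ := key
  exact ⟨N, k0, C, ρ, h1, h2, h3, h4, fun a ha c hc => h5 (a, c) ⟨ha, hc⟩⟩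

/-- The estimate along one orbit gives convergence to a finite attracting cycle. -/
theorem tendsToFiniteCycle_of_estPt {n : ℕ} {a : Fin (n - 1) → ℂ} {c : ℂ} {N k0 : ℕ} {C ρ : ℝ}
    (hN : 1 ≤ N) (hρ : ρ < 1) (h : EstPt n a c N k0 C ρ) :
    TendsToFiniteCycle (pmap n a) c := by
  set f := pmap n a with hf
  have hcau : CauchySeq (fun k : ℕ => f^[(k + k0) * N] c) := by
    refine cauchySeq_of_le_geometric ρ (C * ρ ^ k0) hρ ?_
    intro k
    have h1 := (h (k + k0) (by omega)).1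
    rw [dist_comm, dist_eq_norm]
    have e : k + 1 + k0 = k + k0 + 1 := by ring
    rw [e]
    refine h1.trans (le_of_eq ?_)
    rw [pow_add]; ring
  obtain ⟨β, hβ⟩ := cauchySeq_tendsto_of_complete hcau
  have hβ' : Tendsto (fun k : ℕ => f^[k * N] c) atTop (𝓝 β) :=
    (tendsto_add_atTop_iff_nat (f := fun k : ℕ => f^[k * N] c) k0).1 hβ
  refine ⟨N, hN, β, ?_, ?_, ?_⟩
  · have h2 : Tendsto (fun k : ℕ => f^[N] (f^[k * N] c)) atTop (𝓝 (f^[N] β)) :=
      ((continuous_iter n a N).tendsto β).comp hβ'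
    have h3 : (fun k : ℕ => f^[N] (f^[k * N] c)) = fun k : ℕ => f^[(k + 1) * N] c := by
      funext k
      rw [← Function.iterate_add_apply]
      congr 2
      ring
    rw [h3] at h2
    have h4 : Tendsto (fun k : ℕ => f^[(k + 1) * N] c) atTop (𝓝 β) :=
      (tendsto_add_atTop_iff_nat (f := fun k : ℕ => f^[k * N] c) 1).2 hβ'
    exact tendsto_nhds_unique h2 h4
  · have h2 : Tendsto (fun k : ℕ => ‖deriv (f^[N]) (f^[k * N] c)‖) atTop
        (𝓝 ‖deriv (f^[N]) β‖) :=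
      ((continuous_deriv_iter n a N).norm.tendsto β).comp hβ'
    have h3 : ‖deriv (f^[N]) β‖ ≤ ρ := by
      refine le_of_tendsto h2 ?_
      filter_upwards [eventually_ge_atTop k0] with k hk
      exact (h k hk).2
    exact lt_of_le_of_lt h3 hρ
  · have e : (fun k : ℕ => f^[N * k] c) = fun k : ℕ => f^[k * N] c := by
      funext k; rw [mul_comm]
    rw [e]; exact hβ'

/-- The set of expanding polynomials with bounded critical orbits is open. -/
theorem isOpen_expandingBdd {n : ℕ} (hn : 2 ≤ n) : IsOpen (ExpandingBdd n) := by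
  rw [isOpen_iff_mem_nhds]
  intro a0 ha0
  have h1 : ∀ᶠ a in 𝓝 a0, ∀ c ∈ closedBall (0 : ℂ) (1 + n * (‖a0‖ + 1)),
      IsCritical n a c → TendsToFiniteCycle (pmap n a) c := by
    apply (isCompact_closedBall _ _).eventually_forall_of_forall_eventually
    intro c0 _
    by_cases hc0 : IsCritical n a0 c0
    · obtain ⟨N, k0, hN, C, ρ, _, _, hρ1, h5⟩ := local_est a0 c0 (ha0 c0 hc0)
      filter_upwards [h5] with x hx _
      exact tendsToFiniteCycle_of_estPt hN hρ1 hx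
    · have h2 : ∀ᶠ x : (Fin (n - 1) → ℂ) × ℂ in 𝓝 (a0, c0), dmap n x.1 x.2 ≠ 0 :=
        ((continuous_dmap n).tendsto (a0, c0)).eventually (isOpen_ne.mem_nhds hc0)
      filter_upwards [h2] with x hx hcx
      exact absurd hcx hx
  have h2 : ∀ᶠ a in 𝓝 a0, ‖a‖ < ‖a0‖ + 1 :=
    (continuous_norm.tendsto a0).eventually (gt_mem_nhds (by linarith))
  filter_upwards [h1, h2] with a ha1 ha2 c hc
  refine ha1 c ?_ hc
  rw [mem_closedBall_zero_iff]
  exact norm_le_of_isCritical hn (by positivity)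
    (fun i => (norm_le_pi_norm a i).trans ha2.le) hc

end Hyp20
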