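import Pool.Agent.Lib.Hyp.Lit95

/-!
`B(z^n)` is relatively closed in the set of expanding maps with bounded critical orbits
(helper95).
-/

namespace Hyp95

open Topology Set Metric Hyp20

theorem exists_deriv_bound {f : ℂ → ℂ} (hf : Differentiable ℂ f) {α : ℂ}
    (hd : ‖deriv f α‖ < 1) {η : ℝ} (hη : 0 < η) :
    ∃ θ s : ℝ, 0 < θ ∧ θ < 1 ∧ 0 < s ∧ s ≤ η ∧ ∀ z ∈ closedBall α s, ‖deriv f z‖ ≤ θ := by
  obtain ⟨θ, hθ1, hθ2⟩ := exists_between hd
  have hcd : ContinuousAt (fun z => ‖deriv f z‖) α :=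
    ((hf.analyticAt α).deriv.continuousAt).norm
  have hev : ∀ᶠ z in 𝓝 α, ‖deriv f z‖ < θ := hcd.eventually_lt continuousAt_const hθ1
  obtain ⟨s, hs, hb⟩ := Metric.eventually_nhds_iff_ball.mp hev
  refine ⟨θ, min (s / 2) η, lt_of_le_of_lt (norm_nonneg _) hθ1, hθ2, by positivity,
    min_le_right _ _, fun z hz => (hb z ?_).le⟩
  have : dist z α ≤ s / 2 := le_trans hz (min_le_left _ _)
  rw [mem_ball]
  linarith

theorem contract {f : ℂ → ℂ} (hf : Differentiable ℂ f) {α : ℂ} (h0 : f α = α) {θ s : ℝ}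
    (hs : 0 < s) (hb : ∀ z ∈ closedBall α s, ‖deriv f z‖ ≤ θ) :
    ∀ z ∈ closedBall α s, ‖f z - α‖ ≤ θ * ‖z - α‖ := by
  intro z hz
  have := (convex_closedBall α s).norm_image_sub_le_of_norm_deriv_le (𝕜 := ℂ)
    (f := f) (C := θ) (fun x _ => hf.differentiableAt) hb (mem_closedBall_self hs.le) hz
  rwa [h0] at this

theorem attract_nhds {f : ℂ → ℂ} (hf : Differentiable ℂ f) {α : ℂ} (h0 : f α = α)
    (hd : ‖deriv f α‖ < 1) :
    ∀ᶠ z in 𝓝 α, Filter.Tendsto (fun k => f^[k] z) Filter.atTop (𝓝 α) := by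
  obtain ⟨θ, s, hθ0, hθ1, hs, -, hb⟩ := exists_deriv_bound hf hd one_pos
  have hc := contract hf h0 hs hb
  filter_upwards [closedBall_mem_nhds α hs] with z hz
  have hz' : ∀ k, f^[k] z ∈ closedBall α s ∧ ‖f^[k] z - α‖ ≤ θ ^ k * ‖z - α‖ := by
    intro k
    induction k with
    | zero => exact ⟨hz, by simp⟩
    | succ k ih =>
      rw [Function.iterate_succ_apply']
      have h1 := hc _ ih.1
      have h2 : ‖f^[k] z - α‖ ≤ s := by
        have := ih.1
        rwa [mem_closedBall, dist_eq_norm] at this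
      refine ⟨?_, ?_⟩
      · rw [mem_closedBall, dist_eq_norm]
        nlinarith [norm_nonneg (f^[k] z - α)]
      · calc ‖f (f^[k] z) - α‖ ≤ θ * ‖f^[k] z - α‖ := h1
          _ ≤ θ * (θ ^ k * ‖z - α‖) := mul_le_mul_of_nonneg_left ih.2 hθ0.le
          _ = θ ^ (k + 1) * ‖z - α‖ := by ring
  rw [tendsto_iff_norm_sub_tendsto_zero]
  refine squeeze_zero (fun _ => norm_nonneg _) (fun k => (hz' k).2) ?_
  have := (tendsto_pow_atTop_nhds_zero_of_lt_one hθ0.le hθ1).mul_const ‖z - α‖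
  simpa using this

/-- A small disc about an attracting periodic point is mapped to itself for nearby parameters. -/
theorem trap {n : ℕ} {a₀ : Fin (n - 1) → ℂ} {q : ℕ} {α : ℂ}
    (hα : (pmap n a₀)^[q] α = α) (hd : ‖deriv ((pmap n a₀)^[q]) α‖ < 1) {η : ℝ} (hη : 0 < η) :
    ∃ s, 0 < s ∧ s ≤ η ∧
      ∀ᶠ a in 𝓝 a₀, MapsTo ((pmap n a)^[q]) (closedBall α s) (closedBall α s) := by
  have hf := differentiable_iter n a₀ q
  obtain ⟨θ, s, hθ0, hθ1, hs, hsη, hb⟩ := exists_deriv_bound hf hd hη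
  have hc := contract hf hα hs hb
  refine ⟨s, hs, hsη, ?_⟩
  have : ∀ᶠ a in 𝓝 a₀, ∀ z ∈ closedBall α s, ‖(pmap n a)^[q] z - α‖ < s := by
    refine (isCompact_closedBall α s).eventually_forall_of_forall_eventually ?_
    intro z hz
    have h1 : ‖(pmap n a₀)^[q] z - α‖ < s := by
      have h2 := hc z hz
      have h3 : ‖z - α‖ ≤ s := by rwa [mem_closedBall, dist_eq_norm] at hz
      nlinarith [norm_nonneg (z - α)]
    exact ((continuous_iter n q).sub continuous_const).norm.continuousAt.eventually_lt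
      continuousAt_const h1
  filter_upwards [this] with a ha z hz
  rw [mem_closedBall, dist_eq_norm]
  exact (ha z hz).le

/-- For nearby parameters all of whose critical points tend to one point `ζ`, the point `ζ` is
close to the limit `α` of any critical orbit of the limiting map. -/
theorem near_fixed {n : ℕ} (hn : 2 ≤ n) {a₀ : Fin (n - 1) → ℂ} {q : ℕ} (hq : 1 ≤ q) {α c : ℂ}
    (hα : (pmap n a₀)^[q] α = α) (hd : ‖deriv ((pmap n a₀)^[q]) α‖ < 1)
    (hc : IsCritical n a₀ c)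
    (ht : Filter.Tendsto (fun k : ℕ => (pmap n a₀)^[q * k] c) Filter.atTop (𝓝 α))
    {η : ℝ} (hη : 0 < η) :
    ∀ᶠ a in 𝓝 a₀, ∀ ζ : ℂ, (∀ c', IsCritical n a c' →
      Filter.Tendsto (fun k => (pmap n a)^[k] c') Filter.atTop (𝓝 ζ)) → ‖ζ - α‖ ≤ η := by
  obtain ⟨s, hs, hsη, hmaps⟩ := trap hα hd hη
  obtain ⟨K, hK⟩ := ((Metric.tendsto_atTop.mp ht) s hs)
  have hK' : (pmap n a₀)^[q * K] c ∈ ball α s := hK K le_rfl
  have hev : ∀ᶠ p : (Fin (n - 1) → ℂ) × ℂ in 𝓝 (a₀, c), (pmap n p.1)^[q * K] p.2 ∈ ball α s :=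
    (continuous_iter n (q * K)).continuousAt.preimage_mem_nhds (isOpen_ball.mem_nhds hK')
  rw [nhds_prod_eq, Filter.eventually_prod_iff] at hev
  obtain ⟨pa, hpa, pb, hpb, hpab⟩ := hev
  obtain ⟨δ, hδ, hδb⟩ := Metric.eventually_nhds_iff_ball.mp hpb
  obtain ⟨ε, hε, hclose⟩ := crit_close hn a₀ hδ
  filter_upwards [hmaps, hpa, Metric.ball_mem_nhds a₀ hε] with a h1 h2 h3 ζ hζ
  obtain ⟨c', hc', hcc'⟩ := (hclose a (by rwa [← dist_eq_norm])).2 c hc
  have h4 : (pmap n a)^[q * K] c' ∈ closedBall α s := by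
    apply ball_subset_closedBall
    apply hpab h2
    apply hδb
    rw [mem_ball, dist_comm, dist_eq_norm]
    exact hcc'
  have h5 : ∀ j, (pmap n a)^[q * (K + j)] c' ∈ closedBall α s := by
    intro j
    induction j with
    | zero => simpa using h4
    | succ j ih =>
      rw [show q * (K + (j + 1)) = q + q * (K + j) by ring, Function.iterate_add_apply]
      exact h1 ih
  have h6 : Filter.Tendsto (fun j => (pmap n a)^[q * (K + j)] c') Filter.atTop (𝓝 ζ) := by
    refine (hζ c' hc').comp ?_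
    refine Filter.tendsto_atTop_mono (fun j => ?_) Filter.tendsto_id
    have : K + j ≤ q * (K + j) := Nat.le_mul_of_pos_left _ hq
    simp only [id]
    omega
  have h7 : ζ ∈ closedBall α s :=
    isClosed_closedBall.mem_of_tendsto h6 (Filter.Eventually.of_forall h5)
  rw [mem_closedBall, dist_eq_norm] at h7
  exact h7.trans hsη

theorem closure_allToOne {n : ℕ} (hn : 2 ≤ n) :
    closure (AllToOne n) ∩ ExpandingBdd n ⊆ AllToOne n := by
  classical
  rintro a₀ ⟨hcl, hE⟩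
  have : (𝓝[AllToOne n] a₀).NeBot := mem_closure_iff_nhdsWithin_neBot.mp hcl
  let Z : (Fin (n - 1) → ℂ) → ℂ := fun a => if h : a ∈ AllToOne n then h.choose else 0
  have hZ : ∀ a ∈ AllToOne n, pmap n a (Z a) = Z a ∧ ∀ c, IsCritical n a c →
      Filter.Tendsto (fun k => (pmap n a)^[k] c) Filter.atTop (𝓝 (Z a)) := by
    intro a ha
    have h1 : Z a = ha.choose := dif_pos ha
    rw [h1]
    exact ⟨ha.choose_spec.1, ha.choose_spec.2.2⟩
  have hmem : ∀ᶠ a in 𝓝[AllToOne n] a₀, a ∈ AllToOne n := self_mem_nhdsWithin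
  have hlim : ∀ c, IsCritical n a₀ c → ∀ (q : ℕ), 1 ≤ q → ∀ α : ℂ, (pmap n a₀)^[q] α = α →
      ‖deriv ((pmap n a₀)^[q]) α‖ < 1 →
      Filter.Tendsto (fun k : ℕ => (pmap n a₀)^[q * k] c) Filter.atTop (𝓝 α) →
      Filter.Tendsto Z (𝓝[AllToOne n] a₀) (𝓝 α) := by
    intro c hc q hq α h1 h2 h3
    rw [Metric.tendsto_nhds]
    intro η hη
    have hnear := near_fixed hn hq h1 h2 hc h3 (half_pos hη)
    filter_upwards [hnear.filter_mono nhdsWithin_le_nhds, hmem] with a ha1 ha2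
    rw [dist_eq_norm]
    have := ha1 (Z a) (hZ a ha2).2
    linarith
  obtain ⟨c₀, hc₀⟩ := exists_crit hn a₀
  obtain ⟨q, hq, α, h1, h2, h3⟩ := hE c₀ hc₀
  have hZα := hlim c₀ hc₀ q hq α h1 h2 h3
  have hfix : pmap n a₀ α = α := by
    have ht : Filter.Tendsto (fun a => pmap n a (Z a)) (𝓝[AllToOne n] a₀) (𝓝 (pmap n a₀ α)) := by
      have hc := (continuous_pmap n).tendsto (a₀, α)
      have hp : Filter.Tendsto (fun a => (a, Z a)) (𝓝[AllToOne n] a₀) (𝓝 (a₀, α)) :=
        (Filter.tendsto_id.mono_left nhdsWithin_le_nhds).prodMk_nhds hZα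
      exact hc.comp hp
    have ht' : Filter.Tendsto (fun a => pmap n a (Z a)) (𝓝[AllToOne n] a₀) (𝓝 α) := by
      refine hZα.congr' ?_
      filter_upwards [hmem] with a ha
      exact (hZ a ha).1.symm
    exact tendsto_nhds_unique ht ht'
  have hder : ‖deriv (pmap n a₀) α‖ < 1 := by
    have hdi : deriv ((pmap n a₀)^[q]) α = (deriv (pmap n a₀) α) ^ q :=
      (HasDerivAt.iterate α ((differentiable_pmap n a₀ α).hasDerivAt) hfix q).deriv
    rw [hdi, norm_pow] at h2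
    exact (pow_lt_one_iff_of_nonneg (norm_nonneg _) (by omega)).mp h2
  refine ⟨α, hfix, hder, fun c hc => ?_⟩
  obtain ⟨q', hq', α', h1', h2', h3'⟩ := hE c hc
  have hαα' : α' = α := tendsto_nhds_unique (hlim c hc q' hq' α' h1' h2' h3') hZα
  subst hαα'
  have hatt := attract_nhds (differentiable_pmap n a₀) hfix hder
  obtain ⟨k, hk⟩ := (h3'.eventually hatt).exists
  exact tendsto_of_iter (q' * k) hk

/-- `B(z^n)` is relatively closed in the expanding maps with bounded critical orbits. -/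
theorem closure_BLit {n : ℕ} (hn : 2 ≤ n) : closure (BLit n) ∩ ExpandingBdd n ⊆ BLit n := by
  rintro a₀ ⟨hcl, hE⟩
  have hA : a₀ ∈ AllToOne n :=
    closure_allToOne hn ⟨closure_mono (BLit_subset_allToOne n) hcl, hE⟩
  have hev := local_const hn hA
  obtain ⟨a, ha1, ha2⟩ := mem_closure_iff_nhds.mp hcl _ hev
  exact ha1.2.mp ha2

theorem BLit_subset_expandingBdd (n : ℕ) : BLit n ⊆ ExpandingBdd n :=
  (BLit_subset_allToOne n).trans (allToOne_subset_expandingBdd n)

/-- If a compact set `L` of expanding maps with bounded critical orbits is given, its trace on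
`B(z^n)` is compact. -/
theorem isCompact_inter_BLit {n : ℕ} (hn : 2 ≤ n) {L : Set (Fin (n - 1) → ℂ)}
    (hL : IsCompact L) (hLE : L ⊆ ExpandingBdd n) : IsCompact (L ∩ BLit n) := by
  have : L ∩ BLit n = L ∩ closure (BLit n) := by
    ext a
    constructor
    · rintro ⟨h1, h2⟩
      exact ⟨h1, subset_closure h2⟩
    · rintro ⟨h1, h2⟩
      exact ⟨h1, closure_BLit hn ⟨h2, hLE h1⟩⟩
  rw [this]
  exact hL.inter_right isClosed_closure

end Hyp95
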