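import Pool.Agent.Lib.Hyp.Poly25

/-!
Continuity of the family of monic centred polynomials and of its critical points (helper95).
-/

namespace Hyp95

open Topology Set Metric Hyp20

theorem pmap_eq (n : ℕ) (a : Fin (n - 1) → ℂ) (z : ℂ) :
    pmap n a z = z ^ n + ∑ i : Fin (n - 1), a i * z ^ (i : ℕ) := by
  simp [pmap, pol, Polynomial.eval_finsetSum]

theorem dpol_eval (n : ℕ) (a : Fin (n - 1) → ℂ) (z : ℂ) :
    (Polynomial.derivative (pol n a)).eval z =
      n * z ^ (n - 1) + ∑ i : Fin (n - 1), a i * ((i : ℕ) * z ^ ((i : ℕ) - 1)) := by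
  simp [pol, Polynomial.eval_finsetSum, Polynomial.derivative_X_pow]

theorem continuous_pmap (n : ℕ) :
    Continuous (fun p : (Fin (n - 1) → ℂ) × ℂ => pmap n p.1 p.2) := by
  simp only [pmap_eq]
  fun_prop

theorem continuous_dpol (n : ℕ) :
    Continuous (fun p : (Fin (n - 1) → ℂ) × ℂ =>
      (Polynomial.derivative (pol n p.1)).eval p.2) := by
  simp only [dpol_eval]
  fun_prop

theorem continuous_iter (n k : ℕ) :
    Continuous (fun p : (Fin (n - 1) → ℂ) × ℂ => (pmap n p.1)^[k] p.2) := by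
  induction k with
  | zero => simpa using continuous_snd
  | succ k ih =>
    simp only [Function.iterate_succ_apply']
    exact (continuous_pmap n).comp (continuous_fst.prodMk ih)

theorem differentiable_pmap (n : ℕ) (a : Fin (n - 1) → ℂ) : Differentiable ℂ (pmap n a) :=
  (pol n a).differentiable

theorem deriv_pmap (n : ℕ) (a : Fin (n - 1) → ℂ) (z : ℂ) :
    deriv (pmap n a) z = (Polynomial.derivative (pol n a)).eval z :=
  Polynomial.deriv (pol n a)

theorem differentiable_iter (n : ℕ) (a : Fin (n - 1) → ℂ) (k : ℕ) :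
    Differentiable ℂ ((pmap n a)^[k]) := (differentiable_pmap n a).iterate k

theorem dpol_facts {n : ℕ} (hn : 2 ≤ n) (a : Fin (n - 1) → ℂ) :
    (Polynomial.derivative (pol n a)).natDegree = n - 1 ∧
      (Polynomial.derivative (pol n a)).leadingCoeff = n := by
  exact ⟨natDegree_derivative_pol n hn a, leadingCoeff_derivative_pol n hn a⟩

/-- If `p_a'` is small at `z` then there is a critical point near `z`. -/
theorem exists_crit_near {n : ℕ} (hn : 2 ≤ n) (a : Fin (n - 1) → ℂ) (z : ℂ) {δ : ℝ}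
    (hδ : 0 < δ) (h : ‖(Polynomial.derivative (pol n a)).eval z‖ < n * δ ^ (n - 1)) :
    ∃ c, IsCritical n a c ∧ ‖z - c‖ < δ := by
  classical
  by_contra hcon
  push Not at hcon
  obtain ⟨h1, h2⟩ := dpol_facts hn a
  set q := Polynomial.derivative (pol n a) with hq
  have hs : q.Splits := IsAlgClosed.splits q
  have hq0 : q ≠ 0 := by
    intro h0
    rw [h0] at h2
    simp only [Polynomial.leadingCoeff_zero] at h2
    have : (n : ℂ) ≠ 0 := Nat.cast_ne_zero.mpr (by omega)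
    exact this h2.symm
  have hev : q.eval z = q.leadingCoeff * (q.roots.map (fun c => z - c)).prod := by
    conv_lhs => rw [hs.eq_prod_roots]
    rw [Polynomial.eval_mul, Polynomial.eval_C, Polynomial.eval_multiset_prod, Multiset.map_map]
    simp
  have hcard : Multiset.card q.roots = n - 1 := by
    rw [← hs.natDegree_eq_card_roots, h1]
  have hprod : δ ^ (n - 1) ≤ ‖(q.roots.map (fun c => z - c)).prod‖ := by
    rw [← hcard]
    have key : ∀ s : Multiset ℂ, (∀ c ∈ s, δ ≤ ‖z - c‖) →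
        δ ^ (Multiset.card s) ≤ ‖(s.map (fun c => z - c)).prod‖ := by
      intro s
      induction s using Multiset.induction_on with
      | empty => intro _; simp
      | cons c s ih =>
        intro hs'
        rw [Multiset.card_cons, Multiset.map_cons, Multiset.prod_cons, norm_mul, pow_succ, mul_comm]
        exact mul_le_mul (hs' c (Multiset.mem_cons_self _ _))
          (ih (fun c hc => hs' c (Multiset.mem_cons_of_mem hc))) (by positivity) (norm_nonneg _)
    apply key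
    intro c hc
    exact hcon c (Polynomial.isRoot_of_mem_roots hc)
  rw [hev, norm_mul, h2] at h
  have hn0 : (0:ℝ) < n := Nat.cast_pos.mpr (by omega)
  have hnn : ‖(n : ℂ)‖ = n := by simp
  rw [hnn] at h
  have := mul_le_mul_of_nonneg_left hprod hn0.le
  linarith

theorem exists_crit {n : ℕ} (hn : 2 ≤ n) (a : Fin (n - 1) → ℂ) : ∃ c, IsCritical n a c := by
  have hd := (dpol_facts hn a).1
  have : (Polynomial.derivative (pol n a)).degree ≠ 0 := by
    intro h
    have h2 : (Polynomial.derivative (pol n a)).natDegree = 0 :=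
      Polynomial.natDegree_eq_of_degree_eq_some h
    rw [hd] at h2
    omega
  exact IsAlgClosed.exists_root _ this

/-- Bound for the critical points. -/
theorem crit_bound {n : ℕ} (hn : 2 ≤ n) {a : Fin (n - 1) → ℂ} {A : ℝ} (hA : ‖a‖ ≤ A) {c : ℂ}
    (hc : IsCritical n a c) : ‖c‖ ≤ max 1 (n * A) := by
  by_contra hcon
  push Not at hcon
  have hA0 : 0 ≤ A := (norm_nonneg _).trans hA
  have hc1 : 1 < ‖c‖ := lt_of_le_of_lt (le_max_left _ _) hcon
  have hc2 : n * A < ‖c‖ := lt_of_le_of_lt (le_max_right _ _) hcon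
  unfold IsCritical at hc
  rw [dpol_eval] at hc
  have hAn : ∀ i : Fin (n - 1), (i : ℕ) ≤ n ∧ (i : ℕ) - 1 ≤ n - 2 := fun i => by
    have := i.2
    omega
  have h1 : (n : ℂ) * c ^ (n - 1) = -∑ i : Fin (n - 1), a i * ((i : ℕ) * c ^ ((i : ℕ) - 1)) := by
    linear_combination hc
  have h2 : (n : ℝ) * ‖c‖ ^ (n - 1) ≤ ∑ i : Fin (n - 1), A * (n * ‖c‖ ^ (n - 2)) := by
    calc (n : ℝ) * ‖c‖ ^ (n - 1) = ‖(n : ℂ) * c ^ (n - 1)‖ := by simp
      _ = ‖∑ i : Fin (n - 1), a i * ((i : ℕ) * c ^ ((i : ℕ) - 1))‖ := by rw [h1, norm_neg]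
      _ ≤ ∑ i : Fin (n - 1), ‖a i * ((i : ℕ) * c ^ ((i : ℕ) - 1))‖ := norm_sum_le _ _
      _ ≤ ∑ i : Fin (n - 1), A * (n * ‖c‖ ^ (n - 2)) := by
        apply Finset.sum_le_sum
        intro i _
        rw [norm_mul, norm_mul, norm_pow]
        have e1 : ‖a i‖ ≤ A := (norm_le_pi_norm a i).trans hA
        have e2 : ‖((i : ℕ) : ℂ)‖ ≤ n := by
          simp only [Complex.norm_natCast]
          exact Nat.cast_le.mpr (hAn i).1
        have e3 : ‖c‖ ^ ((i : ℕ) - 1) ≤ ‖c‖ ^ (n - 2) := pow_le_pow_right₀ hc1.le (hAn i).2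
        gcongr
  rw [Finset.sum_const, Finset.card_univ, Fintype.card_fin, nsmul_eq_mul] at h2
  have h3 : ‖c‖ ^ (n - 1) = ‖c‖ ^ (n - 2) * ‖c‖ := by
    rw [← pow_succ]; congr 1; omega
  rw [h3] at h2
  have hp : 0 < ‖c‖ ^ (n - 2) := by positivity
  have hn0 : (0:ℝ) < n := Nat.cast_pos.mpr (by omega)
  have h4 : ‖c‖ ≤ ((n - 1 : ℕ) : ℝ) * A := by
    have : (n : ℝ) * ‖c‖ ^ (n - 2) * ‖c‖ ≤ (n : ℝ) * ‖c‖ ^ (n - 2) * (((n - 1 : ℕ) : ℝ) * A) := by
      nlinarith
    exact le_of_mul_le_mul_left this (by positivity)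
  have h5 : ((n - 1 : ℕ) : ℝ) * A ≤ n * A := by
    apply mul_le_mul_of_nonneg_right _ hA0
    exact Nat.cast_le.mpr (Nat.sub_le _ _)
  linarith

/-- Derivatives of nearby polynomials are close on bounded sets. -/
theorem dpol_close {n : ℕ} (hn : 2 ≤ n) (a a' : Fin (n - 1) → ℂ) {z : ℂ} {R : ℝ} (hR : 1 ≤ R)
    (hz : ‖z‖ ≤ R) :
    ‖(Polynomial.derivative (pol n a)).eval z - (Polynomial.derivative (pol n a')).eval z‖ ≤
      ‖a - a'‖ * (n * (n * R ^ n)) := by
  rw [dpol_eval, dpol_eval]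
  have : (n : ℂ) * z ^ (n - 1) + ∑ i : Fin (n - 1), a i * ((i : ℕ) * z ^ ((i : ℕ) - 1)) -
      ((n : ℂ) * z ^ (n - 1) + ∑ i : Fin (n - 1), a' i * ((i : ℕ) * z ^ ((i : ℕ) - 1))) =
      ∑ i : Fin (n - 1), (a - a') i * ((i : ℕ) * z ^ ((i : ℕ) - 1)) := by
    rw [add_sub_add_left_eq_sub, ← Finset.sum_sub_distrib]
    apply Finset.sum_congr rfl
    intro i _
    simp only [Pi.sub_apply]
    ring
  rw [this]
  calc ‖∑ i : Fin (n - 1), (a - a') i * ((i : ℕ) * z ^ ((i : ℕ) - 1))‖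
      ≤ ∑ i : Fin (n - 1), ‖(a - a') i * ((i : ℕ) * z ^ ((i : ℕ) - 1))‖ := norm_sum_le _ _
    _ ≤ ∑ i : Fin (n - 1), ‖a - a'‖ * (n * R ^ n) := by
      apply Finset.sum_le_sum
      intro i _
      rw [norm_mul, norm_mul, norm_pow]
      have e1 : ‖(a - a') i‖ ≤ ‖a - a'‖ := norm_le_pi_norm (a - a') i
      have hi : (i : ℕ) ≤ n ∧ (i : ℕ) - 1 ≤ n := by
        have := i.2
        omega
      have e2 : ‖((i : ℕ) : ℂ)‖ ≤ n := by
        simp only [Complex.norm_natCast]
        exact Nat.cast_le.mpr hi.1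
      have e3 : ‖z‖ ^ ((i : ℕ) - 1) ≤ R ^ n :=
        (pow_le_pow_left₀ (norm_nonneg _) hz _).trans (pow_le_pow_right₀ hR hi.2)
      gcongr
    _ = ((n - 1 : ℕ) : ℝ) * (‖a - a'‖ * (n * R ^ n)) := by
      rw [Finset.sum_const, Finset.card_univ, Fintype.card_fin, nsmul_eq_mul]
    _ ≤ n * (‖a - a'‖ * (n * R ^ n)) := by
      apply mul_le_mul_of_nonneg_right _ (by positivity)
      exact Nat.cast_le.mpr (Nat.sub_le _ _)
    _ = ‖a - a'‖ * (n * (n * R ^ n)) := by ring

/-- The critical points of nearby polynomials are close, in both directions. -/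
theorem crit_close {n : ℕ} (hn : 2 ≤ n) (a : Fin (n - 1) → ℂ) {δ : ℝ} (hδ : 0 < δ) :
    ∃ ε > 0, ∀ a', ‖a' - a‖ < ε →
      (∀ c', IsCritical n a' c' → ∃ c, IsCritical n a c ∧ ‖c' - c‖ < δ) ∧
      (∀ c, IsCritical n a c → ∃ c', IsCritical n a' c' ∧ ‖c - c'‖ < δ) := by
  set R : ℝ := max 1 (n * (‖a‖ + 1)) with hRdef
  have hR1 : 1 ≤ R := le_max_left _ _
  have hn0 : (0:ℝ) < n := Nat.cast_pos.mpr (by omega)
  set η : ℝ := n * δ ^ (n - 1) with hη
  have hη0 : 0 < η := by positivity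
  set L : ℝ := n * (n * R ^ n) with hL
  have hL0 : 0 < L := by positivity
  refine ⟨min 1 (η / L / 2), by positivity, ?_⟩
  intro a' ha'
  have h1 : ‖a' - a‖ < 1 := lt_of_lt_of_le ha' (min_le_left _ _)
  have h2 : ‖a' - a‖ < η / L / 2 := lt_of_lt_of_le ha' (min_le_right _ _)
  have h3 : ‖a' - a‖ * L < η := by
    have : ‖a' - a‖ * L < η / L / 2 * L := mul_lt_mul_of_pos_right h2 hL0
    have e : η / L / 2 * L = η / 2 := by field_simp
    linarith
  have hna' : ‖a'‖ ≤ ‖a‖ + 1 := by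
    have := norm_le_norm_add_norm_sub' a' a
    linarith
  have hb : ∀ b : Fin (n - 1) → ℂ, ‖b‖ ≤ ‖a‖ + 1 → ∀ c, IsCritical n b c → ‖c‖ ≤ R :=
    fun b hb c hc => crit_bound hn hb hc
  constructor
  · intro c' hc'
    have hcl := dpol_close hn a' a hR1 (hb a' hna' c' hc')
    unfold IsCritical at hc'
    rw [hc', zero_sub, norm_neg] at hcl
    exact exists_crit_near hn a c' hδ (lt_of_le_of_lt hcl h3)
  · intro c hc
    have hcl := dpol_close hn a a' hR1 (hb a (by linarith) c hc)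
    unfold IsCritical at hc
    rw [hc, zero_sub, norm_neg] at hcl
    refine exists_crit_near hn a' c hδ (lt_of_le_of_lt hcl ?_)
    rw [norm_sub_rev]
    exact h3

end Hyp95
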