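import Mathlib

/-!
Power sum lemma for MP_47150b_an (helper25): if the power sums of finitely many complex numbers
satisfy `‖∑ w_i ^ m‖ ≤ C * M ^ m` for all `m ≥ 1` then `‖w_i‖ ≤ M` for each `i`.
-/

namespace Hyp20

open Filter Topology Polynomial

/-- the weighted power sum `∑ w_i ^ m Q(w_i)` in terms of the power sums -/
theorem sum_pow_eval {ι : Type*} [Fintype ι] (w : ι → ℂ) (Q : Polynomial ℂ) (m : ℕ) :
    ∑ i, w i ^ m * Q.eval (w i) =
      ∑ k ∈ Finset.range (Q.natDegree + 1), Q.coeff k * ∑ i, w i ^ (m + k) := by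
  have h : ∀ i, w i ^ m * Q.eval (w i) =
      ∑ k ∈ Finset.range (Q.natDegree + 1), Q.coeff k * w i ^ (m + k) := by
    intro i
    rw [Polynomial.eval_eq_sum_range, Finset.mul_sum]
    refine Finset.sum_congr rfl fun k _ => ?_
    rw [pow_add]; ring
  simp only [h]
  rw [Finset.sum_comm]
  refine Finset.sum_congr rfl fun k _ => ?_
  rw [Finset.mul_sum]

/-- power sum lemma -/
theorem norm_le_of_power_sums {ι : Type*} [Fintype ι] (w : ι → ℂ) (C M : ℝ) (hM : 0 ≤ M)
    (h : ∀ m : ℕ, 1 ≤ m → ‖∑ i, w i ^ m‖ ≤ C * M ^ m) (i : ι) : ‖w i‖ ≤ M := by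
  classical
  by_contra hlt
  push Not at hlt
  set v : ℂ := w i with hv
  have hv0 : 0 < ‖v‖ := hM.trans_lt hlt
  set S : Finset ℂ := (Finset.univ.image w).erase v with hS
  set Q : Polynomial ℂ := ∏ x ∈ S, (X - Polynomial.C x) with hQ
  have hQv : Q.eval v ≠ 0 := by
    rw [hQ, Polynomial.eval_prod, Finset.prod_ne_zero_iff]
    intro x hx
    simp only [Polynomial.eval_sub, Polynomial.eval_X, Polynomial.eval_C]
    exact sub_ne_zero.2 (Finset.ne_of_mem_erase hx).symm
  have hQ0 : ∀ j, w j ≠ v → Q.eval (w j) = 0 := by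
    intro j hj
    rw [hQ, Polynomial.eval_prod, Finset.prod_eq_zero_iff]
    exact ⟨w j, Finset.mem_erase.2 ⟨hj, Finset.mem_image_of_mem w (Finset.mem_univ j)⟩, by simp⟩
  set N : ℕ := (Finset.univ.filter fun j => w j = v).card with hN
  have hN1 : 1 ≤ N := Finset.card_pos.2 ⟨i, by simp [hv]⟩
  have hsum : ∀ m : ℕ, ∑ j, w j ^ m * Q.eval (w j) = N * (v ^ m * Q.eval v) := by
    intro m
    rw [← Finset.sum_filter_add_sum_filter_not Finset.univ (fun j => w j = v)]
    have h1 : ∑ j ∈ Finset.univ.filter (fun j => w j = v), w j ^ m * Q.eval (w j) =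
        N * (v ^ m * Q.eval v) := by
      rw [Finset.sum_congr rfl (g := fun _ => v ^ m * Q.eval v)]
      · rw [Finset.sum_const, nsmul_eq_mul]
      · intro j hj
        rw [(Finset.mem_filter.1 hj).2]
    have h2 : ∑ j ∈ Finset.univ.filter (fun j => ¬ w j = v), w j ^ m * Q.eval (w j) = 0 :=
      Finset.sum_eq_zero fun j hj => by rw [hQ0 j (Finset.mem_filter.1 hj).2, mul_zero]
    rw [h1, h2, add_zero]
  set B : ℝ := ∑ k ∈ Finset.range (Q.natDegree + 1), ‖Q.coeff k‖ * (C * M ^ k) with hB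
  have hbound : ∀ m : ℕ, 1 ≤ m → ‖Q.eval v‖ * ‖v‖ ^ m ≤ B * M ^ m := by
    intro m hm
    have e1 : ‖∑ j, w j ^ m * Q.eval (w j)‖ ≤ B * M ^ m := by
      rw [sum_pow_eval]
      refine (norm_sum_le _ _).trans ?_
      rw [hB, Finset.sum_mul]
      refine Finset.sum_le_sum fun k _ => ?_
      rw [norm_mul, mul_assoc, mul_assoc]
      refine mul_le_mul_of_nonneg_left ?_ (norm_nonneg _)
      refine (h (m + k) (by omega)).trans (le_of_eq ?_)
      rw [pow_add]; ring
    rw [hsum, norm_mul, norm_mul, norm_pow, RCLike.norm_natCast] at e1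
    have e2 : ‖v‖ ^ m * ‖Q.eval v‖ ≤ (N : ℝ) * (‖v‖ ^ m * ‖Q.eval v‖) := by
      have : (1 : ℝ) ≤ N := by exact_mod_cast hN1
      exact le_mul_of_one_le_left (by positivity) this
    linarith [mul_comm (‖v‖ ^ m) ‖Q.eval v‖]
  -- divide by `‖v‖ ^ m`
  have hq : ∀ m : ℕ, 1 ≤ m → ‖Q.eval v‖ ≤ B * (M / ‖v‖) ^ m := by
    intro m hm
    have := hbound m hm
    rw [div_pow, mul_div_assoc']
    rwa [le_div_iff₀ (by positivity)]
  have hlim : Tendsto (fun m : ℕ => B * (M / ‖v‖) ^ m) atTop (𝓝 (B * 0)) :=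
    (tendsto_pow_atTop_nhds_zero_of_lt_one (by positivity) ((div_lt_one hv0).2 hlt)).const_mul B
  rw [mul_zero] at hlim
  have : ‖Q.eval v‖ ≤ 0 := ge_of_tendsto hlim
    (eventually_atTop.2 ⟨1, fun m hm => hq m hm⟩)
  exact hQv (norm_le_zero_iff.1 this)

/-- the same for multisets -/
theorem norm_le_of_power_sums_multiset (s : Multiset ℂ) (C M : ℝ) (hM : 0 ≤ M)
    (h : ∀ m : ℕ, 1 ≤ m → ‖(s.map fun x => x ^ m).sum‖ ≤ C * M ^ m) :
    ∀ x ∈ s, ‖x‖ ≤ M := by
  intro x hx
  induction s using Quotient.inductionOn with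
  | h l =>
    have hx' : x ∈ l := by simpa using hx
    obtain ⟨i, hi⟩ := List.get_of_mem hx'
    have key := norm_le_of_power_sums (fun j : Fin l.length => l.get j) C M hM ?_ i
    · rw [← hi]; exact key
    · intro m hm
      have e := h m hm
      have e2 : (Multiset.map (fun x : ℂ => x ^ m) (Quotient.mk _ l : Multiset ℂ)).sum =
          ∑ j : Fin l.length, (l.get j) ^ m := by
        show (Multiset.map (fun x : ℂ => x ^ m) (l : Multiset ℂ)).sum = _
        rw [Multiset.map_coe, Multiset.sum_coe, ← List.sum_ofFn]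
        congr 1
        apply List.ext_get
        · simp
        · intro k h1 h2
          simp
      rw [e2] at e
      exact e

end Hyp20
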