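import Pool.Agent.Lib.Hyp.Stmt20

/-!
Bi-polynomial functions and sums over critical points, for MP_47150b_an (helper25).
-/

namespace Hyp20

open Polynomial

/-- functions `G (a, z)` which are polynomials in `z` whose coefficients are polynomials
in `a` -/
def BiPoly (r : ℕ) (G : (Fin r → ℂ) → ℂ → ℂ) : Prop :=
  ∃ F : Polynomial (MvPolynomial (Fin r) ℂ), ∀ a z, G a z = (F.map (MvPolynomial.eval a)).eval z

namespace BiPoly

variable {r : ℕ} {G H : (Fin r → ℂ) → ℂ → ℂ}

theorem const (c : ℂ) : BiPoly r (fun _ _ => c) :=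
  ⟨Polynomial.C (MvPolynomial.C c), fun a z => by simp⟩

theorem ofPoly (P : MvPolynomial (Fin r) ℂ) : BiPoly r (fun a _ => MvPolynomial.eval a P) :=
  ⟨Polynomial.C P, fun a z => by simp⟩

theorem coord (i : Fin r) : BiPoly r (fun a _ => a i) :=
  ⟨Polynomial.C (MvPolynomial.X i), fun a z => by simp⟩

theorem var : BiPoly r (fun _ z => z) := ⟨Polynomial.X, fun a z => by simp⟩

theorem add (hG : BiPoly r G) (hH : BiPoly r H) : BiPoly r (fun a z => G a z + H a z) := by
  obtain ⟨F, hF⟩ := hG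
  obtain ⟨E, hE⟩ := hH
  exact ⟨F + E, fun a z => by simp [hF, hE]⟩

theorem neg (hG : BiPoly r G) : BiPoly r (fun a z => -G a z) := by
  obtain ⟨F, hF⟩ := hG
  exact ⟨-F, fun a z => by simp [hF]⟩

theorem sub (hG : BiPoly r G) (hH : BiPoly r H) : BiPoly r (fun a z => G a z - H a z) := by
  obtain ⟨F, hF⟩ := hG
  obtain ⟨E, hE⟩ := hH
  exact ⟨F - E, fun a z => by simp [hF, hE]⟩

theorem mul (hG : BiPoly r G) (hH : BiPoly r H) : BiPoly r (fun a z => G a z * H a z) := by
  obtain ⟨F, hF⟩ := hG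
  obtain ⟨E, hE⟩ := hH
  exact ⟨F * E, fun a z => by simp [hF, hE]⟩

theorem pow (hG : BiPoly r G) (m : ℕ) : BiPoly r (fun a z => G a z ^ m) := by
  obtain ⟨F, hF⟩ := hG
  exact ⟨F ^ m, fun a z => by simp [hF]⟩

theorem sum {ι : Type*} (s : Finset ι) {G : ι → (Fin r → ℂ) → ℂ → ℂ}
    (hG : ∀ i ∈ s, BiPoly r (G i)) : BiPoly r (fun a z => ∑ i ∈ s, G i a z) := by
  classical
  induction s using Finset.induction_on with
  | empty => simpa using const (r := r) 0
  | insert i s hi ih =>
    have h1 := (hG i (Finset.mem_insert_self i s)).add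
      (ih fun j hj => hG j (Finset.mem_insert_of_mem hj))
    simpa only [Finset.sum_insert hi] using h1

theorem comp (hG : BiPoly r G) (hH : BiPoly r H) : BiPoly r (fun a z => G a (H a z)) := by
  obtain ⟨F, hF⟩ := hG
  obtain ⟨E, hE⟩ := hH
  refine ⟨F.comp E, fun a z => ?_⟩
  show G a (H a z) = _
  rw [Polynomial.map_comp, Polynomial.eval_comp, hF, hE]

theorem iterate (hG : BiPoly r G) (k : ℕ) : BiPoly r (fun a z => (G a)^[k] z) := by
  induction k with
  | zero => simpa using var (r := r)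
  | succ k ih =>
    have := hG.comp ih
    simpa only [Function.iterate_succ_apply'] using this

theorem deriv (hG : BiPoly r G) : BiPoly r (fun a z => _root_.deriv (G a) z) := by
  obtain ⟨F, hF⟩ := hG
  refine ⟨derivative F, fun a z => ?_⟩
  have : G a = fun z => (F.map (MvPolynomial.eval a)).eval z := funext fun z => hF a z
  show _root_.deriv (G a) z = _
  rw [this, Polynomial.deriv, Polynomial.derivative_map]

end BiPoly

/-- coefficients of `pol n a` -/
theorem coeff_pol (n : ℕ) (a : Fin (n - 1) → ℂ) (j : ℕ) :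
    (pol n a).coeff j = (if j = n then 1 else 0) + ∑ i : Fin (n - 1), a i * (if j = i then 1 else 0) := by
  rw [pol, Polynomial.coeff_add, Polynomial.coeff_X_pow, Polynomial.finsetSum_coeff]
  congr 1
  refine Finset.sum_congr rfl fun i _ => ?_
  rw [Polynomial.coeff_C_mul, Polynomial.coeff_X_pow]

theorem biPoly_pmap (n : ℕ) : BiPoly (n - 1) (pmap n) := by
  have : pmap n = fun a z => z ^ n + ∑ i : Fin (n - 1), a i * z ^ (i : ℕ) := by
    funext a z
    simp [pmap, pol, Polynomial.eval_finsetSum]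
  rw [this]
  exact (BiPoly.var.pow n).add (BiPoly.sum _ fun i _ => (BiPoly.coord i).mul (BiPoly.var.pow i))

theorem natDegree_pol (n : ℕ) (hn : 2 ≤ n) (a : Fin (n - 1) → ℂ) : (pol n a).natDegree = n := by
  refine Polynomial.natDegree_eq_of_le_of_coeff_ne_zero ?_ ?_
  · refine Polynomial.natDegree_le_iff_coeff_eq_zero.2 fun j hj => ?_
    rw [coeff_pol, if_neg (by omega), zero_add]
    refine Finset.sum_eq_zero fun i _ => ?_
    rw [if_neg (by have := i.2; omega), mul_zero]
  · rw [coeff_pol, if_pos rfl]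
    have : ∑ i : Fin (n - 1), a i * (if n = (i : ℕ) then (1 : ℂ) else 0) = 0 :=
      Finset.sum_eq_zero fun i _ => by rw [if_neg (by have := i.2; omega), mul_zero]
    rw [this, add_zero]
    exact one_ne_zero

theorem natDegree_derivative_pol (n : ℕ) (hn : 2 ≤ n) (a : Fin (n - 1) → ℂ) :
    (derivative (pol n a)).natDegree = n - 1 := by
  rw [Polynomial.natDegree_derivative, natDegree_pol n hn]

theorem leadingCoeff_derivative_pol (n : ℕ) (hn : 2 ≤ n) (a : Fin (n - 1) → ℂ) :
    (derivative (pol n a)).leadingCoeff = n := by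
  rw [Polynomial.leadingCoeff, natDegree_derivative_pol n hn, Polynomial.coeff_derivative,
    show n - 1 + 1 = n by omega]
  rw [coeff_pol, if_pos rfl]
  have : ∑ i : Fin (n - 1), a i * (if n = (i : ℕ) then (1 : ℂ) else 0) = 0 :=
    Finset.sum_eq_zero fun i _ => by rw [if_neg (by have := i.2; omega), mul_zero]
  rw [this, add_zero, one_mul]
  have : ((n - 1 : ℕ) : ℂ) + 1 = n := by
    rw [← Nat.cast_succ]; congr 1; omega
  exact this

theorem card_roots_derivative_pol (n : ℕ) (hn : 2 ≤ n) (a : Fin (n - 1) → ℂ) :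
    Multiset.card (derivative (pol n a)).roots = n - 1 := by
  rw [← natDegree_derivative_pol n hn a]
  exact splits_iff_card_roots.1 (IsAlgClosed.splits _)

/-- the roots of the derivative are the critical points -/
theorem mem_roots_derivative_pol (n : ℕ) (hn : 2 ≤ n) (a : Fin (n - 1) → ℂ) (c : ℂ) :
    c ∈ (derivative (pol n a)).roots ↔ IsCritical n a c := by
  have hne : derivative (pol n a) ≠ 0 := by
    intro h
    have := leadingCoeff_derivative_pol n hn a
    rw [h, Polynomial.leadingCoeff_zero] at this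
    have h2 : (n : ℂ) ≠ 0 := Nat.cast_ne_zero.2 (by omega)
    exact h2 this.symm
  rw [Polynomial.mem_roots hne, Polynomial.IsRoot.def, IsCritical]

/-- power sums of the critical points are polynomials in the coefficients -/
theorem exists_psum_poly (n : ℕ) (hn : 2 ≤ n) (k : ℕ) :
    ∃ P : MvPolynomial (Fin (n - 1)) ℂ, ∀ a : Fin (n - 1) → ℂ,
      MvPolynomial.eval a P = ((derivative (pol n a)).roots.map fun c => c ^ k).sum := by
  classical
  -- the symmetric function
  obtain ⟨q, hq⟩ := MvPolynomial.esymmAlgHom_surjective (σ := Fin (n - 1)) (n := n - 1) ℂ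
    (by simp) ⟨MvPolynomial.psum (Fin (n - 1)) ℂ k, MvPolynomial.psum_isSymmetric _ _ k⟩
  have hq' : MvPolynomial.aeval
      (fun i : Fin (n - 1) => MvPolynomial.esymm (Fin (n - 1)) ℂ (i + 1)) q =
      MvPolynomial.psum (Fin (n - 1)) ℂ k := by
    rw [← MvPolynomial.esymmAlgHom_apply, hq]
  -- the coefficients of the derivative as polynomials
  let cf : ℕ → MvPolynomial (Fin (n - 1)) ℂ := fun j =>
    MvPolynomial.C ((j : ℂ) + 1) * (MvPolynomial.C (if j + 1 = n then 1 else 0) +
      ∑ i : Fin (n - 1), MvPolynomial.X i * MvPolynomial.C (if j + 1 = (i : ℕ) then 1 else 0))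
  have hcf : ∀ (a : Fin (n - 1) → ℂ) (j : ℕ),
      MvPolynomial.eval a (cf j) = (derivative (pol n a)).coeff j := by
    intro a j
    rw [Polynomial.coeff_derivative, coeff_pol]
    simp only [cf, map_mul, map_add, map_sum, MvPolynomial.eval_C, MvPolynomial.eval_X]
    ring
  let g : Fin (n - 1) → MvPolynomial (Fin (n - 1)) ℂ := fun i =>
    MvPolynomial.C ((-1 : ℂ) ^ ((i : ℕ) + 1) * (n : ℂ)⁻¹) * cf (n - 1 - ((i : ℕ) + 1))
  refine ⟨MvPolynomial.aeval g q, fun a => ?_⟩
  set s := (derivative (pol n a)).roots with hs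
  have hcard : Multiset.card s = n - 1 := card_roots_derivative_pol n hn a
  -- list the roots
  obtain ⟨f, hf⟩ : ∃ f : Fin (n - 1) → ℂ, Finset.univ.val.map f = s := by
    have hlen : s.toList.length = n - 1 := by rw [Multiset.length_toList, hcard]
    refine ⟨fun i => s.toList.get (i.cast hlen.symm), ?_⟩
    have h1 : (Finset.univ : Finset (Fin (n - 1))).val.map
        (fun i => s.toList.get (i.cast hlen.symm)) =
        (List.ofFn fun i : Fin (n - 1) => s.toList.get (i.cast hlen.symm) : Multiset ℂ) := by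
      rw [Fin.univ_def]
      simp [List.ofFn_eq_map]
    rw [h1]
    have h2 : (List.ofFn fun i : Fin (n - 1) => s.toList.get (i.cast hlen.symm)) = s.toList := by
      apply List.ext_get
      · simp [hlen]
      · intro j h1 h2
        simp
    rw [h2, Multiset.coe_toList]
  have hes : ∀ i : Fin (n - 1), MvPolynomial.eval a (g i) = s.esymm ((i : ℕ) + 1) := by
    intro i
    have hi := i.2
    have hle : n - 1 - ((i : ℕ) + 1) ≤ (derivative (pol n a)).natDegree := by
      rw [natDegree_derivative_pol n hn]; omega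
    have hv := Polynomial.coeff_eq_esymm_roots_of_card (p := derivative (pol n a))
      (by rw [← hs, hcard, natDegree_derivative_pol n hn]) hle
    rw [natDegree_derivative_pol n hn, leadingCoeff_derivative_pol n hn,
      show n - 1 - (n - 1 - ((i : ℕ) + 1)) = (i : ℕ) + 1 by omega, ← hs] at hv
    simp only [g, map_mul, MvPolynomial.eval_C]
    rw [hcf, hv]
    have hn0 : (n : ℂ) ≠ 0 := Nat.cast_ne_zero.2 (by omega)
    have h1 : ((-1 : ℂ) ^ ((i : ℕ) + 1)) * (-1) ^ ((i : ℕ) + 1) = 1 := by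
      rw [← mul_pow]; norm_num
    calc (-1 : ℂ) ^ ((i : ℕ) + 1) * (n : ℂ)⁻¹ *
          ((n : ℂ) * (-1) ^ ((i : ℕ) + 1) * s.esymm ((i : ℕ) + 1)) =
          ((-1 : ℂ) ^ ((i : ℕ) + 1) * (-1) ^ ((i : ℕ) + 1)) * ((n : ℂ)⁻¹ * n) *
            s.esymm ((i : ℕ) + 1) := by ring
      _ = s.esymm ((i : ℕ) + 1) := by rw [h1, inv_mul_cancel₀ hn0]; ring
  have e1 : MvPolynomial.eval a (MvPolynomial.aeval g q) =
      MvPolynomial.aeval (fun i : Fin (n - 1) => s.esymm ((i : ℕ) + 1)) q := by
    rw [← MvPolynomial.coe_aeval_eq_eval]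
    have := MvPolynomial.comp_aeval_apply (f := g) (MvPolynomial.aeval a : MvPolynomial (Fin (n-1)) ℂ →ₐ[ℂ] ℂ) q
    show (MvPolynomial.aeval a) (MvPolynomial.aeval g q) = _
    rw [this]
    congr 2
    funext i
    rw [← hes i, ← MvPolynomial.coe_aeval_eq_eval]
    rfl
  have e2 : MvPolynomial.aeval (fun i : Fin (n - 1) => s.esymm ((i : ℕ) + 1)) q =
      MvPolynomial.aeval f (MvPolynomial.psum (Fin (n - 1)) ℂ k) := by
    have h3 := MvPolynomial.comp_aeval_apply
      (f := fun i : Fin (n - 1) => MvPolynomial.esymm (Fin (n - 1)) ℂ (i + 1))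
      (MvPolynomial.aeval f : MvPolynomial (Fin (n-1)) ℂ →ₐ[ℂ] ℂ) q
    rw [← hq', h3]
    congr 2
    funext i
    rw [MvPolynomial.aeval_esymm_eq_multiset_esymm, hf]
  rw [e1, e2, MvPolynomial.psum, map_sum, ← hf, Multiset.map_map]
  simp only [map_pow, MvPolynomial.aeval_X]
  rfl

/-- sums of bi-polynomial functions over the critical points are polynomials in the
coefficients -/
theorem exists_sum_poly (n : ℕ) (hn : 2 ≤ n) {G : (Fin (n - 1) → ℂ) → ℂ → ℂ}
    (hG : BiPoly (n - 1) G) :
    ∃ P : MvPolynomial (Fin (n - 1)) ℂ, ∀ a : Fin (n - 1) → ℂ,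
      MvPolynomial.eval a P = ((derivative (pol n a)).roots.map (G a)).sum := by
  classical
  obtain ⟨F, hF⟩ := hG
  choose P hP using exists_psum_poly n hn
  refine ⟨∑ j ∈ Finset.range (F.natDegree + 1), F.coeff j * P j, fun a => ?_⟩
  rw [map_sum]
  simp only [map_mul, hP]
  set s := (derivative (pol n a)).roots with hs
  have h1 : (G a) = fun z => ∑ j ∈ Finset.range (F.natDegree + 1),
      MvPolynomial.eval a (F.coeff j) * z ^ j := by
    funext z
    rw [hF, Polynomial.eval_map, Polynomial.eval₂_eq_sum_range]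
  rw [h1, Multiset.sum_map_sum]
  refine Finset.sum_congr rfl fun j _ => ?_
  rw [Multiset.sum_map_mul_left]

/-- power sums of a bi-polynomial function over the critical points -/
theorem exists_sum_pow_poly (n : ℕ) (hn : 2 ≤ n) {G : (Fin (n - 1) → ℂ) → ℂ → ℂ}
    (hG : BiPoly (n - 1) G) (m : ℕ) :
    ∃ P : MvPolynomial (Fin (n - 1)) ℂ, ∀ a : Fin (n - 1) → ℂ,
      MvPolynomial.eval a P = ((derivative (pol n a)).roots.map fun c => G a c ^ m).sum :=
  exists_sum_poly n hn (hG.pow m)

end Hyp20
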