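import Pool.Agent.Lib.Hyp.BiPoly20
import Pool.Agent.Lib.Hyp.PSum25
import Pool.Agent.Lib.Hyp.Poly25

/-!
Bounds over the critical points pass to the polynomial hull (MP_47150b_an, helper25).
-/

namespace Hyp20

open Polynomial

theorem IsBiPoly.exists_sum_poly (n : ℕ) (hn : 2 ≤ n) {G : (Fin (n - 1) → ℂ) → ℂ → ℂ}
    (hG : IsBiPoly G) :
    ∃ P : MvPolynomial (Fin (n - 1)) ℂ, ∀ a : Fin (n - 1) → ℂ,
      MvPolynomial.eval a P = ((derivative (pol n a)).roots.map (G a)).sum :=
  Hyp20.exists_sum_poly n hn hG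

/-- a bound for a bi-polynomial function at all critical points of the maps in `K` holds at all
critical points of the maps in the polynomial hull of `K` -/
theorem norm_le_of_mem_polyHull (n : ℕ) (hn : 2 ≤ n) {G : (Fin (n - 1) → ℂ) → ℂ → ℂ}
    (hG : IsBiPoly G) {K : Set (Fin (n - 1) → ℂ)} {M : ℝ} (hM : 0 ≤ M)
    (h : ∀ b ∈ K, ∀ c, IsCritical n b c → ‖G b c‖ ≤ M) {a : Fin (n - 1) → ℂ}
    (ha : a ∈ polyHull K) {c : ℂ} (hc : IsCritical n a c) : ‖G a c‖ ≤ M := by
  have key : ∀ x ∈ (derivative (pol n a)).roots.map (G a), ‖x‖ ≤ M := by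
    refine norm_le_of_power_sums_multiset _ ((n - 1 : ℕ) : ℝ) M hM fun m hm => ?_
    obtain ⟨P, hP⟩ := Hyp20.exists_sum_pow_poly n hn (G := G) hG m
    rw [Multiset.map_map]
    have h1 : (Multiset.map ((fun x : ℂ => x ^ m) ∘ G a) (derivative (pol n a)).roots).sum =
        MvPolynomial.eval a P := (hP a).symm
    rw [h1]
    refine ha P _ fun b hb => ?_
    rw [hP b]
    refine (norm_multiset_sum_le _).trans ?_
    rw [Multiset.map_map]
    refine (Multiset.sum_le_card_nsmul _ (M ^ m) ?_).trans ?_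
    · intro y hy
      obtain ⟨d, hd, rfl⟩ := Multiset.mem_map.1 hy
      simp only [Function.comp_apply, norm_pow]
      exact pow_le_pow_left₀ (norm_nonneg _)
        (h b hb d ((mem_roots_derivative_pol n hn b d).1 hd)) m
    · rw [Multiset.card_map, card_roots_derivative_pol n hn, nsmul_eq_mul]
  exact key _ (Multiset.mem_map_of_mem _ ((mem_roots_derivative_pol n hn a c).2 hc))

/-- the polynomial hull of a compact set is compact -/
theorem isCompact_polyHull {m : ℕ} {K : Set (Fin m → ℂ)} (hK : IsCompact K) :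
    IsCompact (polyHull K) := by
  rcases K.eq_empty_or_nonempty with rfl | hne
  · have : polyHull (∅ : Set (Fin m → ℂ)) = ∅ := by
      ext a
      simp only [Set.mem_empty_iff_false, iff_false]
      intro ha
      have := ha 1 (-1) (fun b hb => absurd hb (Set.notMem_empty b))
      have h2 : ‖MvPolynomial.eval a (1 : MvPolynomial (Fin m) ℂ)‖ = 1 := by simp
      linarith [norm_nonneg (MvPolynomial.eval a (1 : MvPolynomial (Fin m) ℂ))]
    rw [this]
    exact isCompact_empty
  obtain ⟨R, hR⟩ := hK.isBounded.exists_norm_le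
  refine Metric.isCompact_of_isClosed_isBounded ?_ ?_
  · have : polyHull K = ⋂ (P : MvPolynomial (Fin m) ℂ) (M : ℝ)
        (_ : ∀ b ∈ K, ‖MvPolynomial.eval b P‖ ≤ M), {a | ‖MvPolynomial.eval a P‖ ≤ M} := by
      ext a
      simp [polyHull]
    rw [this]
    refine isClosed_iInter fun P => isClosed_iInter fun M => isClosed_iInter fun _ => ?_
    exact isClosed_le (MvPolynomial.continuous_eval P).norm continuous_const
  · refine isBounded_iff_forall_norm_le.2 ⟨R, fun a ha => ?_⟩
    obtain ⟨b0, hb0⟩ := hne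
    have hR0 : 0 ≤ R := (norm_nonneg _).trans (hR b0 hb0)
    refine (pi_norm_le_iff_of_nonneg hR0).2 fun i => ?_
    have := ha (MvPolynomial.X i) R fun b hb => by
      rw [MvPolynomial.eval_X]
      exact (norm_le_pi_norm b i).trans (hR b hb)
    rwa [MvPolynomial.eval_X] at this

theorem subset_polyHull {m : ℕ} (K : Set (Fin m → ℂ)) : K ⊆ polyHull K :=
  fun a ha _ _ h => h a ha

end Hyp20
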