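import Pool.Agent.Lib.Hyp.HCDefs95
import Pool.Agent.Lib.Hyp.Hull25
import Pool.Agent.Lib.Hyp.Crit95

/-!
The maximum of a function over the critical points (helper95).
-/

namespace Hyp95

open Topology Set Metric Hyp20

/-- Maximum of `‖G a c‖` over the critical points `c` of `p_a`. -/
noncomputable def cmax (n : ℕ) (G : (Fin (n - 1) → ℂ) → ℂ → ℂ) (a : Fin (n - 1) → ℂ) : ℝ :=
  sSup ((fun c => ‖G a c‖) '' {c | IsCritical n a c})

theorem finite_crit {n : ℕ} (hn : 2 ≤ n) (a : Fin (n - 1) → ℂ) : {c | IsCritical n a c}.Finite := by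
  classical
  refine Set.Finite.subset ((Polynomial.derivative (pol n a)).roots.toFinset.finite_toSet) ?_
  intro c hc
  rw [Finset.mem_coe, Multiset.mem_toFinset]
  exact (mem_roots_derivative_pol n hn a c).mpr hc

theorem exists_cmax {n : ℕ} (hn : 2 ≤ n) (G : (Fin (n - 1) → ℂ) → ℂ → ℂ) (a : Fin (n - 1) → ℂ) :
    ∃ c, IsCritical n a c ∧ cmax n G a = ‖G a c‖ := by
  have hf := (finite_crit hn a).image (fun c => ‖G a c‖)
  have hne : ((fun c => ‖G a c‖) '' {c | IsCritical n a c}).Nonempty := by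
    obtain ⟨c, hc⟩ := exists_crit hn a
    exact ⟨_, c, hc, rfl⟩
  obtain ⟨c, hc, h⟩ := hne.csSup_mem hf
  exact ⟨c, hc, h.symm⟩

theorem le_cmax {n : ℕ} (hn : 2 ≤ n) (G : (Fin (n - 1) → ℂ) → ℂ → ℂ) {a : Fin (n - 1) → ℂ}
    {c : ℂ} (hc : IsCritical n a c) : ‖G a c‖ ≤ cmax n G a :=
  le_csSup ((finite_crit hn a).image _).bddAbove ⟨c, hc, rfl⟩

theorem cmax_le_iff {n : ℕ} (hn : 2 ≤ n) (G : (Fin (n - 1) → ℂ) → ℂ → ℂ) {a : Fin (n - 1) → ℂ}
    {M : ℝ} : cmax n G a ≤ M ↔ ∀ c, IsCritical n a c → ‖G a c‖ ≤ M := by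
  constructor
  · intro h c hc
    exact (le_cmax hn G hc).trans h
  · intro h
    obtain ⟨c, hc, e⟩ := exists_cmax hn G a
    rw [e]
    exact h c hc

theorem cmax_lt_iff {n : ℕ} (hn : 2 ≤ n) (G : (Fin (n - 1) → ℂ) → ℂ → ℂ) {a : Fin (n - 1) → ℂ}
    {M : ℝ} : cmax n G a < M ↔ ∀ c, IsCritical n a c → ‖G a c‖ < M := by
  constructor
  · intro h c hc
    exact (le_cmax hn G hc).trans_lt h
  · intro h
    obtain ⟨c, hc, e⟩ := exists_cmax hn G a
    rw [e]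
    exact h c hc

theorem cmax_nonneg {n : ℕ} (hn : 2 ≤ n) (G : (Fin (n - 1) → ℂ) → ℂ → ℂ)
    (a : Fin (n - 1) → ℂ) : 0 ≤ cmax n G a := by
  obtain ⟨c, -, e⟩ := exists_cmax hn G a
  rw [e]
  exact norm_nonneg _

/-- Continuity of the maximum. -/
theorem continuousAt_cmax {n : ℕ} (hn : 2 ≤ n) {G : (Fin (n - 1) → ℂ) → ℂ → ℂ}
    {a₀ : Fin (n - 1) → ℂ}
    (hG : ∀ c, IsCritical n a₀ c →
      ContinuousAt (fun p : (Fin (n - 1) → ℂ) × ℂ => G p.1 p.2) (a₀, c)) :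
    ContinuousAt (cmax n G) a₀ := by
  rw [Metric.continuousAt_iff]
  intro ε hε
  -- for each critical point a good radius
  have h1 : ∀ c, IsCritical n a₀ c → ∃ δ > 0, ∀ a z, dist a a₀ < δ → dist z c < δ →
      |‖G a z‖ - ‖G a₀ c‖| < ε := by
    intro c hc
    have hc' : ContinuousAt (fun p : (Fin (n - 1) → ℂ) × ℂ => ‖G p.1 p.2‖) (a₀, c) := (hG c hc).norm
    rw [Metric.continuousAt_iff] at hc'
    obtain ⟨δ, hδ, h⟩ := hc' ε hε
    refine ⟨δ, hδ, fun a z ha hz => ?_⟩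
    have := h (x := (a, z)) (by rw [Prod.dist_eq]; exact max_lt ha hz)
    rwa [Real.dist_eq] at this
  obtain ⟨δ, hδ, hδ'⟩ : ∃ δ > 0, ∀ c, IsCritical n a₀ c → ∀ a z, dist a a₀ < δ → dist z c < δ →
      |‖G a z‖ - ‖G a₀ c‖| < ε := by
    choose! δ hδ h using h1
    obtain ⟨c₀, hc₀⟩ := exists_crit hn a₀
    obtain ⟨c, hc, hmin⟩ := (finite_crit hn a₀).isCompact.exists_isMinOn ⟨c₀, hc₀⟩
      (f := δ) ((finite_crit hn a₀).continuousOn δ)
    refine ⟨δ c, hδ c hc, fun c' hc' a z ha hz => ?_⟩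
    have : δ c ≤ δ c' := hmin hc'
    exact h c' hc' a z (ha.trans_le this) (hz.trans_le this)
  obtain ⟨η, hη, hclose⟩ := crit_close hn a₀ hδ
  refine ⟨min δ η, lt_min hδ hη, fun {a} ha => ?_⟩
  have ha1 : dist a a₀ < δ := ha.trans_le (min_le_left _ _)
  have ha2 : ‖a - a₀‖ < η := by
    rw [← dist_eq_norm]; exact ha.trans_le (min_le_right _ _)
  obtain ⟨hc1, hc2⟩ := hclose a ha2
  rw [Real.dist_eq, abs_lt]
  constructor
  · obtain ⟨c, hc, e⟩ := exists_cmax hn G a₀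
    obtain ⟨c', hc', hcc⟩ := hc2 c hc
    have h3 := hδ' c hc a c' ha1 (by rw [dist_comm, dist_eq_norm]; exact hcc)
    have h4 := le_cmax hn G hc'
    rw [abs_lt] at h3
    rw [e]
    linarith
  · obtain ⟨c', hc', e⟩ := exists_cmax hn G a
    obtain ⟨c, hc, hcc⟩ := hc1 c' hc'
    have h3 := hδ' c hc a c' ha1 (by rw [dist_eq_norm]; exact hcc)
    have h4 := le_cmax hn G hc
    rw [abs_lt] at h3
    rw [e]
    linarith

theorem continuous_cmax {n : ℕ} (hn : 2 ≤ n) {G : (Fin (n - 1) → ℂ) → ℂ → ℂ}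
    (hG : Continuous (fun p : (Fin (n - 1) → ℂ) × ℂ => G p.1 p.2)) : Continuous (cmax n G) :=
  continuous_iff_continuousAt.mpr fun _ => continuousAt_cmax hn fun _ _ => hG.continuousAt

end Hyp95
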