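import Mathlib
import Pool.Agent.Lib.Hyp.Stmt20
import Pool.Agent.Lib.Hyp.Est20
import Pool.Agent.Lib.Hyp.BiPoly20

/-!
Escape to infinity (helper39, module B2): explicit escape radius, openness, growth.
-/

namespace Hyp20

open Filter Topology

/-- An explicit escape radius. -/
noncomputable def escR (n : ℕ) (a : Fin (n - 1) → ℂ) : ℝ := 3 + ∑ i, ‖a i‖

theorem three_le_escR (n : ℕ) (a : Fin (n - 1) → ℂ) : 3 ≤ escR n a := by
  unfold escR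
  have : 0 ≤ ∑ i, ‖a i‖ := Finset.sum_nonneg fun i _ => norm_nonneg _
  linarith

theorem continuous_escR (n : ℕ) : Continuous (escR n) := by
  unfold escR
  exact continuous_const.add (continuous_finsetSum _ fun i _ => (continuous_apply i).norm)

theorem pmap_eq (n : ℕ) (a : Fin (n - 1) → ℂ) (z : ℂ) :
    pmap n a z = z ^ n + ∑ i : Fin (n - 1), a i * z ^ (i : ℕ) := by
  simp [pmap, pol, Polynomial.eval_finsetSum]

/-- Outside the escape radius the modulus at least doubles. -/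
theorem norm_pmap_ge {n : ℕ} (hn : 2 ≤ n) (a : Fin (n - 1) → ℂ) {z : ℂ}
    (hz : escR n a ≤ ‖z‖) : 2 * ‖z‖ ≤ ‖pmap n a z‖ := by
  have h3 := three_le_escR n a
  have hz3 : 3 ≤ ‖z‖ := h3.trans hz
  have hz1 : 1 ≤ ‖z‖ := by linarith
  set A : ℝ := ∑ i, ‖a i‖ with hA
  have hA0 : 0 ≤ A := Finset.sum_nonneg fun i _ => norm_nonneg _
  have hAz : A ≤ ‖z‖ - 3 := by
    have : escR n a = 3 + A := rfl
    linarith
  have hsum : ‖∑ i : Fin (n - 1), a i * z ^ (i : ℕ)‖ ≤ A * ‖z‖ ^ (n - 2) := by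
    rw [hA, Finset.sum_mul]
    refine norm_sum_le_of_le _ fun i _ => ?_
    rw [norm_mul, norm_pow]
    refine mul_le_mul_of_nonneg_left ?_ (norm_nonneg _)
    exact pow_le_pow_right₀ hz1 (by have := i.2; omega)
  have hmain : ‖z‖ ^ n - A * ‖z‖ ^ (n - 2) ≤ ‖pmap n a z‖ := by
    rw [pmap_eq]
    have h1 : ‖z ^ n‖ ≤ ‖z ^ n + ∑ i : Fin (n - 1), a i * z ^ (i : ℕ)‖ +
        ‖∑ i : Fin (n - 1), a i * z ^ (i : ℕ)‖ := by
      have := norm_sub_le (z ^ n + ∑ i : Fin (n - 1), a i * z ^ (i : ℕ))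
        (∑ i : Fin (n - 1), a i * z ^ (i : ℕ))
      simpa using this
    rw [norm_pow] at h1
    linarith
  have hpow : ‖z‖ ^ n = ‖z‖ ^ (n - 2) * ‖z‖ ^ 2 := by
    rw [← pow_add]; congr 1; omega
  have hQ : 1 ≤ ‖z‖ ^ (n - 2) := one_le_pow₀ hz1
  have h4 : 2 * ‖z‖ ≤ ‖z‖ ^ 2 - A := by nlinarith
  calc 2 * ‖z‖ ≤ ‖z‖ ^ 2 - A := h4
    _ ≤ ‖z‖ ^ (n - 2) * (‖z‖ ^ 2 - A) := by
        have : 0 ≤ ‖z‖ ^ 2 - A := by linarith
        nlinarith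
    _ = ‖z‖ ^ n - A * ‖z‖ ^ (n - 2) := by rw [hpow]; ring
    _ ≤ ‖pmap n a z‖ := hmain

theorem norm_iter_ge {n : ℕ} (hn : 2 ≤ n) (a : Fin (n - 1) → ℂ) {z : ℂ}
    (hz : escR n a ≤ ‖z‖) (k : ℕ) : 2 ^ k * ‖z‖ ≤ ‖(pmap n a)^[k] z‖ := by
  induction k with
  | zero => simp
  | succ k ih =>
    rw [Function.iterate_succ_apply']
    have h0 : 0 ≤ ‖z‖ := norm_nonneg z
    have h1 : ‖z‖ ≤ 2 ^ k * ‖z‖ := by
      have : (1 : ℝ) ≤ 2 ^ k := one_le_pow₀ (by norm_num)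
      nlinarith
    have h2 := norm_pmap_ge hn a (hz.trans (h1.trans ih))
    calc 2 ^ (k + 1) * ‖z‖ = 2 * (2 ^ k * ‖z‖) := by ring
      _ ≤ 2 * ‖(pmap n a)^[k] z‖ := by linarith
      _ ≤ _ := h2

/-- Growth after the orbit has passed the escape radius. -/
theorem norm_iter_ge' {n : ℕ} (hn : 2 ≤ n) (a : Fin (n - 1) → ℂ) {z : ℂ} {k0 : ℕ}
    (hz : escR n a ≤ ‖(pmap n a)^[k0] z‖) {k : ℕ} (hk : k0 ≤ k) :
    2 ^ (k - k0) * ‖(pmap n a)^[k0] z‖ ≤ ‖(pmap n a)^[k] z‖ := by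
  have h := norm_iter_ge hn a hz (k - k0)
  rw [← Function.iterate_add_apply] at h
  have e : k - k0 + k0 = k := by omega
  rwa [e] at h

theorem escR_le_iter {n : ℕ} (hn : 2 ≤ n) (a : Fin (n - 1) → ℂ) {z : ℂ} {k0 : ℕ}
    (hz : escR n a ≤ ‖(pmap n a)^[k0] z‖) {k : ℕ} (hk : k0 ≤ k) :
    escR n a ≤ ‖(pmap n a)^[k] z‖ := by
  refine hz.trans ((?_ : _ ≤ _).trans (norm_iter_ge' hn a hz hk))
  have h1 : (1 : ℝ) ≤ 2 ^ (k - k0) := one_le_pow₀ (by norm_num)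
  nlinarith [norm_nonneg ((pmap n a)^[k0] z)]

theorem escapes_of_le {n : ℕ} (hn : 2 ≤ n) (a : Fin (n - 1) → ℂ) {z : ℂ} {k0 : ℕ}
    (hz : escR n a ≤ ‖(pmap n a)^[k0] z‖) : Escapes (pmap n a) z := by
  unfold Escapes
  have h1 : Tendsto (fun k : ℕ => (2 : ℝ) ^ k) atTop atTop :=
    tendsto_pow_atTop_atTop_of_one_lt (by norm_num)
  have h2 : Tendsto (fun k : ℕ => ‖(pmap n a)^[k + k0] z‖) atTop atTop := by
    refine tendsto_atTop_mono (fun k => ?_) h1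
    have h := norm_iter_ge' hn a hz (k := k + k0) (by omega)
    have e : k + k0 - k0 = k := by omega
    rw [e] at h
    refine le_trans ?_ h
    have h3 : 1 ≤ ‖(pmap n a)^[k0] z‖ := by linarith [three_le_escR n a]
    have h4 : (0 : ℝ) < 2 ^ k := by positivity
    nlinarith
  exact (tendsto_add_atTop_iff_nat (f := fun k : ℕ => ‖(pmap n a)^[k] z‖) k0).1 h2

theorem escapes_iff {n : ℕ} (hn : 2 ≤ n) (a : Fin (n - 1) → ℂ) (z : ℂ) :
    Escapes (pmap n a) z ↔ ∃ k, escR n a < ‖(pmap n a)^[k] z‖ :=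
  ⟨fun h => (h.eventually_gt_atTop (escR n a)).exists,
    fun ⟨_, hk⟩ => escapes_of_le hn a hk.le⟩

/-- A point which does not escape has an orbit bounded by the escape radius. -/
theorem not_escapes_iff {n : ℕ} (hn : 2 ≤ n) (a : Fin (n - 1) → ℂ) (z : ℂ) :
    ¬ Escapes (pmap n a) z ↔ ∀ k, ‖(pmap n a)^[k] z‖ ≤ escR n a := by
  rw [escapes_iff hn]
  push Not
  rfl

theorem escapes_of_unbounded {n : ℕ} (hn : 2 ≤ n) (a : Fin (n - 1) → ℂ) (z : ℂ)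
    (h : ∀ B : ℝ, ∃ k, B ≤ ‖(pmap n a)^[k] z‖) : Escapes (pmap n a) z := by
  obtain ⟨k, hk⟩ := h (escR n a)
  exact escapes_of_le hn a hk

theorem isOpen_escapes {n : ℕ} (hn : 2 ≤ n) :
    IsOpen {p : (Fin (n - 1) → ℂ) × ℂ | Escapes (pmap n p.1) p.2} := by
  have e : {p : (Fin (n - 1) → ℂ) × ℂ | Escapes (pmap n p.1) p.2} =
      ⋃ k : ℕ, {p | escR n p.1 < ‖(pmap n p.1)^[k] p.2‖} := by
    ext p
    simp only [Set.mem_ofPred_eq, Set.mem_iUnion]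
    exact escapes_iff hn p.1 p.2
  rw [e]
  refine isOpen_iUnion fun k => ?_
  exact isOpen_lt ((continuous_escR n).comp continuous_fst)
    (isBiPoly_iter n k).continuous.norm

/-- The consecutive differences along an escaping orbit. -/
theorem diff_ge {n : ℕ} (hn : 2 ≤ n) (a : Fin (n - 1) → ℂ) {z : ℂ} {k0 : ℕ}
    (hz : escR n a ≤ ‖(pmap n a)^[k0] z‖) {k : ℕ} (hk : k0 ≤ k) :
    2 ^ (k - k0) ≤ ‖(pmap n a)^[k + 1] z - (pmap n a)^[k] z‖ := by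
  have h1 := escR_le_iter hn a hz hk
  have h2 := norm_pmap_ge hn a h1
  rw [← Function.iterate_succ_apply' (pmap n a) k z] at h2
  have h3 := norm_iter_ge' hn a hz hk
  have h4 := norm_sub_norm_le ((pmap n a)^[k + 1] z) ((pmap n a)^[k] z)
  have h5 : 1 ≤ ‖(pmap n a)^[k0] z‖ := by linarith [three_le_escR n a]
  have h6 : (0 : ℝ) < 2 ^ (k - k0) := by positivity
  have h7 : (2 : ℝ) ^ (k - k0) ≤ 2 ^ (k - k0) * ‖(pmap n a)^[k0] z‖ := by nlinarith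
  linarith

/-- The local estimate near an escaping pair. -/
theorem local_escape {n : ℕ} (hn : 2 ≤ n) (a0 : Fin (n - 1) → ℂ) (c0 : ℂ)
    (h : Escapes (pmap n a0) c0) :
    ∃ k0 : ℕ, ∀ᶠ p : (Fin (n - 1) → ℂ) × ℂ in 𝓝 (a0, c0),
      escR n p.1 ≤ ‖(pmap n p.1)^[k0] p.2‖ ∧
      ∀ k, k0 ≤ k → 2 ^ (k - k0) ≤ ‖(pmap n p.1)^[k + 1] p.2 - (pmap n p.1)^[k] p.2‖ := by
  obtain ⟨k0, hk0⟩ := (escapes_iff hn a0 c0).1 h
  refine ⟨k0, ?_⟩
  have hc1 : Continuous fun p : (Fin (n - 1) → ℂ) × ℂ => escR n p.1 :=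
    (continuous_escR n).comp continuous_fst
  have hc2 : Continuous fun p : (Fin (n - 1) → ℂ) × ℂ => ‖(pmap n p.1)^[k0] p.2‖ :=
    (isBiPoly_iter n k0).continuous.norm
  filter_upwards [hc1.continuousAt.eventually_lt hc2.continuousAt hk0] with p hp
  exact ⟨hp.le, fun k hk => diff_ge hn p.1 hp.le hk⟩

/-- Locally uniform version over a compact set of escaping pairs. -/
theorem compact_escape {n : ℕ} (hn : 2 ≤ n) {S : Set ((Fin (n - 1) → ℂ) × ℂ)}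
    (hS : IsCompact S) (hE : ∀ p ∈ S, Escapes (pmap n p.1) p.2) :
    ∃ k0 : ℕ, ∀ p ∈ S, escR n p.1 ≤ ‖(pmap n p.1)^[k0] p.2‖ ∧
      ∀ k, k0 ≤ k → 2 ^ (k - k0) ≤ ‖(pmap n p.1)^[k + 1] p.2 - (pmap n p.1)^[k] p.2‖ := by
  have key : ∃ k0 : ℕ, ∀ p ∈ S, escR n p.1 ≤ ‖(pmap n p.1)^[k0] p.2‖ := by
    refine hS.induction_on (p := fun T => ∃ k0 : ℕ, ∀ p ∈ T,
      escR n p.1 ≤ ‖(pmap n p.1)^[k0] p.2‖) ?_ ?_ ?_ ?_
    · exact ⟨0, fun p hp => hp.elim⟩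
    · rintro s t hst ⟨k0, hk0⟩
      exact ⟨k0, fun p hp => hk0 p (hst hp)⟩
    · rintro s t ⟨k0, hk0⟩ ⟨k1, hk1⟩
      refine ⟨max k0 k1, fun p hp => ?_⟩
      rcases hp with hp | hp
      · exact escR_le_iter hn p.1 (hk0 p hp) (le_max_left _ _)
      · exact escR_le_iter hn p.1 (hk1 p hp) (le_max_right _ _)
    · intro p hp
      obtain ⟨k0, hk0⟩ := local_escape hn p.1 p.2 (hE p hp)
      exact ⟨_, mem_nhdsWithin_of_mem_nhds hk0, k0, fun q hq => hq.1⟩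
  obtain ⟨k0, hk0⟩ := key
  exact ⟨k0, fun p hp => ⟨hk0 p hp, fun k hk => diff_ge hn p.1 (hk0 p hp) hk⟩⟩

/-- Convergence to a finite cycle excludes escape. -/
theorem not_escapes_of_tendsToFiniteCycle {n : ℕ} (a : Fin (n - 1) → ℂ) {z : ℂ}
    (h : TendsToFiniteCycle (pmap n a) z) : ¬ Escapes (pmap n a) z := by
  intro hE
  obtain ⟨q, hq, α, -, -, ht⟩ := h
  have h1 : Tendsto (fun k : ℕ => ‖(pmap n a)^[q * k] z‖) atTop (𝓝 ‖α‖) := ht.norm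
  have h2 : Tendsto (fun k : ℕ => ‖(pmap n a)^[q * k] z‖) atTop atTop := by
    have h3 : Tendsto (fun k : ℕ => q * k) atTop atTop :=
      tendsto_id.const_mul_atTop' (by omega)
    exact (show Tendsto (fun k : ℕ => ‖(pmap n a)^[k] z‖) atTop atTop from hE).comp h3
  exact not_tendsto_nhds_of_tendsto_atTop h2 _ h1

end Hyp20
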