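import Mathlib
import Pool.Agent.Lib.Hyp.Stmt20
import Pool.Agent.Lib.Hyp.Est20
import Pool.Agent.Lib.Hyp.BiPoly20

/-!
Local and uniform estimates along critical orbits, openness (helper20).
-/

namespace Hyp20

open Filter Topology

/-- The estimate along the orbit of one point. -/
def EstPt (n : ℕ) (a : Fin (n - 1) → ℂ) (c : ℂ) (N k0 : ℕ) (C ρ : ℝ) : Prop :=
  ∀ k, k0 ≤ k →
    ‖(pmap n a)^[(k + 1) * N] c - (pmap n a)^[k * N] c‖ ≤ C * ρ ^ k ∧
      ‖deriv ((pmap n a)^[N]) ((pmap n a)^[k * N] c)‖ ≤ ρ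

theorem EstPt.mono {n : ℕ} {a : Fin (n - 1) → ℂ} {c : ℂ} {N k0 k0' : ℕ} {C C' ρ ρ' : ℝ}
    (h : EstPt n a c N k0 C ρ) (hk : k0 ≤ k0') (hC : 0 ≤ C) (hCC : C ≤ C') (hρ : 0 ≤ ρ)
    (hρρ : ρ ≤ ρ') : EstPt n a c N k0' C' ρ' := by
  intro k hk'
  obtain ⟨h1, h2⟩ := h k (hk.trans hk')
  refine ⟨h1.trans ?_, h2.trans hρρ⟩
  exact mul_le_mul hCC (pow_le_pow_left₀ hρ hρρ k) (pow_nonneg hρ k) (hC.trans hCC)

theorem norm_deriv_iterate_le {g : ℂ → ℂ} (hg : Differentiable ℂ g) {ρ : ℝ} (w : ℂ) (t : ℕ)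
    (h : ∀ j, j < t → ‖deriv g (g^[j] w)‖ ≤ ρ) (hρ : 0 ≤ ρ) : ‖deriv (g^[t]) w‖ ≤ ρ ^ t := by
  have hdiff : ∀ s : ℕ, Differentiable ℂ (g^[s]) := by
    intro s
    induction s with
    | zero => exact differentiable_id
    | succ s ih => rw [Function.iterate_succ]; exact ih.comp hg
  induction t with
  | zero => simp
  | succ t ih =>
    have h1 := ih fun j hj => h j (by omega)
    have h2 := h t (by omega)
    have e : g^[t + 1] = g ∘ g^[t] := by rw [Function.iterate_succ']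
    rw [e, deriv_comp _ (hg _) (hdiff t _), norm_mul, pow_succ']
    exact mul_le_mul h2 h1 (norm_nonneg _) hρ

theorem EstPt.mul {n : ℕ} {a : Fin (n - 1) → ℂ} {c : ℂ} {N k0 t : ℕ} {C ρ : ℝ}
    (h : EstPt n a c N k0 C ρ) (ht : 1 ≤ t) (hC : 0 ≤ C) (hρ : 0 ≤ ρ) (hρ1 : ρ ≤ 1) :
    EstPt n a c (N * t) k0 (C * t) ρ := by
  intro k hk
  have hkt : ∀ j, k ≤ k * t + j := fun j => by nlinarith
  refine ⟨?_, ?_⟩
  · have e : (pmap n a)^[(k + 1) * (N * t)] c - (pmap n a)^[k * (N * t)] c =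
        ∑ j ∈ Finset.range t, ((pmap n a)^[(k * t + j + 1) * N] c -
          (pmap n a)^[(k * t + j) * N] c) := by
      have h0 := Finset.sum_range_sub (fun j => (pmap n a)^[(k * t + j) * N] c) t
      have e1 : (k + 1) * (N * t) = (k * t + t) * N := by ring
      have e2 : k * (N * t) = (k * t + 0) * N := by ring
      rw [e1, e2, ← h0]
      rfl
    rw [e]
    calc ‖∑ j ∈ Finset.range t, ((pmap n a)^[(k * t + j + 1) * N] c -
          (pmap n a)^[(k * t + j) * N] c)‖ ≤ ∑ j ∈ Finset.range t, C * ρ ^ k := by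
          refine norm_sum_le_of_le _ fun j _ => ?_
          refine (h (k * t + j) (hk.trans (hkt j))).1.trans ?_
          exact mul_le_mul_of_nonneg_left (pow_le_pow_of_le_one hρ hρ1 (hkt j)) hC
      _ = C * t * ρ ^ k := by simp; ring
  · have e : (pmap n a)^[N * t] = ((pmap n a)^[N])^[t] := by rw [Function.iterate_mul]
    rw [e]
    have h1 : ‖deriv (((pmap n a)^[N])^[t]) ((pmap n a)^[k * (N * t)] c)‖ ≤ ρ ^ t := by
      refine norm_deriv_iterate_le (differentiable_iter n a N) _ t ?_ hρ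
      intro j _
      have e2 : ((pmap n a)^[N])^[j] ((pmap n a)^[k * (N * t)] c) =
          (pmap n a)^[(k * t + j) * N] c := by
        rw [← Function.iterate_mul, ← Function.iterate_add_apply]
        congr 2
        ring
      rw [e2]
      exact (h (k * t + j) (hk.trans (hkt j))).2
    refine h1.trans ?_
    calc ρ ^ t ≤ ρ ^ 1 := pow_le_pow_of_le_one hρ hρ1 ht
      _ = ρ := pow_one ρ

/-- The local estimate near a pair `(a0, c0)` whose orbit tends to a finite attracting cycle. -/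
theorem local_est {n : ℕ} (a0 : Fin (n - 1) → ℂ) (c0 : ℂ)
    (h : TendsToFiniteCycle (pmap n a0) c0) :
    ∃ N k0 : ℕ, 1 ≤ N ∧ ∃ C ρ : ℝ, 0 ≤ C ∧ 0 < ρ ∧ ρ < 1 ∧
      ∀ᶠ p : (Fin (n - 1) → ℂ) × ℂ in 𝓝 (a0, c0), EstPt n p.1 p.2 N k0 C ρ := by
  obtain ⟨q, hq, α, hα, hmult, htend⟩ := h
  obtain ⟨ρ, hρ1, hρ2⟩ := exists_between (max_lt hmult (zero_lt_one : (0 : ℝ) < 1))
  have hρm : ‖deriv ((pmap n a0)^[q]) α‖ < ρ := lt_of_le_of_lt (le_max_left _ _) hρ1
  have hρ0 : 0 < ρ := lt_of_le_of_lt (le_max_right _ _) hρ1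
  -- a disc on which the derivative is small
  have hcd : Continuous (fun p : (Fin (n - 1) → ℂ) × ℂ =>
      ‖deriv ((pmap n p.1)^[q]) p.2‖) := (isBiPoly_deriv_iter n q).continuous.norm
  have hci : ∀ k : ℕ, Continuous (fun p : (Fin (n - 1) → ℂ) × ℂ => (pmap n p.1)^[k] p.2) :=
    fun k => (isBiPoly_iter n k).continuous
  obtain ⟨r, hr0, hr⟩ : ∃ r : ℝ, 0 < r ∧ ∀ z ∈ Metric.closedBall α r,
      ‖deriv ((pmap n a0)^[q]) z‖ < ρ := by
    have h1 : ∀ᶠ z in 𝓝 α, ‖deriv ((pmap n a0)^[q]) z‖ < ρ :=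
      (continuous_deriv_iter n a0 q).norm.continuousAt.eventually_lt continuousAt_const hρm
    obtain ⟨r, hr0, hr⟩ := Metric.eventually_nhds_iff.1 h1
    refine ⟨r / 2, by positivity, fun z hz => hr ?_⟩
    exact lt_of_le_of_lt (Metric.mem_closedBall.1 hz) (by linarith)
  obtain ⟨k0, hk0⟩ : ∃ k0 : ℕ, (pmap n a0)^[k0 * q] c0 ∈ Metric.ball α r := by
    have h1 := (htend.eventually (Metric.ball_mem_nhds α hr0)).exists
    obtain ⟨k, hk⟩ := h1
    exact ⟨k, by rwa [mul_comm]⟩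
  refine ⟨q, k0, hq, 2 * r / ρ ^ k0, ρ, by positivity, hρ0, hρ2, ?_⟩
  -- the three open conditions
  have E1 : ∀ᶠ a in 𝓝 a0, ∀ z ∈ Metric.closedBall α r, ‖deriv ((pmap n a)^[q]) z‖ < ρ := by
    refine (isCompact_closedBall α r).eventually_forall_of_forall_eventually ?_
    intro z hz
    exact hcd.continuousAt.eventually_lt continuousAt_const (hr z hz)
  have E2 : ∀ᶠ a in 𝓝 a0, ‖(pmap n a)^[q] α - α‖ < (1 - ρ) * r := by
    have hc : Continuous (fun a : Fin (n - 1) → ℂ => ‖(pmap n a)^[q] α - α‖) :=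
      (((hci q).comp (continuous_id.prodMk continuous_const)).sub continuous_const).norm
    refine hc.continuousAt.eventually_lt continuousAt_const ?_
    rw [hα]; simp; nlinarith
  have E3 : ∀ᶠ p : (Fin (n - 1) → ℂ) × ℂ in 𝓝 (a0, c0),
      (pmap n p.1)^[k0 * q] p.2 ∈ Metric.ball α r :=
    (hci (k0 * q)).continuousAt.eventually_mem (Metric.isOpen_ball.mem_nhds hk0)
  have E12 : ∀ᶠ p : (Fin (n - 1) → ℂ) × ℂ in 𝓝 (a0, c0),
      (∀ z ∈ Metric.closedBall α r, ‖deriv ((pmap n p.1)^[q]) z‖ < ρ) ∧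
        ‖(pmap n p.1)^[q] α - α‖ < (1 - ρ) * r :=
    (continuous_fst.tendsto (a0, c0)).eventually (E1.and E2)
  filter_upwards [E12, E3] with p hp1 hp3
  obtain ⟨a, c⟩ := p
  obtain ⟨h1, h2⟩ := hp1
  simp only at h1 h2 hp3 ⊢
  have hlip : ∀ z ∈ Metric.closedBall α r, ∀ w ∈ Metric.closedBall α r,
      ‖(pmap n a)^[q] z - (pmap n a)^[q] w‖ ≤ ρ * ‖z - w‖ := by
    intro z hz w hw
    exact Convex.norm_image_sub_le_of_norm_deriv_le
      (fun x _ => (differentiable_iter n a q) x) (fun x hx => (h1 x hx).le)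
      (convex_closedBall α r) hw hz
  have hαm : α ∈ Metric.closedBall α r := Metric.mem_closedBall_self hr0.le
  have hmaps : ∀ z ∈ Metric.closedBall α r, (pmap n a)^[q] z ∈ Metric.closedBall α r := by
    intro z hz
    rw [Metric.mem_closedBall, dist_eq_norm] at hz ⊢
    have h3 := hlip z (by rwa [Metric.mem_closedBall, dist_eq_norm]) α hαm
    calc ‖(pmap n a)^[q] z - α‖ = ‖((pmap n a)^[q] z - (pmap n a)^[q] α) +
          ((pmap n a)^[q] α - α)‖ := by congr 1; ring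
      _ ≤ ‖(pmap n a)^[q] z - (pmap n a)^[q] α‖ + ‖(pmap n a)^[q] α - α‖ := norm_add_le _ _
      _ ≤ ρ * r + (1 - ρ) * r := add_le_add
          (h3.trans (mul_le_mul_of_nonneg_left hz hρ0.le)) h2.le
      _ = r := by ring
  have hstep : ∀ k : ℕ, (pmap n a)^[(k + 1) * q] c = (pmap n a)^[q] ((pmap n a)^[k * q] c) := by
    intro k
    rw [← Function.iterate_add_apply]
    congr 2; ring
  have hin : ∀ k, k0 ≤ k → (pmap n a)^[k * q] c ∈ Metric.closedBall α r := by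
    intro k hk
    induction k, hk using Nat.le_induction with
    | base => exact Metric.ball_subset_closedBall hp3
    | succ k _ ih => rw [hstep]; exact hmaps _ ih
  have hdist : ∀ k, k0 ≤ k →
      ‖(pmap n a)^[(k + 1) * q] c - (pmap n a)^[k * q] c‖ ≤ 2 * r / ρ ^ k0 * ρ ^ k := by
    intro k hk
    induction k, hk using Nat.le_induction with
    | base =>
      have h5 := hin k0 le_rfl
      have h6 := hin (k0 + 1) (by omega)
      rw [Metric.mem_closedBall, dist_eq_norm] at h5 h6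
      have e : 2 * r / ρ ^ k0 * ρ ^ k0 = 2 * r := by
        field_simp
      rw [e]
      calc ‖(pmap n a)^[(k0 + 1) * q] c - (pmap n a)^[k0 * q] c‖
          = ‖((pmap n a)^[(k0 + 1) * q] c - α) - ((pmap n a)^[k0 * q] c - α)‖ := by
            congr 1; ring
        _ ≤ ‖(pmap n a)^[(k0 + 1) * q] c - α‖ + ‖(pmap n a)^[k0 * q] c - α‖ := norm_sub_le _ _
        _ ≤ 2 * r := by linarith
    | succ k hk ih =>
      rw [hstep (k + 1), hstep k]
      have h7 := hlip _ (hin (k + 1) (by omega)) _ (hin k hk)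
      rw [hstep k] at h7
      rw [hstep k] at ih
      calc ‖(pmap n a)^[q] ((pmap n a)^[q] ((pmap n a)^[k * q] c)) -
            (pmap n a)^[q] ((pmap n a)^[k * q] c)‖ ≤
            ρ * ‖(pmap n a)^[q] ((pmap n a)^[k * q] c) - (pmap n a)^[k * q] c‖ := h7
        _ ≤ ρ * (2 * r / ρ ^ k0 * ρ ^ k) := mul_le_mul_of_nonneg_left ih hρ0.le
        _ = 2 * r / ρ ^ k0 * ρ ^ (k + 1) := by ring
  intro k hk
  exact ⟨hdist k hk, (h1 _ (hin k hk)).le⟩

end Hyp20
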