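import Mathlib
import Pool.Agent.Lib.Hyp.Stmt20
import Pool.Agent.Lib.Hyp.Est20
import Pool.Agent.Lib.Hyp.BiPoly20
import Pool.Agent.Lib.Hyp.Local20
import Pool.Agent.Lib.Hyp.PSum25
import Pool.Agent.Lib.Hyp.Poly25

/-!
Bounds along critical orbits pass to the polynomial hull (helper20).
-/

namespace Hyp20

open Filter Topology

theorem mem_roots_derivative {n : ℕ} (hn : 2 ≤ n) (a : Fin (n - 1) → ℂ) (c : ℂ) :
    c ∈ (Polynomial.derivative (pol n a)).roots ↔ IsCritical n a c :=
  mem_roots_derivative_pol n hn a c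

theorem card_roots_derivative_le {n : ℕ} (hn : 2 ≤ n) (a : Fin (n - 1) → ℂ) :
    (Multiset.card (Polynomial.derivative (pol n a)).roots : ℝ) ≤ n := by
  rw [card_roots_derivative_pol n hn a]
  exact_mod_cast Nat.sub_le n 1

theorem norm_multiset_sum_le {s : Multiset ℂ} {B : ℝ} (h : ∀ w ∈ s, ‖w‖ ≤ B) :
    ‖s.sum‖ ≤ Multiset.card s * B := by
  induction s using Multiset.induction_on with
  | empty => simp
  | cons w s ih =>
    rw [Multiset.sum_cons, Multiset.card_cons]
    have h1 := h w (Multiset.mem_cons_self _ _)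
    have h2 := ih fun v hv => h v (Multiset.mem_cons_of_mem hv)
    calc ‖w + s.sum‖ ≤ ‖w‖ + ‖s.sum‖ := norm_add_le _ _
      _ ≤ B + Multiset.card s * B := add_le_add h1 h2
      _ = ((Multiset.card s + 1 : ℕ) : ℝ) * B := by push_cast; ring

/-- A bound for `G` at the critical points of all maps in `K` passes to the hull. -/
theorem hull_bound {n : ℕ} (hn : 2 ≤ n)
    {K : Set (Fin (n - 1) → ℂ)} {G : (Fin (n - 1) → ℂ) → ℂ → ℂ} (hG : IsBiPoly G) {M : ℝ}
    (hM : 0 ≤ M) (hK : ∀ b ∈ K, ∀ c, IsCritical n b c → ‖G b c‖ ≤ M)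
    {a : Fin (n - 1) → ℂ} (ha : a ∈ polyHull K) {c : ℂ} (hc : IsCritical n a c) :
    ‖G a c‖ ≤ M := by
  have key := norm_le_of_power_sums_multiset ((Polynomial.derivative (pol n a)).roots.map (G a)) n M hM ?_ (G a c)
    (Multiset.mem_map_of_mem _ ((mem_roots_derivative hn a c).2 hc))
  · exact key
  · intro m _
    obtain ⟨P, hP⟩ := exists_sum_poly n hn (G := fun a z => G a z ^ m) (hG.pow m)
    rw [Multiset.map_map]
    have e : ((Polynomial.derivative (pol n a)).roots.map ((fun w => w ^ m) ∘ G a)).sum =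
        MvPolynomial.eval a P := by rw [hP]; rfl
    rw [e]
    refine ha P _ fun b hb => ?_
    rw [hP]
    have h1 : ∀ w ∈ (Polynomial.derivative (pol n b)).roots.map (fun z => G b z ^ m),
        ‖w‖ ≤ M ^ m := by
      intro w hw
      obtain ⟨z, hz, rfl⟩ := Multiset.mem_map.1 hw
      rw [norm_pow]
      exact pow_le_pow_left₀ (norm_nonneg _) (hK b hb z ((mem_roots_derivative hn b z).1 hz)) m
    refine (norm_multiset_sum_le h1).trans ?_
    rw [Multiset.card_map]
    exact mul_le_mul_of_nonneg_right (card_roots_derivative_le hn b) (pow_nonneg hM m)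

/-- The estimates pass to the polynomial hull. -/
theorem est_polyHull {n : ℕ} (hn : 2 ≤ n)
    {K : Set (Fin (n - 1) → ℂ)} {N k0 : ℕ} {C ρ : ℝ} (hC : 0 ≤ C) (hρ : 0 ≤ ρ)
    (h : ∀ b ∈ K, Est n b N k0 C ρ) {a : Fin (n - 1) → ℂ} (ha : a ∈ polyHull K) :
    Est n a N k0 C ρ := by
  intro c hc k hk
  refine ⟨?_, ?_⟩
  · exact hull_bound hn (isBiPoly_diff n N k) (mul_nonneg hC (pow_nonneg hρ k))
      (fun b hb z hz => (h b hb z hz k hk).1) ha hc
  · exact hull_bound hn (isBiPoly_mult n N k) hρ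
      (fun b hb z hz => (h b hb z hz k hk).2) ha hc

theorem isClosed_polyHull {m : ℕ} (K : Set (Fin m → ℂ)) : IsClosed (polyHull K) := by
  have e : polyHull K = ⋂ (P : MvPolynomial (Fin m) ℂ) (M : ℝ)
      (_ : ∀ b ∈ K, ‖MvPolynomial.eval b P‖ ≤ M), {a | ‖MvPolynomial.eval a P‖ ≤ M} := by
    ext a; simp [polyHull]
  rw [e]
  refine isClosed_iInter fun P => isClosed_iInter fun M => isClosed_iInter fun _ => ?_
  exact isClosed_le (MvPolynomial.continuous_eval P).norm continuous_const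

theorem isCompact_polyHull {m : ℕ} {K : Set (Fin m → ℂ)} (hK : IsCompact K) :
    IsCompact (polyHull K) := by
  obtain ⟨R, hR⟩ := hK.isBounded.exists_norm_le
  refine (isCompact_closedBall (0 : Fin m → ℂ) (max R 0)).of_isClosed_subset
    (isClosed_polyHull K) ?_
  intro a ha
  rw [mem_closedBall_zero_iff, pi_norm_le_iff_of_nonneg (le_max_right _ _)]
  intro i
  have h1 := ha (MvPolynomial.X i) R (fun b hb => by
    simpa using (norm_le_pi_norm b i).trans (hR b hb))
  simp only [MvPolynomial.eval_X] at h1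
  exact h1.trans (le_max_left _ _)

theorem subset_polyHull {m : ℕ} (K : Set (Fin m → ℂ)) : K ⊆ polyHull K :=
  fun _ ha _ _ h => h _ ha

end Hyp20
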