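import Mathlib
import Pool.Agent.Lib.Hyp.Stmt20
import Pool.Agent.Lib.Hyp.Hull20
import Pool.Agent.Lib.Hyp.Cert11
import Pool.Agent.Lib.Hyp.Escape39

/-!
The connectedness locus, hulls of subsets of it, relatively closed subsets of the expanding
locus (helper20).
-/

namespace Hyp20

open Filter Topology

/-- The connectedness locus: all critical orbits are bounded. -/
def ConnLocus (n : ℕ) : Set (Fin (n - 1) → ℂ) :=
  {a | ∀ c, IsCritical n a c → ∃ R : ℝ, ∀ k : ℕ, ‖(pmap n a)^[k] c‖ ≤ R}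

theorem not_escapes_of_bdd {n : ℕ} {a : Fin (n - 1) → ℂ} {c : ℂ}
    (h : ∃ R : ℝ, ∀ k : ℕ, ‖(pmap n a)^[k] c‖ ≤ R) : ¬ Escapes (pmap n a) c := by
  obtain ⟨R, hR⟩ := h
  intro he
  obtain ⟨k, hk⟩ := (he.eventually (eventually_gt_atTop R)).exists
  exact absurd (hR k) (not_le.2 hk)

theorem expandingBdd_subset_connLocus {n : ℕ} (hn : 2 ≤ n) : ExpandingBdd n ⊆ ConnLocus n := by
  intro a ha c hc
  refine ⟨escR n a, ?_⟩
  exact (not_escapes_iff hn a c).1 (not_escapes_of_tendsToFiniteCycle a (ha c hc))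

/-- The polynomial hull of a bounded subset of the connectedness locus lies in the locus. -/
theorem polyHull_subset_connLocus {n : ℕ} (hn : 2 ≤ n) {S : Set (Fin (n - 1) → ℂ)}
    (hS : S ⊆ ConnLocus n) (hb : Bornology.IsBounded S) : polyHull S ⊆ ConnLocus n := by
  obtain ⟨A, hA⟩ := hb.exists_norm_le
  intro a ha c hc
  refine ⟨3 + (n - 1 : ℕ) * max A 0, fun k => ?_⟩
  refine hull_bound hn (isBiPoly_iter n k) (by positivity) ?_ ha hc
  intro b hb z hz
  have h1 := (not_escapes_iff hn b z).1 (not_escapes_of_bdd (hS hb z hz)) k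
  refine h1.trans ?_
  unfold escR
  have h2 : ∑ i, ‖b i‖ ≤ ∑ _i : Fin (n - 1), max A 0 :=
    Finset.sum_le_sum fun i _ => (norm_le_pi_norm b i).trans ((hA b hb).trans (le_max_left _ _))
  simp only [Finset.sum_const, Finset.card_univ, Fintype.card_fin, nsmul_eq_mul] at h2
  linarith

/-- Theorem A (1): the expanding polynomials with bounded critical orbits form a polynomially
convex set. -/
theorem polyHull_subset_expandingBdd {n : ℕ} (hn : 2 ≤ n) {K : Set (Fin (n - 1) → ℂ)}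
    (hK : IsCompact K) (hKE : K ⊆ ExpandingBdd n) : polyHull K ⊆ ExpandingBdd n := by
  obtain ⟨N, k0, C, ρ, hN, hC, hρ0, hρ1, h⟩ := cert hn hK hKE
  intro a ha
  exact mem_expandingBdd_of_est hN hρ0 hρ1 (est_polyHull hn hC hρ0 h ha)

/-- `Ω` is relatively closed in `S`. -/
def RelClosed {m : ℕ} (S Ω : Set (Fin m → ℂ)) : Prop := ∀ a ∈ S, a ∈ closure Ω → a ∈ Ω

/-- Theorem A (2). -/
theorem isCompact_polyHull_inter {n : ℕ} (hn : 2 ≤ n) {Ω : Set (Fin (n - 1) → ℂ)}
    (hΩE : Ω ⊆ ExpandingBdd n) (hcl : RelClosed (ExpandingBdd n) Ω)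
    {K : Set (Fin (n - 1) → ℂ)} (hK : IsCompact K) (hKΩ : K ⊆ Ω) :
    IsCompact (polyHull K ∩ Ω) := by
  have h1 : polyHull K ⊆ ExpandingBdd n := polyHull_subset_expandingBdd hn hK (hKΩ.trans hΩE)
  have e : polyHull K ∩ Ω = polyHull K ∩ closure Ω := by
    ext a
    constructor
    · rintro ⟨ha, hb⟩; exact ⟨ha, subset_closure hb⟩
    · rintro ⟨ha, hb⟩; exact ⟨ha, hcl a (h1 ha) hb⟩
  rw [e]
  exact (isCompact_polyHull hK).inter_right isClosed_closure

/-- A preconnected subset of the expanding locus which meets `Ω` lies in `Ω`. -/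
theorem subset_of_preconnected {m : ℕ} {S Ω D : Set (Fin m → ℂ)} (hΩ : IsOpen Ω)
    (hcl : RelClosed S Ω) (hD : IsPreconnected D) (hDS : D ⊆ S) (hne : (D ∩ Ω).Nonempty) :
    D ⊆ Ω := by
  by_contra hcon
  obtain ⟨x, hxD, hxΩ⟩ := Set.not_subset.1 hcon
  have hcov : D ⊆ Ω ∪ (closure Ω)ᶜ := by
    intro y hy
    by_cases h : y ∈ closure Ω
    · exact Or.inl (hcl y (hDS hy) h)
    · exact Or.inr h
  have h2 : (D ∩ (closure Ω)ᶜ).Nonempty := by
    refine ⟨x, hxD, ?_⟩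
    intro h
    exact hxΩ (hcl x (hDS hxD) h)
  obtain ⟨z, _, hz1, hz2⟩ := hD Ω (closure Ω)ᶜ hΩ isClosed_closure.isOpen_compl hcov hne h2
  exact hz2 (subset_closure hz1)

end Hyp20
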