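import Mathlib
import Pool.Agent.Lib.Hyp.Stmt20
import Pool.Agent.Lib.Hyp.BiPoly20
import Pool.Agent.Lib.Hyp.Hull20
import Pool.Agent.Lib.Hyp.Escape39

/-!
The locus of bounded critical orbits is compact (helper39, module M12).
-/

namespace Hyp20

open Filter Topology

/-- A bound at all critical points, with a continuous right-hand side, is a closed condition. -/
theorem isClosed_critBound {n : ℕ} (hn : 2 ≤ n) {G : (Fin (n - 1) → ℂ) → ℂ → ℂ}
    (hG : IsBiPoly G) {r : (Fin (n - 1) → ℂ) → ℝ} (hr : Continuous r) (hr0 : ∀ a, 0 ≤ r a) :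
    IsClosed {a : Fin (n - 1) → ℂ | ∀ c, IsCritical n a c → ‖G a c‖ ≤ r a} := by
  choose P hP using fun m : ℕ => Hyp20.exists_sum_pow_poly n hn (G := G) hG m
  have e : {a : Fin (n - 1) → ℂ | ∀ c, IsCritical n a c → ‖G a c‖ ≤ r a} =
      ⋂ m : ℕ, {a | ‖MvPolynomial.eval a (P m)‖ ≤ n * r a ^ m} := by
    ext a
    simp only [Set.mem_ofPred_eq, Set.mem_iInter]
    constructor
    · intro h m
      rw [hP m a]
      have h1 : ∀ w ∈ (Polynomial.derivative (pol n a)).roots.map (fun c => G a c ^ m),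
          ‖w‖ ≤ r a ^ m := by
        intro w hw
        obtain ⟨c, hc, rfl⟩ := Multiset.mem_map.1 hw
        rw [norm_pow]
        exact pow_le_pow_left₀ (norm_nonneg _) (h c ((mem_roots_derivative hn a c).1 hc)) m
      refine (norm_multiset_sum_le h1).trans ?_
      rw [Multiset.card_map]
      exact mul_le_mul_of_nonneg_right (card_roots_derivative_le hn a) (pow_nonneg (hr0 a) m)
    · intro h c hc
      refine norm_le_of_power_sums_multiset
        ((Polynomial.derivative (pol n a)).roots.map (G a)) n (r a) (hr0 a) ?_ (G a c)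
        (Multiset.mem_map_of_mem _ ((mem_roots_derivative hn a c).2 hc))
      intro m _
      have h2 := h m
      rw [hP m a] at h2
      rw [Multiset.map_map]
      exact h2
  rw [e]
  refine isClosed_iInter fun m => ?_
  exact isClosed_le (MvPolynomial.continuous_eval (P m)).norm
    (continuous_const.mul (hr.pow m))

/-- The maps without escaping critical points. -/
def Locus (n : ℕ) : Set (Fin (n - 1) → ℂ) :=
  {a | ∀ c, IsCritical n a c → ¬ Escapes (pmap n a) c}

theorem isClosed_locus {n : ℕ} (hn : 2 ≤ n) : IsClosed (Locus n) := by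
  have e : Locus n = ⋂ k : ℕ, {a : Fin (n - 1) → ℂ | ∀ c, IsCritical n a c →
      ‖(pmap n a)^[k] c‖ ≤ escR n a} := by
    ext a
    simp only [Locus, Set.mem_ofPred_eq, Set.mem_iInter]
    constructor
    · intro h k c hc
      exact (not_escapes_iff hn a c).1 (h c hc) k
    · intro h c hc
      exact (not_escapes_iff hn a c).2 fun k => h k c hc
  rw [e]
  refine isClosed_iInter fun k => ?_
  refine isClosed_critBound hn (isBiPoly_iter n k) (continuous_escR n) fun a => ?_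
  linarith [three_le_escR n a]

/-- If every critical point is a root then the polynomial is `X ^ n`. -/
theorem eq_zero_of_crit {n : ℕ} (hn : 2 ≤ n) (b : Fin (n - 1) → ℂ)
    (h : ∀ c, IsCritical n b c → pmap n b c = 0) : b = 0 := by
  classical
  set P := pol n b with hP
  have hdeg : P.natDegree = n := natDegree_pol n hn b
  have hdeg' : (Polynomial.derivative P).natDegree = n - 1 := natDegree_derivative_pol n hn b
  have hP0 : P ≠ 0 := by
    intro h0; rw [h0, Polynomial.natDegree_zero] at hdeg; omega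
  have hD0 : Polynomial.derivative P ≠ 0 := by
    intro h0; rw [h0, Polynomial.natDegree_zero] at hdeg'; omega
  have hle : (Polynomial.derivative P).roots ≤ P.roots := by
    rw [Multiset.le_iff_count]
    intro c
    rw [Polynomial.count_roots, Polynomial.count_roots]
    by_cases hc : (Polynomial.derivative P).IsRoot c
    · have hroot : P.IsRoot c := h c hc
      rw [Polynomial.derivative_rootMultiplicity_of_root hroot]
      omega
    · rw [Polynomial.rootMultiplicity_eq_zero hc]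
      omega
  obtain ⟨Q, hQ⟩ := (IsAlgClosed.splits (Polynomial.derivative P)).dvd_of_roots_le_roots hD0 hle
  have hQ0 : Q ≠ 0 := by
    rintro rfl
    rw [mul_zero] at hQ
    exact hP0 hQ
  have hQdeg : Q.natDegree = 1 := by
    have h1 := congrArg Polynomial.natDegree hQ
    rw [Polynomial.natDegree_mul hD0 hQ0, hdeg, hdeg'] at h1
    omega
  obtain ⟨u, v, hQuv⟩ : ∃ u v : ℂ, Q = Polynomial.C u * Polynomial.X + Polynomial.C v :=
    ⟨Q.coeff 1, Q.coeff 0, Polynomial.eq_X_add_C_of_natDegree_le_one hQdeg.le⟩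
  have hcoef : ∀ j : ℕ, P.coeff j = u * (j * P.coeff j) + v * ((j + 1) * P.coeff (j + 1)) := by
    intro j
    have h1 : P.coeff j = (Polynomial.derivative P * (Polynomial.C u * Polynomial.X +
        Polynomial.C v)).coeff j := by rw [← hQuv, ← hQ]
    rw [mul_add, Polynomial.coeff_add, Polynomial.coeff_mul_C, ← mul_assoc,
      mul_comm (Polynomial.derivative P) (Polynomial.C u), mul_assoc, Polynomial.coeff_C_mul,
      Polynomial.coeff_derivative] at h1
    cases j with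
    | zero =>
      simp only [Polynomial.mul_coeff_zero, Polynomial.coeff_X_zero, mul_zero, zero_add] at h1
      push_cast at h1 ⊢
      linear_combination h1
    | succ j =>
      rw [Polynomial.coeff_mul_X, Polynomial.coeff_derivative] at h1
      push_cast at h1 ⊢
      linear_combination h1
  have hcn : P.coeff n = 1 := by
    rw [hP, coeff_pol, if_pos rfl]
    have : ∑ i : Fin (n - 1), b i * (if n = (i : ℕ) then (1 : ℂ) else 0) = 0 :=
      Finset.sum_eq_zero fun i _ => by rw [if_neg (by have := i.2; omega), mul_zero]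
    rw [this, add_zero]
  have hcn1 : P.coeff (n - 1) = 0 := by
    rw [hP, coeff_pol, if_neg (by omega), zero_add]
    exact Finset.sum_eq_zero fun i _ => by rw [if_neg (by have := i.2; omega), mul_zero]
  have hnc : (n : ℂ) ≠ 0 := Nat.cast_ne_zero.2 (by omega)
  have hv : v = 0 := by
    have h1 := hcoef (n - 1)
    rw [hcn1, show n - 1 + 1 = n by omega, hcn] at h1
    have h2 : (((n - 1 : ℕ) : ℂ) + 1) = n := by
      have : n - 1 + 1 = n := by omega
      exact_mod_cast congrArg (Nat.cast (R := ℂ)) this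
    rw [h2] at h1
    simp at h1
    rcases h1 with h1 | h1
    · exact h1
    · omega
  have hu : u * n = 1 := by
    have h1 := hcoef n
    rw [hcn, hv] at h1
    simp at h1
    exact h1.symm
  funext i
  have hi : (i : ℕ) < n - 1 := i.2
  have hbi : P.coeff (i : ℕ) = b i := by
    rw [hP, coeff_pol, if_neg (by omega), zero_add]
    rw [Finset.sum_eq_single i]
    · simp
    · intro j _ hji
      rw [if_neg (fun h => hji (Fin.ext h.symm)), mul_zero]
    · intro h; exact absurd (Finset.mem_univ i) h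
  have h1 := hcoef (i : ℕ)
  rw [hv, zero_mul, add_zero, hbi] at h1
  have h2 : b i * (1 - u * (i : ℕ)) = 0 := by linear_combination h1
  rcases mul_eq_zero.1 h2 with h3 | h3
  · simpa using h3
  · exfalso
    have h4 : (u * n) * 1 = (u * n) * (u * (i : ℕ)) := by rw [hu]; linear_combination h3
    have h5 : (n : ℂ) = (i : ℕ) := by
      have h6 : u ≠ 0 := by
        rintro rfl
        simp at hu
      have h7 : u * n = u * (i : ℕ) := by rw [hu]; linear_combination h3
      exact mul_left_cancel₀ h6 h7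
    have h8 : n = (i : ℕ) := by exact_mod_cast h5
    omega

/-- On the unit sphere some critical value is bounded below. -/
theorem exists_crit_value {n : ℕ} (hn : 2 ≤ n) : ∃ δ : ℝ, 0 < δ ∧
    ∀ b : Fin (n - 1) → ℂ, ‖b‖ = 1 → ∃ c, IsCritical n b c ∧ δ ≤ ‖pmap n b c‖ := by
  by_contra hcon
  push Not at hcon
  let F : ℕ → Set (Fin (n - 1) → ℂ) := fun j =>
    Metric.sphere 0 1 ∩ {b | ∀ c, IsCritical n b c → ‖pmap n b c‖ ≤ 1 / ((j : ℝ) + 1)}
  have hFclosed : ∀ j, IsClosed (F j) := fun j =>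
    Metric.isClosed_sphere.inter (isClosed_critBound hn (isBiPoly_pmap n)
      (r := fun _ => 1 / ((j : ℝ) + 1)) continuous_const fun _ => by positivity)
  have hFne : ∀ j, (F j).Nonempty := by
    intro j
    obtain ⟨b, hb1, hb2⟩ := hcon (1 / ((j : ℝ) + 1)) (by positivity)
    exact ⟨b, by simpa using hb1, fun c hc => (hb2 c hc).le⟩
  have hFmono : ∀ j, F (j + 1) ⊆ F j := by
    intro j b hb
    refine ⟨hb.1, fun c hc => (hb.2 c hc).trans ?_⟩
    apply one_div_le_one_div_of_le (by positivity)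
    push_cast
    linarith
  obtain ⟨b, hb⟩ := IsCompact.nonempty_iInter_of_sequence_nonempty_isCompact_isClosed F hFmono
    hFne ((isCompact_sphere 0 1).of_isClosed_subset (hFclosed 0) Set.inter_subset_left) hFclosed
  have hb' : ∀ j, b ∈ F j := fun j => Set.mem_iInter.1 hb j
  have hzero : ∀ c, IsCritical n b c → pmap n b c = 0 := by
    intro c hc
    rw [← norm_le_zero_iff]
    refine le_of_tendsto_of_tendsto' tendsto_const_nhds tendsto_one_div_add_atTop_nhds_zero_nat
      fun j => (hb' j).2 c hc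
  have hb0 := eq_zero_of_crit hn b hzero
  have h1 := (hb' 0).1
  rw [hb0] at h1
  simp at h1

/-- Scaling. -/
theorem exists_scaling {n : ℕ} (a : Fin (n - 1) → ℂ) (ha : a ≠ 0) :
    ∃ (t : ℝ) (b : Fin (n - 1) → ℂ), 0 < t ∧ ‖b‖ = 1 ∧
      (∀ i, a i = (t : ℂ) ^ (n - (i : ℕ)) * b i) ∧ ∀ i, ‖a i‖ ≤ t ^ (n - (i : ℕ)) := by
  obtain ⟨i1, hi1⟩ : ∃ i, a i ≠ 0 := by
    by_contra h
    push Not at h
    exact ha (funext h)
  have hnz : ∀ i : Fin (n - 1), n - (i : ℕ) ≠ 0 := fun i => by have := i.2; omega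
  let τ : Fin (n - 1) → ℝ := fun i => ‖a i‖ ^ (((n - (i : ℕ) : ℕ) : ℝ)⁻¹)
  have hτ0 : ∀ i, 0 ≤ τ i := fun i => Real.rpow_nonneg (norm_nonneg _) _
  have hτ : ∀ i, τ i ^ (n - (i : ℕ)) = ‖a i‖ := fun i =>
    Real.rpow_inv_natCast_pow (norm_nonneg _) (hnz i)
  obtain ⟨i0, -, hi0⟩ := Finset.exists_max_image Finset.univ τ ⟨i1, Finset.mem_univ _⟩
  have ht : 0 < τ i0 := by
    have h1 : 0 < τ i1 := Real.rpow_pos_of_pos (norm_pos_iff.2 hi1) _
    exact lt_of_lt_of_le h1 (hi0 i1 (Finset.mem_univ _))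
  have hle : ∀ i, ‖a i‖ ≤ τ i0 ^ (n - (i : ℕ)) := by
    intro i
    rw [← hτ i]
    exact pow_le_pow_left₀ (hτ0 i) (hi0 i (Finset.mem_univ _)) _
  have htc : ((τ i0 : ℝ) : ℂ) ≠ 0 := Complex.ofReal_ne_zero.2 ht.ne'
  have hnorm : ∀ i : Fin (n - 1), ‖((τ i0 : ℝ) : ℂ) ^ (n - (i : ℕ))‖ = τ i0 ^ (n - (i : ℕ)) := by
    intro i
    rw [norm_pow, Complex.norm_real, Real.norm_of_nonneg ht.le]
  refine ⟨τ i0, fun i => a i / ((τ i0 : ℝ) : ℂ) ^ (n - (i : ℕ)), ht, ?_, ?_, hle⟩
  · apply le_antisymm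
    · rw [pi_norm_le_iff_of_nonneg zero_le_one]
      intro i
      rw [norm_div, hnorm i, div_le_one (by positivity)]
      exact hle i
    · have h1 := norm_le_pi_norm (fun i => a i / ((τ i0 : ℝ) : ℂ) ^ (n - (i : ℕ))) i0
      have h2 : ‖a i0 / ((τ i0 : ℝ) : ℂ) ^ (n - (i0 : ℕ))‖ = 1 := by
        rw [norm_div, hnorm i0, hτ i0, div_self]
        rw [← hτ i0]; positivity
      rw [h2] at h1
      exact h1
  · intro i
    field_simp

theorem pmap_scaling {n : ℕ} {a b : Fin (n - 1) → ℂ} {t : ℂ}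
    (h : ∀ i, a i = t ^ (n - (i : ℕ)) * b i) (z : ℂ) :
    pmap n a (t * z) = t ^ n * pmap n b z := by
  rw [pmap_eq, pmap_eq, mul_add, mul_pow, Finset.mul_sum]
  congr 1
  refine Finset.sum_congr rfl fun i _ => ?_
  rw [h i, mul_pow]
  have e : t ^ n = t ^ (n - (i : ℕ)) * t ^ (i : ℕ) := by
    rw [← pow_add]; congr 1; have := i.2; omega
  rw [e]; ring

theorem isCritical_scaling {n : ℕ} {a b : Fin (n - 1) → ℂ} {t : ℂ} (ht : t ≠ 0)
    (h : ∀ i, a i = t ^ (n - (i : ℕ)) * b i) {c : ℂ} (hc : IsCritical n b c) :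
    IsCritical n a (t * c) := by
  have hcomp : (pol n a).comp (Polynomial.C t * Polynomial.X) =
      Polynomial.C (t ^ n) * pol n b := by
    refine Polynomial.funext fun z => ?_
    rw [Polynomial.eval_comp, Polynomial.eval_mul, Polynomial.eval_C, Polynomial.eval_X,
      Polynomial.eval_mul, Polynomial.eval_C]
    exact pmap_scaling h z
  have h1 := congrArg (fun p => (Polynomial.derivative p).eval c) hcomp
  simp only [Polynomial.derivative_comp, Polynomial.derivative_C_mul, Polynomial.derivative_X,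
    Polynomial.eval_mul, Polynomial.eval_comp, Polynomial.eval_C, Polynomial.eval_X,
    mul_one] at h1
  have hc' : (Polynomial.derivative (pol n b)).eval c = 0 := hc
  rw [hc', mul_zero] at h1
  rcases mul_eq_zero.1 h1 with h2 | h2
  · exact absurd h2 ht
  · exact h2

/-- Escape radius in terms of the homogeneous size. -/
theorem norm_pmap_ge_of_size {n : ℕ} (hn : 2 ≤ n) {a : Fin (n - 1) → ℂ} {t : ℝ} (ht : 1 ≤ t)
    (ha : ∀ i, ‖a i‖ ≤ t ^ (n - (i : ℕ))) {z : ℂ} (hz : 2 * n * t ≤ ‖z‖) :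
    2 * ‖z‖ ≤ ‖pmap n a z‖ := by
  have hn' : (2 : ℝ) ≤ n := by exact_mod_cast hn
  have htz : t ≤ ‖z‖ := by nlinarith
  have hz4 : 4 ≤ ‖z‖ := by nlinarith
  have hz1 : 1 ≤ ‖z‖ := by linarith
  have ht0 : 0 < t := by linarith
  have hterm : ∀ i : Fin (n - 1), ‖a i * z ^ (i : ℕ)‖ ≤ t ^ 2 * ‖z‖ ^ (n - 2) := by
    intro i
    have hi := i.2
    rw [norm_mul, norm_pow]
    obtain ⟨j, hj⟩ : ∃ j, n - (i : ℕ) = 2 + j := ⟨n - (i : ℕ) - 2, by omega⟩
    calc ‖a i‖ * ‖z‖ ^ (i : ℕ) ≤ t ^ (n - (i : ℕ)) * ‖z‖ ^ (i : ℕ) :=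
          mul_le_mul_of_nonneg_right (ha i) (by positivity)
      _ = t ^ 2 * (t ^ j * ‖z‖ ^ (i : ℕ)) := by rw [hj, pow_add]; ring
      _ ≤ t ^ 2 * (‖z‖ ^ j * ‖z‖ ^ (i : ℕ)) := by
          refine mul_le_mul_of_nonneg_left (mul_le_mul_of_nonneg_right ?_ (by positivity))
            (by positivity)
          exact pow_le_pow_left₀ ht0.le htz j
      _ = t ^ 2 * ‖z‖ ^ (n - 2) := by
          rw [← pow_add]; congr 2; omega
  have hsum : ‖∑ i : Fin (n - 1), a i * z ^ (i : ℕ)‖ ≤ n * (t ^ 2 * ‖z‖ ^ (n - 2)) := by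
    refine (norm_sum_le_of_le _ fun i _ => hterm i).trans ?_
    rw [Finset.sum_const, Finset.card_univ, Fintype.card_fin, nsmul_eq_mul]
    refine mul_le_mul_of_nonneg_right ?_ (by positivity)
    exact_mod_cast Nat.sub_le n 1
  have hmain : ‖z‖ ^ n - n * (t ^ 2 * ‖z‖ ^ (n - 2)) ≤ ‖pmap n a z‖ := by
    rw [pmap_eq]
    have h1 : ‖z ^ n‖ ≤ ‖z ^ n + ∑ i : Fin (n - 1), a i * z ^ (i : ℕ)‖ +
        ‖∑ i : Fin (n - 1), a i * z ^ (i : ℕ)‖ := by
      have := norm_sub_le (z ^ n + ∑ i : Fin (n - 1), a i * z ^ (i : ℕ))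
        (∑ i : Fin (n - 1), a i * z ^ (i : ℕ))
      simpa using this
    rw [norm_pow] at h1
    linarith
  have hpow : ‖z‖ ^ n = ‖z‖ ^ (n - 2) * ‖z‖ ^ 2 := by
    rw [← pow_add]; congr 1; omega
  have hQ : 1 ≤ ‖z‖ ^ (n - 2) := one_le_pow₀ hz1
  have h3 : n * t ^ 2 ≤ ‖z‖ ^ 2 / 4 := by
    have h4 : (2 * n * t) ^ 2 ≤ ‖z‖ ^ 2 := pow_le_pow_left₀ (by positivity) hz 2
    nlinarith [sq_nonneg t, mul_nonneg (sq_nonneg t) (by linarith : (0 : ℝ) ≤ (n : ℝ) - 1)]
  have h4 : 2 * ‖z‖ ≤ ‖z‖ ^ 2 - n * t ^ 2 := by nlinarith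
  calc 2 * ‖z‖ ≤ ‖z‖ ^ 2 - n * t ^ 2 := h4
    _ ≤ ‖z‖ ^ (n - 2) * (‖z‖ ^ 2 - n * t ^ 2) := by
        have : 0 ≤ ‖z‖ ^ 2 - n * t ^ 2 := by linarith
        nlinarith
    _ = ‖z‖ ^ n - n * (t ^ 2 * ‖z‖ ^ (n - 2)) := by rw [hpow]; ring
    _ ≤ ‖pmap n a z‖ := hmain

theorem escapes_of_size {n : ℕ} (hn : 2 ≤ n) {a : Fin (n - 1) → ℂ} {t : ℝ} (ht : 1 ≤ t)
    (ha : ∀ i, ‖a i‖ ≤ t ^ (n - (i : ℕ))) {z : ℂ} (hz : 2 * n * t ≤ ‖z‖) :
    Escapes (pmap n a) z := by
  have hn' : (2 : ℝ) ≤ n := by exact_mod_cast hn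
  have hz4 : 4 ≤ ‖z‖ := by nlinarith
  have key : ∀ k : ℕ, 2 ^ k * ‖z‖ ≤ ‖(pmap n a)^[k] z‖ := by
    intro k
    induction k with
    | zero => simp
    | succ k ih =>
      rw [Function.iterate_succ_apply']
      have h1 : ‖z‖ ≤ 2 ^ k * ‖z‖ := by
        have : (1 : ℝ) ≤ 2 ^ k := one_le_pow₀ (by norm_num)
        nlinarith
      have h2 := norm_pmap_ge_of_size hn ht ha (hz.trans (h1.trans ih))
      calc 2 ^ (k + 1) * ‖z‖ = 2 * (2 ^ k * ‖z‖) := by ring
        _ ≤ 2 * ‖(pmap n a)^[k] z‖ := by linarith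
        _ ≤ _ := h2
  unfold Escapes
  refine tendsto_atTop_mono (fun k => ?_) (tendsto_pow_atTop_atTop_of_one_lt
    (by norm_num : (1 : ℝ) < 2))
  have h5 : (0 : ℝ) < 2 ^ k := by positivity
  nlinarith [key k]

/-- The locus of bounded critical orbits is bounded. -/
theorem exists_bound_locus {n : ℕ} (hn : 2 ≤ n) : ∃ R : ℝ, ∀ a ∈ Locus n, ‖a‖ ≤ R := by
  obtain ⟨δ, hδ, hcrit⟩ := exists_crit_value hn
  have hn' : (2 : ℝ) ≤ n := by exact_mod_cast hn
  refine ⟨(max 1 (2 * n / δ)) ^ n, fun a ha => ?_⟩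
  set M : ℝ := max 1 (2 * n / δ) with hM
  have hM1 : 1 ≤ M := le_max_left _ _
  by_cases ha0 : a = 0
  · rw [ha0, norm_zero]; positivity
  obtain ⟨t, b, ht, hb, hab, hat⟩ := exists_scaling a ha0
  have htM : t ≤ M := by
    by_contra hlt
    push Not at hlt
    have ht1 : 1 ≤ t := hM1.trans hlt.le
    obtain ⟨c, hc, hcv⟩ := hcrit b hb
    have htc : (t : ℂ) ≠ 0 := Complex.ofReal_ne_zero.2 ht.ne'
    have hc' := isCritical_scaling htc hab hc
    have hne := ha _ hc'
    have hval : ‖pmap n a ((t : ℂ) * c)‖ = t ^ n * ‖pmap n b c‖ := by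
      rw [pmap_scaling hab, norm_mul, norm_pow, Complex.norm_real, Real.norm_of_nonneg ht.le]
    have hsmall : ‖pmap n a ((t : ℂ) * c)‖ < 2 * n * t := by
      by_contra hge
      push Not at hge
      have hE := escapes_of_size hn ht1 hat hge
      apply hne
      unfold Escapes at hE ⊢
      have e : (fun k : ℕ => ‖(pmap n a)^[k] (pmap n a ((t : ℂ) * c))‖) =
          fun k : ℕ => ‖(pmap n a)^[k + 1] ((t : ℂ) * c)‖ := by
        funext k
        rw [Function.iterate_succ_apply]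
      rw [e] at hE
      exact (tendsto_add_atTop_iff_nat
        (f := fun k : ℕ => ‖(pmap n a)^[k] ((t : ℂ) * c)‖) 1).1 hE
    rw [hval] at hsmall
    have h1 : δ * t ^ n < 2 * n * t := by
      calc δ * t ^ n = t ^ n * δ := by ring
        _ ≤ t ^ n * ‖pmap n b c‖ := mul_le_mul_of_nonneg_left hcv (by positivity)
        _ < 2 * n * t := hsmall
    have h2 : t ^ 2 ≤ t ^ n := pow_le_pow_right₀ ht1 hn
    have h3 : δ * t ^ 2 < 2 * n * t := lt_of_le_of_lt (mul_le_mul_of_nonneg_left h2 hδ.le) h1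
    have h4 : δ * t < 2 * n := by
      have : (δ * t) * t < (2 * n) * t := by nlinarith
      exact lt_of_mul_lt_mul_right this ht.le
    have h5 : t < 2 * n / δ := by
      rw [lt_div_iff₀ hδ]; linarith
    exact absurd (h5.trans_le (le_max_right _ _)) (not_lt.2 hlt.le)
  rw [pi_norm_le_iff_of_nonneg (by positivity)]
  intro i
  calc ‖a i‖ ≤ t ^ (n - (i : ℕ)) := hat i
    _ ≤ M ^ (n - (i : ℕ)) := pow_le_pow_left₀ ht.le htM _
    _ ≤ M ^ n := pow_le_pow_right₀ hM1 (Nat.sub_le _ _)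

/-- The locus of bounded critical orbits is compact. -/
theorem isCompact_locus {n : ℕ} (hn : 2 ≤ n) : IsCompact (Locus n) := by
  obtain ⟨R, hR⟩ := exists_bound_locus hn
  refine (isCompact_closedBall (0 : Fin (n - 1) → ℂ) R).of_isClosed_subset (isClosed_locus hn) ?_
  intro a ha
  rw [mem_closedBall_zero_iff]
  exact hR a ha

/-- The expanding maps without escaping critical points. -/
theorem expandingBdd_eq (n : ℕ) : ExpandingBdd n = Expanding n ∩ Locus n := by
  ext a
  constructor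
  · intro h
    exact ⟨fun c hc => Or.inl (h c hc), fun c hc => not_escapes_of_tendsToFiniteCycle a (h c hc)⟩
  · rintro ⟨h1, h2⟩ c hc
    exact (h1 c hc).resolve_right (h2 c hc)

theorem isBounded_expandingBdd {n : ℕ} (hn : 2 ≤ n) : Bornology.IsBounded (ExpandingBdd n) := by
  refine (isCompact_locus hn).isBounded.subset ?_
  rw [expandingBdd_eq]
  exact Set.inter_subset_right

end Hyp20
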