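import Mathlib
import Pool.Agent.Lib.Hyp.Stmt20
import Pool.Agent.Lib.Hyp.Locus20
import Pool.Agent.Lib.Hyp.Locus39
import Pool.Agent.Lib.Hyp.Closed95

/-!
Connected components of the expanding locus with bounded critical orbits, and the set
`BLit n` of helper95, as open relatively closed subsets (helper20).
-/

namespace Hyp20

open Filter Topology

theorem connLocus_eq_locus {n : ℕ} (hn : 2 ≤ n) : ConnLocus n = Locus n := by
  ext a
  constructor
  · intro h c hc
    exact not_escapes_of_bdd (h c hc)
  · intro h c hc
    exact ⟨escR n a, (not_escapes_iff hn a c).1 (h c hc)⟩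

theorem expandingBdd_subset_expanding (n : ℕ) : ExpandingBdd n ⊆ Expanding n :=
  fun _ ha c hc => Or.inl (ha c hc)

theorem relClosed_expandingBdd {n : ℕ} (hn : 2 ≤ n) :
    RelClosed (Expanding n) (ExpandingBdd n) := by
  intro a ha hcl
  rw [expandingBdd_eq]
  refine ⟨ha, ?_⟩
  have h1 : ExpandingBdd n ⊆ Locus n := by
    rw [expandingBdd_eq]; exact Set.inter_subset_right
  exact (isClosed_locus hn).closure_subset_iff.2 h1 hcl

/-- The component of the expanding locus containing a point with bounded critical orbits. -/
theorem component_facts {n : ℕ} (hn : 2 ≤ n) {a₀ : Fin (n - 1) → ℂ} (ha₀ : a₀ ∈ ExpandingBdd n) :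
    IsOpen (connectedComponentIn (Expanding n) a₀) ∧
      connectedComponentIn (Expanding n) a₀ ⊆ ExpandingBdd n ∧
        RelClosed (ExpandingBdd n) (connectedComponentIn (Expanding n) a₀) := by
  have hmem : a₀ ∈ connectedComponentIn (Expanding n) a₀ :=
    mem_connectedComponentIn (expandingBdd_subset_expanding n ha₀)
  have hsub : connectedComponentIn (Expanding n) a₀ ⊆ ExpandingBdd n :=
    subset_of_preconnected (isOpen_expandingBdd hn) (relClosed_expandingBdd hn)
      isPreconnected_connectedComponentIn (connectedComponentIn_subset _ _) ⟨a₀, hmem, ha₀⟩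
  have heq : connectedComponentIn (Expanding n) a₀ = connectedComponentIn (ExpandingBdd n) a₀ := by
    apply Set.Subset.antisymm
    · exact isPreconnected_connectedComponentIn.subset_connectedComponentIn hmem hsub
    · exact connectedComponentIn_mono a₀ (expandingBdd_subset_expanding n)
  refine ⟨?_, hsub, ?_⟩
  · rw [heq]
    exact (isOpen_expandingBdd hn).connectedComponentIn
  · intro a ha hcl
    rw [heq] at hcl ⊢
    have hpre : IsPreconnected (insert a (connectedComponentIn (ExpandingBdd n) a₀)) := by
      refine isPreconnected_connectedComponentIn.subset_closure (Set.subset_insert _ _) ?_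
      exact Set.insert_subset hcl subset_closure
    have h2 : insert a (connectedComponentIn (ExpandingBdd n) a₀) ⊆ ExpandingBdd n :=
      Set.insert_subset ha (connectedComponentIn_subset _ _)
    have h3 : a₀ ∈ insert a (connectedComponentIn (ExpandingBdd n) a₀) :=
      Set.mem_insert_of_mem _ (mem_connectedComponentIn ha₀)
    exact hpre.subset_connectedComponentIn h3 h2 (Set.mem_insert _ _)

theorem relClosed_BLit {n : ℕ} (hn : 2 ≤ n) : RelClosed (ExpandingBdd n) (Hyp95.BLit n) :=
  fun _ ha hcl => Hyp95.closure_BLit hn ⟨hcl, ha⟩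

/-- The zero vector, i.e. the map `z ^ n`, is expanding with bounded critical orbits. -/
theorem zero_mem_expandingBdd {n : ℕ} (hn : 2 ≤ n) : (0 : Fin (n - 1) → ℂ) ∈ ExpandingBdd n := by
  intro c hc
  have hp : pmap n (0 : Fin (n - 1) → ℂ) = fun z => z ^ n := by
    funext z
    simp [pmap, pol]
  have hc0 : c = 0 := by
    have h : (Polynomial.derivative (pol n (0 : Fin (n - 1) → ℂ))).eval c = 0 := hc
    have e : pol n (0 : Fin (n - 1) → ℂ) = Polynomial.X ^ n := by simp [pol]
    rw [e, Polynomial.derivative_X_pow, Polynomial.eval_mul, Polynomial.eval_pow,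
      Polynomial.eval_X, Polynomial.eval_C] at h
    rcases mul_eq_zero.1 h with h | h
    · have : (n : ℂ) ≠ 0 := by exact_mod_cast (by omega : n ≠ 0)
      exact absurd h this
    · exact pow_eq_zero_iff (by omega) |>.1 h
  subst hc0
  refine ⟨1, le_rfl, 0, ?_, ?_, ?_⟩
  · rw [hp]; simp; omega
  · rw [hp]
    simp only [Function.iterate_one]
    have : deriv (fun z : ℂ => z ^ n) 0 = 0 := by
      simp; omega
    rw [this]; simp
  · rw [hp]
    have h0 : ∀ k : ℕ, (fun z : ℂ => z ^ n)^[k] 0 = 0 := by
      intro k
      refine Function.iterate_fixed ?_ k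
      simp; omega
    simp only [one_mul, h0]
    exact tendsto_const_nhds

end Hyp20
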