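import Pool.Agent.Lib.Hyp.Key20

/-!
Final forms for MP_47150b_an (helper20).
-/

namespace Hyp20

/-- Question 1 for the set `BLit n`, and for every component with bounded critical orbits. -/
theorem final_uniform (n : ℕ) (hn : 2 ≤ n) :
    UniformExistence (Hyp95.BLit n) ∧
      ∀ a₀ ∈ ExpandingBdd n, UniformExistence (connectedComponentIn (Expanding n) a₀) := by
  refine ⟨uniformExistence hn (Hyp95.isOpen_BLit hn) (Hyp95.BLit_subset_expandingBdd n)
    (relClosed_BLit hn), ?_⟩
  intro a₀ ha₀
  obtain ⟨h1, h2, h3⟩ := component_facts hn ha₀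
  exact uniformExistence hn h1 h2 h3

/-- Polynomial convexity of the expanding locus with bounded critical orbits, and the hull
condition for `BLit n` and for every component. -/
theorem final_convex (n : ℕ) (hn : 2 ≤ n) :
    (∀ K : Set (Fin (n - 1) → ℂ), IsCompact K → K ⊆ ExpandingBdd n →
        IsCompact (polyHull K) ∧ polyHull K ⊆ ExpandingBdd n) ∧
      (∀ K : Set (Fin (n - 1) → ℂ), IsCompact K → K ⊆ Hyp95.BLit n →
        IsCompact (polyHull K ∩ Hyp95.BLit n)) ∧
      ∀ a₀ ∈ ExpandingBdd n, ∀ K : Set (Fin (n - 1) → ℂ), IsCompact K →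
        K ⊆ connectedComponentIn (Expanding n) a₀ →
          IsCompact (polyHull K ∩ connectedComponentIn (Expanding n) a₀) := by
  refine ⟨fun K hK hKE => ⟨isCompact_polyHull hK, polyHull_subset_expandingBdd hn hK hKE⟩, ?_, ?_⟩
  · intro K hK hKΩ
    exact isCompact_polyHull_inter hn (Hyp95.BLit_subset_expandingBdd n) (relClosed_BLit hn) hK hKΩ
  · intro a₀ ha₀ K hK hKΩ
    obtain ⟨_, h2, h3⟩ := component_facts hn ha₀
    exact isCompact_polyHull_inter hn h2 h3 hK hKΩ

end Hyp20
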