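import Pool.Agent.Lib.Hyp.RC95
import Pool.Agent.Lib.Hyp.Rat.Final95

/-!
Final form of the answer to question 2 of MP_47150b_an (helper95).
-/

namespace Hyp95

open Hyp20 HypRat

/-- Every component of the expanding locus in the space of monic centred polynomials is a domain
of holomorphy, and rationally convex. -/
theorem component_pol {n : ℕ} (hn : 2 ≤ n) (a₀ : Fin (n - 1) → ℂ) :
    IsDomainOfHolomorphy (connectedComponentIn (Expanding n) a₀) ∧
      ∀ K : Set (Fin (n - 1) → ℂ), IsCompact K →
        K ⊆ connectedComponentIn (Expanding n) a₀ → ratHull K ⊆ Expanding n ∧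
          IsCompact (ratHull K ∩ connectedComponentIn (Expanding n) a₀) := by
  refine ⟨isDomainOfHolomorphy_component hn a₀, fun K hK hKΩ => ?_⟩
  have h1 := ratHull_subset_expanding hn hK (hKΩ.trans (connectedComponentIn_subset _ _))
  refine ⟨h1, ?_⟩
  have e : ratHull K ∩ connectedComponentIn (Expanding n) a₀ =
      ratHull K ∩ closure (connectedComponentIn (Expanding n) a₀) := by
    ext a
    constructor
    · rintro ⟨h2, h3⟩
      exact ⟨h2, subset_closure h3⟩
    · rintro ⟨h2, h3⟩
      exact ⟨h2, relClosed_component (Expanding n) a₀ a (h1 h2) h3⟩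
  rw [e]
  exact (isCompact_ratHull hK).inter_right isClosed_closure

end Hyp95
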