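import Pool.Agent.Lib.Hyp.Stmt20
import Mathlib

/-!
Plurisubharmonic functions and hyperconvex sets (helper95).
-/

namespace Hyp20

open Topology

/-- Continuous plurisubharmonic functions: continuous on `Ω`, with the sub-mean value property
on all closed analytic discs `a + τ v`, `|τ| ≤ 1`, contained in `Ω`. -/
def IsPSH {m : ℕ} (Ω : Set (Fin m → ℂ)) (u : (Fin m → ℂ) → ℝ) : Prop :=
  ContinuousOn u Ω ∧ ∀ a ∈ Ω, ∀ v : Fin m → ℂ, (∀ τ : ℂ, ‖τ‖ ≤ 1 → a + τ • v ∈ Ω) →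
    u a ≤ Real.circleAverage (fun τ : ℂ => u (a + τ • v)) 0 1

/-- Hyperconvex: bounded, open, with a negative continuous plurisubharmonic exhaustion
function. -/
def IsHyperconvex {m : ℕ} (Ω : Set (Fin m → ℂ)) : Prop :=
  IsOpen Ω ∧ Bornology.IsBounded Ω ∧ ∃ u : (Fin m → ℂ) → ℝ, IsPSH Ω u ∧
    (∀ a ∈ Ω, u a < 0) ∧ ∀ ε > 0, IsCompact {a | a ∈ Ω ∧ u a ≤ -ε}

end Hyp20
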