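import Pool.Agent.Lib.Hyp.Hull25
import Pool.Agent.Lib.Hyp.Crit95

/-!
Interpolation (three circles) for symmetric functions of the critical points (helper95).
-/

namespace Hyp95

open Topology Set Metric Hyp20

/-- Interpolation between the bounds on two discs, via Taylor coefficients. -/
theorem interp {φ : ℂ → ℂ} (hφ : Differentiable ℂ φ) {τ T m M l : ℝ} (hτ : 0 < τ) (hT : 0 < T)
    (hm : 0 ≤ m) (hM : 0 ≤ M) (h1 : ∀ z, ‖z‖ ≤ τ → ‖φ z‖ ≤ m) (h2 : ∀ z, ‖z‖ ≤ T → ‖φ z‖ ≤ M)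
    (hl0 : 0 ≤ l) (hl1 : l ≤ 1) (hq : (τ⁻¹) ^ l * (T⁻¹) ^ (1 - l) < 1) :
    ‖φ 1‖ ≤ m ^ l * M ^ (1 - l) * (1 - (τ⁻¹) ^ l * (T⁻¹) ^ (1 - l))⁻¹ := by
  set q : ℝ := (τ⁻¹) ^ l * (T⁻¹) ^ (1 - l) with hqdef
  have hq0 : 0 ≤ q := by positivity
  have hsum := Complex.hasSum_taylorSeries_of_entire hφ 0 1
  have hg : HasSum (fun i : ℕ => m ^ l * M ^ (1 - l) * q ^ i)
      (m ^ l * M ^ (1 - l) * (1 - q)⁻¹) := (hasSum_geometric_of_lt_one hq0 hq).mul_left _
  refine hsum.norm_le_of_bounded hg ?_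
  intro i
  have hfac : (0:ℝ) < (i.factorial : ℝ) := Nat.cast_pos.mpr (Nat.factorial_pos i)
  have e1 : ‖((i.factorial : ℂ))⁻¹ • ((1:ℂ) - 0) ^ i • iteratedDeriv i φ 0‖ =
      ‖iteratedDeriv i φ 0‖ / i.factorial := by
    rw [sub_zero, one_pow, one_smul, norm_smul, norm_inv, Complex.norm_natCast]
    field_simp
  rw [e1]
  have c1 : ‖iteratedDeriv i φ 0‖ / i.factorial ≤ m * (τ⁻¹) ^ i := by
    have := Complex.norm_iteratedDeriv_le_of_forall_mem_sphere_norm_le (c := 0) i hτ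
      (hφ.diffContOnCl) (C := m) (fun z hz => h1 z (by
        rw [mem_sphere_zero_iff_norm] at hz; exact hz.le))
    rw [div_le_iff₀ hfac]
    calc ‖iteratedDeriv i φ 0‖ ≤ i.factorial * m / τ ^ i := this
      _ = m * (τ⁻¹) ^ i * i.factorial := by rw [inv_pow]; field_simp
  have c2 : ‖iteratedDeriv i φ 0‖ / i.factorial ≤ M * (T⁻¹) ^ i := by
    have := Complex.norm_iteratedDeriv_le_of_forall_mem_sphere_norm_le (c := 0) i hT
      (hφ.diffContOnCl) (C := M) (fun z hz => h2 z (by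
        rw [mem_sphere_zero_iff_norm] at hz; exact hz.le))
    rw [div_le_iff₀ hfac]
    calc ‖iteratedDeriv i φ 0‖ ≤ i.factorial * M / T ^ i := this
      _ = M * (T⁻¹) ^ i * i.factorial := by rw [inv_pow]; field_simp
  set x : ℝ := ‖iteratedDeriv i φ 0‖ / i.factorial with hx
  have hx0 : 0 ≤ x := by positivity
  have hl1' : 0 ≤ 1 - l := by linarith
  calc x = x ^ l * x ^ (1 - l) := by
        rw [← Real.rpow_add_of_nonneg hx0 hl0 hl1']
        simp
    _ ≤ (m * (τ⁻¹) ^ i) ^ l * (M * (T⁻¹) ^ i) ^ (1 - l) := by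
        apply mul_le_mul (Real.rpow_le_rpow hx0 c1 hl0) (Real.rpow_le_rpow hx0 c2 hl1')
          (Real.rpow_nonneg hx0 _) (by positivity)
    _ = m ^ l * M ^ (1 - l) * q ^ i := by
        have hτi : 0 ≤ τ⁻¹ := by positivity
        have hTi : 0 ≤ T⁻¹ := by positivity
        rw [Real.mul_rpow hm (by positivity), Real.mul_rpow hM (by positivity), hqdef, mul_pow,
          ← Real.rpow_natCast (τ⁻¹) i, ← Real.rpow_natCast (T⁻¹) i, ← Real.rpow_mul hτi,
          ← Real.rpow_mul hTi, mul_comm (i : ℝ) l, mul_comm (i : ℝ) (1 - l), Real.rpow_mul hτi,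
          Real.rpow_mul hTi, Real.rpow_natCast, Real.rpow_natCast]
        ring

theorem exists_exponent {x y : ℝ} (hx : 0 < x) (hy : 0 < y) (hy1 : y < 1) :
    ∃ l : ℝ, 0 < l ∧ l ≤ 1 ∧ x ^ l * y ^ (1 - l) < 1 := by
  obtain ⟨L, hL⟩ := exists_pow_lt_of_lt_one (inv_pos.mpr hx) hy1
  have h1 : x * y ^ L < 1 := by
    calc x * y ^ L < x * x⁻¹ := mul_lt_mul_of_pos_left hL hx
      _ = 1 := mul_inv_cancel₀ hx.ne'
  have hL0 : (0:ℝ) < (L:ℝ) + 1 := by positivity
  refine ⟨1 / ((L:ℝ) + 1), by positivity, ?_, ?_⟩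
  · rw [div_le_one hL0]
    have : (0:ℝ) ≤ L := Nat.cast_nonneg L
    linarith
  · have e : 1 - 1 / ((L:ℝ) + 1) = L * (1 / ((L:ℝ) + 1)) := by
      field_simp
      ring
    rw [e, Real.rpow_mul hy.le, Real.rpow_natCast, ← Real.mul_rpow hx.le (by positivity)]
    exact Real.rpow_lt_one (by positivity) h1 (by positivity)

/-- Two constants theorem for functions of the critical points. -/
theorem two_const {n : ℕ} (hn : 2 ≤ n) {t s₁ s : ℝ} (ht : 0 < t) (hs₁ : 0 < s₁)
    (hs : s₁ < s) :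
    ∃ l : ℝ, 0 < l ∧ l ≤ 1 ∧ ∀ (w : Fin (n - 1) → ℂ) (G : (Fin (n - 1) → ℂ) → ℂ → ℂ),
      IsBiPoly G → ∀ A B : ℝ, 0 ≤ A → 0 ≤ B →
      (∀ b ∈ closedBall w t, ∀ c, IsCritical n b c → ‖G b c‖ ≤ A) →
      (∀ b ∈ ball w s, ∀ c, IsCritical n b c → ‖G b c‖ ≤ B) →
      ∀ a ∈ closedBall w s₁, ∀ c, IsCritical n a c → ‖G a c‖ ≤ A ^ l * B ^ (1 - l) := by
  set s' : ℝ := (s + s₁) / 2 with hs'
  have hs'1 : s₁ < s' := by rw [hs']; linarith
  have hs'2 : s' < s := by rw [hs']; linarith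
  have hs'0 : 0 < s' := hs₁.trans hs'1
  have hτ : 0 < t / s₁ := by positivity
  have hT : 0 < s' / s₁ := by positivity
  obtain ⟨l, hl0, hl1, hq⟩ := exists_exponent (x := (t / s₁)⁻¹) (y := (s' / s₁)⁻¹)
    (by positivity) (by positivity) (by
      rw [inv_div, div_lt_one hs'0]; exact hs'1)
  refine ⟨l, hl0, hl1, ?_⟩
  intro w G hG A B hA hB h1 h2 a ha c hc
  have hl1' : 0 ≤ 1 - l := by linarith
  have hnn : (0:ℝ) ≤ ((n - 1 : ℕ) : ℝ) := Nat.cast_nonneg _
  set κ : ℝ := (1 - ((t / s₁)⁻¹) ^ l * ((s' / s₁)⁻¹) ^ (1 - l))⁻¹ with hκ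
  -- power sums
  have hps : ∀ j : ℕ, 1 ≤ j →
      ‖(((Polynomial.derivative (pol n a)).roots.map (G a)).map fun x => x ^ j).sum‖ ≤
        ((n - 1 : ℕ) : ℝ) * κ * (A ^ l * B ^ (1 - l)) ^ j := by
    intro j hj
    obtain ⟨P, hP⟩ := IsBiPoly.exists_sum_poly n hn (hG.pow j)
    have hPb : ∀ b, ∀ E : ℝ, 0 ≤ E → (∀ c, IsCritical n b c → ‖G b c‖ ≤ E) →
        ‖MvPolynomial.eval b P‖ ≤ ((n - 1 : ℕ) : ℝ) * E ^ j := by
      intro b E hE hb
      rw [hP b]
      have hcard := card_roots_derivative_pol n hn b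
      have hmem := fun c => mem_roots_derivative_pol n hn b c
      calc ‖((Polynomial.derivative (pol n b)).roots.map fun z => G b z ^ j).sum‖
          ≤ (((Polynomial.derivative (pol n b)).roots.map fun z => G b z ^ j).map
              (fun x => ‖x‖)).sum := norm_multiset_sum_le _
        _ ≤ Multiset.card (((Polynomial.derivative (pol n b)).roots.map fun z => G b z ^ j).map
              (fun x => ‖x‖)) • E ^ j := by
            apply Multiset.sum_le_card_nsmul
            intro x hx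
            simp only [Multiset.map_map, Multiset.mem_map, Function.comp_apply] at hx
            obtain ⟨c, hc, rfl⟩ := hx
            rw [norm_pow]
            exact pow_le_pow_left₀ (norm_nonneg _) (hb c ((hmem c).mp hc)) j
        _ = ((n - 1 : ℕ) : ℝ) * E ^ j := by
            rw [Multiset.card_map, Multiset.card_map, hcard, nsmul_eq_mul]
    have hφ : Differentiable ℂ (fun z : ℂ => MvPolynomial.eval (w + z • (a - w)) P) := by
      have hpoly : ∀ P : MvPolynomial (Fin (n - 1)) ℂ,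
          Differentiable ℂ (fun z : ℂ => MvPolynomial.eval (w + z • (a - w)) P) := by
        intro P
        induction P using MvPolynomial.induction_on with
        | C c => simp
        | add p q hp hq => simp only [map_add]; exact hp.add hq
        | mul_X p i hp =>
          simp only [map_mul, MvPolynomial.eval_X]
          refine hp.mul ?_
          simp only [Pi.add_apply, Pi.smul_apply, smul_eq_mul]
          fun_prop
      exact hpoly P
    have hmapa : (((Polynomial.derivative (pol n a)).roots.map (G a)).map fun x => x ^ j).sum =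
        MvPolynomial.eval (w + (1:ℂ) • (a - w)) P := by
      rw [Multiset.map_map, one_smul, add_sub_cancel, hP a]
      rfl
    rw [hmapa]
    have hin := interp hφ (m := ((n - 1 : ℕ) : ℝ) * A ^ j) (M := ((n - 1 : ℕ) : ℝ) * B ^ j)
      hτ hT (by positivity) (by positivity) ?_ ?_ hl0.le hl1 hq
    · refine hin.trans (le_of_eq ?_)
      rw [← hκ, Real.mul_rpow hnn (by positivity), Real.mul_rpow hnn (by positivity), mul_pow,
        ← Real.rpow_natCast A j, ← Real.rpow_natCast B j, ← Real.rpow_mul hA, ← Real.rpow_mul hB,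
        mul_comm (j : ℝ) l, mul_comm (j : ℝ) (1 - l), Real.rpow_mul hA, Real.rpow_mul hB,
        Real.rpow_natCast, Real.rpow_natCast]
      have : ((n - 1 : ℕ) : ℝ) ^ l * ((n - 1 : ℕ) : ℝ) ^ (1 - l) = ((n - 1 : ℕ) : ℝ) := by
        rw [← Real.rpow_add_of_nonneg hnn hl0.le hl1']
        simp
      calc ((n - 1 : ℕ) : ℝ) ^ l * (A ^ l) ^ j * (((n - 1 : ℕ) : ℝ) ^ (1 - l) * (B ^ (1 - l)) ^ j) * κ
          = (((n - 1 : ℕ) : ℝ) ^ l * ((n - 1 : ℕ) : ℝ) ^ (1 - l)) * κ *
            ((A ^ l) ^ j * (B ^ (1 - l)) ^ j) := by ring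
        _ = _ := by rw [this]
    · intro z hz
      apply hPb _ A hA
      apply h1
      rw [mem_closedBall, dist_eq_norm, add_sub_cancel_left, norm_smul]
      have ha' : ‖a - w‖ ≤ s₁ := by rwa [mem_closedBall, dist_eq_norm] at ha
      calc ‖z‖ * ‖a - w‖ ≤ t / s₁ * s₁ :=
            mul_le_mul hz ha' (norm_nonneg _) (by positivity)
        _ = t := by field_simp
    · intro z hz
      apply hPb _ B hB
      apply h2
      rw [mem_ball, dist_eq_norm, add_sub_cancel_left, norm_smul]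
      have ha' : ‖a - w‖ ≤ s₁ := by rwa [mem_closedBall, dist_eq_norm] at ha
      calc ‖z‖ * ‖a - w‖ ≤ s' / s₁ * s₁ :=
            mul_le_mul hz ha' (norm_nonneg _) (by positivity)
        _ = s' := by field_simp
        _ < s := hs'2
  refine norm_le_of_power_sums_multiset _ _ _ (by positivity) hps _ ?_
  rw [Multiset.mem_map]
  exact ⟨c, (mem_roots_derivative_pol n hn a c).mpr hc, rfl⟩

end Hyp95
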