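import Pool.Agent.Lib.Hyp.Cert11
import Pool.Agent.Lib.Hyp.Poly25

/-!
MP_47150b_an, module M10b (helper11): if the critical orbits converge at a uniform exponential
rate along multiples of `N` for all parameters near `a0`, then `a0` is expanding.
-/

namespace Hyp20

open Filter Topology Metric

/-- The resultant: a function vanishes at some critical point iff a polynomial in the
coefficients vanishes. -/
theorem exists_prod_poly (n : ℕ) (hn : 2 ≤ n) {G : (Fin (n - 1) → ℂ) → ℂ → ℂ}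
    (hG : IsBiPoly G) :
    ∃ P : MvPolynomial (Fin (n - 1)) ℂ, ∀ a : Fin (n - 1) → ℂ,
      MvPolynomial.eval a P = 0 ↔ ∃ c, IsCritical n a c ∧ G a c = 0 := by
  classical
  obtain ⟨F, hF⟩ := hG
  -- the derivative as a polynomial with polynomial coefficients
  let Q : Polynomial (MvPolynomial (Fin (n - 1)) ℂ) :=
    Polynomial.X ^ n + ∑ i : Fin (n - 1),
      Polynomial.C (MvPolynomial.X i) * Polynomial.X ^ (i : ℕ)
  have hQ : ∀ a : Fin (n - 1) → ℂ, Q.map (MvPolynomial.eval a) = pol n a := by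
    intro a
    simp [Q, pol, Polynomial.map_sum]
  refine ⟨Polynomial.resultant (Polynomial.derivative Q) F (n - 1) F.natDegree, fun a => ?_⟩
  rw [← Polynomial.resultant_map_map]
  have e1 : (Polynomial.derivative Q).map (MvPolynomial.eval a) =
      Polynomial.derivative (pol n a) := by
    rw [← Polynomial.derivative_map, hQ]
  rw [e1]
  have h1 := Polynomial.resultant_eq_prod_eval (Polynomial.derivative (pol n a))
    (F.map (MvPolynomial.eval a)) F.natDegree Polynomial.natDegree_map_le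
    (IsAlgClosed.splits _)
  rw [natDegree_derivative_pol n hn] at h1
  rw [h1, leadingCoeff_derivative_pol n hn]
  have hn0 : (n : ℂ) ≠ 0 := Nat.cast_ne_zero.2 (by omega)
  rw [mul_eq_zero, or_iff_right (pow_ne_zero _ hn0), Multiset.prod_eq_zero_iff,
    Multiset.mem_map]
  constructor
  · rintro ⟨c, hc, hc0⟩
    exact ⟨c, (mem_roots_derivative_pol n hn a c).1 hc, by rw [hF]; exact hc0⟩
  · rintro ⟨c, hc, hc0⟩
    refine ⟨c, (mem_roots_derivative_pol n hn a c).2 hc, ?_⟩
    rw [hF] at hc0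
    exact hc0

/-- A nonzero polynomial is nonzero on a dense set. -/
theorem dense_ne_zero {m : ℕ} {P : MvPolynomial (Fin m) ℂ} {a1 : Fin m → ℂ}
    (h1 : MvPolynomial.eval a1 P ≠ 0) : Dense {a : Fin m → ℂ | MvPolynomial.eval a P ≠ 0} := by
  intro a
  by_contra hcon
  rw [mem_closure_iff_frequently, not_frequently] at hcon
  have h2 : AnalyticOnNhd ℂ (fun a : Fin m → ℂ => MvPolynomial.eval a P) Set.univ :=
    AnalyticOnNhd.eval_mvPolynomial P
  have h3 : (fun a : Fin m → ℂ => MvPolynomial.eval a P) =ᶠ[𝓝 a] 0 := by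
    filter_upwards [hcon] with b hb
    simpa using hb
  have h4 := h2.eqOn_zero_of_preconnected_of_eventuallyEq_zero isPreconnected_univ
    (Set.mem_univ a) h3
  exact h1 (h4 (Set.mem_univ a1))

/-- Critical points depend continuously on the map. -/
theorem exists_critical_near {n : ℕ} (hn : 2 ≤ n) {a0 : Fin (n - 1) → ℂ} {c0 : ℂ}
    (hc0 : IsCritical n a0 c0) {ε : ℝ} (hε : 0 < ε) :
    ∀ᶠ a in 𝓝 a0, ∃ c, IsCritical n a c ∧ ‖c - c0‖ < ε := by
  have h1 : Tendsto (fun a : Fin (n - 1) → ℂ => ‖dmap n a c0‖) (𝓝 a0) (𝓝 0) := by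
    have h2 : Continuous (fun a : Fin (n - 1) → ℂ => ‖dmap n a c0‖) :=
      ((continuous_dmap n).comp (continuous_id.prodMk continuous_const)).norm
    have h3 := h2.tendsto a0
    have h4 : dmap n a0 c0 = 0 := hc0
    simpa [h4] using h3
  have hn0 : (0 : ℝ) < n := by exact_mod_cast (by omega : 0 < n)
  have h2 : ∀ᶠ a in 𝓝 a0, ‖dmap n a c0‖ < n * ε ^ (n - 1) :=
    h1.eventually (gt_mem_nhds (by positivity))
  filter_upwards [h2] with a ha
  by_contra hcon
  push Not at hcon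
  have h3 : dmap n a c0 = n * ((Polynomial.derivative (pol n a)).roots.map
      fun c => c0 - c).prod := by
    unfold dmap
    rw [(IsAlgClosed.splits (Polynomial.derivative (pol n a))).eval_eq_prod_roots,
      leadingCoeff_derivative_pol n hn]
  have h4 : ∀ s : Multiset ℂ, (∀ c ∈ s, ε ≤ ‖c0 - c‖) →
      ε ^ Multiset.card s ≤ ‖(s.map fun c => c0 - c).prod‖ := by
    intro s
    induction s using Multiset.induction_on with
    | empty => simp
    | cons w s ih =>
      intro hs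
      rw [Multiset.map_cons, Multiset.prod_cons, Multiset.card_cons, pow_succ', norm_mul]
      exact mul_le_mul (hs w (Multiset.mem_cons_self _ _))
        (ih fun v hv => hs v (Multiset.mem_cons_of_mem hv)) (by positivity) (norm_nonneg _)
  have h5 := h4 (Polynomial.derivative (pol n a)).roots (fun c hc => by
    rw [norm_sub_rev]
    exact hcon c ((mem_roots_derivative_pol n hn a c).1 hc))
  rw [card_roots_derivative_pol n hn] at h5
  rw [h3, norm_mul, Complex.norm_natCast] at ha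
  have h6 : (n : ℝ) * ε ^ (n - 1) ≤ n * ‖((Polynomial.derivative (pol n a)).roots.map
      fun c => c0 - c).prod‖ := mul_le_mul_of_nonneg_left h5 hn0.le
  linarith

/-- Limit of an orbit with exponentially small steps. -/
theorem exists_limit {g : ℂ → ℂ} (hg : Continuous g) {x : ℕ → ℂ}
    (hx : ∀ k, x (k + 1) = g (x k)) {C ρ : ℝ} (hρ : ρ < 1) {k0 : ℕ}
    (h : ∀ k, k0 ≤ k → ‖x (k + 1) - x k‖ ≤ C * ρ ^ k) :
    ∃ β, g β = β ∧ Tendsto x atTop (𝓝 β) ∧ ∀ k, k0 ≤ k → ‖x k - β‖ ≤ C * ρ ^ k / (1 - ρ) := by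
  have key : ∀ k1, k0 ≤ k1 → ∀ j, dist (x (j + k1)) (x (j + 1 + k1)) ≤ C * ρ ^ k1 * ρ ^ j := by
    intro k1 hk1 j
    rw [dist_comm, dist_eq_norm]
    have e : j + 1 + k1 = j + k1 + 1 := by ring
    rw [e]
    refine (h (j + k1) (by omega)).trans (le_of_eq ?_)
    rw [pow_add]; ring
  obtain ⟨β, hβ⟩ := cauchySeq_tendsto_of_complete
    (cauchySeq_of_le_geometric ρ (C * ρ ^ k0) hρ (key k0 le_rfl))
  have hβ' : Tendsto x atTop (𝓝 β) := (tendsto_add_atTop_iff_nat (f := x) k0).1 hβ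
  refine ⟨β, ?_, hβ', ?_⟩
  · have h2 : Tendsto (fun k => g (x k)) atTop (𝓝 (g β)) := (hg.tendsto β).comp hβ'
    have h3 : (fun k => g (x k)) = fun k => x (k + 1) := by funext k; rw [hx]
    rw [h3] at h2
    exact tendsto_nhds_unique h2 ((tendsto_add_atTop_iff_nat (f := x) 1).2 hβ')
  · intro k hk
    have h4 := dist_le_of_le_geometric_of_tendsto₀ ρ (C * ρ ^ k) hρ (key k hk)
      ((tendsto_add_atTop_iff_nat (f := x) k).2 hβ')
    simpa [dist_eq_norm] using h4

/-- If the steps of an infinite orbit decay like `ρ ^ k`, the multiplier of the limit is at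
most `ρ`. -/
theorem norm_deriv_limit_le {g : ℂ → ℂ} (hg : Differentiable ℂ g) {x : ℕ → ℂ} {β : ℂ}
    (hx : ∀ k, x (k + 1) = g (x k)) (hne : ∀ k, x (k + 1) ≠ x k)
    (hlim : Tendsto x atTop (𝓝 β)) {C ρ : ℝ} (hρ : 0 ≤ ρ) {k0 : ℕ}
    (h : ∀ k, k0 ≤ k → ‖x (k + 1) - x k‖ ≤ C * ρ ^ k) : ‖deriv g β‖ ≤ ρ := by
  by_contra hcon
  push Not at hcon
  obtain ⟨σ, h1, h2⟩ := exists_between hcon
  have hσ : 0 < σ := lt_of_le_of_lt hρ h1
  have hs : HasStrictDerivAt g (deriv g β) β := (hg.analyticAt β).hasStrictDerivAt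
  have h3 : Tendsto (fun k => (x (k + 1), x k)) atTop (𝓝 (β, β)) :=
    (((tendsto_add_atTop_iff_nat (f := x) 1).2 hlim)).prodMk_nhds hlim
  have h4 : ∀ᶠ k in atTop, σ * ‖x (k + 1) - x k‖ ≤ ‖x (k + 2) - x (k + 1)‖ := by
    have h5 := (hs.isLittleO.comp_tendsto h3).def (c := ‖deriv g β‖ - σ) (by linarith)
    filter_upwards [h5] with k hk
    simp only [Function.comp_apply, ContinuousLinearMap.toSpanSingleton_apply] at hk
    rw [← hx, ← hx] at hk
    have h6 := norm_sub_norm_le ((x (k + 1) - x k) • deriv g β) (x (k + 1 + 1) - x (k + 1))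
    rw [norm_sub_rev ((x (k + 1) - x k) • deriv g β), norm_smul] at h6
    have e : x (k + 2) = x (k + 1 + 1) := rfl
    rw [e]
    nlinarith
  obtain ⟨k1, hk1⟩ := eventually_atTop.1 h4
  set K := max k0 k1 with hK
  have h5 : ∀ j : ℕ, σ ^ j * ‖x (K + 1) - x K‖ ≤ ‖x (K + j + 1) - x (K + j)‖ := by
    intro j
    induction j with
    | zero => simp
    | succ j ih =>
      have h6 := hk1 (K + j) (by omega)
      have e1 : K + (j + 1) + 1 = K + j + 2 := by ring
      have e2 : K + (j + 1) = K + j + 1 := by ring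
      rw [e1, e2]
      refine le_trans ?_ h6
      rw [pow_succ', mul_assoc]
      exact mul_le_mul_of_nonneg_left ih hσ.le
  have hd : 0 < ‖x (K + 1) - x K‖ := norm_pos_iff.2 (sub_ne_zero.2 (hne K))
  have h6 : ∀ j : ℕ, ‖x (K + 1) - x K‖ ≤ C * ρ ^ K * (ρ / σ) ^ j := by
    intro j
    have h7 := (h5 j).trans (h (K + j) (by omega))
    rw [div_pow, mul_div_assoc', le_div_iff₀ (by positivity)]
    rw [pow_add] at h7
    linarith
  have h7 : Tendsto (fun j : ℕ => C * ρ ^ K * (ρ / σ) ^ j) atTop (𝓝 (C * ρ ^ K * 0)) :=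
    (tendsto_pow_atTop_nhds_zero_of_lt_one (by positivity)
      ((div_lt_one hσ).2 h1)).const_mul _
  have h8 := ge_of_tendsto h7 (Eventually.of_forall h6)
  rw [mul_zero] at h8
  linarith

/-- The map `z ^ n + 1`. -/
def unitParam (n : ℕ) : Fin (n - 1) → ℂ := fun i => if (i : ℕ) = 0 then 1 else 0

lemma pmap_unitParam {n : ℕ} (hn : 2 ≤ n) (z : ℂ) : pmap n (unitParam n) z = z ^ n + 1 := by
  have h : ∑ i : Fin (n - 1), unitParam n i * z ^ (i : ℕ) = 1 := by
    rw [Finset.sum_eq_single (⟨0, by omega⟩ : Fin (n - 1))]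
    · simp [unitParam]
    · intro i _ hi
      have : (i : ℕ) ≠ 0 := fun h => hi (Fin.ext h)
      simp [unitParam, this]
    · simp
  simp [pmap, pol, Polynomial.eval_finsetSum, h]

lemma isCritical_unitParam {n : ℕ} (hn : 2 ≤ n) {c : ℂ} (hc : IsCritical n (unitParam n) c) :
    c = 0 := by
  rw [isCritical_iff, dmap_eq] at hc
  have h : ∑ i : Fin (n - 1), unitParam n i * ((i : ℕ) * c ^ ((i : ℕ) - 1)) = 0 := by
    refine Finset.sum_eq_zero fun i _ => ?_
    unfold unitParam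
    split_ifs with hi
    · simp [hi]
    · simp
  rw [h, add_zero, mul_eq_zero] at hc
  rcases hc with hc | hc
  · exact absurd hc (Nat.cast_ne_zero.2 (by omega))
  · exact pow_eq_zero_iff (by omega : n - 1 ≠ 0) |>.1 hc

/-- The critical orbit of `z ^ n + 1`. -/
def unitOrbit (n : ℕ) : ℕ → ℕ
  | 0 => 0
  | k + 1 => unitOrbit n k ^ n + 1

lemma strictMono_unitOrbit {n : ℕ} (hn : 2 ≤ n) : StrictMono (unitOrbit n) := by
  refine strictMono_nat_of_lt_succ fun k => ?_
  show unitOrbit n k < unitOrbit n k ^ n + 1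
  exact Nat.lt_succ_of_le (Nat.le_self_pow (by omega) _)

lemma iterate_unitParam {n : ℕ} (hn : 2 ≤ n) (k : ℕ) :
    (pmap n (unitParam n))^[k] 0 = (unitOrbit n k : ℂ) := by
  induction k with
  | zero => simp [unitOrbit]
  | succ k ih =>
    rw [Function.iterate_succ_apply', ih, pmap_unitParam hn]
    simp [unitOrbit]

/-- For a dense set of parameters no critical orbit is eventually constant along multiples
of `N`. -/
theorem dense_infinite_orbits {n : ℕ} (hn : 2 ≤ n) {N : ℕ} (hN : 1 ≤ N) :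
    Dense {a : Fin (n - 1) → ℂ | ∀ k c, IsCritical n a c →
      (pmap n a)^[(k + 1) * N] c ≠ (pmap n a)^[k * N] c} := by
  choose P hP using fun k : ℕ => exists_prod_poly n hn (isBiPoly_diff n N k)
  have h1 : ∀ k, MvPolynomial.eval (unitParam n) (P k) ≠ 0 := by
    intro k hk
    obtain ⟨c, hc, hc0⟩ := (hP k _).1 hk
    rw [isCritical_unitParam hn hc, iterate_unitParam hn, iterate_unitParam hn, sub_eq_zero] at hc0
    have h2 : unitOrbit n ((k + 1) * N) = unitOrbit n (k * N) := by exact_mod_cast hc0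
    have h3 := (strictMono_unitOrbit hn).injective h2
    have h4 : (k + 1) * N = k * N + N := by ring
    omega
  have h2 : Dense (⋂ k, {a : Fin (n - 1) → ℂ | MvPolynomial.eval a (P k) ≠ 0}) :=
    dense_iInter_of_isOpen_nat
      (fun k => isOpen_ne_fun (MvPolynomial.continuous_eval _) continuous_const)
      (fun k => dense_ne_zero (h1 k))
  refine h2.mono ?_
  intro a ha k c hc heq
  rw [Set.mem_iInter] at ha
  exact ha k ((hP k a).2 ⟨c, hc, sub_eq_zero.2 heq⟩)

/-- **M10b.** Uniform exponential convergence of the critical orbits along multiples of `N` for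
all parameters near `a0` implies that `a0` is expanding, with multipliers at most `ρ`. -/
theorem expandingBdd_of_eventually {n : ℕ} (hn : 2 ≤ n) {a0 : Fin (n - 1) → ℂ} {N k0 : ℕ}
    (hN : 1 ≤ N) {C ρ : ℝ} (hρ0 : 0 ≤ ρ) (hρ1 : ρ < 1)
    (h : ∀ᶠ a in 𝓝 a0, ∀ c, IsCritical n a c → ∀ k, k0 ≤ k →
      ‖(pmap n a)^[(k + 1) * N] c - (pmap n a)^[k * N] c‖ ≤ C * ρ ^ k) :
    a0 ∈ ExpandingBdd n := by
  intro c0 hc0
  have hstep : ∀ (a : Fin (n - 1) → ℂ) (c : ℂ) (k : ℕ), (pmap n a)^[(k + 1) * N] c =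
      (pmap n a)^[N] ((pmap n a)^[k * N] c) := by
    intro a c k
    rw [← Function.iterate_add_apply]
    congr 2
    ring
  obtain ⟨β0, hβ0, hlim0, hdist0⟩ := exists_limit (continuous_iter n a0 N)
    (x := fun k => (pmap n a0)^[k * N] c0) (hstep a0 c0) hρ1 (h.self_of_nhds c0 hc0)
  refine ⟨N, hN, β0, hβ0, ?_, ?_⟩
  swap
  · have e : (fun k : ℕ => (pmap n a0)^[N * k] c0) = fun k : ℕ => (pmap n a0)^[k * N] c0 := by
      funext k; rw [mul_comm]
    rw [e]; exact hlim0
  refine lt_of_le_of_lt ?_ hρ1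
  by_contra hcon
  push Not at hcon
  -- the multiplier is larger than `ρ` near `(a0, β0)`
  have hc1 : Continuous (fun p : (Fin (n - 1) → ℂ) × ℂ => ‖deriv ((pmap n p.1)^[N]) p.2‖) :=
    (isBiPoly_deriv_iter n N).continuous.norm
  have h1 : ∀ᶠ p : (Fin (n - 1) → ℂ) × ℂ in 𝓝 (a0, β0), ρ < ‖deriv ((pmap n p.1)^[N]) p.2‖ :=
    (hc1.tendsto (a0, β0)).eventually (lt_mem_nhds hcon)
  obtain ⟨δ, hδ, hδ1⟩ := Metric.eventually_nhds_iff.1 h1
  -- the tail of the orbit is close to the limit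
  obtain ⟨k1, hk1, hk1'⟩ : ∃ k1, k0 ≤ k1 ∧ C * ρ ^ k1 / (1 - ρ) < δ / 3 := by
    have h2 : Tendsto (fun k : ℕ => C * ρ ^ k / (1 - ρ)) atTop (𝓝 (C * 0 / (1 - ρ))) :=
      ((tendsto_pow_atTop_nhds_zero_of_lt_one hρ0 hρ1).const_mul C).div_const _
    rw [mul_zero, zero_div] at h2
    obtain ⟨k, hk⟩ := ((h2.eventually (gt_mem_nhds (by positivity : 0 < δ / 3))).and
      (eventually_ge_atTop k0)).exists
    exact ⟨k, hk.2, hk.1⟩
  have hc2 : Continuous (fun p : (Fin (n - 1) → ℂ) × ℂ => (pmap n p.1)^[k1 * N] p.2) :=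
    (isBiPoly_iter n (k1 * N)).continuous
  have h2 : ∀ᶠ p : (Fin (n - 1) → ℂ) × ℂ in 𝓝 (a0, c0),
      dist ((pmap n p.1)^[k1 * N] p.2) ((pmap n a0)^[k1 * N] c0) < δ / 3 :=
    (hc2.tendsto (a0, c0)).eventually (ball_mem_nhds _ (by positivity))
  obtain ⟨η, hη, hη1⟩ := Metric.eventually_nhds_iff.1 h2
  have h3 : ∀ᶠ a in 𝓝 a0, dist a a0 < min η δ := by
    exact ball_mem_nhds a0 (lt_min hη hδ)
  have h4 := exists_critical_near hn hc0 hη
  obtain ⟨a, hagood, ⟨ha1, ha2⟩, ha3⟩ := (mem_closure_iff_frequently.1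
    (dense_infinite_orbits hn hN a0)).and_eventually ((h.and h3).and h4) |>.exists
  obtain ⟨c, hc, hcc⟩ := ha3
  obtain ⟨β, hβ, hlim, hdist⟩ := exists_limit (continuous_iter n a N)
    (x := fun k => (pmap n a)^[k * N] c) (hstep a c) hρ1 (ha1 c hc)
  have h5 := norm_deriv_limit_le (differentiable_iter n a N)
    (x := fun k => (pmap n a)^[k * N] c) (hstep a c) (fun k => hagood k c hc) hlim hρ0
    (ha1 c hc)
  have h6 : dist (a, c) (a0, c0) < η := by
    rw [Prod.dist_eq]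
    refine max_lt (ha2.trans_le (min_le_left _ _)) ?_
    rw [dist_eq_norm]; exact hcc
  have h7 := hη1 h6
  simp only at h7
  have h8 := hdist k1 hk1
  have h9 := hdist0 k1 hk1
  have h10 : dist β β0 < δ := by
    have e1 : dist β β0 ≤ dist β ((pmap n a)^[k1 * N] c) +
        dist ((pmap n a)^[k1 * N] c) ((pmap n a0)^[k1 * N] c0) +
        dist ((pmap n a0)^[k1 * N] c0) β0 := dist_triangle4 _ _ _ _
    have e2 : dist β ((pmap n a)^[k1 * N] c) = ‖(pmap n a)^[k1 * N] c - β‖ := by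
      rw [dist_comm, dist_eq_norm]
    have e3 : dist ((pmap n a0)^[k1 * N] c0) β0 = ‖(pmap n a0)^[k1 * N] c0 - β0‖ :=
      dist_eq_norm _ _
    linarith
  have h11 : ρ < ‖deriv ((pmap n a)^[N]) β‖ := by
    have := hδ1 (y := (a, β)) (by
      rw [Prod.dist_eq]
      exact max_lt (ha2.trans_le (min_le_right _ _)) h10)
    simpa using this
  linarith

end Hyp20
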