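import Mathlib
import Pool.Agent.Lib.Hyp.Stmt20
import Pool.Agent.Lib.Hyp.Locus20
import Pool.Agent.Lib.Hyp.Locus39
import Pool.Agent.Lib.Hyp.Comp20
import Pool.Agent.Lib.Hyp.Interp95
import Pool.Agent.Lib.Hyp.Unif11
import Pool.Agent.Lib.Hyp.Bd32

/-!
Connected open sets of bounded critical orbits meeting the expanding locus; the uniform limit
theorem (helper20).
-/

namespace Hyp20

open Filter Topology Metric

theorem escR_le {n : ℕ} {a : Fin (n - 1) → ℂ} {A : ℝ} (hA : ‖a‖ ≤ A) :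
    escR n a ≤ 3 + (n - 1 : ℕ) * A := by
  unfold escR
  have h2 : ∑ i, ‖a i‖ ≤ ∑ _i : Fin (n - 1), A :=
    Finset.sum_le_sum fun i _ => (norm_le_pi_norm a i).trans hA
  simp only [Finset.sum_const, Finset.card_univ, Fintype.card_fin, nsmul_eq_mul] at h2
  linarith

/-- One step: the expanding locus is closed under going from `w` to nearby points inside an
open set of bounded critical orbits. -/
theorem expandingBdd_step {n : ℕ} (hn : 2 ≤ n) {D : Set (Fin (n - 1) → ℂ)}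
    (hD : IsOpen D) (hb : D ⊆ Locus n) {a₀ : Fin (n - 1) → ℂ} (ha₀ : a₀ ∈ D)
    (hcl : a₀ ∈ closure (D ∩ ExpandingBdd n)) : a₀ ∈ ExpandingBdd n := by
  obtain ⟨s, hs0, hs⟩ := Metric.isOpen_iff.1 hD a₀ ha₀
  -- ball a₀ s ⊆ D
  obtain ⟨w, ⟨hwD, hwE⟩, hw⟩ := Metric.mem_closure_iff.1 hcl (s / 8) (by positivity)
  obtain ⟨t, ht0, ht⟩ := Metric.isOpen_iff.1 (isOpen_expandingBdd hn) w hwE
  have ht' : closedBall w (t / 2) ⊆ ExpandingBdd n :=
    (closedBall_subset_ball (by linarith)).trans ht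
  obtain ⟨N, k0, C, ρ, hN, hC, hρ0, hρ1, hest⟩ :=
    cert hn (isCompact_closedBall w (t / 2)) ht'
  obtain ⟨l, hl0, hl1, htc⟩ := Hyp95.two_const hn (t := t / 2) (s₁ := s / 4) (s := s / 2)
    (by positivity) (by positivity) (by linarith)
  have hball : ball w (s / 2) ⊆ D := by
    intro x hx
    apply hs
    rw [mem_ball] at hx ⊢
    calc dist x a₀ ≤ dist x w + dist w a₀ := dist_triangle _ _ _
      _ < s / 2 + s / 8 := add_lt_add hx (by rwa [dist_comm])
      _ < s := by linarith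
  set A₀ : ℝ := ‖w‖ + s / 2 with hA₀
  set R : ℝ := 3 + (n - 1 : ℕ) * A₀ with hR
  have hA₀0 : 0 ≤ A₀ := by positivity
  have hR0 : 0 ≤ R := by positivity
  have hbound : ∀ b ∈ ball w (s / 2), ∀ c, IsCritical n b c → ∀ k,
      ‖(pmap n b)^[k] c‖ ≤ R := by
    intro b hb' c hc k
    have h1 := (not_escapes_iff hn b c).1 (hb (hball hb') c hc) k
    refine h1.trans (escR_le ?_)
    rw [mem_ball, dist_eq_norm] at hb'
    calc ‖b‖ = ‖w + (b - w)‖ := by congr 1; abel
      _ ≤ ‖w‖ + ‖b - w‖ := norm_add_le _ _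
      _ ≤ A₀ := by rw [hA₀]; linarith
  refine expandingBdd_of_eventually hn (N := N) (k0 := k0) hN
    (C := C ^ l * (2 * R) ^ (1 - l)) (ρ := ρ ^ l) (by positivity)
    (Real.rpow_lt_one hρ0 hρ1 hl0) ?_
  have hnear : ball a₀ (s / 8) ∈ 𝓝 a₀ := ball_mem_nhds _ (by positivity)
  filter_upwards [hnear] with a ha c hc k hk
  have haw : a ∈ closedBall w (s / 4) := by
    rw [mem_ball] at ha
    rw [mem_closedBall]
    calc dist a w ≤ dist a a₀ + dist a₀ w := dist_triangle _ _ _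
      _ ≤ s / 8 + s / 8 := add_le_add ha.le hw.le
      _ = s / 4 := by ring
  have h3 := htc w _ (isBiPoly_diff n N k) (C * ρ ^ k) (2 * R) (by positivity) (by positivity)
    (fun b hb' c' hc' => (hest b hb' c' hc' k hk).1)
    (fun b hb' c' hc' => by
      calc ‖(pmap n b)^[(k + 1) * N] c' - (pmap n b)^[k * N] c'‖
          ≤ ‖(pmap n b)^[(k + 1) * N] c'‖ + ‖(pmap n b)^[k * N] c'‖ := norm_sub_le _ _
        _ ≤ R + R := add_le_add (hbound b hb' c' hc' _) (hbound b hb' c' hc' _)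
        _ = 2 * R := by ring) a haw c hc
  refine h3.trans (le_of_eq ?_)
  rw [Real.mul_rpow hC (pow_nonneg hρ0 k), ← Real.rpow_natCast ρ k, ← Real.rpow_mul hρ0,
    mul_comm (k : ℝ) l, Real.rpow_mul hρ0, Real.rpow_natCast]
  ring

/-- A connected open set of maps with bounded critical orbits which meets the expanding locus
consists of expanding maps. -/
theorem subset_expandingBdd {n : ℕ} (hn : 2 ≤ n) {D : Set (Fin (n - 1) → ℂ)}
    (hD : IsOpen D) (hDc : IsPreconnected D) (hb : D ⊆ Locus n)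
    (hne : (D ∩ ExpandingBdd n).Nonempty) : D ⊆ ExpandingBdd n := by
  by_contra hcon
  obtain ⟨x, hxD, hxE⟩ := Set.not_subset.1 hcon
  have hcov : D ⊆ ExpandingBdd n ∪ (closure (D ∩ ExpandingBdd n))ᶜ := by
    intro y hy
    by_cases h : y ∈ closure (D ∩ ExpandingBdd n)
    · exact Or.inl (expandingBdd_step hn hD hb hy h)
    · exact Or.inr h
  have h2 : (D ∩ (closure (D ∩ ExpandingBdd n))ᶜ).Nonempty :=
    ⟨x, hxD, fun h => hxE (expandingBdd_step hn hD hb hxD h)⟩
  obtain ⟨z, hz0, hz1, hz2⟩ := hDc _ _ (isOpen_expandingBdd hn)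
    isClosed_closure.isOpen_compl hcov hne h2
  exact hz2 (subset_closure ⟨hz0, hz1⟩)

/-- The same inside an open relatively closed subset. -/
theorem subset_of_bdd {n : ℕ} (hn : 2 ≤ n) {Ω : Set (Fin (n - 1) → ℂ)} (hΩ : IsOpen Ω)
    (hΩE : Ω ⊆ ExpandingBdd n) (hcl : RelClosed (ExpandingBdd n) Ω)
    {D : Set (Fin (n - 1) → ℂ)} (hD : IsOpen D) (hDc : IsPreconnected D) (hb : D ⊆ ConnLocus n)
    (hne : (D ∩ Ω).Nonempty) : D ⊆ Ω := by
  have h1 : D ⊆ ExpandingBdd n := by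
    refine subset_expandingBdd hn hD hDc ?_ (hne.mono (Set.inter_subset_inter_right _ hΩE))
    rw [← connLocus_eq_locus hn]; exact hb
  exact subset_of_preconnected hΩ hcl hDc h1 hne

/-- `Ω` is open and there is a uniform limit `f` on the closure of `Ω` of polynomials in the
coefficients which is holomorphic on `Ω` and extends holomorphically across no boundary point
of `Ω`. -/
def UniformExistence {m : ℕ} (Ω : Set (Fin m → ℂ)) : Prop :=
  IsOpen Ω ∧ ∃ (P : ℕ → MvPolynomial (Fin m) ℂ) (f : (Fin m → ℂ) → ℂ),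
    TendstoUniformlyOn (fun j a => MvPolynomial.eval a (P j)) f atTop (closure Ω) ∧
      Nonextendable Ω f

theorem uniformExistence {n : ℕ} (hn : 2 ≤ n) {Ω : Set (Fin (n - 1) → ℂ)} (hΩ : IsOpen Ω)
    (hΩE : Ω ⊆ ExpandingBdd n) (hcl : RelClosed (ExpandingBdd n) Ω) : UniformExistence Ω := by
  refine ⟨hΩ, Bd.baire hΩ ?_⟩
  intro x r _ hne hsub
  refine subset_of_bdd hn hΩ hΩE hcl isOpen_ball (convex_ball x r).isPreconnected ?_ hne
  refine hsub.trans (polyHull_subset_connLocus hn (hΩE.trans (expandingBdd_subset_connLocus hn)) ?_)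
  exact (isBounded_expandingBdd hn).subset hΩE

end Hyp20
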