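import Pool.Agent.Lib.Hyp.Setup95

/-!
The literal set `B(z^n)`: an attracting fixed point whose immediate basin contains all critical
points. It is open and relatively closed in the set of expanding maps with bounded critical
orbits (helper95).
-/

namespace Hyp95

open Topology Set Metric Hyp20

/-- The immediate basin of a fixed point `ζ`: the connected component containing `ζ` of the set
of points whose orbit tends to `ζ`. -/
def immediateBasin (f : ℂ → ℂ) (ζ : ℂ) : Set ℂ :=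
  connectedComponentIn {z | Filter.Tendsto (fun k : ℕ => f^[k] z) Filter.atTop (𝓝 ζ)} ζ

/-- `B(z^n)`: the polynomials with an attracting fixed point whose immediate basin contains
every critical point. -/
def BLit (n : ℕ) : Set (Fin (n - 1) → ℂ) :=
  {a | ∃ ζ, pmap n a ζ = ζ ∧ ‖deriv (pmap n a) ζ‖ < 1 ∧
    ∀ c, IsCritical n a c → c ∈ immediateBasin (pmap n a) ζ}

/-- Sublevel set. -/
def X (n : ℕ) (ζ₀ : ℂ) (k : ℕ) (a : Fin (n - 1) → ℂ) (t : ℝ) : Set ℂ :=
  {z | ‖(pmap n a)^[k] z - ζ₀‖ ≤ t}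

/-- All critical points are connected to `ζ₀` in the sublevel set. -/
def Conn (n : ℕ) (ζ₀ : ℂ) (r : ℝ) (k : ℕ) (a : Fin (n - 1) → ℂ) : Prop :=
  ∀ c, IsCritical n a c → c ∈ connectedComponentIn (X n ζ₀ k a r) ζ₀

theorem BLit_subset_allToOne (n : ℕ) : BLit n ⊆ AllToOne n := by
  rintro a ⟨ζ, h1, h2, h3⟩
  exact ⟨ζ, h1, h2, fun c hc => connectedComponentIn_subset _ _ (h3 c hc)⟩

theorem allToOne_subset_expandingBdd (n : ℕ) : AllToOne n ⊆ ExpandingBdd n := by
  rintro a ⟨ζ, h1, h2, h3⟩ c hc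
  refine ⟨1, le_rfl, ζ, by simpa using h1, by simpa using h2, ?_⟩
  simpa using h3 c hc

theorem iter_succ_ball {n : ℕ} {ζ₀ : ℂ} {r R : ℝ} {k₀ : ℕ} {a : Fin (n - 1) → ℂ}
    (h : Good n ζ₀ r R k₀ a) (hrR : r < R) {z : ℂ} {k : ℕ}
    (hz : ‖(pmap n a)^[k] z - ζ₀‖ < r) : ∀ j, k ≤ j → ‖(pmap n a)^[j] z - ζ₀‖ < r := by
  intro j hj
  induction j, hj using Nat.le_induction with
  | base => exact hz
  | succ j _ ih =>
    rw [Function.iterate_succ_apply', ← dist_eq_norm, ← mem_ball]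
    apply h.maps
    rw [mem_closedBall, dist_eq_norm]
    exact ih.le.trans hrR.le

theorem ball_subset_X {n : ℕ} {ζ₀ : ℂ} {r R : ℝ} {k₀ : ℕ} {a : Fin (n - 1) → ℂ}
    (h : Good n ζ₀ r R k₀ a) (hrR : r < R) (k : ℕ) : ball ζ₀ r ⊆ X n ζ₀ k a r := by
  intro z hz
  exact (iter_succ_ball h hrR (k := 0) (by simpa [dist_eq_norm] using hz) k (Nat.zero_le _)).le

theorem tendsto_of_iter {f : ℂ → ℂ} {z ζ : ℂ} (k : ℕ)
    (h : Filter.Tendsto (fun j => f^[j] (f^[k] z)) Filter.atTop (𝓝 ζ)) :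
    Filter.Tendsto (fun j => f^[j] z) Filter.atTop (𝓝 ζ) := by
  rw [← Filter.tendsto_add_atTop_iff_nat k]
  simpa [Function.iterate_add_apply] using h

theorem X_subset_basin {n : ℕ} {ζ₀ ζ : ℂ} {R : ℝ} {a : Fin (n - 1) → ℂ}
    (hζ : ∀ z ∈ closedBall ζ₀ R, Filter.Tendsto (fun k => (pmap n a)^[k] z) Filter.atTop (𝓝 ζ))
    (k : ℕ) {t : ℝ} (ht : t ≤ R) :
    X n ζ₀ k a t ⊆ {z | Filter.Tendsto (fun k => (pmap n a)^[k] z) Filter.atTop (𝓝 ζ)} := by
  intro z hz
  apply tendsto_of_iter k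
  apply hζ
  rw [mem_closedBall, dist_eq_norm]
  exact le_trans hz ht

/-- `B(z^n)` in terms of the sublevel sets. -/
theorem mem_BLit_iff {n : ℕ} (hn : 2 ≤ n) {ζ₀ : ℂ} {r R : ℝ} {k₀ : ℕ} {a : Fin (n - 1) → ℂ}
    (h : Good n ζ₀ r R k₀ a) (hr : 0 < r) (hrR : r < R) :
    a ∈ BLit n ↔ ∃ k, k₀ ≤ k ∧ Conn n ζ₀ r k a := by
  obtain ⟨ζ, hζb, hfix, hder, hζ⟩ := h.fixed hr hrR
  set B : Set ℂ := {z | Filter.Tendsto (fun k => (pmap n a)^[k] z) Filter.atTop (𝓝 ζ)} with hB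
  have hballB : ball ζ₀ r ⊆ B := by
    intro z hz
    exact hζ z (ball_subset_closedBall (ball_subset_ball hrR.le hz))
  have hζ₀b : ζ₀ ∈ ball ζ₀ r := mem_ball_self hr
  have hcompB : connectedComponentIn B ζ₀ = connectedComponentIn B ζ :=
    connectedComponentIn_eq
      ((convex_ball ζ₀ r).isPreconnected.subset_connectedComponentIn hζ₀b hballB hζb)
  constructor
  · rintro ⟨ζ', h1, h2, h3⟩
    -- the fixed point is `ζ`
    obtain ⟨c₀, hc₀⟩ := exists_crit hn a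
    have ht1 : Filter.Tendsto (fun k => (pmap n a)^[k] c₀) Filter.atTop (𝓝 ζ') :=
      connectedComponentIn_subset _ _ (h3 c₀ hc₀)
    have ht2 : Filter.Tendsto (fun k => (pmap n a)^[k] c₀) Filter.atTop (𝓝 ζ) := by
      apply tendsto_of_iter k₀
      apply hζ
      rw [mem_closedBall, dist_eq_norm]
      exact (h.crit c₀ hc₀ k₀ le_rfl).le.trans hrR.le
    have hζζ' : ζ' = ζ := tendsto_nhds_unique ht1 ht2
    subst hζζ'
    classical
    have hq0 : Polynomial.derivative (pol n a) ≠ 0 := by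
      intro h
      have := (dpol_facts hn a).2
      rw [h, Polynomial.leadingCoeff_zero] at this
      exact (Nat.cast_ne_zero.mpr (by omega : n ≠ 0)) this.symm
    have hBeq : B = ⋃ k : ℕ, {z | ‖(pmap n a)^[k] z - ζ₀‖ < r} := by
      ext z
      simp only [mem_iUnion, mem_ofPred_eq]
      constructor
      · intro hz
        have hev := Metric.tendsto_atTop.mp hz (r - dist ζ' ζ₀) (by
          rw [mem_ball] at hζb; linarith)
        obtain ⟨N, hN⟩ := hev
        refine ⟨N, ?_⟩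
        have h1 := hN N le_rfl
        have h2 := dist_triangle ((pmap n a)^[N] z) ζ' ζ₀
        rw [← dist_eq_norm]
        linarith
      · rintro ⟨k, hk⟩
        exact X_subset_basin hζ k hrR.le (le_of_lt hk : ‖(pmap n a)^[k] z - ζ₀‖ ≤ r)
    have hOopen : ∀ k : ℕ, IsOpen {z | ‖(pmap n a)^[k] z - ζ₀‖ < r} := fun k =>
      isOpen_lt (((differentiable_iter n a k).continuous).sub continuous_const).norm
        continuous_const
    have hBopen : IsOpen B := by
      rw [hBeq]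
      exact isOpen_iUnion hOopen
    have hev : ∀ᶠ k in Filter.atTop, ∀ c ∈ (Polynomial.derivative (pol n a)).roots.toFinset,
        c ∈ connectedComponentIn (X n ζ₀ k a r) ζ₀ := by
      rw [Filter.eventually_all_finset]
      intro c hc
      rw [Multiset.mem_toFinset, Polynomial.mem_roots hq0] at hc
      have hcB := h3 c hc
      have hζB : ζ' ∈ B := hballB hζb
      have hpc : IsPathConnected (connectedComponentIn B ζ') :=
        (hBopen.connectedComponentIn.isConnected_iff_isPathConnected).mp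
          ⟨⟨ζ', mem_connectedComponentIn hζB⟩, isPreconnected_connectedComponentIn⟩
      obtain ⟨γ, hγ⟩ := hpc.joinedIn ζ' (mem_connectedComponentIn hζB) c hcB
      have hcomp : IsCompact (range γ) := isCompact_range γ.continuous
      have hsub : range γ ⊆ ⋃ k : ℕ, {z | ‖(pmap n a)^[k] z - ζ₀‖ < r} := by
        rw [← hBeq]
        rintro _ ⟨s, rfl⟩
        exact connectedComponentIn_subset _ _ (hγ s)
      have hdir : Directed (· ⊆ ·) (fun k : ℕ => {z | ‖(pmap n a)^[k] z - ζ₀‖ < r}) := by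
        apply Monotone.directed_le
        intro i j hij z hz
        exact iter_succ_ball h hrR hz j hij
      obtain ⟨K, hK⟩ := hcomp.elim_directed_cover _ hOopen hsub hdir
      filter_upwards [Filter.eventually_ge_atTop K] with k hk
      have hsubk : range γ ⊆ X n ζ₀ k a r := by
        intro z hz
        exact (iter_succ_ball h hrR (hK hz) k hk).le
      have h1 : c ∈ connectedComponentIn (X n ζ₀ k a r) ζ' :=
        (isPreconnected_range γ.continuous).subset_connectedComponentIn ⟨0, γ.source⟩ hsubk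
          ⟨1, γ.target⟩
      have h2 : ζ' ∈ connectedComponentIn (X n ζ₀ k a r) ζ₀ :=
        (convex_ball ζ₀ r).isPreconnected.subset_connectedComponentIn hζ₀b
          (ball_subset_X h hrR k) hζb
      rw [connectedComponentIn_eq h2]
      exact h1
    obtain ⟨k, hk1, hk2⟩ := (hev.and (Filter.eventually_ge_atTop k₀)).exists
    refine ⟨k, hk2, fun c hc => hk1 c ?_⟩
    rw [Multiset.mem_toFinset, Polynomial.mem_roots hq0]
    exact hc
  · rintro ⟨k, -, hk⟩
    refine ⟨ζ, hfix, hder, fun c hc => ?_⟩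
    unfold immediateBasin
    rw [← hB, ← hcompB]
    exact connectedComponentIn_mono _ (X_subset_basin hζ k hrR.le) (hk c hc)

/-- The derivative of an iterate vanishes only if the orbit meets a critical point. -/
theorem exists_crit_of_deriv_iter {n : ℕ} {a : Fin (n - 1) → ℂ} {z : ℂ} {k : ℕ}
    (h : deriv ((pmap n a)^[k]) z = 0) : ∃ i, i < k ∧ IsCritical n a ((pmap n a)^[i] z) := by
  induction k with
  | zero => simp at h
  | succ k ih =>
    rw [Function.iterate_succ'] at h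
    rw [deriv_comp _ (differentiable_pmap n a).differentiableAt
      (differentiable_iter n a k).differentiableAt] at h
    rcases mul_eq_zero.mp h with h1 | h1
    · refine ⟨k, Nat.lt_succ_self k, ?_⟩
      rw [deriv_pmap] at h1
      exact h1
    · obtain ⟨i, hi, hc⟩ := ih h1
      exact ⟨i, hi.trans (Nat.lt_succ_self k), hc⟩

/-- Escape estimate. -/
theorem le_norm_pmap {n : ℕ} (hn : 2 ≤ n) {a : Fin (n - 1) → ℂ} {A : ℝ} (hA : ‖a‖ ≤ A) {z : ℂ}
    (hz : n * A + 1 ≤ ‖z‖) : ‖z‖ ≤ ‖pmap n a z‖ := by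
  have hA0 : 0 ≤ A := (norm_nonneg _).trans hA
  have hnA : 0 ≤ n * A := by positivity
  have hz1 : 1 ≤ ‖z‖ := by linarith
  rw [pmap_eq]
  have h1 : ‖∑ i : Fin (n - 1), a i * z ^ (i : ℕ)‖ ≤ n * A * ‖z‖ ^ (n - 2) := by
    calc ‖∑ i : Fin (n - 1), a i * z ^ (i : ℕ)‖ ≤ ∑ i : Fin (n - 1), ‖a i * z ^ (i : ℕ)‖ :=
          norm_sum_le _ _
      _ ≤ ∑ i : Fin (n - 1), A * ‖z‖ ^ (n - 2) := by
        apply Finset.sum_le_sum
        intro i _
        rw [norm_mul, norm_pow]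
        have hi : (i : ℕ) ≤ n - 2 := by
          have := i.2
          omega
        have e1 : ‖a i‖ ≤ A := (norm_le_pi_norm a i).trans hA
        have e3 : ‖z‖ ^ (i : ℕ) ≤ ‖z‖ ^ (n - 2) := pow_le_pow_right₀ hz1 hi
        gcongr
      _ = ((n - 1 : ℕ) : ℝ) * (A * ‖z‖ ^ (n - 2)) := by
        rw [Finset.sum_const, Finset.card_univ, Fintype.card_fin, nsmul_eq_mul]
      _ ≤ n * (A * ‖z‖ ^ (n - 2)) := by
        apply mul_le_mul_of_nonneg_right _ (by positivity)
        exact Nat.cast_le.mpr (Nat.sub_le _ _)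
      _ = n * A * ‖z‖ ^ (n - 2) := by ring
  have h2 : ‖z‖ ^ n = ‖z‖ ^ (n - 2) * ‖z‖ ^ 2 := by
    rw [← pow_add]; congr 1; omega
  have h3 : ‖z ^ n‖ - ‖∑ i : Fin (n - 1), a i * z ^ (i : ℕ)‖ ≤
      ‖z ^ n + ∑ i : Fin (n - 1), a i * z ^ (i : ℕ)‖ := by
    have := norm_sub_norm_le (z ^ n) (-∑ i : Fin (n - 1), a i * z ^ (i : ℕ))
    rwa [norm_neg, sub_neg_eq_add] at this
  rw [norm_pow, h2] at h3
  have hp : 1 ≤ ‖z‖ ^ (n - 2) := one_le_pow₀ hz1
  have h4 : ‖z‖ + n * A ≤ ‖z‖ ^ 2 := by nlinarith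
  have h5 : ‖z‖ ≤ ‖z‖ ^ (n - 2) * ‖z‖ ^ 2 - n * A * ‖z‖ ^ (n - 2) := by
    have : ‖z‖ ^ (n - 2) * ‖z‖ ≤ ‖z‖ ^ (n - 2) * (‖z‖ ^ 2 - n * A) :=
      mul_le_mul_of_nonneg_left (by linarith) (by positivity)
    nlinarith
  linarith

theorem X_bounded {n : ℕ} (hn : 2 ≤ n) {a : Fin (n - 1) → ℂ} {A : ℝ} (hA : ‖a‖ ≤ A) (ζ₀ : ℂ)
    (k : ℕ) (t : ℝ) :
    X n ζ₀ k a t ⊆ closedBall (0:ℂ) (max (n * A + 1) (‖ζ₀‖ + t)) := by
  intro z hz
  rw [mem_closedBall_zero_iff]
  by_contra hcon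
  push Not at hcon
  have h1 : n * A + 1 ≤ ‖z‖ := (lt_of_le_of_lt (le_max_left _ _) hcon).le
  have h2 : ‖ζ₀‖ + t < ‖z‖ := lt_of_le_of_lt (le_max_right _ _) hcon
  have h3 : ∀ j, ‖z‖ ≤ ‖(pmap n a)^[j] z‖ := by
    intro j
    induction j with
    | zero => simp
    | succ j ih =>
      rw [Function.iterate_succ_apply']
      exact ih.trans (le_norm_pmap hn hA (h1.trans ih))
  have h4 : ‖(pmap n a)^[k] z - ζ₀‖ ≤ t := hz
  have h5 := norm_sub_norm_le ((pmap n a)^[k] z) ζ₀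
  have h6 := h3 k
  linarith

theorem X_closed {n : ℕ} (a : Fin (n - 1) → ℂ) (ζ₀ : ℂ) (k : ℕ) (t : ℝ) :
    IsClosed (X n ζ₀ k a t) :=
  isClosed_le (((differentiable_iter n a k).continuous).sub continuous_const).norm
    continuous_const

theorem X_compact {n : ℕ} (hn : 2 ≤ n) (a : Fin (n - 1) → ℂ) (ζ₀ : ℂ) (k : ℕ) (t : ℝ) :
    IsCompact (X n ζ₀ k a t) :=
  (isCompact_closedBall _ _).of_isClosed_subset (X_closed a ζ₀ k t) (X_bounded hn le_rfl ζ₀ k t)

/-- Transfer of connectivity from `a` to `a'`. -/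
theorem conn_transfer {n : ℕ} (hn : 2 ≤ n) {ζ₀ : ℂ} {r R : ℝ} {k₀ : ℕ}
    {a a' : Fin (n - 1) → ℂ} (ha' : Good n ζ₀ r R k₀ a') (hr : 0 < r) (hrR : r < R)
    (ha : Good n ζ₀ r R k₀ a)
    {k : ℕ} (hk : k₀ ≤ k) {δ : ℝ} (hδ : 0 < δ)
    (hX : ∀ z ∈ X n ζ₀ k a r, closedBall z δ ⊆ X n ζ₀ k a' R)
    (hc : ∀ c', IsCritical n a' c' → ∃ c, IsCritical n a c ∧ ‖c' - c‖ < δ)
    (hconn : Conn n ζ₀ r k a) : Conn n ζ₀ r k a' := by
  intro c' hc'
  obtain ⟨c, hcc, hcδ⟩ := hc c' hc'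
  have hcC := hconn c hcc
  have hζ₀ : ζ₀ ∈ ball ζ₀ r := mem_ball_self hr
  have hζ₀X : ζ₀ ∈ X n ζ₀ k a r := ball_subset_X ha hrR k hζ₀
  have hcX : c ∈ X n ζ₀ k a r := connectedComponentIn_subset _ _ hcC
  have hpre : IsPreconnected (connectedComponentIn (X n ζ₀ k a r) ζ₀ ∪ closedBall c δ) :=
    IsPreconnected.union c hcC (mem_closedBall_self hδ.le) isPreconnected_connectedComponentIn
      (convex_closedBall c δ).isPreconnected
  have hsub : connectedComponentIn (X n ζ₀ k a r) ζ₀ ∪ closedBall c δ ⊆ X n ζ₀ k a' R := by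
    apply union_subset
    · intro z hz
      exact hX z (connectedComponentIn_subset _ _ hz) (mem_closedBall_self hδ.le)
    · exact hX c hcX
  have h1 : c' ∈ connectedComponentIn (X n ζ₀ k a' R) ζ₀ := by
    refine hpre.subset_connectedComponentIn (Or.inl (mem_connectedComponentIn hζ₀X)) hsub
      (Or.inr ?_)
    rw [mem_closedBall, dist_eq_norm]
    exact hcδ.le
  have hf : Differentiable ℂ (fun z => (pmap n a')^[k] z - ζ₀) :=
    (differentiable_iter n a' k).sub_const ζ₀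
  refine mountain_pass hf hr hrR.le (X_compact hn a' ζ₀ k R) ?_ ?_ ?_ h1
  · intro z hz1 hz2 hz3
    have hz3' : deriv ((pmap n a')^[k]) z = 0 := by
      have := hz3
      rwa [deriv_sub_const] at this
    obtain ⟨i, hi, hci⟩ := exists_crit_of_deriv_iter hz3'
    refine ha'.gap _ hci (k - i) (by omega) ?_
    rw [← Function.iterate_add_apply, show k - i + i = k by omega]
    exact ⟨hz1, hz2⟩
  · exact ball_subset_X ha' hrR k hζ₀
  · exact (ha'.crit c' hc' k hk).le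

/-- Connectivity is locally constant in the parameter. -/
theorem conn_local {n : ℕ} (hn : 2 ≤ n) {ζ₀ : ℂ} {r R : ℝ} {k₀ : ℕ} {a : Fin (n - 1) → ℂ}
    (ha : Good n ζ₀ r R k₀ a) (hr : 0 < r) (hrR : r < R) {k : ℕ} (hk : k₀ ≤ k) :
    ∀ᶠ a' in 𝓝 a, Good n ζ₀ r R k₀ a' → (Conn n ζ₀ r k a ↔ Conn n ζ₀ r k a') := by
  set ρ : ℝ := max (n * (‖a‖ + 1) + 1) (‖ζ₀‖ + R) with hρ
  have hcomp : IsCompact ((closedBall a 1 : Set (Fin (n - 1) → ℂ)) ×ˢ closedBall (0:ℂ) (ρ + 1)) :=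
    (isCompact_closedBall a 1).prod (isCompact_closedBall _ _)
  have huc := hcomp.uniformContinuousOn_of_continuous
    ((continuous_iter n k).sub (continuous_const (y := ζ₀))).continuousOn
  rw [Metric.uniformContinuousOn_iff] at huc
  obtain ⟨δ', hδ', hunif⟩ := huc (R - r) (by linarith)
  set δ : ℝ := min (δ' / 2) 1 with hδdef
  have hδ : 0 < δ := by positivity
  have hδ1 : δ ≤ 1 := min_le_right _ _
  have hδ2 : δ < δ' := lt_of_le_of_lt (min_le_left _ _) (by linarith)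
  obtain ⟨ε, hε, hclose⟩ := crit_close hn a hδ
  have hnear : ∀ᶠ a' in 𝓝 a, dist a' a < min δ ε :=
    Metric.ball_mem_nhds a (lt_min hδ hε)
  filter_upwards [hnear] with a' ha'd hG
  have hd1 : dist a' a < δ := lt_of_lt_of_le ha'd (min_le_left _ _)
  have hd2 : ‖a' - a‖ < ε := by
    rw [← dist_eq_norm]
    exact lt_of_lt_of_le ha'd (min_le_right _ _)
  have hna' : ‖a'‖ ≤ ‖a‖ + 1 := by
    have := norm_le_norm_add_norm_sub' a' a
    rw [← dist_eq_norm] at this
    linarith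
  have key : ∀ b b' : Fin (n - 1) → ℂ, ‖b‖ ≤ ‖a‖ + 1 → b ∈ closedBall a 1 → b' ∈ closedBall a 1 →
      dist b b' < δ → ∀ z ∈ X n ζ₀ k b r, closedBall z δ ⊆ X n ζ₀ k b' R := by
    intro b b' hb hb1 hb'1 hbb' z hz y hy
    have hzρ : ‖z‖ ≤ ρ := by
      have h1 : z ∈ X n ζ₀ k b R := le_trans (show ‖(pmap n b)^[k] z - ζ₀‖ ≤ r from hz) hrR.le
      have := X_bounded hn hb ζ₀ k R h1
      rwa [mem_closedBall_zero_iff] at this
    have hyz : dist y z ≤ δ := hy
    have hyρ : ‖y‖ ≤ ρ + 1 := by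
      have := norm_le_norm_add_norm_sub' y z
      rw [← dist_eq_norm] at this
      linarith
    have := hunif (b', y) ⟨hb'1, by rw [mem_closedBall_zero_iff]; exact hyρ⟩ (b, z)
      ⟨hb1, by rw [mem_closedBall_zero_iff]; linarith⟩ (by
        rw [Prod.dist_eq]
        apply max_lt
        · rw [dist_comm]; exact hbb'.trans hδ2
        · exact lt_of_le_of_lt hyz hδ2)
    rw [dist_eq_norm] at this
    have h2 : ‖(pmap n b)^[k] z - ζ₀‖ ≤ r := hz
    have h3 := norm_le_norm_add_norm_sub' ((pmap n b')^[k] y - ζ₀) ((pmap n b)^[k] z - ζ₀)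
    show ‖(pmap n b')^[k] y - ζ₀‖ ≤ R
    have h4 : ‖((pmap n b')^[k] y - ζ₀) - ((pmap n b)^[k] z - ζ₀)‖ < R - r := this
    linarith
  have haa : a ∈ closedBall a 1 := mem_closedBall_self zero_le_one
  have ha'a : a' ∈ closedBall a 1 := by
    rw [mem_closedBall]; linarith
  constructor
  · exact conn_transfer hn hG hr hrR ha hk hδ
      (key a a' (by linarith) haa ha'a (by rw [dist_comm]; exact hd1)) (hclose a' hd2).1
  · exact conn_transfer hn ha hr hrR hG hk hδ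
      (key a' a hna' ha'a haa hd1) (hclose a' hd2).2

/-- Near a map all of whose critical points tend to one attracting fixed point, membership in
`B(z^n)` is locally constant. -/
theorem local_const {n : ℕ} (hn : 2 ≤ n) {a₀ : Fin (n - 1) → ℂ} (h : a₀ ∈ AllToOne n) :
    ∀ᶠ a in 𝓝 a₀, a ∈ AllToOne n ∧ (a ∈ BLit n ↔ a₀ ∈ BLit n) := by
  obtain ⟨ζ₀, h0, hd, hcr⟩ := h
  obtain ⟨r, R, k₀, hr, hrR, -, hev⟩ := exists_good hn h0 hd hcr one_pos
  obtain ⟨ε, hε, hball⟩ := Metric.eventually_nhds_iff_ball.mp hev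
  have ha₀ : a₀ ∈ ball a₀ ε := mem_ball_self hε
  have hconst : ∀ k, k₀ ≤ k → ∀ a ∈ ball a₀ ε, (Conn n ζ₀ r k a ↔ Conn n ζ₀ r k a₀) := by
    intro k hk a ha
    refine (convex_ball a₀ ε).isPreconnected.induction₂
      (fun x y => (Conn n ζ₀ r k x ↔ Conn n ζ₀ r k y)) ?_ ?_ ?_ ha ha₀
    · intro x hx
      have h1 := conn_local hn (hball x hx) hr hrR hk
      have h2 : ∀ᶠ y in 𝓝 x, y ∈ ball a₀ ε := isOpen_ball.mem_nhds hx
      apply Filter.Eventually.filter_mono nhdsWithin_le_nhds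
      filter_upwards [h1, h2] with y hy1 hy2
      exact hy1 (hball y hy2)
    · intro x y z _ _ _ h1 h2
      exact h1.trans h2
    · intro x y _ _ h1
      exact h1.symm
  filter_upwards [isOpen_ball.mem_nhds ha₀] with a ha
  constructor
  · obtain ⟨ζ, hζb, hfix, hder, hζ⟩ := (hball a ha).fixed hr hrR
    refine ⟨ζ, hfix, hder, fun c hc => ?_⟩
    apply tendsto_of_iter k₀
    apply hζ
    rw [mem_closedBall, dist_eq_norm]
    exact ((hball a ha).crit c hc k₀ le_rfl).le.trans hrR.le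
  · rw [mem_BLit_iff hn (hball a ha) hr hrR, mem_BLit_iff hn (hball a₀ ha₀) hr hrR]
    constructor
    · rintro ⟨k, hk, hc⟩
      exact ⟨k, hk, (hconst k hk a ha).mp hc⟩
    · rintro ⟨k, hk, hc⟩
      exact ⟨k, hk, (hconst k hk a ha).mpr hc⟩

theorem isOpen_BLit {n : ℕ} (hn : 2 ≤ n) : IsOpen (BLit n) := by
  rw [isOpen_iff_mem_nhds]
  intro a ha
  filter_upwards [local_const hn (BLit_subset_allToOne n ha)] with b hb
  exact hb.2.mpr ha

end Hyp95
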