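import Mathlib

/-!
Mountain pass lemma for sublevel sets of `|f|`, `f` entire (helper95).
-/

namespace Hyp95

open Filter Topology Set Metric

/-- Connectivity passes to the intersection of a decreasing family of compact sets. -/
theorem joined_inf {X : ℝ → Set ℂ} (hmono : Monotone X) (hcl : ∀ t, IsClosed (X t))
    {t₀ t₁ : ℝ} (ht : t₀ < t₁) (hc : IsCompact (X t₁))
    (hinter : ∀ z, (∀ t, t₀ < t → z ∈ X t) → z ∈ X t₀)
    {u v : ℂ} (hu : u ∈ X t₀) (hv : v ∈ X t₀)
    (h : ∀ t, t₀ < t → t ≤ t₁ → v ∈ connectedComponentIn (X t) u) :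
    v ∈ connectedComponentIn (X t₀) u := by
  classical
  by_contra hcon
  have hc0 : IsCompact (X t₀) := hc.of_isClosed_subset (hcl _) (hmono ht.le)
  have : CompactSpace (X t₀) := isCompact_iff_compactSpace.mp hc0
  rw [connectedComponentIn_eq_image hu] at hcon
  have hv' : (⟨v, hv⟩ : X t₀) ∉ connectedComponent (⟨u, hu⟩ : X t₀) := by
    intro hh
    exact hcon ⟨⟨v, hv⟩, hh, rfl⟩
  rw [connectedComponent_eq_iInter_isClopen] at hv'
  simp only [mem_iInter, not_forall] at hv'
  obtain ⟨⟨s, hs, hus⟩, hvs⟩ := hv'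
  have hA : IsCompact ((↑) '' s : Set ℂ) := hs.1.isCompact.image continuous_subtype_val
  have hB : IsCompact ((↑) '' sᶜ : Set ℂ) := hs.compl.1.isCompact.image continuous_subtype_val
  have hdisj : Disjoint ((↑) '' s : Set ℂ) ((↑) '' sᶜ : Set ℂ) := by
    rw [Set.disjoint_left]
    rintro _ ⟨x, hx, rfl⟩ ⟨y, hy, hxy⟩
    exact hy (by rwa [Subtype.ext hxy])
  obtain ⟨U, V, hU, hV, hAU, hBV, hUV⟩ := SeparatedNhds.of_isCompact_isCompact hA hB hdisj
  have hcov : X t₀ ⊆ U ∪ V := by
    intro z hz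
    by_cases hzs : (⟨z, hz⟩ : X t₀) ∈ s
    · exact Or.inl (hAU ⟨_, hzs, rfl⟩)
    · exact Or.inr (hBV ⟨_, hzs, rfl⟩)
  -- some X t is contained in U ∪ V
  have key : ∃ t, t₀ < t ∧ t ≤ t₁ ∧ X t ⊆ U ∪ V := by
    by_contra hno
    push Not at hno
    let τ : ℕ → ℝ := fun k => t₀ + (t₁ - t₀) / (k + 1)
    have hτpos : ∀ k, t₀ < τ k := by
      intro k
      have : 0 < (t₁ - t₀) / ((k : ℝ) + 1) := by
        have h1 : 0 < t₁ - t₀ := by linarith
        positivity
      simp only [τ]; linarith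
    have hτle : ∀ k, τ k ≤ t₁ := by
      intro k
      have h1 : 0 < t₁ - t₀ := by linarith
      have : (t₁ - t₀) / ((k : ℝ) + 1) ≤ (t₁ - t₀) / 1 := by
        apply div_le_div_of_nonneg_left h1.le (by norm_num)
        have : (0:ℝ) ≤ k := Nat.cast_nonneg k
        linarith
      simp only [τ]; linarith
    have hτanti : ∀ k, τ (k + 1) ≤ τ k := by
      intro k
      have h1 : 0 < t₁ - t₀ := by linarith
      simp only [τ]
      have : (t₁ - t₀) / (((k + 1 : ℕ) : ℝ) + 1) ≤ (t₁ - t₀) / ((k : ℝ) + 1) := by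
        apply div_le_div_of_nonneg_left h1.le (by positivity)
        push_cast; linarith
      linarith
    have hne := IsCompact.nonempty_iInter_of_sequence_nonempty_isCompact_isClosed
      (fun k => X (τ k) \ (U ∪ V))
      (fun k => Set.sdiff_subset_sdiff_left (hmono (hτanti k)))
      (fun k => by
        obtain ⟨z, hz, hz'⟩ := Set.not_subset.mp (hno (τ k) (hτpos k) (hτle k))
        exact ⟨z, hz, hz'⟩)
      ((hc.of_isClosed_subset (hcl _) (hmono (hτle 0))).diff (hU.union hV))
      (fun k => (hcl _).sdiff (hU.union hV))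
    obtain ⟨z, hz⟩ := hne
    rw [mem_iInter] at hz
    have hz0 : z ∈ X t₀ := by
      apply hinter
      intro t ht'
      obtain ⟨k, hk⟩ := exists_nat_gt ((t₁ - t₀) / (t - t₀))
      have h1 : 0 < t₁ - t₀ := by linarith
      have h2 : 0 < t - t₀ := by linarith
      have : τ k ≤ t := by
        simp only [τ]
        rw [div_lt_iff₀ h2] at hk
        have h3 : (t₁ - t₀) / ((k : ℝ) + 1) ≤ t - t₀ := by
          rw [div_le_iff₀ (by positivity)]
          nlinarith
        linarith
      exact hmono this (hz k).1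
    exact (hz 0).2 (hcov hz0)
  obtain ⟨t, ht1, ht2, htU⟩ := key
  have hpre := (isPreconnected_connectedComponentIn (F := X t) (x := u))
  have huC : u ∈ connectedComponentIn (X t) u := mem_connectedComponentIn (hmono ht1.le hu)
  have hvC := h t ht1 ht2
  have hUu : u ∈ U := hAU ⟨_, hus, rfl⟩
  have hVv : v ∈ V := hBV ⟨⟨v, hv⟩, hvs, rfl⟩
  obtain ⟨z, -, hz1, hz2⟩ := hpre U V hU hV
    ((connectedComponentIn_subset _ _).trans htU) ⟨u, huC, hUu⟩ ⟨v, hvC, hVv⟩
  exact Set.disjoint_left.mp hUV hz1 hz2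

/-- Local structure of the sublevel set at a noncritical boundary point. -/
theorem local_level {f : ℂ → ℂ} (hf : Differentiable ℂ f) {z : ℂ} (hz : deriv f z ≠ 0)
    {t : ℝ} (ht : 0 < t) :
    ∃ W ∈ 𝓝 z, IsPreconnected (W ∩ {y | ‖f y‖ < t}) ∧
      W ∩ {y | ‖f y‖ ≤ t} ⊆ closure (W ∩ {y | ‖f y‖ < t}) := by
  have hs : HasStrictDerivAt f (deriv f z) z := by
    have := (hf.analyticAt z).hasStrictDerivAt
    exact this
  have hs' := hs.hasStrictFDerivAt_equiv hz
  let e := hs'.toOpenPartialHomeomorph f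
  have hze : z ∈ e.source := hs'.mem_toOpenPartialHomeomorph_source
  have hef : ∀ x, e x = f x := fun x => rfl
  have htgt : e.target ∈ 𝓝 (f z) := e.open_target.mem_nhds (by
    have := e.map_source hze
    rwa [hef] at this)
  obtain ⟨δ, hδ, hball⟩ := Metric.mem_nhds_iff.mp htgt
  have hW : e.symm '' (ball (f z) δ) = e.source ∩ f ⁻¹' (ball (f z) δ) := by
    ext y
    constructor
    · rintro ⟨w, hw, rfl⟩
      refine ⟨e.map_target (hball hw), ?_⟩
      have := e.right_inv (hball hw)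
      rw [hef] at this
      rw [mem_preimage, this]
      exact hw
    · rintro ⟨hy1, hy2⟩
      refine ⟨f y, hy2, ?_⟩
      have := e.left_inv hy1
      rwa [hef] at this
  have key : ∀ S : Set ℂ, e.symm '' (ball (f z) δ ∩ S) =
      e.symm '' (ball (f z) δ) ∩ f ⁻¹' S := by
    intro S
    ext y
    constructor
    · rintro ⟨w, hw, rfl⟩
      refine ⟨⟨w, hw.1, rfl⟩, ?_⟩
      have := e.right_inv (hball hw.1)
      rw [hef] at this
      rw [mem_preimage, this]
      exact hw.2
    · rintro ⟨⟨w, hw, rfl⟩, hy2⟩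
      refine ⟨w, ⟨hw, ?_⟩, rfl⟩
      have := e.right_inv (hball hw)
      rw [hef] at this
      rw [mem_preimage, this] at hy2
      exact hy2
  have hsetlt : ∀ A : Set ℂ, A ∩ {y | ‖f y‖ < t} = A ∩ f ⁻¹' (ball 0 t) := by
    intro A; ext y; simp
  refine ⟨e.symm '' (ball (f z) δ), ?_, ?_, ?_⟩
  · rw [hW]
    exact Filter.inter_mem (e.open_source.mem_nhds hze)
      (hf.continuous.continuousAt.preimage_mem_nhds (ball_mem_nhds _ hδ))
  · rw [hsetlt, ← key]
    refine ((convex_ball (f z) δ).inter (convex_ball (0:ℂ) t)).isPreconnected.image _ ?_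
    exact e.continuousOn_symm.mono (inter_subset_left.trans hball)
  · rintro y ⟨hy1, hy2⟩
    rw [hsetlt, ← key]
    have hy1' := hy1
    rw [hW] at hy1'
    have h1 : f y ∈ closure (ball (f z) δ ∩ ball 0 t) := by
      have : f y ∈ ball (f z) δ ∩ closure (ball (0:ℂ) t) := by
        refine ⟨hy1'.2, ?_⟩
        rw [closure_ball _ ht.ne']
        simpa using hy2
      exact isOpen_ball.inter_closure this
    have h2 : e.symm (f y) = y := by
      have := e.left_inv hy1'.1
      rwa [hef] at this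
    rw [← h2]
    refine mem_closure_image ?_ h1
    exact e.continuousOn_symm.continuousAt (e.open_target.mem_nhds (hball hy1'.2))

/-- Mountain pass lemma: if `f` has no critical point with `r ≤ |f| ≤ R`, two points of
`{|f| ≤ r}` in the same component of `{|f| ≤ R}` are in the same component of `{|f| ≤ r}`. -/
theorem mountain_pass {f : ℂ → ℂ} (hf : Differentiable ℂ f) {r R : ℝ} (hr : 0 < r)
    (hrR : r ≤ R) (hcpt : IsCompact {z | ‖f z‖ ≤ R})
    (hcrit : ∀ z, r ≤ ‖f z‖ → ‖f z‖ ≤ R → deriv f z ≠ 0)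
    {u v : ℂ} (hu : ‖f u‖ ≤ r) (hv : ‖f v‖ ≤ r)
    (h : v ∈ connectedComponentIn {z | ‖f z‖ ≤ R} u) :
    v ∈ connectedComponentIn {z | ‖f z‖ ≤ r} u := by
  classical
  let X : ℝ → Set ℂ := fun t => {z | ‖f z‖ ≤ t}
  have hmono : Monotone X := fun s t hst z hz => le_trans hz hst
  have hcl : ∀ t, IsClosed (X t) := fun t => isClosed_le hf.continuous.norm continuous_const
  let T : Set ℝ := {t | r ≤ t ∧ t ≤ R ∧ v ∈ connectedComponentIn (X t) u}
  have hRT : R ∈ T := ⟨hrR, le_rfl, h⟩
  have hbdd : BddBelow T := ⟨r, fun t ht => ht.1⟩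
  set t₀ := sInf T with ht₀
  have hrt₀ : r ≤ t₀ := le_csInf ⟨R, hRT⟩ (fun t ht => ht.1)
  have ht₀R : t₀ ≤ R := csInf_le hbdd hRT
  have hup : ∀ t, t₀ < t → t ≤ R → v ∈ connectedComponentIn (X t) u := by
    intro t ht htR
    obtain ⟨s, hs, hst⟩ := exists_lt_of_csInf_lt ⟨R, hRT⟩ ht
    exact connectedComponentIn_mono u (hmono hst.le) hs.2.2
  have ht₀T : v ∈ connectedComponentIn (X t₀) u := by
    rcases ht₀R.lt_or_eq with hlt | heq
    · refine joined_inf hmono hcl hlt hcpt ?_ (le_trans hu hrt₀) (le_trans hv hrt₀) hup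
      intro z hz
      exact le_of_forall_gt_imp_ge_of_dense (fun t ht => hz t ht)
    · rw [heq]; exact h
  rcases hrt₀.eq_or_lt with heq | hlt
  · have : X t₀ = {z | ‖f z‖ ≤ r} := by rw [← heq]
    rw [this] at ht₀T
    exact ht₀T
  exfalso
  have ht₀pos : 0 < t₀ := lt_trans hr hlt
  set O : Set ℂ := {z | ‖f z‖ < t₀} with hO
  have hOo : IsOpen O := isOpen_lt hf.continuous.norm continuous_const
  have huO : u ∈ O := lt_of_le_of_lt hu hlt
  have hvO : v ∈ O := lt_of_le_of_lt hv hlt
  set Ou := connectedComponentIn O u with hOu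
  have hOuo : IsOpen Ou := hOo.connectedComponentIn
  have hOusub : Ou ⊆ O := connectedComponentIn_subset _ _
  have huOu : u ∈ Ou := mem_connectedComponentIn huO
  -- closure of `Ou` inside `O` is `Ou`
  have hclO : closure Ou ∩ O ⊆ Ou := by
    rintro z ⟨hz, hzO⟩
    have hz2 : connectedComponentIn O z ∈ 𝓝 z :=
      hOo.connectedComponentIn.mem_nhds (mem_connectedComponentIn hzO)
    obtain ⟨y, hy1, hy2⟩ := mem_closure_iff_nhds.mp hz _ hz2
    have e1 : connectedComponentIn O u = connectedComponentIn O y := connectedComponentIn_eq hy2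
    have e2 : connectedComponentIn O z = connectedComponentIn O y := connectedComponentIn_eq hy1
    rw [hOu, e1, ← e2]
    exact mem_connectedComponentIn hzO
  have hDX : closure Ou ⊆ X t₀ := by
    refine closure_minimal ?_ (hcl t₀)
    intro z hz
    have : ‖f z‖ < t₀ := hOusub hz
    exact this.le
  -- `closure Ou` is relatively open in `X t₀`
  have hopen : ∀ z ∈ closure Ou, ∃ W ∈ 𝓝 z, W ∩ X t₀ ⊆ closure Ou := by
    intro z hz
    have hz0 : ‖f z‖ ≤ t₀ := hDX hz
    rcases hz0.lt_or_eq with hzlt | hzeq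
    · exact ⟨Ou, hOuo.mem_nhds (hclO ⟨hz, hzlt⟩), fun y hy => subset_closure hy.1⟩
    · obtain ⟨W, hW, hWc, hWcl⟩ := local_level hf
        (hcrit z (by rw [hzeq]; exact hlt.le) (by rw [hzeq]; exact ht₀R)) ht₀pos
      obtain ⟨y, hyW, hyOu⟩ := mem_closure_iff_nhds.mp hz _ hW
      have hsub : W ∩ {y | ‖f y‖ < t₀} ⊆ Ou := by
        have hy1 : y ∈ W ∩ {y | ‖f y‖ < t₀} := ⟨hyW, hOusub hyOu⟩
        have := hWc.subset_connectedComponentIn hy1 inter_subset_right
        have e1 : connectedComponentIn O u = connectedComponentIn O y := connectedComponentIn_eq hyOu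
        rw [hOu, e1]
        exact this
      exact ⟨W, hW, hWcl.trans (closure_mono hsub)⟩
  -- hence the component of `u` in `X t₀` lies in `closure Ou`
  have hcomp : connectedComponentIn (X t₀) u ⊆ closure Ou := by
    intro w hw
    by_contra hwn
    have hpre := (isPreconnected_connectedComponentIn (F := X t₀) (x := u))
    choose! W hW hWsub using hopen
    let A : Set ℂ := ⋃ z ∈ closure Ou, interior (W z)
    have hAo : IsOpen A := isOpen_biUnion fun z _ => isOpen_interior
    have hAX : A ∩ X t₀ ⊆ closure Ou := by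
      rintro y ⟨hy, hyX⟩
      simp only [A, mem_iUnion] at hy
      obtain ⟨z, hz, hyz⟩ := hy
      exact hWsub z hz ⟨interior_subset hyz, hyX⟩
    have hclA : closure Ou ⊆ A := by
      intro z hz
      simp only [A, mem_iUnion]
      exact ⟨z, hz, mem_interior_iff_mem_nhds.mpr (hW z hz)⟩
    obtain ⟨y, hy, hyA, hyc⟩ := hpre A (closure Ou)ᶜ hAo isClosed_closure.isOpen_compl
      (fun y _ => by
        by_cases hy : y ∈ closure Ou
        · exact Or.inl (hclA hy)
        · exact Or.inr hy)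
      ⟨u, mem_connectedComponentIn (le_trans hu hrt₀), hclA (subset_closure huOu)⟩
      ⟨w, hw, hwn⟩
    exact hyc (hAX ⟨hyA, connectedComponentIn_subset _ _ hy⟩)
  have hvOu : v ∈ Ou := hclO ⟨hcomp ht₀T, hvO⟩
  -- a path in `Ou` stays below a level `< t₀`
  have hpc : IsPathConnected Ou :=
    (hOuo.isConnected_iff_isPathConnected).mp ⟨⟨u, huOu⟩, isPreconnected_connectedComponentIn⟩
  obtain ⟨γ, hγ⟩ := hpc.joinedIn u huOu v hvOu
  have hcγ : IsCompact (range γ) := isCompact_range γ.continuous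
  obtain ⟨w, hw, hmax⟩ := hcγ.exists_isMaxOn (range_nonempty γ) hf.continuous.norm.continuousOn
  obtain ⟨s, hs⟩ := hw
  have hwt : ‖f w‖ < t₀ := by rw [← hs]; exact hOusub (hγ s)
  have hmem : max ‖f w‖ r ∈ T := by
    refine ⟨le_max_right _ _, ?_, ?_⟩
    · exact max_le (hwt.le.trans ht₀R) hrR
    · have hsub : range γ ⊆ X (max ‖f w‖ r) := by
        intro y hy
        have h1 : ‖f y‖ ≤ ‖f w‖ := hmax hy
        exact le_trans h1 (le_max_left _ _)
      have hconn : IsPreconnected (range γ) := isPreconnected_range γ.continuous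
      have hu' : u ∈ range γ := ⟨0, γ.source⟩
      exact hconn.subset_connectedComponentIn hu' hsub ⟨1, γ.target⟩
  have := csInf_le hbdd hmem
  rw [← ht₀] at this
  exact absurd this (not_le.mpr (max_lt hwt hlt))

end Hyp95
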