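import Pool.Agent.Lib.Hyp.Cmax95

/-!
Sub-mean value property of the maximum over the critical points (helper32).
-/

namespace Hyp95

open Topology Set Metric Hyp20

/-- Sub-mean value property of `log ‖f‖` at a point where `f` does not vanish. -/
theorem log_norm_le_circleAverage {f : ℂ → ℂ} (hf : Differentiable ℂ f) (h0 : f 0 ≠ 0) :
    Real.log ‖f 0‖ ≤ Real.circleAverage (fun z => Real.log ‖f z‖) 0 1 := by
  have ha : AnalyticOnNhd ℂ f (closedBall 0 |(1 : ℝ)|) := fun z _ => hf.analyticAt z
  rw [ha.circleAverage_log_norm one_ne_zero h0]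
  have hnn : 0 ≤ ∑ᶠ u, (MeromorphicOn.divisor f (closedBall 0 |(1 : ℝ)|)) u *
      Real.log (1 * ‖(0 : ℂ) - u‖⁻¹) := by
    refine finsum_nonneg fun u => ?_
    by_cases hu : u ∈ closedBall (0 : ℂ) |(1 : ℝ)|
    · have h1 : (0 : ℤ) ≤ (MeromorphicOn.divisor f (closedBall 0 |(1 : ℝ)|)) u := by
        rw [MeromorphicOn.AnalyticOnNhd.divisor_apply ha hu]
        cases analyticOrderAt f u with
        | top => simp
        | coe k => simp
      have h2 : 0 ≤ Real.log (1 * ‖(0 : ℂ) - u‖⁻¹) := by
        rw [one_mul, zero_sub, norm_neg, Real.log_inv]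
        have : ‖u‖ ≤ 1 := by simpa using hu
        linarith [Real.log_nonpos (norm_nonneg u) this]
      exact mul_nonneg (by exact_mod_cast h1) h2
    · rw [Function.locallyFinsuppWithin.apply_eq_zero_of_notMem _ hu]
      simp
  linarith

/-- circle averages of `K + j * f` -/
theorem circleAverage_affine {f : ℂ → ℝ} (hf : Continuous f) (K j : ℝ) :
    Real.circleAverage (fun z => K + j * f z) 0 1 = K + j * Real.circleAverage f 0 1 := by
  have i1 : CircleIntegrable (fun _ : ℂ => K) 0 1 :=
    continuous_const.continuousOn.circleIntegrable zero_le_one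
  have i2 : CircleIntegrable (fun z : ℂ => j * f z) 0 1 :=
    (continuous_const.mul hf).continuousOn.circleIntegrable zero_le_one
  rw [Real.circleAverage_fun_add i1 i2, Real.circleAverage_const]
  have h := Real.circleAverage_fun_smul (a := j) (f := f) (c := (0 : ℂ)) (R := (1 : ℝ))
  simp only [smul_eq_mul] at h
  rw [h]

/-- Jensen's inequality: from the logarithmic mean to the mean of powers. -/
theorem pow_le_circleAverage {u : ℂ → ℝ} (hu : Continuous u) (hu0 : ∀ τ, 0 ≤ u τ) {p : ℝ}
    (hp : 0 < p) {x : ℝ} (hx : 0 ≤ x)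
    (h : ∀ ε : ℝ, 0 < ε → x ≤ Real.exp (Real.circleAverage (fun τ => Real.log (u τ + ε)) 0 1)) :
    x ^ p ≤ Real.circleAverage (fun τ => u τ ^ p) 0 1 := by
  have key2 : ∀ ε : ℝ, 0 < ε →
      x ^ p ≤ Real.circleAverage (fun τ : ℂ => (u τ + ε) ^ p) 0 1 := by
    intro ε hε
    have hpos : ∀ τ, 0 < u τ + ε := fun τ => by have := hu0 τ; linarith
    have hlogc : Continuous fun τ : ℂ => Real.log (u τ + ε) :=
      (hu.add continuous_const).log fun τ => (hpos τ).ne'
    have hpowc : Continuous fun τ : ℂ => (u τ + ε) ^ p :=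
      (hu.add continuous_const).rpow_const fun τ => Or.inr hp.le
    have hA0 : 0 < Real.circleAverage (fun τ : ℂ => (u τ + ε) ^ p) 0 1 := by
      have h1 : Real.circleAverage (fun _ : ℂ => ε ^ p) 0 1 ≤
          Real.circleAverage (fun τ : ℂ => (u τ + ε) ^ p) 0 1 := by
        refine Real.circleAverage_mono (continuous_const.continuousOn.circleIntegrable
          zero_le_one) (hpowc.continuousOn.circleIntegrable zero_le_one) ?_
        intro τ _
        exact Real.rpow_le_rpow hε.le (by have := hu0 τ; linarith) hp.le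
      rw [Real.circleAverage_const] at h1
      exact (Real.rpow_pos_of_pos hε p).trans_le h1
    have e1 := circleAverage_affine hlogc 0 p
    generalize hA : Real.circleAverage (fun τ : ℂ => (u τ + ε) ^ p) 0 1 = A at hA0
    have e2 := circleAverage_affine hpowc (Real.log A - 1) A⁻¹
    rw [hA] at e2
    have hh := h ε hε
    generalize Real.circleAverage (fun τ : ℂ => Real.log (u τ + ε)) 0 1 = L at hh e1
    have h1 : Real.circleAverage (fun τ : ℂ => 0 + p * Real.log (u τ + ε)) 0 1 ≤
        Real.circleAverage (fun τ : ℂ => Real.log A - 1 + A⁻¹ * (u τ + ε) ^ p) 0 1 := by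
      refine Real.circleAverage_mono
        ((continuous_const.add (continuous_const.mul hlogc)).continuousOn.circleIntegrable
          zero_le_one)
        ((continuous_const.add (continuous_const.mul hpowc)).continuousOn.circleIntegrable
          zero_le_one) ?_
      intro τ _
      have hx : 0 < (u τ + ε) ^ p := Real.rpow_pos_of_pos (hpos τ) p
      have h2 := Real.log_le_sub_one_of_pos (x := A⁻¹ * (u τ + ε) ^ p) (by positivity)
      rw [Real.log_mul (by positivity) hx.ne', Real.log_inv, Real.log_rpow (hpos τ)] at h2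
      linarith
    rw [e1, e2, inv_mul_cancel₀ hA0.ne'] at h1
    calc x ^ p ≤ (Real.exp L) ^ p := Real.rpow_le_rpow hx hh hp.le
      _ = Real.exp (p * L) := by rw [← Real.exp_mul, mul_comm]
      _ ≤ Real.exp (Real.log A) := Real.exp_le_exp.mpr (by linarith)
      _ = A := Real.exp_log hA0
  have hcont : Continuous fun ε : ℝ => Real.circleAverage (fun τ : ℂ => (u τ + ε) ^ p) 0 1 := by
    have h1 : Continuous fun q : ℝ × ℝ => u (circleMap 0 1 q.2) + q.1 :=
      (hu.comp ((continuous_circleMap 0 1).comp continuous_snd)).add continuous_fst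
    have h2 : Continuous fun q : ℝ × ℝ => (u (circleMap 0 1 q.2) + q.1) ^ p :=
      h1.rpow_const fun _ => Or.inr hp.le
    have h3 : Continuous fun ε : ℝ => ∫ θ in (0:ℝ)..2 * Real.pi, (u (circleMap 0 1 θ) + ε) ^ p :=
      intervalIntegral.continuous_parametric_intervalIntegral_of_continuous' h2 _ _
    exact h3.const_smul ((2 * Real.pi)⁻¹)
  have hlim := hcont.tendsto 0
  simp only [add_zero] at hlim
  refine ge_of_tendsto (hlim.mono_left nhdsWithin_le_nhds : Filter.Tendsto _ (𝓝[>] (0:ℝ)) _) ?_
  filter_upwards [self_mem_nhdsWithin] with ε hε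
  exact key2 ε hε

/-- From holomorphic power sums to the logarithmic mean: one power sum. -/
theorem norm_le_of_bound {φ : ℂ → ℂ} (hφ : Differentiable ℂ φ) {u : ℂ → ℝ} (hu : Continuous u)
    (hu0 : ∀ τ, 0 ≤ u τ) {r ε : ℝ} (hr : 0 < r) (hε : 0 < ε) (j : ℕ)
    (hb : ∀ τ, ‖φ τ‖ ≤ r * (u τ + ε) ^ j) :
    ‖φ 0‖ ≤ r * Real.exp (Real.circleAverage (fun τ => Real.log (u τ + ε)) 0 1) ^ j := by
  have hpos : ∀ τ, 0 < u τ + ε := fun τ => by have := hu0 τ; linarith
  have hlogc : Continuous fun τ : ℂ => Real.log (u τ + ε) :=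
    (hu.add continuous_const).log fun τ => (hpos τ).ne'
  by_cases hz : φ 0 = 0
  · rw [hz, norm_zero]; positivity
  obtain ⟨K, hK0, hK⟩ : ∃ K : ℝ, 0 < K ∧ 1 ≤ K * (r * ε ^ j) := by
    refine ⟨(r * ε ^ j)⁻¹, by positivity, ?_⟩
    rw [inv_mul_cancel₀ (by positivity)]
  have hfd : Differentiable ℂ fun z => (K : ℂ) * φ z := hφ.const_mul _
  have hf0 : (K : ℂ) * φ 0 ≠ 0 := mul_ne_zero (by exact_mod_cast hK0.ne') hz
  have hnf : ∀ z, ‖(K : ℂ) * φ z‖ = K * ‖φ z‖ := by
    intro z
    rw [norm_mul, Complex.norm_real, Real.norm_of_nonneg hK0.le]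
  have h1 := log_norm_le_circleAverage hfd hf0
  have e1 := circleAverage_affine hlogc (Real.log (K * r)) (j : ℝ)
  have h2 : Real.circleAverage (fun z => Real.log ‖(K : ℂ) * φ z‖) 0 1 ≤
      Real.circleAverage (fun z => Real.log (K * r) + (j : ℝ) * Real.log (u z + ε)) 0 1 := by
    refine Real.circleAverage_mono ?_ ?_ ?_
    · exact MeromorphicOn.circleIntegrable_log_norm fun z _ =>
        (hfd.analyticAt z).meromorphicAt
    · exact (continuous_const.add (continuous_const.mul hlogc)).continuousOn.circleIntegrable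
        zero_le_one
    · intro z _
      have h3 : (0 : ℝ) < (u z + ε) ^ j := pow_pos (hpos z) j
      have e : Real.log (K * r) + (j : ℝ) * Real.log (u z + ε) =
          Real.log (K * (r * (u z + ε) ^ j)) := by
        rw [← Real.log_pow, ← Real.log_mul (by positivity) h3.ne', mul_assoc]
      rw [e]
      have h4 : 1 ≤ K * (r * (u z + ε) ^ j) := by
        refine hK.trans ?_
        refine mul_le_mul_of_nonneg_left ?_ hK0.le
        refine mul_le_mul_of_nonneg_left ?_ hr.le
        exact pow_le_pow_left₀ hε.le (by have := hu0 z; linarith) j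
      rcases eq_or_ne ((K : ℂ) * φ z) 0 with hfz | hfz
      · rw [hfz, norm_zero, Real.log_zero]
        exact Real.log_nonneg h4
      · refine Real.log_le_log (norm_pos_iff.mpr hfz) ?_
        rw [hnf]
        exact mul_le_mul_of_nonneg_left (hb z) hK0.le
  rw [e1] at h2
  have h5 := h1.trans h2
  generalize Real.circleAverage (fun τ : ℂ => Real.log (u τ + ε)) 0 1 = L at h5
  have h6 : ‖(K : ℂ) * φ 0‖ ≤ K * r * Real.exp L ^ j := by
    rw [← Real.log_le_log_iff (norm_pos_iff.mpr hf0) (by positivity),
      Real.log_mul (by positivity) (by positivity), Real.log_pow, Real.log_exp]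
    exact h5
  rw [hnf, mul_assoc] at h6
  exact le_of_mul_le_mul_left h6 hK0

/-- The maximum of a bi-polynomial over the critical points has the sub-mean value property
(any positive power). -/
theorem cmax_psh {n : ℕ} (hn : 2 ≤ n) {G : (Fin (n - 1) → ℂ) → ℂ → ℂ} (hG : IsBiPoly G)
    {p : ℝ} (hp : 0 < p) (a v : Fin (n - 1) → ℂ) :
    cmax n G a ^ p ≤ Real.circleAverage (fun τ : ℂ => cmax n G (a + τ • v) ^ p) 0 1 := by
  have hline : Continuous fun τ : ℂ => a + τ • v := by fun_prop
  have hucont : Continuous fun τ : ℂ => cmax n G (a + τ • v) :=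
    (continuous_cmax hn hG.continuous).comp hline
  have hu0 : ∀ τ : ℂ, 0 ≤ cmax n G (a + τ • v) := fun τ => cmax_nonneg hn G _
  refine pow_le_circleAverage hucont hu0 hp (cmax_nonneg hn G a) fun ε hε => ?_
  rw [cmax_le_iff hn]
  intro c hc
  have hr : (0 : ℝ) < ((n - 1 : ℕ) : ℝ) := by
    have : 0 < n - 1 := by omega
    exact_mod_cast this
  refine norm_le_of_power_sums_multiset ((Polynomial.derivative (pol n a)).roots.map (G a))
    ((n - 1 : ℕ) : ℝ) _ (Real.exp_nonneg _) ?_ (G a c) ?_
  swap
  · rw [Multiset.mem_map]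
    exact ⟨c, (mem_roots_derivative_pol n hn a c).mpr hc, rfl⟩
  intro j hj
  obtain ⟨P, hP⟩ := IsBiPoly.exists_sum_poly n hn (hG.pow j)
  have hφ : Differentiable ℂ (fun z : ℂ => MvPolynomial.eval (a + z • v) P) := by
    have hpoly : ∀ P : MvPolynomial (Fin (n - 1)) ℂ,
        Differentiable ℂ (fun z : ℂ => MvPolynomial.eval (a + z • v) P) := by
      intro P
      induction P using MvPolynomial.induction_on with
      | C c => simp
      | add p q hp hq => simp only [map_add]; exact hp.add hq
      | mul_X p i hp =>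
        simp only [map_mul, MvPolynomial.eval_X]
        refine hp.mul ?_
        simp only [Pi.add_apply, Pi.smul_apply, smul_eq_mul]
        fun_prop
    exact hpoly P
  have hsum : (((Polynomial.derivative (pol n a)).roots.map (G a)).map fun x => x ^ j).sum =
      MvPolynomial.eval (a + (0 : ℂ) • v) P := by
    rw [Multiset.map_map, zero_smul, add_zero, hP a]
    rfl
  rw [hsum]
  refine norm_le_of_bound hφ hucont hu0 hr hε j fun τ => ?_
  generalize a + τ • v = b
  rw [hP b]
  have hcard := card_roots_derivative_pol n hn b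
  have hmem := fun c => mem_roots_derivative_pol n hn b c
  calc ‖((Polynomial.derivative (pol n b)).roots.map fun z => G b z ^ j).sum‖
      ≤ (((Polynomial.derivative (pol n b)).roots.map fun z => G b z ^ j).map
          (fun x => ‖x‖)).sum := norm_multiset_sum_le _
    _ ≤ Multiset.card (((Polynomial.derivative (pol n b)).roots.map fun z => G b z ^ j).map
          (fun x => ‖x‖)) • (cmax n G b + ε) ^ j := by
        apply Multiset.sum_le_card_nsmul
        intro x hx
        simp only [Multiset.map_map, Multiset.mem_map, Function.comp_apply] at hx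
        obtain ⟨c, hc, rfl⟩ := hx
        rw [norm_pow]
        refine pow_le_pow_left₀ (norm_nonneg _) ?_ j
        have := le_cmax hn G ((hmem c).mp hc)
        linarith
    _ = ((n - 1 : ℕ) : ℝ) * (cmax n G b + ε) ^ j := by
        rw [Multiset.card_map, Multiset.card_map, hcard, nsmul_eq_mul]

end Hyp95
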