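import Pool.Agent.Lib.Hyp.ThmB39

/-!
Rational convexity of the expanding locus of polynomials (helper95): a map that is not expanding
can be separated from a compact set of expanding maps by an algebraic hypersurface.
-/

namespace Hyp95

open Topology Set Metric Hyp20 Filter

/-- The rational hull of a subset of `ℂ ^ m`: the points `a` such that every algebraic
hypersurface through `a` meets `K`. -/
def ratHull {m : ℕ} (K : Set (Fin m → ℂ)) : Set (Fin m → ℂ) :=
  {a | ∀ P : MvPolynomial (Fin m) ℂ, MvPolynomial.eval a P = 0 →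
    ∃ b ∈ K, MvPolynomial.eval b P = 0}

/-- The derivative of the generic monic centred polynomial. -/
noncomputable def genDer (n : ℕ) : Polynomial (MvPolynomial (Fin (n - 1)) ℂ) :=
  Polynomial.derivative (Polynomial.X ^ n +
    ∑ i : Fin (n - 1), Polynomial.C (MvPolynomial.X i) * Polynomial.X ^ (i : ℕ))

theorem genDer_map (n : ℕ) (a : Fin (n - 1) → ℂ) :
    (genDer n).map (MvPolynomial.eval a) = Polynomial.derivative (pol n a) := by
  unfold genDer pol
  rw [← Polynomial.derivative_map]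
  simp [Polynomial.map_sum]

/-- Elimination of the critical point. -/
theorem exists_elim {n : ℕ} (hn : 2 ≤ n) {G : (Fin (n - 1) → ℂ) → ℂ → ℂ} (hG : IsBiPoly G)
    (x : ℂ) : ∃ P : MvPolynomial (Fin (n - 1)) ℂ, ∀ a,
      MvPolynomial.eval a P = 0 ↔ ∃ c, IsCritical n a c ∧ G a c = x := by
  obtain ⟨Q, hQ⟩ := hG
  set D := (Q - Polynomial.C (MvPolynomial.C x)).natDegree with hD
  refine ⟨Polynomial.resultant (genDer n) (Q - Polynomial.C (MvPolynomial.C x)) (n - 1) D,
    fun a => ?_⟩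
  have hdeg := (dpol_facts hn a).1
  have hlead := (dpol_facts hn a).2
  have h0 : Polynomial.derivative (pol n a) ≠ 0 := by
    intro h
    rw [h, Polynomial.leadingCoeff_zero] at hlead
    have : (n : ℂ) ≠ 0 := by
      have : n ≠ 0 := by omega
      exact_mod_cast this
    exact this hlead.symm
  have e : MvPolynomial.eval a (Polynomial.resultant (genDer n)
      (Q - Polynomial.C (MvPolynomial.C x)) (n - 1) D) =
      Polynomial.resultant (Polynomial.derivative (pol n a))
        ((Q - Polynomial.C (MvPolynomial.C x)).map (MvPolynomial.eval a)) (n - 1) D := by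
    rw [← Polynomial.resultant_map_map, genDer_map]
  rw [e]
  have h1 := Polynomial.resultant_eq_prod_eval (Polynomial.derivative (pol n a))
    ((Q - Polynomial.C (MvPolynomial.C x)).map (MvPolynomial.eval a)) D
    Polynomial.natDegree_map_le (IsAlgClosed.splits _)
  rw [hdeg] at h1
  rw [h1, hlead]
  have hn0 : ((n : ℂ)) ^ D ≠ 0 := by
    apply pow_ne_zero
    have : n ≠ 0 := by omega
    exact_mod_cast this
  rw [mul_eq_zero, or_iff_right hn0, Multiset.prod_eq_zero_iff]
  have hG' : ∀ c, ((Q - Polynomial.C (MvPolynomial.C x)).map (MvPolynomial.eval a)).eval c =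
      G a c - x := by
    intro c
    rw [Polynomial.map_sub, Polynomial.eval_sub, ← hQ]
    simp
  constructor
  · intro h
    obtain ⟨c, hc, hc0⟩ := Multiset.mem_map.mp h
    rw [hG'] at hc0
    exact ⟨c, (mem_roots_derivative hn a c).1 hc, sub_eq_zero.mp hc0⟩
  · rintro ⟨c, hc, hcx⟩
    refine Multiset.mem_map.mpr ⟨c, (mem_roots_derivative hn a c).2 hc, ?_⟩
    rw [hG', hcx, sub_self]

/-- Values at critical points of maps in the rational hull are values at critical points of maps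
in `K`. -/
theorem ratHull_value {n : ℕ} (hn : 2 ≤ n) {K : Set (Fin (n - 1) → ℂ)} {a : Fin (n - 1) → ℂ}
    (ha : a ∈ ratHull K) {G : (Fin (n - 1) → ℂ) → ℂ → ℂ} (hG : IsBiPoly G) {c : ℂ}
    (hc : IsCritical n a c) : ∃ b ∈ K, ∃ c', IsCritical n b c' ∧ G b c' = G a c := by
  obtain ⟨P, hP⟩ := exists_elim hn hG (G a c)
  obtain ⟨b, hb, hb0⟩ := ha P ((hP a).mpr ⟨c, hc, rfl⟩)
  obtain ⟨c', hc', e⟩ := (hP b).mp hb0
  exact ⟨b, hb, c', hc', e⟩

theorem subset_ratHull {m : ℕ} (K : Set (Fin m → ℂ)) : K ⊆ ratHull K :=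
  fun a ha _ h => ⟨a, ha, h⟩

/-- Values of polynomials on the hull. -/
theorem ratHull_poly {m : ℕ} {K : Set (Fin m → ℂ)} {a : Fin m → ℂ} (ha : a ∈ ratHull K)
    (P : MvPolynomial (Fin m) ℂ) : MvPolynomial.eval a P ∈ (fun b => MvPolynomial.eval b P) '' K := by
  obtain ⟨b, hb, h⟩ := ha (P - MvPolynomial.C (MvPolynomial.eval a P)) (by simp)
  refine ⟨b, hb, ?_⟩
  simpa [sub_eq_zero] using h

/-- The rational hull of a compact set is compact. -/
theorem isCompact_ratHull {m : ℕ} {K : Set (Fin m → ℂ)} (hK : IsCompact K) :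
    IsCompact (ratHull K) := by
  have e : ratHull K = ⋂ P : MvPolynomial (Fin m) ℂ,
      (fun a => MvPolynomial.eval a P) ⁻¹' ((fun a => MvPolynomial.eval a P) '' K) := by
    ext a
    rw [mem_iInter]
    constructor
    · intro ha P
      exact ratHull_poly ha P
    · intro h P hP
      obtain ⟨b, hb, hb'⟩ := h P
      exact ⟨b, hb, hb'.trans hP⟩
  have hclosed : IsClosed (ratHull K) := by
    rw [e]
    refine isClosed_iInter fun P => ?_
    exact ((hK.image (MvPolynomial.continuous_eval P)).isClosed).preimage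
      (MvPolynomial.continuous_eval P)
  have hb : ∀ i : Fin m, ∃ M : ℝ, ∀ x ∈ K, ‖x i‖ ≤ M := fun i =>
    hK.exists_bound_of_continuousOn (continuous_apply i).continuousOn
  choose M hM using hb
  refine (isCompact_closedBall (0 : Fin m → ℂ) (∑ j, |M j|)).of_isClosed_subset hclosed ?_
  intro a ha
  rw [mem_closedBall_zero_iff]
  refine (pi_norm_le_iff_of_nonneg (Finset.sum_nonneg fun _ _ => abs_nonneg _)).mpr fun j => ?_
  obtain ⟨b, hb, hbj⟩ := ratHull_poly ha (MvPolynomial.X j)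
  simp only [MvPolynomial.eval_X] at hbj
  rw [← hbj]
  refine (hM j b hb).trans ((le_abs_self _).trans ?_)
  exact Finset.single_le_sum (f := fun j => |M j|) (fun _ _ => abs_nonneg _) (Finset.mem_univ j)

/-- Outside the escape radius the derivative is large. -/
theorem norm_deriv_ge {n : ℕ} (hn : 2 ≤ n) (a : Fin (n - 1) → ℂ) {z : ℂ}
    (hz : escR n a ≤ ‖z‖) : ‖z‖ ≤ ‖deriv (pmap n a) z‖ := by
  have h3 := three_le_escR n a
  have hz3 : 3 ≤ ‖z‖ := h3.trans hz
  have hz1 : 1 ≤ ‖z‖ := by linarith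
  set A : ℝ := ∑ i, ‖a i‖ with hA
  have hA0 : 0 ≤ A := Finset.sum_nonneg fun i _ => norm_nonneg _
  have hAz : A ≤ ‖z‖ - 3 := by
    have : escR n a = 3 + A := rfl
    linarith
  have hn0 : (0:ℝ) ≤ (n:ℝ) := Nat.cast_nonneg n
  rw [deriv_pmap, dpol_eval]
  rcases Nat.lt_or_ge n 3 with h2 | h2
  · have hn2 : n = 2 := by omega
    subst hn2
    have e : (∑ i : Fin (2 - 1), a i * ((i : ℕ) * z ^ ((i : ℕ) - 1))) = 0 := by
      refine Finset.sum_eq_zero fun i _ => ?_
      have : (i : ℕ) = 0 := by have := i.2; omega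
      rw [this]; simp
    rw [e, add_zero, norm_mul]
    simp only [Nat.add_one_sub_one, pow_one, Nat.cast_ofNat, Complex.norm_ofNat]
    linarith
  · have hsum : ‖∑ i : Fin (n - 1), a i * ((i : ℕ) * z ^ ((i : ℕ) - 1))‖ ≤
        A * (n * ‖z‖ ^ (n - 3)) := by
      rw [hA, Finset.sum_mul]
      refine norm_sum_le_of_le _ fun i _ => ?_
      rw [norm_mul, norm_mul, norm_pow, Complex.norm_natCast]
      refine mul_le_mul_of_nonneg_left ?_ (norm_nonneg _)
      refine mul_le_mul ?_ ?_ (by positivity) hn0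
      · have := i.2
        exact_mod_cast (by omega : (i : ℕ) ≤ n)
      · exact pow_le_pow_right₀ hz1 (by have := i.2; omega)
    have hmain : n * ‖z‖ ^ (n - 1) - A * (n * ‖z‖ ^ (n - 3)) ≤
        ‖(n : ℂ) * z ^ (n - 1) + ∑ i : Fin (n - 1), a i * ((i : ℕ) * z ^ ((i : ℕ) - 1))‖ := by
      have h1 := norm_sub_le ((n : ℂ) * z ^ (n - 1) +
        ∑ i : Fin (n - 1), a i * ((i : ℕ) * z ^ ((i : ℕ) - 1)))
        (∑ i : Fin (n - 1), a i * ((i : ℕ) * z ^ ((i : ℕ) - 1)))
      rw [add_sub_cancel_right, norm_mul, norm_pow, Complex.norm_natCast] at h1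
      linarith
    refine le_trans ?_ hmain
    have hpow : ‖z‖ ^ (n - 1) = ‖z‖ ^ (n - 3) * ‖z‖ ^ 2 := by
      rw [← pow_add]; congr 1; omega
    have hQ : 1 ≤ ‖z‖ ^ (n - 3) := one_le_pow₀ hz1
    have hn3 : (3:ℝ) ≤ n := by exact_mod_cast h2
    rw [hpow]
    have h4 : ‖z‖ ≤ ‖z‖ ^ 2 - A := by nlinarith
    have h5 : 0 ≤ ‖z‖ ^ 2 - A := by linarith
    calc ‖z‖ ≤ ‖z‖ ^ 2 - A := h4
      _ ≤ n * (‖z‖ ^ 2 - A) := by nlinarith
      _ ≤ ‖z‖ ^ (n - 3) * (n * (‖z‖ ^ 2 - A)) := by
          have : 0 ≤ (n:ℝ) * (‖z‖ ^ 2 - A) := by positivity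
          nlinarith
      _ = n * (‖z‖ ^ (n - 3) * ‖z‖ ^ 2) - A * (n * ‖z‖ ^ (n - 3)) := by ring

/-- Outside the escape radius the derivatives of the iterates are large. -/
theorem norm_deriv_iter_ge {n : ℕ} (hn : 2 ≤ n) (a : Fin (n - 1) → ℂ) {z : ℂ}
    (hz : escR n a ≤ ‖z‖) (N : ℕ) : 1 ≤ ‖deriv ((pmap n a)^[N]) z‖ := by
  induction N with
  | zero => simp
  | succ N ih =>
    rw [Function.iterate_succ']
    have h1 : DifferentiableAt ℂ ((pmap n a)^[N]) z := (Hyp95.differentiable_iter n a N) z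
    rw [deriv_comp z ((Hyp95.differentiable_pmap n a) _) h1, norm_mul]
    have h2 : escR n a ≤ ‖(pmap n a)^[N] z‖ := by
      have := escR_le_iter hn a (k0 := 0) (z := z) (by simpa using hz) (Nat.zero_le N)
      exact this
    have h3 := norm_deriv_ge hn a h2
    have h4 := three_le_escR n a
    nlinarith [norm_nonneg (deriv ((pmap n a)^[N]) z)]

theorem norm_deriv_iter_ge' {n : ℕ} (hn : 2 ≤ n) (a : Fin (n - 1) → ℂ) {z : ℂ}
    (hz : escR n a ≤ ‖z‖) {N : ℕ} (hN : 1 ≤ N) : ‖z‖ ≤ ‖deriv ((pmap n a)^[N]) z‖ := by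
  obtain ⟨M, rfl⟩ : ∃ M, N = M + 1 := ⟨N - 1, by omega⟩
  rw [Function.iterate_succ]
  have h1 : DifferentiableAt ℂ ((pmap n a)^[M]) (pmap n a z) :=
    (Hyp95.differentiable_iter n a M) _
  rw [deriv_comp z h1 ((Hyp95.differentiable_pmap n a) z), norm_mul]
  have h2 : escR n a ≤ ‖pmap n a z‖ := by
    have := norm_pmap_ge hn a hz
    linarith [norm_nonneg z]
  have h3 := norm_deriv_iter_ge hn a h2 M
  have h4 := norm_deriv_ge hn a hz
  nlinarith [norm_nonneg z, norm_nonneg (deriv (pmap n a) z)]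

/-- **Rational convexity.** The rational hull of a compact set of expanding maps consists of
expanding maps. -/
theorem ratHull_subset_expanding {n : ℕ} (hn : 2 ≤ n) {K : Set (Fin (n - 1) → ℂ)}
    (hK : IsCompact K) (hKE : K ⊆ Expanding n) : ratHull K ⊆ Expanding n := by
  intro a ha c hc
  by_cases hE : Escapes (pmap n a) c
  · exact Or.inr hE
  left
  obtain ⟨N, k0, C, ρ, hN, hC, hρ0, hρ1, hgood⟩ := goodAlt_of_compact hn hK hKE
  have hb := (not_escapes_iff hn a c).1 hE
  -- bound of the derivative along the orbit of `c`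
  obtain ⟨B, hB⟩ := (isCompact_closedBall (0:ℂ) (escR n a)).exists_bound_of_continuousOn
    (continuous_deriv_iter n a N).continuousOn
  obtain ⟨j, hj⟩ := pow_unbounded_of_one_lt (max B (2 * escR n a)) (by norm_num : (1 : ℝ) < 2)
  have hjB : B < 2 ^ j := (le_max_left _ _).trans_lt hj
  have hjR : 2 * escR n a < 2 ^ j := (le_max_right _ _).trans_lt hj
  refine tendsToFiniteCycle_of_estPt (k0 := k0 + j) (C := C) (ρ := ρ) hN hρ1 ?_
  intro k hk
  -- growth of escaping orbits
  have hgrow : ∀ b c', escR n b ≤ ‖(pmap n b)^[k0] c'‖ → 2 ^ j * 3 ≤ ‖(pmap n b)^[k * N] c'‖ := by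
    intro b c' h
    have h1 : k0 + j ≤ k * N := hk.trans (Nat.le_mul_of_pos_right _ hN)
    have h2 := norm_iter_ge' hn b h (k := k * N) (by omega)
    have h3 : (2:ℝ) ^ j ≤ 2 ^ (k * N - k0) := pow_le_pow_right₀ (by norm_num) (by omega)
    have h4 := three_le_escR n b
    have h5 : (0:ℝ) < 2 ^ j := by positivity
    nlinarith
  constructor
  · have hG : IsBiPoly (fun a c => (pmap n a)^[(k + 1) * N] c - (pmap n a)^[k * N] c) :=
      (isBiPoly_iter n _).sub (isBiPoly_iter n _)
    obtain ⟨b, hbK, c', hc', e⟩ := ratHull_value hn ha hG hc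
    rw [← e]
    rcases hgood (b, c') ⟨hbK, hc'⟩ with h | h
    · exact (h k (by omega)).1
    · exfalso
      have h1 := hgrow b c' h
      have h2 : escR n b ≤ ‖(pmap n b)^[k * N] c'‖ :=
        escR_le_iter hn b h (by
          have : k0 + j ≤ k * N := hk.trans (Nat.le_mul_of_pos_right _ hN)
          omega)
      have h3 := norm_iter_ge hn b h2 N
      rw [← Function.iterate_add_apply, show N + k * N = (k + 1) * N by ring] at h3
      have h4 : (2:ℝ) ≤ 2 ^ N := by
        calc (2:ℝ) = 2 ^ 1 := by norm_num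
          _ ≤ 2 ^ N := pow_le_pow_right₀ (by norm_num) hN
      have h5 := norm_sub_norm_le ((pmap n b)^[(k + 1) * N] c') ((pmap n b)^[k * N] c')
      have h6 : ‖(pmap n a)^[(k + 1) * N] c - (pmap n a)^[k * N] c‖ ≤ 2 * escR n a := by
        refine (norm_sub_le _ _).trans ?_
        linarith [hb ((k + 1) * N), hb (k * N)]
      rw [← e] at h6
      have h7 : 0 ≤ ‖(pmap n b)^[k * N] c'‖ := norm_nonneg _
      nlinarith
  · have hG : IsBiPoly (fun a c => deriv ((pmap n a)^[N]) ((pmap n a)^[k * N] c)) :=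
      (isBiPoly_deriv_iter n N).comp (isBiPoly_iter n _)
    obtain ⟨b, hbK, c', hc', e⟩ := ratHull_value hn ha hG hc
    rw [← e]
    rcases hgood (b, c') ⟨hbK, hc'⟩ with h | h
    · exact (h k (by omega)).2
    · exfalso
      have h1 := hgrow b c' h
      have h2 : escR n b ≤ ‖(pmap n b)^[k * N] c'‖ :=
        escR_le_iter hn b h (by
          have : k0 + j ≤ k * N := hk.trans (Nat.le_mul_of_pos_right _ hN)
          omega)
      have h3 := norm_deriv_iter_ge' hn b h2 hN
      have h4 : ‖deriv ((pmap n a)^[N]) ((pmap n a)^[k * N] c)‖ ≤ B :=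
        hB _ (by rw [mem_closedBall_zero_iff]; exact hb _)
      rw [← e] at h4
      have h5 : (0:ℝ) < 2 ^ j := by positivity
      linarith

/-- A map that is not expanding is separated from every compact set of expanding maps by an
algebraic hypersurface. -/
theorem exists_hypersurface {n : ℕ} (hn : 2 ≤ n) {K : Set (Fin (n - 1) → ℂ)}
    (hK : IsCompact K) (hKE : K ⊆ Expanding n) {a : Fin (n - 1) → ℂ} (ha : a ∉ Expanding n) :
    ∃ P : MvPolynomial (Fin (n - 1)) ℂ, MvPolynomial.eval a P = 0 ∧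
      ∀ b ∈ K, MvPolynomial.eval b P ≠ 0 := by
  by_contra hcon
  push Not at hcon
  exact ha (ratHull_subset_expanding hn hK hKE fun P hP => hcon P hP)

end Hyp95
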