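import Pool.Agent.Lib.Hyp.CT15
import Pool.Agent.Lib.Hyp.Poly25
import Pool.Agent.Lib.Hyp.Cert11

/-!
Holomorphic symmetric functions over selected roots (module B1 of stage 2 for MP_47150b_an,
helper15): for a family of polynomials `Q a` depending holomorphically on `a` with locally
bounded roots, a locally constant choice `S` of roots and a function `H` that is holomorphic
near the chosen roots, the sum of `H (a, c)` over the chosen roots `c` (with multiplicity) is
holomorphic in `a`.
-/

namespace Hyp20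
namespace Sym

open Filter Topology Set Metric MeasureTheory Polynomial

variable {E : Type*} [NormedAddCommGroup E] [NormedSpace ℂ E] [ProperSpace E]

/-- Holomorphic dependence of an interval integral on a parameter. -/
lemma differentiableOn_integral {U : Set E} (hU : IsOpen U) {a b : ℝ} (hab : a ≤ b)
    {F : E → ℝ → ℂ} (hc : ContinuousOn (fun p : E × ℝ => F p.1 p.2) (U ×ˢ Icc a b))
    (hd : ∀ t ∈ Icc a b, DifferentiableOn ℂ (fun x => F x t) U) :
    DifferentiableOn ℂ (fun x => ∫ t in a..b, F x t) U := by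
  intro x0 hx0
  obtain ⟨r0, hr0, hball0⟩ := Metric.isOpen_iff.1 hU x0 hx0
  set r : ℝ := r0 / 4 with hr
  have hr1 : 0 < r := by positivity
  have hK : closedBall x0 (2 * r) ⊆ U := by
    intro y hy
    apply hball0
    rw [mem_closedBall] at hy
    rw [mem_ball]
    linarith
  have hKc : IsCompact (closedBall x0 (2 * r) ×ˢ Icc a b) :=
    (isCompact_closedBall _ _).prod isCompact_Icc
  have hcK : ContinuousOn (fun p : E × ℝ => F p.1 p.2) (closedBall x0 (2 * r) ×ˢ Icc a b) :=
    hc.mono (prod_mono hK le_rfl)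
  obtain ⟨M, hM⟩ := hKc.exists_bound_of_continuousOn hcK
  have hslice : ∀ x ∈ U, ContinuousOn (F x) (Icc a b) := by
    intro x hx
    exact hc.comp (by fun_prop : ContinuousOn (fun t : ℝ => (x, t)) (Icc a b))
      (fun t ht => ⟨hx, ht⟩)
  have hyb : ∀ y ∈ ball x0 r, ball y r ⊆ closedBall x0 (2 * r) := by
    intro y hy z hz
    rw [mem_ball] at hz hy
    rw [mem_closedBall]
    linarith [dist_triangle z y x0]
  have hbU : ball x0 r ⊆ U := fun y hy => hK (hyb y hy (mem_ball_self hr1))
  -- continuity of the derivative in `t`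
  have hF'c : ContinuousOn (fun t => fderiv ℂ (fun x => F x t) x0) (Icc a b) := by
    have huc := hKc.uniformContinuousOn_of_continuous hcK
    rw [Metric.uniformContinuousOn_iff] at huc
    rw [Metric.continuousOn_iff]
    intro t ht ε hε
    obtain ⟨δ, hδ, hδ'⟩ := huc (ε * r / 4) (by positivity)
    refine ⟨δ, hδ, fun s hs hst => ?_⟩
    have hxb : ball x0 r ⊆ closedBall x0 (2 * r) := hyb x0 (mem_ball_self hr1)
    have hdd : DifferentiableOn ℂ (fun x => F x s - F x t) (ball x0 r) :=
      ((hd s hs).sub (hd t ht)).mono hbU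
    have hb : ∀ y ∈ ball x0 r, ‖(fun x => F x s - F x t) y‖ ≤ ε * r / 4 := by
      intro y hy
      have h1 := hδ' (y, s) ⟨hxb hy, hs⟩ (y, t) ⟨hxb hy, ht⟩ (by
        rw [Prod.dist_eq]; simpa using hst)
      rw [dist_eq_norm] at h1
      exact h1.le
    have key := CT.norm_fderiv_le hr1 hdd hb
    have hds : DifferentiableAt ℂ (fun x => F x s) x0 :=
      (hd s hs x0 hx0).differentiableAt (hU.mem_nhds hx0)
    have hdt : DifferentiableAt ℂ (fun x => F x t) x0 :=
      (hd t ht x0 hx0).differentiableAt (hU.mem_nhds hx0)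
    rw [fderiv_fun_sub hds hdt] at key
    rw [dist_eq_norm]
    calc _ ≤ 2 * (ε * r / 4) / r := key
      _ = ε / 2 := by field_simp; ring
      _ < ε := by linarith
  have hsub : Set.uIoc a b ⊆ Icc a b := by rw [uIoc_of_le hab]; exact Ioc_subset_Icc_self
  have key : HasFDerivAt (fun x => ∫ t in a..b, F x t)
      (∫ t in a..b, fderiv ℂ (fun x => F x t) x0) x0 := by
    refine intervalIntegral.hasFDerivAt_integral_of_dominated_of_fderiv_le
      (F' := fun x t => fderiv ℂ (fun x => F x t) x) (s := ball x0 r)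
      (bound := fun _ => 2 * M / r) (ball_mem_nhds x0 hr1) ?_ ?_ ?_ ?_ ?_ ?_
    · filter_upwards [hU.mem_nhds hx0] with x hx
      exact ((hslice x hx).mono hsub).aestronglyMeasurable measurableSet_uIoc
    · exact (hslice x0 hx0).intervalIntegrable_of_Icc hab
    · exact (hF'c.mono hsub).aestronglyMeasurable measurableSet_uIoc
    · refine Eventually.of_forall fun t ht x hx => ?_
      have htI := hsub ht
      refine CT.norm_fderiv_le hr1 ((hd t htI).mono ((hyb x hx).trans hK)) fun y hy => ?_
      exact hM (y, t) ⟨hyb x hx hy, htI⟩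
    · exact intervalIntegrable_const
    · refine Eventually.of_forall fun t ht x hx => ?_
      have htI := hsub ht
      exact ((hd t htI x (hbU hx)).differentiableAt (hU.mem_nhds (hbU hx))).hasFDerivAt
  exact key.differentiableAt.differentiableWithinAt

/-- Cauchy integrals of a sum of simple fractions. -/
lemma circleIntegral_sum_fractions {c : ℂ} {ε : ℝ} (hε : 0 < ε) {h : ℂ → ℂ}
    (hh : DiffContOnCl ℂ h (ball c ε)) (s : Multiset ℂ) (hs : ∀ w ∈ s, w ∉ sphere c ε) :
    CircleIntegrable (fun z => (s.map fun w => 1 / (z - w)).sum * h z) c ε ∧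
    (∮ z in C(c, ε), (s.map fun w => 1 / (z - w)).sum * h z) =
      2 * Real.pi * Complex.I *
        (s.map fun w => @ite ℂ (w ∈ ball c ε) (Classical.propDecidable _) (h w) 0).sum := by
  classical
  have hcs : ContinuousOn h (sphere c ε) := by
    have := hh.continuousOn
    rw [closure_ball c hε.ne'] at this
    exact this.mono sphere_subset_closedBall
  induction s using Multiset.induction_on with
  | empty => simp [CircleIntegrable, circleIntegral]
  | cons w s ih =>
    have hw : w ∉ sphere c ε := hs w (Multiset.mem_cons_self w s)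
    obtain ⟨ih1, ih2⟩ := ih fun w' hw' => hs w' (Multiset.mem_cons_of_mem hw')
    have hne : ∀ z ∈ sphere c ε, z - w ≠ 0 := by
      intro z hz h0
      exact hw (by rwa [← sub_eq_zero.1 h0])
    have hcw : ContinuousOn (fun z => (z - w)⁻¹ • h z) (sphere c ε) := by
      refine ContinuousOn.fun_smul ?_ hcs
      exact ContinuousOn.inv₀ (by fun_prop) hne
    have hiw : CircleIntegrable (fun z => (z - w)⁻¹ • h z) c ε := hcw.circleIntegrable hε.le
    have hfun : (fun z => (((w ::ₘ s).map fun w => 1 / (z - w)).sum * h z)) =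
        fun z => (z - w)⁻¹ • h z + (s.map fun w => 1 / (z - w)).sum * h z := by
      funext z
      rw [Multiset.map_cons, Multiset.sum_cons, add_mul, smul_eq_mul, one_div]
    rw [hfun]
    refine ⟨hiw.add ih1, ?_⟩
    rw [circleIntegral.integral_add hiw ih1, ih2, Multiset.map_cons, Multiset.sum_cons]
    have hval : (∮ z in C(c, ε), (z - w)⁻¹ • h z) =
        2 * Real.pi * Complex.I * (if w ∈ ball c ε then h w else 0) := by
      split_ifs with hwb
      · have := hh.circleIntegral_sub_inv_smul hwb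
        rw [this, smul_eq_mul]
      · rw [mul_zero]
        have hwc : w ∉ closedBall c ε := by
          intro hmem
          rw [mem_closedBall] at hmem
          rcases hmem.lt_or_eq with h1 | h1
          · exact hwb h1
          · exact hw h1
        have hd : DiffContOnCl ℂ (fun z => (z - w)⁻¹ • h z) (ball c ε) := by
          have h1 : DiffContOnCl ℂ (fun z => (z - w)⁻¹) (ball c ε) := by
            apply DifferentiableOn.diffContOnCl
            rw [closure_ball c hε.ne']
            intro z hz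
            have : z - w ≠ 0 := by
              intro h0
              exact hwc (by rwa [← sub_eq_zero.1 h0])
            exact ((differentiableAt_id.sub_const w).inv this).differentiableWithinAt
          exact h1.smul hh
        exact hd.circleIntegral_eq_zero hε.le
    rw [hval, mul_add]

/-- The residue formula for the roots of a polynomial in a disc. -/
lemma circleIntegral_logDeriv {c : ℂ} {ε : ℝ} (hε : 0 < ε) {h : ℂ → ℂ}
    (hh : DiffContOnCl ℂ h (ball c ε)) (Q : ℂ[X]) (hQ : ∀ z ∈ sphere c ε, Q.eval z ≠ 0) :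
    (∮ z in C(c, ε), Q.derivative.eval z / Q.eval z * h z) =
      2 * Real.pi * Complex.I *
        (Q.roots.map fun w => @ite ℂ (w ∈ ball c ε) (Classical.propDecidable _) (h w) 0).sum := by
  classical
  have hQ0 : Q ≠ 0 := by
    rintro rfl
    have : (c + ε) ∈ sphere c ε := by simp [hε.le]
    exact hQ _ this (by simp)
  rw [← (circleIntegral_sum_fractions hε hh Q.roots ?_).2]
  · apply circleIntegral.integral_congr hε.le
    intro z hz
    show Q.derivative.eval z / Q.eval z * h z = (Q.roots.map fun w => 1 / (z - w)).sum * h z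
    rw [(IsAlgClosed.splits Q).eval_derivative_div_eval_of_ne_zero (hQ z hz)]
  · intro w hw hws
    exact hQ w hws ((Polynomial.mem_roots hQ0).1 hw)

/-- **Main lemma.** Sums over selected roots are holomorphic. -/
theorem differentiableOn_sum_roots {D : Set E} (Q : E → ℂ[X])
    (hQ0 : ∀ a, Q a ≠ 0)
    (hq : Differentiable ℂ (fun x : E × ℂ => (Q x.1).eval x.2))
    (hq' : Differentiable ℂ (fun x : E × ℂ => (Q x.1).derivative.eval x.2))
    (hbd : ∀ a0, ∃ R : ℝ, ∀ᶠ a in 𝓝 a0, ∀ z, (Q a).eval z = 0 → ‖z‖ ≤ R)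
    (S : Set (E × ℂ)) (H : E × ℂ → ℂ)
    (hS : ∀ a ∈ D, ∀ c, (Q a).eval c = 0 →
      (∀ᶠ q : E × ℂ in 𝓝 (a, c), (Q q.1).eval q.2 = 0 → q ∈ S) ∨
      (∀ᶠ q : E × ℂ in 𝓝 (a, c), (Q q.1).eval q.2 = 0 → q ∉ S))
    (hH : ∀ a ∈ D, ∀ c, (Q a).eval c = 0 → (a, c) ∈ S →
      ∀ᶠ q : E × ℂ in 𝓝 (a, c), DifferentiableAt ℂ H q) :
    DifferentiableOn ℂ (fun a => ((Q a).roots.map fun c =>
      @ite ℂ ((a, c) ∈ S) (Classical.propDecidable _) (H (a, c)) 0).sum) D := by
  classical
  intro a0 ha0
  set R0 : Finset ℂ := (Q a0).roots.toFinset with hR0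
  have hmem0 : ∀ c, c ∈ R0 ↔ (Q a0).eval c = 0 := by
    intro c
    rw [hR0, Multiset.mem_toFinset, Polynomial.mem_roots (hQ0 a0), Polynomial.IsRoot.def]
  -- the radius
  have hrad : ∃ ε > 0, (∀ c ∈ R0, ∀ c' ∈ R0, c ≠ c' → 2 * ε < dist c c') ∧
      ∀ c ∈ R0, ((∀ a ∈ closedBall a0 ε, ∀ z ∈ closedBall c ε, (Q a).eval z = 0 → (a, z) ∈ S) ∧
          (∀ a ∈ closedBall a0 ε, ∀ z ∈ closedBall c ε, DifferentiableAt ℂ H (a, z)) ∧
          (a0, c) ∈ S) ∨
        ((∀ a ∈ closedBall a0 ε, ∀ z ∈ closedBall c ε, (Q a).eval z = 0 → (a, z) ∉ S) ∧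
          (a0, c) ∉ S) := by
    have h1 : ∀ᶠ ε : ℝ in 𝓝[>] 0, ∀ c ∈ R0, ∀ c' ∈ R0, c ≠ c' → 2 * ε < dist c c' := by
      rw [Filter.eventually_all_finset]
      intro c hc
      rw [Filter.eventually_all_finset]
      intro c' hc'
      by_cases hcc : c = c'
      · exact Eventually.of_forall fun ε h => absurd hcc h
      · have hpos : 0 < dist c c' := dist_pos.2 hcc
        have : ∀ᶠ ε : ℝ in 𝓝[>] 0, ε < dist c c' / 2 :=
          eventually_nhdsWithin_of_eventually_nhds (gt_mem_nhds (by positivity))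
        filter_upwards [this] with ε hε _
        linarith
    have h2 : ∀ᶠ ε : ℝ in 𝓝[>] 0, ∀ c ∈ R0,
        ((∀ a ∈ closedBall a0 ε, ∀ z ∈ closedBall c ε, (Q a).eval z = 0 → (a, z) ∈ S) ∧
          (∀ a ∈ closedBall a0 ε, ∀ z ∈ closedBall c ε, DifferentiableAt ℂ H (a, z)) ∧
          (a0, c) ∈ S) ∨
        ((∀ a ∈ closedBall a0 ε, ∀ z ∈ closedBall c ε, (Q a).eval z = 0 → (a, z) ∉ S) ∧
          (a0, c) ∉ S) := by
      rw [Filter.eventually_all_finset]
      intro c hc
      have hc0 := (hmem0 c).1 hc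
      rcases hS a0 ha0 c hc0 with hin | hout
      · have hcS : (a0, c) ∈ S := hin.self_of_nhds hc0
        have hev := hin.and (hH a0 ha0 c hc0 hcS)
        obtain ⟨r, hr, hball⟩ := Metric.eventually_nhds_iff_ball.1 hev
        have : ∀ᶠ ε : ℝ in 𝓝[>] 0, ε < r :=
          eventually_nhdsWithin_of_eventually_nhds (gt_mem_nhds hr)
        filter_upwards [this] with ε hε
        left
        have hin' : ∀ a ∈ closedBall a0 ε, ∀ z ∈ closedBall c ε, (a, z) ∈ ball (a0, c) r := by
          intro a ha z hz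
          rw [mem_closedBall] at ha hz
          rw [mem_ball, Prod.dist_eq, max_lt_iff]
          exact ⟨by linarith, by linarith⟩
        exact ⟨fun a ha z hz => (hball _ (hin' a ha z hz)).1,
          fun a ha z hz => (hball _ (hin' a ha z hz)).2, hcS⟩
      · have hcS : (a0, c) ∉ S := hout.self_of_nhds hc0
        obtain ⟨r, hr, hball⟩ := Metric.eventually_nhds_iff_ball.1 hout
        have : ∀ᶠ ε : ℝ in 𝓝[>] 0, ε < r :=
          eventually_nhdsWithin_of_eventually_nhds (gt_mem_nhds hr)
        filter_upwards [this] with ε hε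
        right
        have hin' : ∀ a ∈ closedBall a0 ε, ∀ z ∈ closedBall c ε, (a, z) ∈ ball (a0, c) r := by
          intro a ha z hz
          rw [mem_closedBall] at ha hz
          rw [mem_ball, Prod.dist_eq, max_lt_iff]
          exact ⟨by linarith, by linarith⟩
        exact ⟨fun a ha z hz => hball _ (hin' a ha z hz), hcS⟩
    have h3 : ∀ᶠ ε : ℝ in 𝓝[>] 0, 0 < ε := self_mem_nhdsWithin
    obtain ⟨ε, hε1, hε2, hε3⟩ := (h1.and (h2.and h3)).exists
    exact ⟨ε, hε3, hε1, hε2⟩
  obtain ⟨ε, hε, hdist, hgood⟩ := hrad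
  obtain ⟨R, hR⟩ := hbd a0
  -- no zeros outside the discs
  set T : Set ℂ := (closedBall 0 R ∪ ⋃ c ∈ R0, closedBall c ε) \ ⋃ c ∈ R0, ball c ε with hT
  have hTc : IsCompact T := by
    refine IsCompact.diff ((isCompact_closedBall _ _).union ?_) ?_
    · exact R0.isCompact_biUnion fun c _ => isCompact_closedBall c ε
    · exact isOpen_biUnion fun c _ => isOpen_ball
  have hTz : ∀ᶠ a in 𝓝 a0, ∀ z ∈ T, (Q a).eval z ≠ 0 := by
    refine hTc.eventually_forall_of_forall_eventually fun z hz => ?_
    have hne : (Q a0).eval z ≠ 0 := by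
      intro h0
      have : z ∈ R0 := (hmem0 z).2 h0
      exact hz.2 (mem_biUnion this (mem_ball_self hε))
    exact hq.continuous.continuousAt.eventually_ne hne
  obtain ⟨δ, hδ, hδball⟩ := Metric.eventually_nhds_iff_ball.1 (hR.and hTz)
  set δ' : ℝ := min δ ε with hδ'
  have hδ'0 : 0 < δ' := lt_min hδ hε
  have hbδ : ∀ a ∈ ball a0 δ', a ∈ ball a0 δ := fun a ha => ball_subset_ball (min_le_left _ _) ha
  have hbε : ∀ a ∈ ball a0 δ', a ∈ closedBall a0 ε := fun a ha =>
    ball_subset_closedBall (ball_subset_ball (min_le_right _ _) ha)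
  have hsphT : ∀ c ∈ R0, sphere c ε ⊆ T := by
    intro c hc z hz
    refine ⟨Or.inr (mem_biUnion hc (sphere_subset_closedBall hz)), ?_⟩
    intro hmem
    obtain ⟨c', hc', hzc'⟩ := mem_iUnion₂.1 hmem
    rw [mem_sphere] at hz
    rw [mem_ball] at hzc'
    by_cases hcc : c = c'
    · subst hcc; linarith
    · have h1 := hdist c hc c' hc' hcc
      have h2 := dist_triangle c z c'
      rw [dist_comm c z] at h2
      linarith
  have hroots : ∀ a ∈ ball a0 δ', ∀ z, (Q a).eval z = 0 → ∃ c ∈ R0, z ∈ ball c ε := by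
    intro a ha z hz
    by_contra hcon
    push Not at hcon
    have hzR := (hδball a (hbδ a ha)).1 z hz
    refine (hδball a (hbδ a ha)).2 z ⟨Or.inl ?_, ?_⟩ hz
    · rw [mem_closedBall_zero_iff]; exact hzR
    · intro hmem
      obtain ⟨c', hc', hzc'⟩ := mem_iUnion₂.1 hmem
      exact hcon c' hc' hzc'
  -- the integral representation
  have hrep : ∀ a ∈ ball a0 δ', ((Q a).roots.map fun c =>
      if (a, c) ∈ S then H (a, c) else 0).sum =
      ∑ c ∈ R0.filter (fun c => (a0, c) ∈ S), (2 * Real.pi * Complex.I)⁻¹ *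
        ∮ z in C(c, ε), (Q a).derivative.eval z / (Q a).eval z * H (a, z) := by
    intro a ha
    have h1 : ∀ c ∈ R0.filter (fun c => (a0, c) ∈ S), (2 * Real.pi * Complex.I)⁻¹ *
        (∮ z in C(c, ε), (Q a).derivative.eval z / (Q a).eval z * H (a, z)) =
        ((Q a).roots.map fun w => if w ∈ ball c ε then H (a, w) else 0).sum := by
      intro c hc
      obtain ⟨hcR, hcS⟩ := Finset.mem_filter.1 hc
      have hdiff : ∀ z ∈ closedBall c ε, DifferentiableAt ℂ H (a, z) := by
        rcases hgood c hcR with hg | hg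
        · exact fun z hz => hg.2.1 a (hbε a ha) z hz
        · exact absurd hcS hg.2
      have hh : DiffContOnCl ℂ (fun z => H (a, z)) (ball c ε) := by
        apply DifferentiableOn.diffContOnCl
        rw [closure_ball c hε.ne']
        intro z hz
        have h2 : DifferentiableAt ℂ (fun z : ℂ => (a, z)) z := by fun_prop
        exact ((hdiff z hz).comp z h2).differentiableWithinAt
      rw [circleIntegral_logDeriv hε hh (Q a) fun z hz =>
        (hδball a (hbδ a ha)).2 z (hsphT c hcR hz)]
      have h2pi : (2 * Real.pi * Complex.I : ℂ) ≠ 0 := Complex.two_pi_I_ne_zero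
      rw [← mul_assoc, inv_mul_cancel₀ h2pi, one_mul]
    rw [Finset.sum_congr rfl h1]
    have h2 : ∀ (s : Multiset ℂ) (t : Finset ℂ) (w : ℂ → ℂ → ℂ),
        ∑ c ∈ t, (s.map fun x => w c x).sum = (s.map fun x => ∑ c ∈ t, w c x).sum := by
      intro s t w
      induction s using Multiset.induction_on with
      | empty => simp
      | cons x s ih => simp [Finset.sum_add_distrib, ih]
    rw [h2]
    congr 1
    refine Multiset.map_congr rfl fun w hw => ?_
    have hw0 : (Q a).eval w = 0 := (Polynomial.mem_roots (hQ0 a)).1 hw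
    obtain ⟨c, hc, hwc⟩ := hroots a ha w hw0
    have huniq : ∀ c' ∈ R0, w ∈ ball c' ε → c' = c := by
      intro c' hc' hwc'
      by_contra hne
      have h3 := hdist c' hc' c hc hne
      rw [mem_ball] at hwc hwc'
      have h4 := dist_triangle c' w c
      rw [dist_comm c' w] at h4
      linarith
    rcases hgood c hc with hg | hg
    · rw [if_pos (hg.1 a (hbε a ha) w (ball_subset_closedBall hwc) hw0)]
      rw [Finset.sum_eq_single c]
      · rw [if_pos hwc]
      · intro c' hc' hne
        rw [if_neg]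
        intro hmem
        exact hne (huniq c' (Finset.mem_filter.1 hc').1 hmem)
      · intro hnot
        exact absurd (Finset.mem_filter.2 ⟨hc, hg.2.2⟩) hnot
    · rw [if_neg (hg.1 a (hbε a ha) w (ball_subset_closedBall hwc) hw0)]
      symm
      apply Finset.sum_eq_zero
      intro c' hc'
      rw [if_neg]
      intro hmem
      have := huniq c' (Finset.mem_filter.1 hc').1 hmem
      subst this
      exact hg.2 (Finset.mem_filter.1 hc').2
  -- each integral is holomorphic
  have hint : ∀ c ∈ R0.filter (fun c => (a0, c) ∈ S), DifferentiableOn ℂ (fun a =>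
      ∮ z in C(c, ε), (Q a).derivative.eval z / (Q a).eval z * H (a, z)) (ball a0 δ') := by
    intro c hc
    obtain ⟨hcR, hcS⟩ := Finset.mem_filter.1 hc
    have hdiff : ∀ a ∈ ball a0 δ', ∀ z ∈ closedBall c ε, DifferentiableAt ℂ H (a, z) := by
      rcases hgood c hcR with hg | hg
      · exact fun a ha z hz => hg.2.1 a (hbε a ha) z hz
      · exact absurd hcS hg.2
    have hne : ∀ a ∈ ball a0 δ', ∀ z ∈ sphere c ε, (Q a).eval z ≠ 0 := fun a ha z hz =>
      (hδball a (hbδ a ha)).2 z (hsphT c hcR hz)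
    have hGd : ∀ a ∈ ball a0 δ', ∀ z ∈ sphere c ε, DifferentiableAt ℂ
        (fun x : E × ℂ => (Q x.1).derivative.eval x.2 / (Q x.1).eval x.2 * H x) (a, z) := by
      intro a ha z hz
      have e1 : DifferentiableAt ℂ (fun x : E × ℂ => (Q x.1).derivative.eval x.2) (a, z) :=
        hq' (a, z)
      have e2 : DifferentiableAt ℂ (fun x : E × ℂ => ((Q x.1).eval x.2)⁻¹) (a, z) :=
        DifferentiableAt.fun_inv (hq (a, z)) (hne a ha z hz)
      have e3 := (e1.mul e2).mul (hdiff a ha z (sphere_subset_closedBall hz))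
      refine e3.congr_of_eventuallyEq (Eventually.of_forall fun x => ?_)
      show (Q x.1).derivative.eval x.2 / (Q x.1).eval x.2 * H x =
        ((Q x.1).derivative.eval x.2 * ((Q x.1).eval x.2)⁻¹) * H x
      rw [div_eq_mul_inv]
    simp only [circleIntegral]
    refine differentiableOn_integral isOpen_ball Real.two_pi_pos.le ?_ ?_
    · intro p hp
      have hz : circleMap c ε p.2 ∈ sphere c ε := circleMap_mem_sphere c hε.le p.2
      have h1 := (hGd p.1 hp.1 _ hz).continuousAt
      have h2 : ContinuousAt (fun p : E × ℝ => (p.1, circleMap c ε p.2)) p := by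
        have := (continuous_circleMap c ε)
        fun_prop
      have h3 : ContinuousAt (fun p : E × ℝ => deriv (circleMap c ε) p.2) p := by
        simp only [deriv_circleMap]
        have := (continuous_circleMap 0 ε)
        fun_prop
      have h4 := ContinuousAt.comp (f := fun p : E × ℝ => (p.1, circleMap c ε p.2)) h1 h2
      exact (h3.smul h4).continuousWithinAt
    · intro t _ a ha
      have hz : circleMap c ε t ∈ sphere c ε := circleMap_mem_sphere c hε.le t
      have h1 := hGd a ha _ hz
      have h2 : DifferentiableAt ℂ (fun a : E => (a, circleMap c ε t)) a := by fun_prop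
      have h3 := h1.comp a h2
      exact (h3.const_smul (deriv (circleMap c ε) t)).differentiableWithinAt
  have hsum : DifferentiableOn ℂ (fun a => ∑ c ∈ R0.filter (fun c => (a0, c) ∈ S),
      (2 * Real.pi * Complex.I)⁻¹ *
        ∮ z in C(c, ε), (Q a).derivative.eval z / (Q a).eval z * H (a, z)) (ball a0 δ') := by
    apply DifferentiableOn.fun_sum
    intro c hc
    exact (hint c hc).const_mul _
  have hfin : DifferentiableAt ℂ (fun a => ((Q a).roots.map fun c =>
      if (a, c) ∈ S then H (a, c) else 0).sum) a0 := by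
    have h1 := (hsum a0 (mem_ball_self hδ'0)).differentiableAt (isOpen_ball.mem_nhds
      (mem_ball_self hδ'0))
    refine h1.congr_of_eventuallyEq ?_
    filter_upwards [isOpen_ball.mem_nhds (mem_ball_self hδ'0)] with a ha
    exact hrep a ha
  exact hfin.differentiableWithinAt

/-- The version for the critical points of the polynomials `pol n a`. -/
theorem differentiableOn_sum_critical (n : ℕ) (hn : 2 ≤ n) {D : Set (Fin (n - 1) → ℂ)}
    (S : Set ((Fin (n - 1) → ℂ) × ℂ)) (H : (Fin (n - 1) → ℂ) × ℂ → ℂ)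
    (hS : ∀ a ∈ D, ∀ c, IsCritical n a c →
      (∀ᶠ q : (Fin (n - 1) → ℂ) × ℂ in 𝓝 (a, c), IsCritical n q.1 q.2 → q ∈ S) ∨
      (∀ᶠ q : (Fin (n - 1) → ℂ) × ℂ in 𝓝 (a, c), IsCritical n q.1 q.2 → q ∉ S))
    (hH : ∀ a ∈ D, ∀ c, IsCritical n a c → (a, c) ∈ S →
      ∀ᶠ q : (Fin (n - 1) → ℂ) × ℂ in 𝓝 (a, c), DifferentiableAt ℂ H q) :
    DifferentiableOn ℂ (fun a => ((derivative (pol n a)).roots.map fun c =>
      @ite ℂ ((a, c) ∈ S) (Classical.propDecidable _) (H (a, c)) 0).sum) D := by
  have hev : ∀ x : (Fin (n - 1) → ℂ) × ℂ, (derivative (pol n x.1)).eval x.2 =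
      n * x.2 ^ (n - 1) + ∑ i : Fin (n - 1), x.1 i * ((i : ℕ) * x.2 ^ ((i : ℕ) - 1)) := by
    intro x
    simp [pol, Polynomial.eval_finsetSum, Polynomial.derivative_X_pow]
  have hev' : ∀ x : (Fin (n - 1) → ℂ) × ℂ, (derivative (derivative (pol n x.1))).eval x.2 =
      n * ((n - 1 : ℕ) * x.2 ^ (n - 1 - 1)) + ∑ i : Fin (n - 1),
        x.1 i * ((i : ℕ) * (((i : ℕ) - 1 : ℕ) * x.2 ^ ((i : ℕ) - 1 - 1))) := by
    intro x
    simp [pol, Polynomial.eval_finsetSum, Polynomial.derivative_X_pow]
  refine differentiableOn_sum_roots (fun a => derivative (pol n a)) ?_ ?_ ?_ ?_ S H hS hH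
  · intro a h0
    have := leadingCoeff_derivative_pol n hn a
    rw [h0, Polynomial.leadingCoeff_zero] at this
    exact (Nat.cast_ne_zero.2 (by omega) : (n : ℂ) ≠ 0) this.symm
  · simp only [hev]
    fun_prop
  · simp only [hev']
    fun_prop
  · intro a0
    refine ⟨1 + n * (‖a0‖ + 1), ?_⟩
    filter_upwards [ball_mem_nhds a0 one_pos] with a ha z hz
    refine norm_le_of_isCritical hn (by positivity) (fun i => ?_) hz
    have h1 : ‖a i‖ ≤ ‖a‖ := norm_le_pi_norm a i
    have h2 : ‖a‖ ≤ ‖a0‖ + ‖a - a0‖ := norm_le_norm_add_norm_sub' a a0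
    rw [mem_ball_iff_norm] at ha
    linarith

end Sym
end Hyp20
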