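import Pool.Agent.Lib.Hyp.Stmt20
import Pool.Agent.Lib.Hyp.Cert11
import Pool.Agent.Lib.Hyp.Escape39
import Pool.Agent.Lib.Hyp.Hull20
import Pool.Agent.Lib.Hyp.Locus20
import Pool.Agent.Lib.Hyp.Sym15
import Pool.Agent.Lib.Hyp.Crit95

/-!
Every component of the expanding locus of monic centred polynomials is a domain of holomorphy
(helper39, module B3): holomorphic hulls of compact sets are compact.
-/

namespace Hyp20

open Filter Topology Metric

/-- Bi-polynomial functions are holomorphic in both variables together. -/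
theorem IsBiPoly.differentiable {m : ℕ} {G : (Fin m → ℂ) → ℂ → ℂ} (hG : IsBiPoly G) :
    Differentiable ℂ (fun p : (Fin m → ℂ) × ℂ => G p.1 p.2) := by
  obtain ⟨P, hP⟩ := hG
  have e : (fun p : (Fin m → ℂ) × ℂ => G p.1 p.2) =
      fun p => ∑ i ∈ Finset.range (P.natDegree + 1),
        MvPolynomial.eval p.1 (P.coeff i) * p.2 ^ i := by
    funext p
    rw [hP, Polynomial.eval_eq_sum_range' (n := P.natDegree + 1)]
    · refine Finset.sum_congr rfl fun i _ => ?_
      rw [Polynomial.coeff_map]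
    · exact lt_of_le_of_lt (Polynomial.natDegree_map_le) (Nat.lt_succ_self _)
  rw [e]
  refine Differentiable.fun_sum fun i _ => ?_
  exact ((CT.differentiable_eval (P.coeff i)).comp differentiable_fst).mul
    (differentiable_snd.pow i)

/-- The expanding polynomials form an open set. -/
theorem isOpen_expanding {n : ℕ} (hn : 2 ≤ n) : IsOpen (Expanding n) := by
  rw [isOpen_iff_mem_nhds]
  intro a0 ha0
  have h1 : ∀ᶠ a in 𝓝 a0, ∀ c ∈ closedBall (0 : ℂ) (1 + n * (‖a0‖ + 1)),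
      IsCritical n a c → TendsToFiniteCycle (pmap n a) c ∨ Escapes (pmap n a) c := by
    apply (isCompact_closedBall _ _).eventually_forall_of_forall_eventually
    intro c0 _
    by_cases hc0 : IsCritical n a0 c0
    · rcases ha0 c0 hc0 with hf | he
      · obtain ⟨N, k0, hN, C, ρ, _, _, hρ1, h5⟩ := local_est a0 c0 hf
        filter_upwards [h5] with x hx _
        exact Or.inl (tendsToFiniteCycle_of_estPt hN hρ1 hx)
      · filter_upwards [(isOpen_escapes hn).mem_nhds he] with x hx _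
        exact Or.inr hx
    · have h2 : ∀ᶠ x : (Fin (n - 1) → ℂ) × ℂ in 𝓝 (a0, c0), dmap n x.1 x.2 ≠ 0 :=
        ((continuous_dmap n).tendsto (a0, c0)).eventually (isOpen_ne.mem_nhds hc0)
      filter_upwards [h2] with x hx hcx
      exact absurd hcx hx
  have h2 : ∀ᶠ a in 𝓝 a0, ‖a‖ < ‖a0‖ + 1 :=
    (continuous_norm.tendsto a0).eventually (gt_mem_nhds (by linarith))
  filter_upwards [h1, h2] with a ha1 ha2 c hc
  refine ha1 c ?_ hc
  rw [mem_closedBall_zero_iff]
  exact norm_le_of_isCritical hn (by positivity)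
    (fun i => (norm_le_pi_norm a i).trans ha2.le) hc

/-- Uniform alternative on a set of pairs: the estimate towards a finite cycle, or the orbit has
passed the escape radius at time `k0`. -/
def GoodAlt (n : ℕ) (T : Set ((Fin (n - 1) → ℂ) × ℂ)) : Prop :=
  ∃ (N k0 : ℕ) (C ρ : ℝ), 1 ≤ N ∧ 0 ≤ C ∧ 0 ≤ ρ ∧ ρ < 1 ∧
    ∀ x ∈ T, EstPt n x.1 x.2 N k0 C ρ ∨ escR n x.1 ≤ ‖(pmap n x.1)^[k0] x.2‖

theorem GoodAlt.union {n : ℕ} (hn : 2 ≤ n) {S T : Set ((Fin (n - 1) → ℂ) × ℂ)}
    (hS : GoodAlt n S) (hT : GoodAlt n T) : GoodAlt n (S ∪ T) := by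
  obtain ⟨N, k0, C, ρ, h1, h2, h3, h4, h5⟩ := hS
  obtain ⟨N', k0', C', ρ', h1', h2', h3', h4', h5'⟩ := hT
  have e1 : 0 ≤ C * N' := by positivity
  have e2 : 0 ≤ C' * N := by positivity
  refine ⟨N * N', max k0 k0', C * N' + C' * N, max ρ ρ', Nat.mul_pos h1 h1',
    by positivity, h3.trans (le_max_left _ _), max_lt h4 h4', ?_⟩
  rintro x (hx | hx)
  · rcases h5 x hx with h | h
    · exact Or.inl ((h.mul h1' h2 h3 h4.le).mono (le_max_left _ _) e1 (by linarith) h3
        (le_max_left _ _))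
    · exact Or.inr (escR_le_iter hn x.1 h (le_max_left _ _))
  · rcases h5' x hx with h | h
    · rw [mul_comm N N']
      exact Or.inl ((h.mul h1 h2' h3' h4'.le).mono (le_max_right _ _) e2 (by linarith) h3'
        (le_max_right _ _))
    · exact Or.inr (escR_le_iter hn x.1 h (le_max_right _ _))

theorem goodAlt_of_compact {n : ℕ} (hn : 2 ≤ n) {K : Set (Fin (n - 1) → ℂ)} (hK : IsCompact K)
    (hKE : K ⊆ Expanding n) :
    GoodAlt n {x : (Fin (n - 1) → ℂ) × ℂ | x.1 ∈ K ∧ IsCritical n x.1 x.2} := by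
  refine (isCompact_critical hn hK).induction_on (p := GoodAlt n) ?_ ?_
    (fun S T hS hT => hS.union hn hT) ?_
  · exact ⟨1, 0, 0, 0, le_rfl, le_rfl, le_rfl, zero_lt_one, fun x hx => hx.elim⟩
  · rintro S T hST ⟨N, k0, C, ρ, h1, h2, h3, h4, h5⟩
    exact ⟨N, k0, C, ρ, h1, h2, h3, h4, fun x hx => h5 x (hST hx)⟩
  · rintro ⟨a, c⟩ ⟨ha, hc⟩
    rcases hKE ha c hc with hf | he
    · obtain ⟨N, k0, h1, C, ρ, h2, h3, h4, h5⟩ := local_est a c hf
      exact ⟨_, mem_nhdsWithin_of_mem_nhds h5, N, k0, C, ρ, h1, h2, h3.le, h4,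
        fun x hx => Or.inl hx⟩
    · obtain ⟨k0, hk0⟩ := local_escape hn a c he
      exact ⟨_, mem_nhdsWithin_of_mem_nhds hk0, 1, k0, 0, 0, le_rfl, le_rfl, le_rfl, zero_lt_one,
        fun x hx => Or.inr hx.1⟩

/-- The holomorphic hull. -/
def holHull {m : ℕ} (Ω K : Set (Fin m → ℂ)) : Set (Fin m → ℂ) :=
  {a | a ∈ Ω ∧ ∀ g : (Fin m → ℂ) → ℂ, DifferentiableOn ℂ g Ω →
    ∀ M : ℝ, (∀ b ∈ K, ‖g b‖ ≤ M) → ‖g a‖ ≤ M}

/-- A bound for a holomorphic function at the selected critical points over `K` holds over the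
holomorphic hull of `K`. -/
theorem holHull_bound {n : ℕ} (hn : 2 ≤ n) {Ω K : Set (Fin (n - 1) → ℂ)}
    (S : Set ((Fin (n - 1) → ℂ) × ℂ)) (H : (Fin (n - 1) → ℂ) × ℂ → ℂ)
    (hS : ∀ a ∈ Ω, ∀ c, IsCritical n a c →
      (∀ᶠ q : (Fin (n - 1) → ℂ) × ℂ in 𝓝 (a, c), IsCritical n q.1 q.2 → q ∈ S) ∨
      (∀ᶠ q : (Fin (n - 1) → ℂ) × ℂ in 𝓝 (a, c), IsCritical n q.1 q.2 → q ∉ S))
    (hH : ∀ a ∈ Ω, ∀ c, IsCritical n a c → (a, c) ∈ S →
      ∀ᶠ q : (Fin (n - 1) → ℂ) × ℂ in 𝓝 (a, c), DifferentiableAt ℂ H q)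
    {M : ℝ} (hM : 0 ≤ M)
    (hK : ∀ b ∈ K, ∀ c, IsCritical n b c → (b, c) ∈ S → ‖H (b, c)‖ ≤ M)
    {a : Fin (n - 1) → ℂ} (ha : a ∈ holHull Ω K) {c : ℂ} (hc : IsCritical n a c)
    (hcS : (a, c) ∈ S) : ‖H (a, c)‖ ≤ M := by
  classical
  let w : (Fin (n - 1) → ℂ) → ℂ → ℂ := fun a c =>
    @ite ℂ ((a, c) ∈ S) (Classical.propDecidable _) (H (a, c)) 0
  have hw : w a c = H (a, c) := if_pos hcS
  have key : ∀ x ∈ (Polynomial.derivative (pol n a)).roots.map (w a), ‖x‖ ≤ M := by
    refine norm_le_of_power_sums_multiset _ n M hM ?_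
    intro m hm
    have e : ∀ b, (((Polynomial.derivative (pol n b)).roots.map (w b)).map
        fun x => x ^ m).sum = ((Polynomial.derivative (pol n b)).roots.map fun c =>
        @ite ℂ ((b, c) ∈ S) (Classical.propDecidable _) ((fun q => H q ^ m) (b, c)) 0).sum := by
      intro b
      rw [Multiset.map_map]
      congr 1
      refine Multiset.map_congr rfl fun z _ => ?_
      simp only [Function.comp, w]
      by_cases hz : (b, z) ∈ S
      · rw [if_pos hz, if_pos hz]
      · rw [if_neg hz, if_neg hz, zero_pow (by omega)]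
    rw [e a]
    have hdiff := Sym.differentiableOn_sum_critical n hn (D := Ω) S (fun q => H q ^ m) hS
      (fun a ha c hc hcS => (hH a ha c hc hcS).mono fun q hq => hq.pow m)
    refine ha.2 _ hdiff (n * M ^ m) fun b hb => ?_
    have h1 : ∀ x ∈ (Polynomial.derivative (pol n b)).roots.map (fun c =>
        @ite ℂ ((b, c) ∈ S) (Classical.propDecidable _) ((fun q => H q ^ m) (b, c)) 0),
        ‖x‖ ≤ M ^ m := by
      intro x hx
      obtain ⟨z, hz, rfl⟩ := Multiset.mem_map.1 hx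
      by_cases hzS : (b, z) ∈ S
      · rw [if_pos hzS, norm_pow]
        exact pow_le_pow_left₀ (norm_nonneg _)
          (hK b hb z ((mem_roots_derivative hn b z).1 hz) hzS) m
      · rw [if_neg hzS, norm_zero]
        exact pow_nonneg hM m
    refine (norm_multiset_sum_le h1).trans ?_
    rw [Multiset.card_map]
    exact mul_le_mul_of_nonneg_right (card_roots_derivative_le hn b) (pow_nonneg hM m)
  have := key (w a c) (Multiset.mem_map_of_mem _ ((mem_roots_derivative hn a c).2 hc))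
  rwa [hw] at this

/-- Consecutive points of an escaping orbit are different. -/
theorem diff_ne_zero_of_escapes {n : ℕ} (a : Fin (n - 1) → ℂ) {z : ℂ}
    (h : Escapes (pmap n a) z) (k : ℕ) :
    (pmap n a)^[k + 1] z - (pmap n a)^[k] z ≠ 0 := by
  intro h0
  have h1 : pmap n a ((pmap n a)^[k] z) = (pmap n a)^[k] z := by
    rw [← Function.iterate_succ_apply' (pmap n a) k z]
    exact sub_eq_zero.1 h0
  have h2 : ∀ j : ℕ, (pmap n a)^[j + k] z = (pmap n a)^[k] z := by
    intro j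
    induction j with
    | zero => simp
    | succ j ih =>
      rw [show j + 1 + k = (j + k) + 1 by ring, Function.iterate_succ_apply', ih, h1]
  have h3 : Tendsto (fun j : ℕ => ‖(pmap n a)^[j + k] z‖) atTop atTop :=
    (tendsto_add_atTop_iff_nat (f := fun j : ℕ => ‖(pmap n a)^[j] z‖) k).2 h
  have h4 : (fun j : ℕ => ‖(pmap n a)^[j + k] z‖) = fun _ => ‖(pmap n a)^[k] z‖ := by
    funext j; rw [h2 j]
  rw [h4] at h3
  exact not_tendsto_const_atTop _ _ h3

/-- Growing consecutive differences force escape. -/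
theorem escapes_of_diff {n : ℕ} (hn : 2 ≤ n) (a : Fin (n - 1) → ℂ) {z : ℂ} {k0 : ℕ}
    (h : ∀ k, k0 ≤ k → (2 : ℝ) ^ (k - k0) ≤ ‖(pmap n a)^[k + 1] z - (pmap n a)^[k] z‖) :
    Escapes (pmap n a) z := by
  by_contra hcon
  have hb := (not_escapes_iff hn a z).1 hcon
  obtain ⟨j, hj⟩ := pow_unbounded_of_one_lt (2 * escR n a) (by norm_num : (1 : ℝ) < 2)
  have h1 := h (k0 + j) (by omega)
  rw [show k0 + j - k0 = j by omega] at h1
  have h2 := norm_sub_le ((pmap n a)^[k0 + j + 1] z) ((pmap n a)^[k0 + j] z)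
  have h3 := hb (k0 + j + 1)
  have h4 := hb (k0 + j)
  linarith

/-- **Theorem B, compactness of hulls.** -/
theorem isCompact_holHull {n : ℕ} (hn : 2 ≤ n) {Ω : Set (Fin (n - 1) → ℂ)}
    (hΩE : Ω ⊆ Expanding n) (hcl : RelClosed (Expanding n) Ω) {K : Set (Fin (n - 1) → ℂ)}
    (hK : IsCompact K) (hKΩ : K ⊆ Ω) : IsCompact (holHull Ω K) := by
  obtain ⟨N, k0, C, ρ, hN, hC, hρ0, hρ1, hgood⟩ := goodAlt_of_compact hn hK (hKΩ.trans hΩE)
  have hKE := hKΩ.trans hΩE
  -- estimates over `K`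
  have hKF : ∀ b ∈ K, ∀ c, IsCritical n b c → ¬ Escapes (pmap n b) c →
      EstPt n b c N k0 C ρ := by
    intro b hb c hc hne
    exact (hgood (b, c) ⟨hb, hc⟩).resolve_right fun h => hne (escapes_of_le hn b h)
  have hKE' : ∀ b ∈ K, ∀ c, IsCritical n b c → Escapes (pmap n b) c →
      ∀ k, k0 ≤ k → (2 : ℝ) ^ (k - k0) ≤ ‖(pmap n b)^[k + 1] c - (pmap n b)^[k] c‖ := by
    intro b hb c hc he k hk
    have h := (hgood (b, c) ⟨hb, hc⟩).resolve_left fun h =>
      not_escapes_of_tendsToFiniteCycle b (tendsToFiniteCycle_of_estPt hN hρ1 h) he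
    exact diff_ge hn b h hk
  -- the two kinds of critical points
  let SE : Set ((Fin (n - 1) → ℂ) × ℂ) := {q | Escapes (pmap n q.1) q.2}
  have hopE : ∀ a c, Escapes (pmap n a) c →
      ∀ᶠ q : (Fin (n - 1) → ℂ) × ℂ in 𝓝 (a, c), q ∈ SE := fun a c h =>
    (isOpen_escapes hn).mem_nhds h
  have hopF : ∀ a c, TendsToFiniteCycle (pmap n a) c →
      ∀ᶠ q : (Fin (n - 1) → ℂ) × ℂ in 𝓝 (a, c), q ∉ SE := by
    intro a c h
    obtain ⟨N', k', hN', C', ρ', _, _, hρ', h5⟩ := local_est a c h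
    filter_upwards [h5] with q hq
    exact not_escapes_of_tendsToFiniteCycle q.1 (tendsToFiniteCycle_of_estPt hN' hρ' hq)
  have hSE : ∀ a ∈ Ω, ∀ c, IsCritical n a c →
      (∀ᶠ q : (Fin (n - 1) → ℂ) × ℂ in 𝓝 (a, c), IsCritical n q.1 q.2 → q ∈ SE) ∨
      (∀ᶠ q : (Fin (n - 1) → ℂ) × ℂ in 𝓝 (a, c), IsCritical n q.1 q.2 → q ∉ SE) := by
    intro a ha c hc
    rcases hΩE ha c hc with h | h
    · exact Or.inr ((hopF a c h).mono fun q hq _ => hq)
    · exact Or.inl ((hopE a c h).mono fun q hq _ => hq)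
  have hSF : ∀ a ∈ Ω, ∀ c, IsCritical n a c →
      (∀ᶠ q : (Fin (n - 1) → ℂ) × ℂ in 𝓝 (a, c), IsCritical n q.1 q.2 → q ∈ SEᶜ) ∨
      (∀ᶠ q : (Fin (n - 1) → ℂ) × ℂ in 𝓝 (a, c), IsCritical n q.1 q.2 → q ∉ SEᶜ) := by
    intro a ha c hc
    rcases hSE a ha c hc with h | h
    · exact Or.inr (h.mono fun q hq hqc hqS => hqS (hq hqc))
    · exact Or.inl (h.mono fun q hq hqc => hq hqc)
  -- estimates over the hull
  have hF : ∀ a ∈ holHull Ω K, ∀ c, IsCritical n a c → ¬ Escapes (pmap n a) c →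
      EstPt n a c N k0 C ρ := by
    intro a ha c hc hne k hk
    constructor
    · exact holHull_bound hn SEᶜ
        (fun q => (pmap n q.1)^[(k + 1) * N] q.2 - (pmap n q.1)^[k * N] q.2) hSF
        (fun _ _ _ _ _ => Eventually.of_forall fun q => (isBiPoly_diff n N k).differentiable q)
        (mul_nonneg hC (pow_nonneg hρ0 k))
        (fun b hb z hz hzS => (hKF b hb z hz hzS k hk).1) ha hc hne
    · exact holHull_bound hn SEᶜ
        (fun q => deriv ((pmap n q.1)^[N]) ((pmap n q.1)^[k * N] q.2)) hSF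
        (fun _ _ _ _ _ => Eventually.of_forall fun q => (isBiPoly_mult n N k).differentiable q)
        hρ0 (fun b hb z hz hzS => (hKF b hb z hz hzS k hk).2) ha hc hne
  have hdiffB : ∀ k : ℕ, IsBiPoly (fun a z => (pmap n a)^[k + 1] z - (pmap n a)^[k] z) :=
    fun k => (isBiPoly_iter n _).sub (isBiPoly_iter n _)
  have hE : ∀ a ∈ holHull Ω K, ∀ c, IsCritical n a c → Escapes (pmap n a) c →
      ∀ k, k0 ≤ k → (2 : ℝ) ^ (k - k0) ≤ ‖(pmap n a)^[k + 1] c - (pmap n a)^[k] c‖ := by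
    intro a ha c hc he k hk
    have h := holHull_bound hn SE
      (fun q => ((pmap n q.1)^[k + 1] q.2 - (pmap n q.1)^[k] q.2)⁻¹) hSE
      (fun a' ha' c' hc' hS' => by
        have h1 : ∀ᶠ q : (Fin (n - 1) → ℂ) × ℂ in 𝓝 (a', c'),
            (pmap n q.1)^[k + 1] q.2 - (pmap n q.1)^[k] q.2 ≠ 0 :=
          ((hdiffB k).continuous.tendsto (a', c')).eventually
            (isOpen_ne.mem_nhds (diff_ne_zero_of_escapes a' hS' k))
        filter_upwards [h1] with q hq
        exact ((hdiffB k).differentiable q).inv hq)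
      (M := ((2 : ℝ) ^ (k - k0))⁻¹) (by positivity)
      (fun b hb z hz hzS => by
        rw [norm_inv]
        exact inv_anti₀ (by positivity) (hKE' b hb z hz hzS k hk)) ha hc he
    rw [norm_inv] at h
    have h0 : 0 < ‖(pmap n a)^[k + 1] c - (pmap n a)^[k] c‖ :=
      norm_pos_iff.2 (diff_ne_zero_of_escapes a he k)
    exact (inv_le_inv₀ h0 (by positivity)).1 h
  -- the closed set of pairs
  let R : Set ((Fin (n - 1) → ℂ) × ℂ) := {x | EstPt n x.1 x.2 N k0 C ρ} ∪
    {x | ∀ k, k0 ≤ k → (2 : ℝ) ^ (k - k0) ≤ ‖(pmap n x.1)^[k + 1] x.2 - (pmap n x.1)^[k] x.2‖}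
  have hRclosed : IsClosed R := by
    refine IsClosed.union ?_ ?_
    · have e : {x : (Fin (n - 1) → ℂ) × ℂ | EstPt n x.1 x.2 N k0 C ρ} =
          ⋂ (k : ℕ) (_ : k0 ≤ k),
            ({x | ‖(pmap n x.1)^[(k + 1) * N] x.2 - (pmap n x.1)^[k * N] x.2‖ ≤ C * ρ ^ k} ∩
              {x | ‖deriv ((pmap n x.1)^[N]) ((pmap n x.1)^[k * N] x.2)‖ ≤ ρ}) := by
        ext x
        simp [EstPt]
      rw [e]
      refine isClosed_iInter fun k => isClosed_iInter fun _ => IsClosed.inter ?_ ?_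
      · exact isClosed_le (isBiPoly_diff n N k).continuous.norm continuous_const
      · exact isClosed_le (isBiPoly_mult n N k).continuous.norm continuous_const
    · have e : {x : (Fin (n - 1) → ℂ) × ℂ | ∀ k, k0 ≤ k →
          (2 : ℝ) ^ (k - k0) ≤ ‖(pmap n x.1)^[k + 1] x.2 - (pmap n x.1)^[k] x.2‖} =
          ⋂ (k : ℕ) (_ : k0 ≤ k),
            {x | (2 : ℝ) ^ (k - k0) ≤ ‖(pmap n x.1)^[k + 1] x.2 - (pmap n x.1)^[k] x.2‖} := by
        ext x
        simp
      rw [e]
      refine isClosed_iInter fun k => isClosed_iInter fun _ => ?_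
      exact isClosed_le continuous_const (hdiffB k).continuous.norm
  have hsub : ∀ a ∈ holHull Ω K, ∀ c, IsCritical n a c → (a, c) ∈ R := by
    intro a ha c hc
    by_cases he : Escapes (pmap n a) c
    · exact Or.inr (hE a ha c hc he)
    · exact Or.inl (hF a ha c hc he)
  have hclosure : closure (holHull Ω K) ⊆ Ω := by
    intro a ha
    refine hcl a ?_ (closure_mono (fun x hx => hx.1) ha)
    intro c hc
    have hR : (a, c) ∈ R := by
      rw [← hRclosed.closure_eq, Metric.mem_closure_iff]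
      intro ε hε
      obtain ⟨η, hη, hclose⟩ := Hyp95.crit_close hn a hε
      obtain ⟨a', ha', hd⟩ := Metric.mem_closure_iff.1 ha (min η ε) (lt_min hη hε)
      have h1 : ‖a' - a‖ < η := by
        rw [← dist_eq_norm, dist_comm]
        exact hd.trans_le (min_le_left _ _)
      obtain ⟨c', hc', hcc⟩ := (hclose a' h1).2 c hc
      refine ⟨(a', c'), hsub a' ha' c' hc', ?_⟩
      rw [Prod.dist_eq]
      refine max_lt (hd.trans_le (min_le_right _ _)) ?_
      rw [dist_eq_norm]
      exact hcc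
    rcases hR with h | h
    · exact Or.inl (tendsToFiniteCycle_of_estPt hN hρ1 h)
    · exact Or.inr (escapes_of_diff hn a h)
  have hclosed : IsClosed (holHull Ω K) := by
    refine isClosed_of_closure_subset fun a ha => ?_
    have haΩ := hclosure ha
    refine ⟨haΩ, fun g hg M hM => ?_⟩
    have h1 : ∀ᶠ x in 𝓝[holHull Ω K] a, ‖g x‖ ≤ M := by
      filter_upwards [self_mem_nhdsWithin] with x hx
      exact hx.2 g hg M hM
    have h2 : Tendsto (fun x => ‖g x‖) (𝓝[holHull Ω K] a) (𝓝 ‖g a‖) :=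
      ((hg.continuousOn a haΩ).mono (fun x hx => hx.1)).norm
    have : (𝓝[holHull Ω K] a).NeBot := mem_closure_iff_nhdsWithin_neBot.1 ha
    exact le_of_tendsto h2 h1
  obtain ⟨A, hA⟩ := hK.isBounded.exists_norm_le
  refine (isCompact_closedBall (0 : Fin (n - 1) → ℂ) (max A 0)).of_isClosed_subset hclosed ?_
  intro a ha
  rw [mem_closedBall_zero_iff, pi_norm_le_iff_of_nonneg (le_max_right _ _)]
  intro i
  refine (ha.2 (fun x => x i) (differentiable_apply i).differentiableOn A fun b hb => ?_).trans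
    (le_max_left _ _)
  exact (norm_le_pi_norm b i).trans (hA b hb)

/-- **Theorem B.** Every open subset of the expanding locus which is relatively closed in it is a
domain of holomorphy. -/
theorem isDomainOfHolomorphy_of_relClosed {n : ℕ} (hn : 2 ≤ n) {Ω : Set (Fin (n - 1) → ℂ)}
    (hΩ : IsOpen Ω) (hΩE : Ω ⊆ Expanding n) (hcl : RelClosed (Expanding n) Ω) :
    IsDomainOfHolomorphy Ω :=
  CT.isDomainOfHolomorphy hΩ fun _ hK hKΩ => isCompact_holHull hn hΩE hcl hK hKΩ

/-- Components are relatively closed. -/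
theorem relClosed_component {m : ℕ} (S : Set (Fin m → ℂ)) (a0 : Fin m → ℂ) :
    RelClosed S (connectedComponentIn S a0) := by
  intro a haS ha
  by_cases ha0 : a0 ∈ S
  · have hpre : IsPreconnected (insert a (connectedComponentIn S a0)) :=
      isPreconnected_connectedComponentIn.subset_closure (Set.subset_insert _ _)
        (Set.insert_subset ha subset_closure)
    have hsub := hpre.subset_connectedComponentIn
      (Set.mem_insert_of_mem _ (mem_connectedComponentIn ha0))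
      (Set.insert_subset haS (connectedComponentIn_subset S a0))
    exact hsub (Set.mem_insert _ _)
  · rw [connectedComponentIn_eq_empty ha0, closure_empty] at ha
    exact ha.elim

/-- Every connected component of the set of expanding maps in the space of monic centred
polynomials is a domain of holomorphy. -/
theorem isDomainOfHolomorphy_component {n : ℕ} (hn : 2 ≤ n) (a0 : Fin (n - 1) → ℂ) :
    IsDomainOfHolomorphy (connectedComponentIn (Expanding n) a0) :=
  isDomainOfHolomorphy_of_relClosed hn (isOpen_expanding hn).connectedComponentIn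
    (connectedComponentIn_subset _ _) (relClosed_component _ _)

/-- The bounded part is relatively closed in the expanding locus (unfolded). -/
theorem relClosed_expandingBdd' {n : ℕ} (hn : 2 ≤ n) :
    ∀ a ∈ Expanding n, a ∈ closure (ExpandingBdd n) → a ∈ ExpandingBdd n := by
  intro a haE ha
  show ∀ c, IsCritical n a c → TendsToFiniteCycle (pmap n a) c
  intro c hc
  refine Or.resolve_right (haE c hc) fun he => ?_
  have hnb : ∀ᶠ q : (Fin (n - 1) → ℂ) × ℂ in 𝓝 (a, c), Escapes (pmap n q.1) q.2 :=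
    (isOpen_escapes hn).mem_nhds he
  obtain ⟨η, hη, hbox⟩ := Metric.eventually_nhds_iff.1 hnb
  obtain ⟨ε, hε, hclose⟩ := Hyp95.crit_close hn a hη
  obtain ⟨a', ha', hd⟩ := Metric.mem_closure_iff.1 ha (min ε η) (lt_min hε hη)
  have h1 : ‖a' - a‖ < ε := by
    rw [← dist_eq_norm, dist_comm]
    exact hd.trans_le (min_le_left _ _)
  obtain ⟨c', hc', hcc⟩ := (hclose a' h1).2 c hc
  have hmem : dist ((a', c') : (Fin (n - 1) → ℂ) × ℂ) (a, c) < η := by
    rw [Prod.dist_eq]
    refine max_lt ?_ ?_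
    · rw [dist_comm]; exact hd.trans_le (min_le_right _ _)
    · rw [dist_comm, dist_eq_norm]; exact hcc
  have hesc := @hbox (a', c') hmem
  have hcyc : TendsToFiniteCycle (pmap n a') c' := ha' c' hc'
  exact not_escapes_of_tendsToFiniteCycle a' hcyc hesc

/-- The bounded part is relatively closed in the expanding locus. -/
theorem relClosed_expandingBdd {n : ℕ} (hn : 2 ≤ n) :
    RelClosed (Expanding n) (ExpandingBdd n) :=
  relClosed_expandingBdd' hn

end Hyp20
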