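import Pool.Agent.Lib.Hyp.Crit95
import Pool.Agent.Lib.Hyp.MP95

/-!
Local analysis near a polynomial all of whose critical points tend to one attracting fixed
point (helper95).
-/

namespace Hyp95

open Topology Set Metric Hyp20

/-- The local data at parameters `a` near `a₀`: an annulus `r ≤ |w - ζ₀| ≤ R` which contains no
critical value of any iterate, and a disc of attraction. -/
structure Good (n : ℕ) (ζ₀ : ℂ) (r R : ℝ) (k₀ : ℕ) (a : Fin (n - 1) → ℂ) : Prop where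
  maps : MapsTo (pmap n a) (closedBall ζ₀ R) (ball ζ₀ r)
  contr : ∃ θ : ℝ, θ < 1 ∧ ∀ z ∈ closedBall ζ₀ R, ‖deriv (pmap n a) z‖ ≤ θ
  crit : ∀ c, IsCritical n a c → ∀ k, k₀ ≤ k → ‖(pmap n a)^[k] c - ζ₀‖ < r
  gap : ∀ c, IsCritical n a c → ∀ j, 1 ≤ j →
    ¬ (r ≤ ‖(pmap n a)^[j] c - ζ₀‖ ∧ ‖(pmap n a)^[j] c - ζ₀‖ ≤ R)

/-- All critical points tend to one attracting fixed point. -/
def AllToOne (n : ℕ) : Set (Fin (n - 1) → ℂ) :=
  {a | ∃ ζ, pmap n a ζ = ζ ∧ ‖deriv (pmap n a) ζ‖ < 1 ∧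
    ∀ c, IsCritical n a c → Filter.Tendsto (fun k => (pmap n a)^[k] c) Filter.atTop (𝓝 ζ)}

theorem gap_open {α : Type*} [TopologicalSpace α] {g : α → ℝ} (hg : Continuous g) {r R : ℝ}
    {p : α} (hp : ¬ (r ≤ g p ∧ g p ≤ R)) : ∀ᶠ q in 𝓝 p, ¬ (r ≤ g q ∧ g q ≤ R) := by
  have h1 : IsOpen (g ⁻¹' (Icc r R)ᶜ) := isClosed_Icc.isOpen_compl.preimage hg
  exact h1.mem_nhds hp

theorem exists_good {n : ℕ} (hn : 2 ≤ n) {a₀ : Fin (n - 1) → ℂ} {ζ₀ : ℂ}
    (h0 : pmap n a₀ ζ₀ = ζ₀) (hd : ‖deriv (pmap n a₀) ζ₀‖ < 1)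
    (hcr : ∀ c, IsCritical n a₀ c →
      Filter.Tendsto (fun k => (pmap n a₀)^[k] c) Filter.atTop (𝓝 ζ₀)) {B : ℝ} (hB : 0 < B) :
    ∃ r R : ℝ, ∃ k₀ : ℕ, 0 < r ∧ r < R ∧ R < B ∧ ∀ᶠ a in 𝓝 a₀, Good n ζ₀ r R k₀ a := by
  classical
  -- the derivative is at most `θ` near `(a₀, ζ₀)`
  obtain ⟨θ, hθ1, hθ2⟩ := exists_between hd
  have hθ0 : 0 < θ := lt_of_le_of_lt (norm_nonneg _) hθ1
  have hcd : Continuous (fun p : (Fin (n - 1) → ℂ) × ℂ => ‖deriv (pmap n p.1) p.2‖) := by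
    simp only [deriv_pmap]
    exact (continuous_dpol n).norm
  have hev : ∀ᶠ p : (Fin (n - 1) → ℂ) × ℂ in 𝓝 (a₀, ζ₀), ‖deriv (pmap n p.1) p.2‖ < θ :=
    hcd.continuousAt.eventually_lt continuousAt_const hθ1
  rw [nhds_prod_eq, Filter.eventually_prod_iff] at hev
  obtain ⟨pa, hpa, pb, hpb, hpab⟩ := hev
  obtain ⟨ρ₀, hρ₀, hρb⟩ := Metric.eventually_nhds_iff_ball.mp hpb
  set ρ : ℝ := min (ρ₀ / 2) (B / 2) with hρdef
  have hρ : 0 < ρ := by positivity
  have hρρ₀ : ρ < ρ₀ := lt_of_le_of_lt (min_le_left _ _) (by linarith)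
  have hρB : ρ < B := lt_of_le_of_lt (min_le_right _ _) (by linarith)
  have hder : ∀ a, pa a → ∀ z ∈ closedBall ζ₀ ρ, ‖deriv (pmap n a) z‖ ≤ θ := by
    intro a ha z hz
    exact (hpab ha (hρb z (lt_of_le_of_lt hz hρρ₀))).le
  have ha₀ : pa a₀ := hpa.self_of_nhds
  have hcontr : ∀ z ∈ closedBall ζ₀ ρ, ‖pmap n a₀ z - ζ₀‖ ≤ θ * ‖z - ζ₀‖ := by
    intro z hz
    have := (convex_closedBall ζ₀ ρ).norm_image_sub_le_of_norm_deriv_le (𝕜 := ℂ)
      (f := pmap n a₀) (C := θ) (fun x _ => (differentiable_pmap n a₀).differentiableAt)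
      (hder a₀ ha₀) (mem_closedBall_self hρ.le) hz
    rwa [h0] at this
  -- tail bound
  set m : ℝ := max (ρ / 2) (θ * ρ) with hm
  have hm0 : 0 < m := lt_of_lt_of_le (by positivity) (le_max_left _ _)
  have hmρ : m < ρ := max_lt (by linarith) (by nlinarith)
  have hq0 : Polynomial.derivative (pol n a₀) ≠ 0 := by
    intro h
    have := (dpol_facts hn a₀).2
    rw [h, Polynomial.leadingCoeff_zero] at this
    exact (Nat.cast_ne_zero.mpr (by omega : n ≠ 0)) this.symm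
  set Cr : Finset ℂ := (Polynomial.derivative (pol n a₀)).roots.toFinset with hCr
  have hmemCr : ∀ c, IsCritical n a₀ c → c ∈ Cr := by
    intro c hc
    rw [hCr, Multiset.mem_toFinset, Polynomial.mem_roots hq0]
    exact hc
  have hCrmem : ∀ c ∈ Cr, IsCritical n a₀ c := by
    intro c hc
    rw [hCr, Multiset.mem_toFinset, Polynomial.mem_roots hq0] at hc
    exact hc
  have htail : ∃ k₀ : ℕ, 1 ≤ k₀ ∧ ∀ c ∈ Cr, ∀ k, k₀ ≤ k → ‖(pmap n a₀)^[k] c - ζ₀‖ < m := by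
    have : ∀ᶠ k in Filter.atTop, ∀ c ∈ Cr, ‖(pmap n a₀)^[k] c - ζ₀‖ < m := by
      rw [Filter.eventually_all_finset]
      intro c hc
      have := (hcr c (hCrmem c hc)).sub_const ζ₀
      rw [sub_self] at this
      have h2 := this.norm
      rw [norm_zero] at h2
      exact h2.eventually_lt_const hm0
    obtain ⟨k₀, hk₀⟩ := Filter.eventually_atTop.mp this
    exact ⟨max 1 k₀, le_max_left _ _, fun c hc k hk => hk₀ k (le_trans (le_max_right _ _) hk) c hc⟩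
  obtain ⟨k₀, hk₀1, hk₀⟩ := htail
  -- choice of the gap
  set F : Finset ℝ := (Cr ×ˢ Finset.range k₀).image
    (fun p => ‖(pmap n a₀)^[p.2] p.1 - ζ₀‖) with hF
  obtain ⟨R, hR, hRF⟩ := (Ioo_infinite hmρ).exists_notMem_finset F
  have hFo : IsOpen ((F : Set ℝ)ᶜ) := F.finite_toSet.isClosed.isOpen_compl
  obtain ⟨δ, hδ, hball⟩ := Metric.isOpen_iff.mp hFo R hRF
  set r : ℝ := max ((m + R) / 2) (R - δ / 2) with hr
  have hmr : m < r := lt_of_lt_of_le (by linarith [hR.1]) (le_max_left _ _)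
  have hrR : r < R := max_lt (by linarith [hR.1]) (by linarith)
  have hr0 : 0 < r := hm0.trans hmr
  have hgap0 : ∀ c ∈ Cr, ∀ j, j < k₀ →
      ¬ (r ≤ ‖(pmap n a₀)^[j] c - ζ₀‖ ∧ ‖(pmap n a₀)^[j] c - ζ₀‖ ≤ R) := by
    rintro c hc j hj ⟨h1, h2⟩
    have hin : ‖(pmap n a₀)^[j] c - ζ₀‖ ∈ ball R δ := by
      rw [mem_ball, Real.dist_eq, abs_lt]
      have := le_max_right ((m + R) / 2) (R - δ / 2)
      rw [← hr] at this
      constructor <;> linarith
    apply hball hin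
    rw [hF, Finset.mem_coe, Finset.mem_image]
    exact ⟨(c, j), Finset.mem_product.mpr ⟨hc, Finset.mem_range.mpr hj⟩, rfl⟩
  refine ⟨r, R, k₀, hr0, hrR, hR.2.trans hρB, ?_⟩
  -- the maps condition
  have ev1 : ∀ᶠ a in 𝓝 a₀, ∀ z ∈ closedBall ζ₀ R, ‖pmap n a z - ζ₀‖ < r := by
    refine (isCompact_closedBall ζ₀ R).eventually_forall_of_forall_eventually ?_
    intro z hz
    have hz' : z ∈ closedBall ζ₀ ρ := closedBall_subset_closedBall hR.2.le hz
    have : ‖pmap n a₀ z - ζ₀‖ < r := by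
      refine lt_of_le_of_lt (hcontr z hz') ?_
      have h1 : ‖z - ζ₀‖ ≤ ρ := by rwa [mem_closedBall, dist_eq_norm] at hz'
      have h2 : θ * ‖z - ζ₀‖ ≤ θ * ρ := mul_le_mul_of_nonneg_left h1 hθ0.le
      exact lt_of_le_of_lt (h2.trans (le_max_right _ _)) hmr
    exact ((continuous_pmap n).sub continuous_const).norm.continuousAt.eventually_lt
      continuousAt_const this
  -- the critical points
  have ev2 : ∀ᶠ a in 𝓝 a₀, ∀ c ∈ closedBall (0:ℂ) (max 1 (n * (‖a₀‖ + 1))), IsCritical n a c →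
      (‖(pmap n a)^[k₀] c - ζ₀‖ < r ∧ ∀ j ∈ Finset.range k₀,
        ¬ (r ≤ ‖(pmap n a)^[j] c - ζ₀‖ ∧ ‖(pmap n a)^[j] c - ζ₀‖ ≤ R)) := by
    refine (isCompact_closedBall (0:ℂ) _).eventually_forall_of_forall_eventually ?_
    intro c hc
    by_cases hcc : IsCritical n a₀ c
    · have hcC := hmemCr c hcc
      have e1 : ∀ᶠ p : (Fin (n - 1) → ℂ) × ℂ in 𝓝 (a₀, c),
          ‖(pmap n p.1)^[k₀] p.2 - ζ₀‖ < r :=
        ((continuous_iter n k₀).sub continuous_const).norm.continuousAt.eventually_lt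
          continuousAt_const ((hk₀ c hcC k₀ le_rfl).trans hmr)
      have e2 : ∀ᶠ p : (Fin (n - 1) → ℂ) × ℂ in 𝓝 (a₀, c), ∀ j ∈ Finset.range k₀,
          ¬ (r ≤ ‖(pmap n p.1)^[j] p.2 - ζ₀‖ ∧ ‖(pmap n p.1)^[j] p.2 - ζ₀‖ ≤ R) := by
        rw [Filter.eventually_all_finset]
        intro j hj
        have hcont : Continuous (fun p : (Fin (n - 1) → ℂ) × ℂ =>
            ‖(pmap n p.1)^[j] p.2 - ζ₀‖) := ((continuous_iter n j).sub continuous_const).norm
        have hnot := hgap0 c hcC j (Finset.mem_range.mp hj)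
        exact gap_open hcont hnot
      filter_upwards [e1, e2] with p h1 h2 _
      exact ⟨h1, h2⟩
    · have : ∀ᶠ p : (Fin (n - 1) → ℂ) × ℂ in 𝓝 (a₀, c),
          (Polynomial.derivative (pol n p.1)).eval p.2 ≠ 0 :=
        (continuous_dpol n).continuousAt.eventually_ne hcc
      filter_upwards [this] with p hp h
      exact absurd h hp
  have ev3 : ∀ᶠ a in 𝓝 a₀, ‖a‖ < ‖a₀‖ + 1 :=
    continuous_norm.continuousAt.eventually_lt continuousAt_const (by linarith)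
  filter_upwards [ev1, ev2, ev3, hpa] with a h1 h2 h3 h4
  have hmaps : MapsTo (pmap n a) (closedBall ζ₀ R) (ball ζ₀ r) := by
    intro z hz
    rw [mem_ball, dist_eq_norm]
    exact h1 z hz
  have hcr' : ∀ c, IsCritical n a c → ∀ k, k₀ ≤ k → ‖(pmap n a)^[k] c - ζ₀‖ < r := by
    intro c hc k hk
    have hcB : c ∈ closedBall (0:ℂ) (max 1 (n * (‖a₀‖ + 1))) := by
      rw [mem_closedBall_zero_iff]
      exact crit_bound hn h3.le hc
    induction k, hk using Nat.le_induction with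
    | base => exact (h2 c hcB hc).1
    | succ k hk ih =>
      rw [Function.iterate_succ_apply']
      apply h1
      rw [mem_closedBall, dist_eq_norm]
      exact ih.le.trans hrR.le
  refine ⟨hmaps, ⟨θ, hθ2, fun z hz => hder a h4 z (closedBall_subset_closedBall hR.2.le hz)⟩,
    hcr', ?_⟩
  intro c hc j hj
  rcases lt_or_ge j k₀ with hjk | hjk
  · have hcB : c ∈ closedBall (0:ℂ) (max 1 (n * (‖a₀‖ + 1))) := by
      rw [mem_closedBall_zero_iff]
      exact crit_bound hn h3.le hc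
    exact (h2 c hcB hc).2 j (Finset.mem_range.mpr hjk)
  · intro hh
    exact absurd hh.1 (not_le.mpr (hcr' c hc j hjk))

/-- Under `Good` there is an attracting fixed point to which the whole disc is attracted. -/
theorem Good.fixed {n : ℕ} {ζ₀ : ℂ} {r R : ℝ} {k₀ : ℕ} {a : Fin (n - 1) → ℂ}
    (h : Good n ζ₀ r R k₀ a) (hr : 0 < r) (hrR : r < R) :
    ∃ ζ ∈ ball ζ₀ r, pmap n a ζ = ζ ∧ ‖deriv (pmap n a) ζ‖ < 1 ∧
      ∀ z ∈ closedBall ζ₀ R, Filter.Tendsto (fun k => (pmap n a)^[k] z) Filter.atTop (𝓝 ζ) := by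
  obtain ⟨θ, hθ, hder⟩ := h.contr
  set s := closedBall ζ₀ R with hs
  have hmaps : MapsTo (pmap n a) s s := fun z hz =>
    ball_subset_closedBall (ball_subset_ball hrR.le (h.maps hz))
  have hθ' : 0 ≤ max θ 0 := le_max_right _ _
  have hθ1 : max θ 0 < 1 := max_lt hθ one_pos
  have hlip : ∀ x ∈ s, ∀ y ∈ s, ‖pmap n a x - pmap n a y‖ ≤ max θ 0 * ‖x - y‖ := by
    intro x hx y hy
    exact (convex_closedBall ζ₀ R).norm_image_sub_le_of_norm_deriv_le (𝕜 := ℂ)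
      (f := pmap n a) (C := max θ 0) (fun x _ => (differentiable_pmap n a).differentiableAt)
      (fun z hz => (hder z hz).trans (le_max_left _ _)) hy hx
  have hcw : ContractingWith ⟨max θ 0, hθ'⟩ (hmaps.restrict (pmap n a) s s) := by
    refine ⟨by exact_mod_cast hθ1, ?_⟩
    refine LipschitzWith.of_dist_le_mul ?_
    rintro ⟨x, hx⟩ ⟨y, hy⟩
    rw [Subtype.dist_eq, Subtype.dist_eq, dist_eq_norm, dist_eq_norm]
    exact hlip x hx y hy
  have hζ₀ : ζ₀ ∈ s := mem_closedBall_self (hr.trans hrR).le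
  obtain ⟨ζ, hζs, hfix, -, -⟩ := hcw.exists_fixedPoint' (isCompact_closedBall ζ₀ R).isComplete
    hmaps hζ₀ (edist_ne_top _ _)
  have hfix' : pmap n a ζ = ζ := hfix
  refine ⟨ζ, ?_, hfix', lt_of_le_of_lt (hder ζ hζs) hθ, ?_⟩
  · have := h.maps hζs
    rwa [hfix'] at this
  · intro z hz
    have hb : ∀ k, (pmap n a)^[k] z ∈ s ∧ ‖(pmap n a)^[k] z - ζ‖ ≤ (max θ 0) ^ k * ‖z - ζ‖ := by
      intro k
      induction k with
      | zero => exact ⟨hz, by simp⟩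
      | succ k ih =>
        rw [Function.iterate_succ_apply']
        refine ⟨hmaps ih.1, ?_⟩
        have := hlip _ ih.1 ζ hζs
        rw [hfix'] at this
        calc ‖pmap n a ((pmap n a)^[k] z) - ζ‖ ≤ max θ 0 * ‖(pmap n a)^[k] z - ζ‖ := this
          _ ≤ max θ 0 * ((max θ 0) ^ k * ‖z - ζ‖) := mul_le_mul_of_nonneg_left ih.2 hθ'
          _ = (max θ 0) ^ (k + 1) * ‖z - ζ‖ := by ring
    rw [tendsto_iff_norm_sub_tendsto_zero]
    refine squeeze_zero (fun _ => norm_nonneg _) (fun k => (hb k).2) ?_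
    have := (tendsto_pow_atTop_nhds_zero_of_lt_one hθ' hθ1).mul_const ‖z - ζ‖
    simpa using this

end Hyp95
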